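import Pool.Agent.Lib.MP_d437ed_an.Sup

/-!
ENE: the energy inequality (MP_d437ed_an, III.2, III.3).
-/

noncomputable section

open Complex MeasureTheory

namespace Pool.Agent.Lib.MPd437ed

namespace EneM

/-- `e(t) = exp (2 π i t)` -/
def e (t : ℝ) : ℂ := cexp (2 * Real.pi * (t : ℂ) * I)

lemma e_add (s t : ℝ) : e (s + t) = e s * e t := by
  unfold e
  rw [← Complex.exp_add]
  push_cast
  ring_nf

lemma e_neg (t : ℝ) : e (-t) = (starRingEnd ℂ) (e t) := by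
  unfold e
  rw [← Complex.exp_conj]
  simp [map_ofNat]

lemma norm_e (t : ℝ) : ‖e t‖ = 1 := by
  unfold e
  have : 2 * (Real.pi : ℂ) * (t : ℂ) * I = ((2 * Real.pi * t : ℝ) : ℂ) * I := by push_cast; ring
  rw [this, Complex.norm_exp_ofReal_mul_I]

lemma e_int (n : ℤ) : e n = 1 := by
  unfold e
  rw [Complex.exp_eq_one_iff]
  exact ⟨n, by push_cast; ring⟩

/-- double sum over `x, y` of `e (θ x - θ y)` -/
lemma quad (F : Finset ℂ) (θ : ℂ → ℝ) (hθ : ∀ x y, θ (x - y) = θ x - θ y) :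
    ∑ x ∈ F, ∑ y ∈ F, e (θ (x - y)) = ((normSq (∑ x ∈ F, e (θ x)) : ℝ) : ℂ) := by
  rw [← Complex.mul_conj, map_sum, Finset.sum_mul_sum]
  refine Finset.sum_congr rfl (fun x _ => Finset.sum_congr rfl (fun y _ => ?_))
  rw [hθ, sub_eq_add_neg, e_add, e_neg]

/-! ### Fejér -/

lemma sum_Ioo (f : ℤ → ℂ) (n : ℕ) :
    ∑ s ∈ Finset.Ioo (-((n + 1 : ℕ) : ℤ)) ((n + 1 : ℕ) : ℤ), f s =
      f 0 + ∑ j ∈ Finset.range n, (f ((j : ℤ) + 1) + f (-((j : ℤ) + 1))) := by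
  induction n with
  | zero =>
    have : Finset.Ioo (-((0 + 1 : ℕ) : ℤ)) ((0 + 1 : ℕ) : ℤ) = {0} := by decide
    rw [this]; simp
  | succ n ih =>
    have : Finset.Ioo (-((n + 1 + 1 : ℕ) : ℤ)) ((n + 1 + 1 : ℕ) : ℤ) =
        insert ((n : ℤ) + 1) (insert (-((n : ℤ) + 1))
          (Finset.Ioo (-((n + 1 : ℕ) : ℤ)) ((n + 1 : ℕ) : ℤ))) := by
      ext x
      simp only [Finset.mem_Ioo, Finset.mem_insert]
      push_cast
      omega
    rw [this, Finset.sum_insert, Finset.sum_insert, ih, Finset.sum_range_succ]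
    · ring
    · simp only [Finset.mem_Ioo]; push_cast; omega
    · simp only [Finset.mem_Ioo, Finset.mem_insert]; push_cast; omega

lemma double (f : ℤ → ℂ) (n : ℕ) :
    ∑ k ∈ Finset.range (n + 1), ∑ l ∈ Finset.range (n + 1), f ((k : ℤ) - l) =
      (n + 1) * f 0 + ∑ j ∈ Finset.range n,
        ((n : ℂ) - j) * (f ((j : ℤ) + 1) + f (-((j : ℤ) + 1))) := by
  induction n with
  | zero => simp
  | succ n ih =>
    have h1 : ∑ k ∈ Finset.range (n + 1 + 1), ∑ l ∈ Finset.range (n + 1 + 1), f ((k : ℤ) - l) =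
        (∑ k ∈ Finset.range (n + 1), ∑ l ∈ Finset.range (n + 1), f ((k : ℤ) - l)) +
        ∑ k ∈ Finset.range (n + 1), f ((k : ℤ) - ((n + 1 : ℕ) : ℤ)) +
        ∑ l ∈ Finset.range (n + 1), f (((n + 1 : ℕ) : ℤ) - l) + f 0 := by
      rw [Finset.sum_range_succ]
      simp_rw [Finset.sum_range_succ (fun l => f _) (n + 1)]
      rw [Finset.sum_add_distrib]
      simp only [sub_self]
      ring
    have h2 : ∑ k ∈ Finset.range (n + 1), f ((k : ℤ) - ((n + 1 : ℕ) : ℤ)) =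
        ∑ j ∈ Finset.range (n + 1), f (-((j : ℤ) + 1)) := by
      rw [← Finset.sum_range_reflect]
      refine Finset.sum_congr rfl (fun j hj => ?_)
      rw [Finset.mem_range] at hj
      congr 1
      push_cast [Nat.cast_sub (show j ≤ n + 1 - 1 by omega)]
      omega
    have h3 : ∑ l ∈ Finset.range (n + 1), f (((n + 1 : ℕ) : ℤ) - l) =
        ∑ j ∈ Finset.range (n + 1), f ((j : ℤ) + 1) := by
      rw [← Finset.sum_range_reflect]
      refine Finset.sum_congr rfl (fun j hj => ?_)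
      rw [Finset.mem_range] at hj
      congr 1
      push_cast [Nat.cast_sub (show j ≤ n + 1 - 1 by omega)]
      omega
    rw [h1, ih, h2, h3]
    have h4 : ∑ j ∈ Finset.range (n + 1), (((n + 1 : ℕ) : ℂ) - j) *
        (f ((j : ℤ) + 1) + f (-((j : ℤ) + 1))) =
        ∑ j ∈ Finset.range n, ((n : ℂ) - j) * (f ((j : ℤ) + 1) + f (-((j : ℤ) + 1))) +
        ∑ j ∈ Finset.range (n + 1), (f ((j : ℤ) + 1) + f (-((j : ℤ) + 1))) := by
      have : ∑ j ∈ Finset.range n, ((n : ℂ) - j) * (f ((j : ℤ) + 1) + f (-((j : ℤ) + 1))) =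
          ∑ j ∈ Finset.range (n + 1), ((n : ℂ) - j) * (f ((j : ℤ) + 1) + f (-((j : ℤ) + 1))) := by
        rw [Finset.sum_range_succ]; simp
      rw [this, ← Finset.sum_add_distrib]
      refine Finset.sum_congr rfl (fun j _ => ?_)
      push_cast
      ring
    rw [h4, Finset.sum_add_distrib]
    push_cast
    ring

lemma fejer (H : ℕ) (hH : 0 < H) (y : ℝ) :
    ∑ s ∈ Finset.Ioo (-(H : ℤ)) H, (fej H s : ℂ) * e (s * y) =
      (((1 / H : ℝ) ^ 2 * normSq (∑ k ∈ Finset.range H, e (k * y)) : ℝ) : ℂ) := by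
  obtain ⟨n, rfl⟩ : ∃ n, H = n + 1 := ⟨H - 1, by omega⟩
  have hn : ((n : ℂ) + 1) ≠ 0 := by exact_mod_cast Nat.succ_ne_zero n
  have h1 := sum_Ioo (fun s => (fej (n + 1) s : ℂ) * e (s * y)) n
  rw [h1]
  have h2 := double (fun s => e (s * y)) n
  have h3 : ∑ k ∈ Finset.range (n + 1), ∑ l ∈ Finset.range (n + 1),
      e ((((k : ℤ) - l : ℤ) : ℝ) * y) =
      ((normSq (∑ k ∈ Finset.range (n + 1), e (k * y)) : ℝ) : ℂ) := by
    rw [← Complex.mul_conj, map_sum, Finset.sum_mul_sum]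
    refine Finset.sum_congr rfl (fun x _ => Finset.sum_congr rfl (fun z _ => ?_))
    rw [← e_neg, ← e_add]
    congr 1
    push_cast
    ring
  rw [h3] at h2
  rw [ofReal_mul, h2, mul_add, Finset.mul_sum]
  congr 1
  · unfold fej
    push_cast
    simp
    field_simp
  · refine Finset.sum_congr rfl (fun j hj => ?_)
    rw [Finset.mem_range] at hj
    have ha : |(((j : ℤ) + 1 : ℤ) : ℝ)| = (j : ℝ) + 1 := by
      push_cast
      exact abs_of_nonneg (by positivity)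
    have hb : |((-((j : ℤ) + 1) : ℤ) : ℝ)| = (j : ℝ) + 1 := by
      push_cast
      rw [abs_of_nonpos (by linarith [(Nat.cast_nonneg j : (0 : ℝ) ≤ j)])]
      ring
    unfold fej
    rw [ha, hb]
    push_cast
    field_simp
    ring

/-- value of the Fejér sum -/
def fk (H : ℕ) (y : ℝ) : ℝ := (1 / H : ℝ) ^ 2 * normSq (∑ k ∈ Finset.range H, e (k * y))

lemma fk_nonneg (H : ℕ) (y : ℝ) : 0 ≤ fk H y := by
  unfold fk
  exact mul_nonneg (by positivity) (normSq_nonneg _)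

lemma fk_int (H : ℕ) (hH : 0 < H) (n : ℤ) : fk H n = 1 := by
  unfold fk
  have : ∀ k ∈ Finset.range H, e (k * (n : ℝ)) = 1 := by
    intro k _
    have := e_int (k * n)
    push_cast at this
    exact this
  rw [Finset.sum_congr rfl this]
  have hH' : (H : ℝ) ≠ 0 := by exact_mod_cast hH.ne'
  simp [normSq_natCast]
  field_simp

/-! ### The real kernel -/

/-- the kernel for real `z` -/
def Kr (a : ℝ) (x : ℂ) : ℝ := Real.pi / a * Real.exp (-Real.pi ^ 2 * ‖x‖ ^ 2 / a)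

lemma KG_real (a : ℝ) (x : ℂ) : KG (a : ℂ) x = ((Kr a x : ℝ) : ℂ) := by
  unfold KG Kr
  push_cast
  rfl

lemma Kr_pos (a : ℝ) (ha : 0 < a) (x : ℂ) : 0 < Kr a x := by
  unfold Kr
  have := Real.pi_pos
  positivity

lemma Kr_zero (a : ℝ) : Kr a 0 = Real.pi / a := by
  unfold Kr; simp

lemma PS_coe (K : ℂ → ℂ) (F : Finset ℂ) : PS K (F : Set ℂ) = ∑ x ∈ F, ∑ y ∈ F, K (x - y) := by
  unfold PS
  rw [← Finset.coe_product, finsum_mem_coe_finset, Finset.sum_product]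

/-- periodised real kernel -/
def Pr (a : ℝ) (g x : ℂ) : ℝ := ∑' l : ℤ × ℤ, Kr a (x + g * G2 l)

lemma summable_Kr {a : ℝ} (ha : 0 < a) {g : ℂ} (hg : g ≠ 0) (x : ℂ) :
    Summable (fun l : ℤ × ℤ => Kr a (x + g * G2 l)) := by
  have h := (specPoi (a : ℂ) (by simpa using ha) g hg x).1
  simp only [KG_real] at h
  exact Complex.summable_ofReal.1 h

lemma Pr_nonneg {a : ℝ} (ha : 0 < a) (g x : ℂ) : 0 ≤ Pr a g x :=
  tsum_nonneg (fun _ => (Kr_pos a ha _).le)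

lemma Pr_ge {a : ℝ} (ha : 0 < a) {g : ℂ} (hg : g ≠ 0) (x : ℂ) (hx : ∃ z, IsG z ∧ x = g * z) :
    Real.pi / a ≤ Pr a g x := by
  obtain ⟨z, ⟨p, q, rfl⟩, rfl⟩ := hx
  have h := (summable_Kr ha hg (g * (p + q * I))).le_tsum (-p, -q)
    (fun l _ => (Kr_pos a ha _).le)
  have h0 : g * (p + q * I) + g * G2 (-p, -q) = 0 := by
    unfold G2; push_cast; ring
  rw [h0, Kr_zero] at h
  exact h

lemma Pr_eq {a : ℝ} (ha : 0 < a) {g : ℂ} (hg : g ≠ 0) (x : ℂ) :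
    ((Pr a g x : ℝ) : ℂ) = (1 / ‖g‖ ^ 2 : ℝ) * ∑' n : ℤ × ℤ,
      ((Real.exp (-a * ‖G2 n‖ ^ 2 / ‖g‖ ^ 2) : ℝ) : ℂ) *
        e ((starRingEnd ℂ) (G2 n) * x / g).re := by
  have h := (specPoi (a : ℂ) (by simpa using ha) g hg x).2.2
  simp only [KG_real] at h
  unfold Pr
  rw [Complex.ofReal_tsum, h]
  congr 1
  refine tsum_congr (fun n => ?_)
  unfold e
  push_cast
  rfl

lemma summable_E {a : ℝ} (ha : 0 < a) {g : ℂ} (hg : g ≠ 0) :
    Summable (fun n : ℤ × ℤ => Real.exp (-a * ‖G2 n‖ ^ 2 / ‖g‖ ^ 2)) := by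
  have h := (specPoi (a : ℂ) (by simpa using ha) g hg 0).2.1
  refine Complex.summable_ofReal.1 (h.congr (fun n => ?_))
  push_cast
  rfl

lemma G2_inj : Function.Injective G2 := by
  rintro ⟨p, q⟩ ⟨r, s⟩ h
  unfold G2 at h
  have h1 := congrArg Complex.re h
  have h2 := congrArg Complex.im h
  simp at h1 h2
  ext <;> simp [h1, h2]

/-- a summable family of numbers of modulus at most `C E n` -/
lemma summable_mul_e {ι : Type} {E : ι → ℝ} (hE : Summable E) (hE0 : ∀ n, 0 ≤ E n)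
    (u : ι → ℂ) (hu : ∀ n, ‖u n‖ ≤ 1) : Summable (fun n => (E n : ℂ) * u n) := by
  refine Summable.of_norm_bounded hE (fun n => ?_)
  rw [norm_mul, Complex.norm_real, Real.norm_of_nonneg (hE0 n)]
  exact mul_le_of_le_one_right (hE0 n) (hu n)

/-- the quadratic form: sums over pairs as tsum of squares -/
lemma sum_Pr {a : ℝ} (ha : 0 < a) {g : ℂ} (hg : g ≠ 0) (F : Finset ℂ) :
    Summable (fun n : ℤ × ℤ => Real.exp (-a * ‖G2 n‖ ^ 2 / ‖g‖ ^ 2) *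
        normSq (∑ x ∈ F, e ((starRingEnd ℂ) (G2 n) * x / g).re)) ∧
    ∑ x ∈ F, ∑ y ∈ F, Pr a g (x - y) = (1 / ‖g‖ ^ 2 : ℝ) * ∑' n : ℤ × ℤ,
      Real.exp (-a * ‖G2 n‖ ^ 2 / ‖g‖ ^ 2) *
        normSq (∑ x ∈ F, e ((starRingEnd ℂ) (G2 n) * x / g).re) := by
  have hθ : ∀ n : ℤ × ℤ, ∀ x y : ℂ, ((starRingEnd ℂ) (G2 n) * (x - y) / g).re =
      ((starRingEnd ℂ) (G2 n) * x / g).re - ((starRingEnd ℂ) (G2 n) * y / g).re := by
    intro n x y
    rw [← Complex.sub_re]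
    congr 1
    ring
  have hs : ∀ p ∈ F ×ˢ F, Summable (fun n : ℤ × ℤ =>
      ((Real.exp (-a * ‖G2 n‖ ^ 2 / ‖g‖ ^ 2) : ℝ) : ℂ) *
        e ((starRingEnd ℂ) (G2 n) * (p.1 - p.2) / g).re) := by
    intro p _
    exact summable_mul_e (summable_E ha hg) (fun n => (Real.exp_pos _).le) _
      (fun n => (norm_e _).le)
  have hT : ∀ n : ℤ × ℤ, ∑ p ∈ F ×ˢ F, ((Real.exp (-a * ‖G2 n‖ ^ 2 / ‖g‖ ^ 2) : ℝ) : ℂ) *
        e ((starRingEnd ℂ) (G2 n) * (p.1 - p.2) / g).re =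
      ((Real.exp (-a * ‖G2 n‖ ^ 2 / ‖g‖ ^ 2) *
        normSq (∑ x ∈ F, e ((starRingEnd ℂ) (G2 n) * x / g).re) : ℝ) : ℂ) := by
    intro n
    have q := quad F (fun x => ((starRingEnd ℂ) (G2 n) * x / g).re) (hθ n)
    rw [← Finset.mul_sum, Finset.sum_product, ofReal_mul, ← q]
  constructor
  · have h := summable_sum hs
    exact Complex.summable_ofReal.1 (h.congr hT)
  · apply Complex.ofReal_injective
    simp only [ofReal_sum]
    rw [ofReal_mul, Complex.ofReal_tsum, ← tsum_congr hT, Summable.tsum_finsetSum hs,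
      ← Finset.sum_product' (f := fun x y => ((Pr a g (x - y) : ℝ) : ℂ)),
      Finset.sum_congr rfl (fun p _ => Pr_eq ha hg (p.1 - p.2)), ← Finset.mul_sum]

lemma card_CP_le {a : ℝ} (ha : 0 < a) {g : ℂ} (hg : g ≠ 0) (F : Finset ℂ) :
    Real.pi / a * ((CP (F : Set ℂ) g).ncard : ℝ) ≤ ∑ x ∈ F, ∑ y ∈ F, Pr a g (x - y) := by
  classical
  have h1 : CP (F : Set ℂ) g =
      ((F ×ˢ F).filter (fun p => ∃ z, IsG z ∧ p.1 - p.2 = g * z) : Finset (ℂ × ℂ)) := by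
    ext p
    simp [CP, and_assoc]
  rw [h1, Set.ncard_coe_finset, ← Finset.sum_product' (f := fun x y => Pr a g (x - y)),
    mul_comm, ← nsmul_eq_mul]
  calc _ ≤ ∑ p ∈ (F ×ˢ F).filter (fun p => ∃ z, IsG z ∧ p.1 - p.2 = g * z),
        Pr a g (p.1 - p.2) := by
        refine Finset.card_nsmul_le_sum _ _ _ (fun p hp => ?_)
        exact Pr_ge ha hg _ (Finset.mem_filter.1 hp).2
    _ ≤ _ := Finset.sum_le_sum_of_subset_of_nonneg (Finset.filter_subset _ _)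
        (fun p _ _ => Pr_nonneg ha g _)

/-- one of the periodised kernels -/
lemma KPer_eq {a : ℝ} (ha : 0 < a) {W : ℕ} (hW : 0 < W) (M : ℕ) (s : ℤ) (x : ℂ) :
    KPer (KG (a - 2 * Real.pi * (M * s : ℝ) * I)) (2 * W) x =
      (1 / ‖(2 * W : ℂ)‖ ^ 2 : ℝ) * ∑' n : ℤ × ℤ,
        ((Real.exp (-a * ‖G2 n‖ ^ 2 / ‖(2 * W : ℂ)‖ ^ 2) : ℝ) : ℂ) *
          (e (s * (M * ‖G2 n‖ ^ 2 / ‖(2 * W : ℂ)‖ ^ 2)) *
            e ((starRingEnd ℂ) (G2 n) * x / (2 * W)).re) := by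
  have hg : (2 * W : ℂ) ≠ 0 := by
    have : (W : ℂ) ≠ 0 := by exact_mod_cast hW.ne'
    simpa using this
  have h := (specPoi (a - 2 * Real.pi * (M * s : ℝ) * I) (by simpa using ha) (2 * W) hg x).2.2
  unfold KPer
  push_cast at h ⊢
  rw [h]
  congr 1
  refine tsum_congr (fun n => ?_)
  unfold e
  rw [← Complex.ofReal_natCast, ← Complex.ofReal_intCast]
  rw [← Complex.exp_add, ← Complex.exp_add, ← Complex.exp_add]
  congr 1
  push_cast
  ring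

lemma norm_mul_u (s t : ℝ) : ‖e s * e t‖ ≤ 1 := by
  rw [norm_mul, norm_e, norm_e, one_mul]

/-- the whole energy as a sum of nonnegative terms -/
lemma energy {a : ℝ} (ha : 0 < a) {H W : ℕ} (hH : 0 < H) (hW : 0 < W) (M : ℕ) (F : Finset ℂ) :
    Summable (fun n : ℤ × ℤ => Real.exp (-a * ‖G2 n‖ ^ 2 / ‖(2 * W : ℂ)‖ ^ 2) *
      (fk H (M * ‖G2 n‖ ^ 2 / ‖(2 * W : ℂ)‖ ^ 2) *
        normSq (∑ x ∈ F, e ((starRingEnd ℂ) (G2 n) * x / (2 * W)).re))) ∧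
    ∑ s ∈ Finset.Ioo (-(H : ℤ)) H, (fej H s : ℂ) *
        PS (KPer (KG (a - 2 * Real.pi * (M * s : ℝ) * I)) (2 * W)) F =
      (((1 / ‖(2 * W : ℂ)‖ ^ 2 : ℝ) * ∑' n : ℤ × ℤ,
        Real.exp (-a * ‖G2 n‖ ^ 2 / ‖(2 * W : ℂ)‖ ^ 2) *
      (fk H (M * ‖G2 n‖ ^ 2 / ‖(2 * W : ℂ)‖ ^ 2) *
        normSq (∑ x ∈ F, e ((starRingEnd ℂ) (G2 n) * x / (2 * W)).re)) : ℝ) : ℂ) := by
  have hg : (2 * W : ℂ) ≠ 0 := by
    have : (W : ℂ) ≠ 0 := by exact_mod_cast hW.ne'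
    simpa using this
  have hθ : ∀ n : ℤ × ℤ, ∀ x y : ℂ, ((starRingEnd ℂ) (G2 n) * (x - y) / (2 * W)).re =
      ((starRingEnd ℂ) (G2 n) * x / (2 * W)).re - ((starRingEnd ℂ) (G2 n) * y / (2 * W)).re := by
    intro n x y
    rw [← Complex.sub_re]
    congr 1
    ring
  set S := Finset.Ioo (-(H : ℤ)) (H : ℤ) ×ˢ (F ×ˢ F) with hS
  have hs : ∀ q ∈ S, Summable (fun n : ℤ × ℤ =>
      ((Real.exp (-a * ‖G2 n‖ ^ 2 / ‖(2 * W : ℂ)‖ ^ 2) : ℝ) : ℂ) *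
        ((fej H q.1 : ℂ) * (e (q.1 * (M * ‖G2 n‖ ^ 2 / ‖(2 * W : ℂ)‖ ^ 2)) *
            e ((starRingEnd ℂ) (G2 n) * (q.2.1 - q.2.2) / (2 * W)).re))) := by
    intro q _
    have h := (summable_mul_e (summable_E ha hg) (fun n => (Real.exp_pos _).le)
      (fun n => e (q.1 * (M * ‖G2 n‖ ^ 2 / ‖(2 * W : ℂ)‖ ^ 2)) *
            e ((starRingEnd ℂ) (G2 n) * (q.2.1 - q.2.2) / (2 * W)).re)
      (fun n => norm_mul_u _ _)).mul_left (fej H q.1 : ℂ)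
    refine h.congr (fun n => ?_)
    ring
  have hT : ∀ n : ℤ × ℤ, ∑ q ∈ S, ((Real.exp (-a * ‖G2 n‖ ^ 2 / ‖(2 * W : ℂ)‖ ^ 2) : ℝ) : ℂ) *
        ((fej H q.1 : ℂ) * (e (q.1 * (M * ‖G2 n‖ ^ 2 / ‖(2 * W : ℂ)‖ ^ 2)) *
            e ((starRingEnd ℂ) (G2 n) * (q.2.1 - q.2.2) / (2 * W)).re)) =
      ((Real.exp (-a * ‖G2 n‖ ^ 2 / ‖(2 * W : ℂ)‖ ^ 2) *
      (fk H (M * ‖G2 n‖ ^ 2 / ‖(2 * W : ℂ)‖ ^ 2) *
        normSq (∑ x ∈ F, e ((starRingEnd ℂ) (G2 n) * x / (2 * W)).re)) : ℝ) : ℂ) := by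
    intro n
    have q := quad F (fun x => ((starRingEnd ℂ) (G2 n) * x / (2 * W)).re) (hθ n)
    have f := fejer H hH (M * ‖G2 n‖ ^ 2 / ‖(2 * W : ℂ)‖ ^ 2)
    change _ = ((fk H (M * ‖G2 n‖ ^ 2 / ‖(2 * W : ℂ)‖ ^ 2) : ℝ) : ℂ) at f
    rw [← Finset.mul_sum, hS, Finset.sum_product, ofReal_mul, ofReal_mul, ← q, ← f]
    congr 1
    rw [Finset.sum_mul]
    refine Finset.sum_congr rfl (fun s _ => ?_)
    rw [Finset.sum_product, Finset.mul_sum]
    refine Finset.sum_congr rfl (fun x _ => ?_)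
    rw [Finset.mul_sum]
    refine Finset.sum_congr rfl (fun y _ => ?_)
    ring
  constructor
  · have h := summable_sum hs
    exact Complex.summable_ofReal.1 (h.congr hT)
  · rw [ofReal_mul, Complex.ofReal_tsum, ← tsum_congr hT, Summable.tsum_finsetSum hs, hS,
      Finset.sum_product, Finset.mul_sum]
    refine Finset.sum_congr rfl (fun s _ => ?_)
    rw [PS_coe, Finset.sum_product, Finset.mul_sum, Finset.mul_sum]
    refine Finset.sum_congr rfl (fun x _ => ?_)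
    rw [Finset.mul_sum, Finset.mul_sum]
    refine Finset.sum_congr rfl (fun y _ => ?_)
    rw [KPer_eq ha hW M s (x - y), ← mul_assoc, mul_comm (fej H s : ℂ), mul_assoc,
      ← tsum_mul_left]
    congr 1
    refine tsum_congr (fun n => ?_)
    ring

/-- multiplication by the conjugate of `p + q i` on the index set -/
def io (p q : ℤ) (n : ℤ × ℤ) : ℤ × ℤ := (p * n.1 + q * n.2, p * n.2 - q * n.1)

lemma G2_io (p q : ℤ) (n : ℤ × ℤ) :
    G2 (io p q n) = (starRingEnd ℂ) ((p : ℂ) + q * I) * G2 n := by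
  unfold io G2
  have h : I * I = -1 := I_mul_I
  push_cast
  simp only [map_add, map_mul, conj_I, map_intCast]
  linear_combination ((q : ℂ) * n.2) * h

end EneM

theorem specEne : SpecEne := by
  intro a H W M g g' Λ ha hH hW hM hgM _ hg' hgg hΛ
  obtain ⟨F, rfl⟩ : ∃ F : Finset ℂ, Λ = F := ⟨hΛ.toFinset, by simp⟩
  obtain ⟨hsum, hE⟩ := EneM.energy ha hH hW M F
  rw [hE, Complex.ofReal_re]
  have hM' : (0 : ℝ) < M := by exact_mod_cast hM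
  have hW' : (0 : ℝ) < W := by exact_mod_cast hW
  have hg0 : g ≠ 0 := by
    rintro rfl
    simp at hgM
    linarith
  have hW0 : (2 * W : ℂ) ≠ 0 := by
    have : (W : ℂ) ≠ 0 := by exact_mod_cast hW.ne'
    simpa using this
  have hg'0 : g' ≠ 0 := by
    rintro rfl
    rw [mul_zero] at hgg
    exact hW0 hgg
  have hnW : ‖(2 * W : ℂ)‖ = 2 * W := by simp
  have hnn : ‖(2 * W : ℂ)‖ ^ 2 = M * ‖g'‖ ^ 2 := by
    rw [hgg, norm_mul, mul_pow, hgM]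
  obtain ⟨p, q, hpq⟩ := hg'
  have hG : ∀ n, G2 (EneM.io p q n) = (starRingEnd ℂ) g' * G2 n := by
    intro n; rw [EneM.G2_io, ← hpq]
  have hinj : Function.Injective (EneM.io p q) := by
    intro n n' h
    apply EneM.G2_inj
    have h1 := congrArg G2 h
    rw [hG, hG] at h1
    have h2 : (starRingEnd ℂ) g' ≠ 0 := by simpa using hg'0
    exact mul_left_cancel₀ h2 h1
  have hle := tsum_comp_le_tsum_of_inj hsum
    (fun n => mul_nonneg (Real.exp_pos _).le (mul_nonneg (EneM.fk_nonneg _ _)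
      (normSq_nonneg _))) hinj
  have hterm : ∀ n : ℤ × ℤ, ((fun n : ℤ × ℤ => Real.exp (-a * ‖G2 n‖ ^ 2 / ‖(2 * W : ℂ)‖ ^ 2) *
      (EneM.fk H (M * ‖G2 n‖ ^ 2 / ‖(2 * W : ℂ)‖ ^ 2) *
        normSq (∑ x ∈ F, EneM.e ((starRingEnd ℂ) (G2 n) * x / (2 * W)).re))) ∘
          EneM.io p q) n =
      Real.exp (-a * ‖G2 n‖ ^ 2 / ‖g‖ ^ 2) *
        normSq (∑ x ∈ F, EneM.e ((starRingEnd ℂ) (G2 n) * x / g).re) := by
    intro n
    simp only [Function.comp_apply]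
    have hn : ‖g'‖ ≠ 0 := by simpa using hg'0
    have h1 : ‖G2 (EneM.io p q n)‖ ^ 2 = ‖g'‖ ^ 2 * ‖G2 n‖ ^ 2 := by
      rw [hG, norm_mul, mul_pow, RCLike.norm_conj]
    have h2 : -a * ‖G2 (EneM.io p q n)‖ ^ 2 / ‖(2 * W : ℂ)‖ ^ 2 = -a * ‖G2 n‖ ^ 2 / ‖g‖ ^ 2 := by
      rw [h1, hnn, hgM]
      field_simp
    have h3 : (M : ℝ) * ‖G2 (EneM.io p q n)‖ ^ 2 / ‖(2 * W : ℂ)‖ ^ 2 =
        ((n.1 * n.1 + n.2 * n.2 : ℤ) : ℝ) := by
      rw [h1, hnn]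
      have : ‖G2 n‖ ^ 2 = (n.1 : ℝ) * n.1 + n.2 * n.2 := by
        rw [Complex.sq_norm, Complex.normSq_apply]
        unfold G2
        simp
      rw [this]
      push_cast
      field_simp
    have h4 : ∀ x : ℂ, (starRingEnd ℂ) (G2 (EneM.io p q n)) * x / (2 * W) =
        (starRingEnd ℂ) (G2 n) * x / g := by
      intro x
      rw [hG, hgg, map_mul, Complex.conj_conj]
      field_simp
    rw [h2, h3, EneM.fk_int H hH, one_mul]
    simp only [h4]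
  have h5 : ∑' n : ℤ × ℤ, Real.exp (-a * ‖G2 n‖ ^ 2 / ‖g‖ ^ 2) *
        normSq (∑ x ∈ F, EneM.e ((starRingEnd ℂ) (G2 n) * x / g).re) ≤
      ∑' n : ℤ × ℤ, Real.exp (-a * ‖G2 n‖ ^ 2 / ‖(2 * W : ℂ)‖ ^ 2) *
      (EneM.fk H (M * ‖G2 n‖ ^ 2 / ‖(2 * W : ℂ)‖ ^ 2) *
        normSq (∑ x ∈ F, EneM.e ((starRingEnd ℂ) (G2 n) * x / (2 * W)).re)) := by
    rw [← tsum_congr hterm]
    exact hle
  have h6 := (EneM.sum_Pr ha hg0 F).2
  have h7 := EneM.card_CP_le ha hg0 F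
  rw [h6, hgM] at h7
  rw [hgM] at h5
  rw [hnW] at h5 ⊢
  set A := ∑' n : ℤ × ℤ, Real.exp (-a * ‖G2 n‖ ^ 2 / (M : ℝ)) *
        normSq (∑ x ∈ F, EneM.e ((starRingEnd ℂ) (G2 n) * x / g).re) with hA
  have h8 : Real.pi / a * (M / (4 * W ^ 2)) * ((CP (F : Set ℂ) g).ncard : ℝ) ≤
      1 / (2 * W) ^ 2 * A := by
    calc Real.pi / a * (M / (4 * W ^ 2)) * ((CP (F : Set ℂ) g).ncard : ℝ)
        = (M / (4 * W ^ 2)) * (Real.pi / a * ((CP (F : Set ℂ) g).ncard : ℝ)) := by ring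
      _ ≤ (M / (4 * W ^ 2)) * (1 / M * A) := by gcongr
      _ = _ := by field_simp; ring
  refine h8.trans ?_
  gcongr

end Pool.Agent.Lib.MPd437ed
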