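import Pool.Agent.Lib.MP_d437ed_an.Spec

section
/-!
# FINAL: the diffraction of the pinwheel tiling has a singular continuous part
-/
namespace Pool.Agent.Lib.MPd437ed

open MeasureTheory Filter Topology Complex
open scoped FourierTransform SchwartzMap

namespace FinalM

/-- `∫ K_z dγ = ∫ e^{-z|k|²} dμ` -/
theorem gauss (hGau : SpecGau) {γ μ : Measure ℂ} (hμ : IsFourierTransform γ μ) {z : ℂ}
    (hz : 0 < z.re) : Integrable (fun k : ℂ => cexp (-z * ‖k‖ ^ 2)) μ ∧
      ∫ x, KG z x ∂γ = ∫ k : ℂ, cexp (-z * ‖k‖ ^ 2) ∂μ := by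
  obtain ⟨φ, h1, h2⟩ := hGau z hz
  obtain ⟨-, h4, h5⟩ := hμ.2 φ
  have e1 : (φ : ℂ → ℂ) = fun k : ℂ => cexp (-z * ‖k‖ ^ 2) := funext h1
  have e2 : 𝓕 (φ : ℂ → ℂ) = KG z := funext h2
  rw [e1] at h4
  refine ⟨h4, ?_⟩
  rw [e2] at h5
  rw [h5, e1]

/-- outside the origin `μ` is absolutely continuous if its singular continuous part vanishes -/
theorem ac {μ : Measure ℂ} [SigmaFinite μ] (hat : ∀ k : ℂ, k ≠ 0 → μ {k} = 0)
    (hsc : scPart μ = 0) : μ.restrict {(0 : ℂ)}ᶜ ≪ volume := by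
  have h1 : μ.singularPart volume {k : ℂ | μ {k} = 0} = 0 := by
    unfold scPart at hsc
    exact Measure.restrict_eq_zero.1 hsc
  have h2 : μ.singularPart volume {(0 : ℂ)}ᶜ = 0 :=
    measure_mono_null (fun k hk => hat k hk) h1
  refine Measure.AbsolutelyContinuous.mk fun A hA hA0 => ?_
  rw [Measure.restrict_apply hA]
  have h3 := Measure.haveLebesgueDecomposition_add μ volume
  rw [h3, Measure.add_apply]
  have h4 : μ.singularPart volume (A ∩ {(0 : ℂ)}ᶜ) = 0 :=
    measure_mono_null Set.inter_subset_right h2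
  have h5 : (volume.withDensity (μ.rnDeriv volume)) (A ∩ {(0 : ℂ)}ᶜ) = 0 :=
    withDensity_absolutelyContinuous _ _ (measure_mono_null Set.inter_subset_left hA0)
  rw [h4, h5, add_zero]

/-- the Gaussian integrals tend to `μ {0}` -/
theorem tends (hRle : SpecRle) {μ : Measure ℂ} (hac : μ.restrict {(0 : ℂ)}ᶜ ≪ volume)
    {a : ℝ} (hint : ∀ t : ℝ, Integrable
      (fun k : ℂ => cexp (-(a - 2 * Real.pi * t * I) * ‖k‖ ^ 2)) μ) :
    Tendsto (fun t : ℝ => ∫ k : ℂ, cexp (-(a - 2 * Real.pi * t * I) * ‖k‖ ^ 2) ∂μ)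
      (cocompact ℝ) (𝓝 (μ.real {0} : ℂ)) := by
  set f : ℂ → ENNReal := fun k => ENNReal.ofReal (Real.exp (-a * ‖k‖ ^ 2)) with hf
  have hfm : Measurable f := by
    rw [hf]; fun_prop
  have hint0 : Integrable (fun k : ℂ => Real.exp (-a * ‖k‖ ^ 2)) μ := by
    refine ((hint 0).norm).congr (Eventually.of_forall fun k => ?_)
    show ‖cexp (-(a - 2 * Real.pi * (0 : ℝ) * I) * ‖k‖ ^ 2)‖ = Real.exp (-a * ‖k‖ ^ 2)
    have : (-(a - 2 * Real.pi * (0 : ℝ) * I) * ‖k‖ ^ 2 : ℂ) = ((-a * ‖k‖ ^ 2 : ℝ) : ℂ) := by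
      push_cast; ring
    rw [this, Complex.norm_exp_ofReal]
  set ν : Measure ℂ := (μ.restrict {(0 : ℂ)}ᶜ).withDensity f with hν
  have : IsFiniteMeasure ν := by
    refine ⟨?_⟩
    rw [hν, withDensity_apply _ MeasurableSet.univ, Measure.restrict_univ]
    have h := (hint0.restrict (s := {(0 : ℂ)}ᶜ)).lintegral_lt_top
    exact h
  have hνac : ν ≪ volume := (withDensity_absolutelyContinuous _ _).trans hac
  have hlim := hRle ν inferInstance hνac
  have hkey : ∀ t : ℝ, ∫ k : ℂ, cexp (-(a - 2 * Real.pi * t * I) * ‖k‖ ^ 2) ∂μ =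
      (μ.real {0} : ℂ) + ∫ k, cexp (2 * Real.pi * (t * ‖k‖ ^ 2 : ℝ) * I) ∂ν := by
    intro t
    rw [← integral_add_compl (measurableSet_singleton (0 : ℂ)) (hint t), integral_singleton]
    congr 1
    · simp
    · rw [hν, integral_withDensity_eq_integral_toReal_smul hfm
        (Eventually.of_forall fun k => ENNReal.ofReal_lt_top)]
      refine integral_congr_ae (Eventually.of_forall fun k => ?_)
      show cexp (-(a - 2 * Real.pi * t * I) * ‖k‖ ^ 2) =
        (ENNReal.ofReal (Real.exp (-a * ‖k‖ ^ 2))).toReal •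
          cexp (2 * Real.pi * (t * ‖k‖ ^ 2 : ℝ) * I)
      rw [ENNReal.toReal_ofReal (Real.exp_pos _).le, real_smul, Complex.ofReal_exp,
        ← Complex.exp_add]
      congr 1
      push_cast
      ring
  have h := hlim.const_add (μ.real {0} : ℂ)
  rw [add_zero] at h
  exact h.congr fun t => (hkey t).symm

theorem tends_pow (s : ℤ) (hs : s ≠ 0) :
    Tendsto (fun m : ℕ => (5 ^ m * s : ℝ)) atTop (cocompact ℝ) := by
  rw [← Metric.cobounded_eq_cocompact, ← tendsto_norm_atTop_iff_cobounded]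
  have h1 : Tendsto (fun m : ℕ => (5 : ℝ) ^ m) atTop atTop :=
    tendsto_pow_atTop_atTop_of_one_lt (by norm_num)
  have h2 : (0 : ℝ) < ‖(s : ℝ)‖ := by
    rw [norm_pos_iff]; exact_mod_cast hs
  have h3 := h1.atTop_mul_const h2
  refine h3.congr fun m => ?_
  rw [norm_mul, norm_pow]
  norm_num

theorem fej_nonneg {H : ℕ} (hH : 0 < H) {s : ℤ} (hs : s ∈ Finset.Ioo (-(H : ℤ)) H) :
    0 ≤ fej H s ∧ fej H s ≤ 1 / H := by
  have h1 : |(s : ℝ)| ≤ H := by
    rw [Finset.mem_Ioo] at hs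
    have : |s| ≤ (H : ℤ) := abs_le.2 ⟨hs.1.le, hs.2.le⟩
    exact_mod_cast this
  have hH' : (0 : ℝ) < H := by exact_mod_cast hH
  have h2 : |(s : ℝ)| / H ≤ 1 := by
    rw [div_le_one hH']; exact h1
  have h3 : 0 ≤ |(s : ℝ)| / H := by positivity
  unfold fej
  constructor
  · have : (0 : ℝ) ≤ 1 - |(s : ℝ)| / H := by linarith
    positivity
  · have h4 : (1 / (H : ℝ)) * (1 - |(s : ℝ)| / H) ≤ (1 / H) * 1 :=
      mul_le_mul_of_nonneg_left (by linarith) (by positivity)
    linarith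

theorem card_le (H : ℕ) : ((Finset.Ioo (-(H : ℤ)) H).card : ℝ) ≤ 2 * H := by
  rw [Int.card_Ioo]
  have : ((H : ℤ) - -(H : ℤ) - 1).toNat ≤ 2 * H := by omega
  exact_mod_cast this

/-- the Gaussian integral -/
noncomputable def cc (γ : Measure ℂ) (a t : ℝ) : ℂ :=
  ∫ x, KG (a - 2 * Real.pi * t * I) x ∂γ

theorem norm_SS (h : ℕ) : ‖(SS h).w‖ = √5 ^ (2 * h) := by
  have : ‖(5 : ℂ)‖ = 5 := by simp
  simp only [SS, norm_pow, this]
  rw [pow_mul, Real.sq_sqrt (by norm_num)]

theorem KG_radial (z : ℂ) (x y : ℂ) (h : ‖x‖ = ‖y‖) : KG z x = KG z y := by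
  unfold KG; rw [h]

/-- One kernel: periodised sums over the supertile and the Gaussian integral. -/
theorem one {CP CL CD a : ℝ} (hCP : 0 < CP) (hCD : 0 < CD)
    (hper : ∀ (h : ℕ) (K : ℂ → ℂ) (A : ℝ), 0 ≤ A → Dec K A →
      ‖PS (KPer K (2 * 5 ^ h)) (Vx (2 * h) (SS h)) - PS K (Vx (2 * h) (SS h))‖ ≤
        CP * A * 5 ^ h)
    (hdec : ∀ t : ℝ, Dec (KG (a - 2 * Real.pi * t * I)) (CD * (1 + |t|) ^ 6) ∧
      Continuous (KG (a - 2 * Real.pi * t * I)))
    {γ : Measure ℂ}
    (hlim : ∀ (K : ℂ → ℂ) (A : ℝ), Continuous K → 0 ≤ A → Dec K A →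
      (∀ x y : ℂ, ‖x‖ = ‖y‖ → K x = K y) → ∀ (N : ℕ) (S : Tile), ‖S.w‖ = √5 ^ N →
        ‖∫ x, K x ∂γ - (1 / 5 ^ N : ℝ) * PS K (Vx N S)‖ ≤ CL * A / √5 ^ N)
    (m : ℕ) (t : ℝ) :
    ‖(1 / 5 ^ (14 * m) : ℝ) * PS (KPer (KG (a - 2 * Real.pi * t * I)) (2 * 5 ^ (7 * m)))
        (Vx (14 * m) (SS (7 * m))) - cc γ a t‖ ≤
      (CP + CL) * (CD * (1 + |t|) ^ 6) / 5 ^ (7 * m) := by
  set A : ℝ := CD * (1 + |t|) ^ 6 with hA
  have hA0 : 0 ≤ A := by positivity
  set K := KG (a - 2 * Real.pi * t * I) with hK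
  have h14 : 2 * (7 * m) = 14 * m := by ring
  have h1 := hper (7 * m) K A hA0 (hdec t).1
  rw [h14] at h1
  have h2 := hlim K A (hdec t).2 hA0 (hdec t).1 (KG_radial _) (14 * m) (SS (7 * m))
    (by rw [norm_SS, h14])
  have h5 : √5 ^ (14 * m) = 5 ^ (7 * m) := by
    rw [← h14, pow_mul, Real.sq_sqrt (by norm_num)]
  rw [h5] at h2
  have hsplit : ((1 / 5 ^ (14 * m) : ℝ) : ℂ) * PS (KPer K (2 * 5 ^ (7 * m)))
      (Vx (14 * m) (SS (7 * m))) - cc γ a t =
      ((1 / 5 ^ (14 * m) : ℝ) : ℂ) * (PS (KPer K (2 * 5 ^ (7 * m))) (Vx (14 * m) (SS (7 * m))) -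
        PS K (Vx (14 * m) (SS (7 * m)))) -
      (∫ x, K x ∂γ - ((1 / 5 ^ (14 * m) : ℝ) : ℂ) * PS K (Vx (14 * m) (SS (7 * m)))) := by
    unfold cc
    rw [← hK]
    ring
  rw [hsplit]
  refine (norm_sub_le _ _).trans ?_
  rw [norm_mul, Complex.norm_real, Real.norm_of_nonneg (by positivity)]
  have h6 : (1 / 5 ^ (14 * m) : ℝ) * ‖PS (KPer K (2 * 5 ^ (7 * m))) (Vx (14 * m) (SS (7 * m))) -
        PS K (Vx (14 * m) (SS (7 * m)))‖ ≤ CP * A / 5 ^ (7 * m) := by
    calc (1 / 5 ^ (14 * m) : ℝ) * ‖PS (KPer K (2 * 5 ^ (7 * m))) (Vx (14 * m) (SS (7 * m))) -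
        PS K (Vx (14 * m) (SS (7 * m)))‖
        ≤ (1 / 5 ^ (14 * m) : ℝ) * (CP * A * 5 ^ (7 * m)) :=
          mul_le_mul_of_nonneg_left h1 (by positivity)
      _ = CP * A / 5 ^ (7 * m) := by
          rw [← h14, two_mul, pow_add]
          field_simp
  calc _ ≤ CP * A / 5 ^ (7 * m) + CL * A / 5 ^ (7 * m) := add_le_add h6 h2
    _ = (CP + CL) * A / 5 ^ (7 * m) := by ring

end FinalM

open FinalM in
theorem specFinal (hElow : SpecElow) (hPer : SpecPer) (hDec : SpecDec) (hLim : SpecLim)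
    (hNat : SpecNat) (hGau : SpecGau) (hRle : SpecRle) : SpecFinal := by
  intro 𝒯 h𝒯 γ μ hγ hμ hsc
  have := hμ.1
  have hat := hNat 𝒯 h𝒯 γ μ hγ hμ
  have hac := ac hat hsc
  obtain ⟨c, hc, hE⟩ := hElow
  obtain ⟨CP, hCP, hper⟩ := hPer
  obtain ⟨CL, hCL, hlim'⟩ := hLim
  have hlim := hlim' 𝒯 h𝒯 γ hγ
  have hμ0 : 0 ≤ μ.real {0} := measureReal_nonneg
  -- the main inequality
  have main : ∀ a : ℝ, 0 < a → ∀ H : ℕ, 0 < H →
      c * (Real.pi / a) ≤ (1 / H) * ‖cc γ a 0‖ + 2 * μ.real {0} := by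
    intro a ha H hH
    obtain ⟨CD, hCD, hdec⟩ := hDec a ha
    have hre : ∀ t : ℝ, 0 < ((a : ℂ) - 2 * Real.pi * t * I).re := by
      intro t; simpa using ha
    have hgl : Tendsto (fun t : ℝ => cc γ a t) (cocompact ℝ) (𝓝 (μ.real {0} : ℂ)) := by
      refine (tends hRle hac (a := a) fun t => (gauss hGau hμ (hre t)).1).congr fun t => ?_
      exact (gauss hGau hμ (hre t)).2.symm
    have hone := one hCP hCD hper hdec hlim
    -- limit of the main term
    have hF : Tendsto (fun m : ℕ => (∑ s ∈ Finset.Ioo (-(H : ℤ)) H,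
        (fej H s : ℂ) * cc γ a (5 ^ m * s : ℝ)).re) atTop
        (𝓝 (∑ s ∈ Finset.Ioo (-(H : ℤ)) H,
          (fej H s : ℂ) * (if s = 0 then cc γ a 0 else (μ.real {0} : ℂ))).re) := by
      refine (Complex.continuous_re.tendsto _).comp (tendsto_finsetSum _ fun s _ => ?_)
      by_cases hs : s = 0
      · subst hs
        simp
      · simp only [hs, if_false]
        exact (hgl.comp (tends_pow s hs)).const_mul _
    set E0 : ℝ := 2 * ((CP + CL) * (CD * (1 + H) ^ 6)) with hE0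
    have hEm : Tendsto (fun m : ℕ => E0 * (1 / 5 : ℝ) ^ m) atTop (𝓝 0) := by
      have := (tendsto_pow_atTop_nhds_zero_of_lt_one (r := (1 / 5 : ℝ)) (by norm_num)
        (by norm_num)).const_mul E0
      simpa using this
    have hsum := hF.add hEm
    rw [add_zero] at hsum
    have hfreq : ∃ᶠ m : ℕ in atTop, c * (Real.pi / a) ≤ (∑ s ∈ Finset.Ioo (-(H : ℤ)) H,
        (fej H s : ℂ) * cc γ a (5 ^ m * s : ℝ)).re + E0 * (1 / 5 : ℝ) ^ m := by
      rw [frequently_atTop]
      intro m0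
      obtain ⟨m, hm, hm2⟩ := hE m0
      refine ⟨m, hm, ?_⟩
      have h1 := hm2 a H ha hH
      have hp : (0 : ℝ) < 5 ^ (14 * m) := by positivity
      have h2 : c * (Real.pi / a) ≤ (∑ s ∈ Finset.Ioo (-(H : ℤ)) H, (fej H s : ℂ) *
          (((1 / 5 ^ (14 * m) : ℝ) : ℂ) *
          PS (KPer (KG (a - 2 * Real.pi * (5 ^ m * s : ℝ) * I)) (2 * 5 ^ (7 * m)))
          (Vx (14 * m) (SS (7 * m))))).re := by
        have h3 : (∑ s ∈ Finset.Ioo (-(H : ℤ)) H, (fej H s : ℂ) *
          (((1 / 5 ^ (14 * m) : ℝ) : ℂ) *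
          PS (KPer (KG (a - 2 * Real.pi * (5 ^ m * s : ℝ) * I)) (2 * 5 ^ (7 * m)))
          (Vx (14 * m) (SS (7 * m))))) = ((1 / 5 ^ (14 * m) : ℝ) : ℂ) *
          ∑ s ∈ Finset.Ioo (-(H : ℤ)) H, (fej H s : ℂ) *
          PS (KPer (KG (a - 2 * Real.pi * (5 ^ m * s : ℝ) * I)) (2 * 5 ^ (7 * m)))
          (Vx (14 * m) (SS (7 * m))) := by
          rw [Finset.mul_sum]
          exact Finset.sum_congr rfl fun s _ => by ring
        rw [h3, Complex.re_ofReal_mul]
        calc c * (Real.pi / a) = (1 / 5 ^ (14 * m)) * (c * (Real.pi / a) * 5 ^ (14 * m)) := by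
              field_simp
          _ ≤ _ := mul_le_mul_of_nonneg_left h1 (by positivity)
      refine h2.trans ?_
      -- compare
      have h4 : (∑ s ∈ Finset.Ioo (-(H : ℤ)) H, (fej H s : ℂ) *
          (((1 / 5 ^ (14 * m) : ℝ) : ℂ) *
          PS (KPer (KG (a - 2 * Real.pi * (5 ^ m * s : ℝ) * I)) (2 * 5 ^ (7 * m)))
          (Vx (14 * m) (SS (7 * m))))).re =
          (∑ s ∈ Finset.Ioo (-(H : ℤ)) H, (fej H s : ℂ) * cc γ a (5 ^ m * s : ℝ)).re +
          (∑ s ∈ Finset.Ioo (-(H : ℤ)) H, (fej H s : ℂ) *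
          (((1 / 5 ^ (14 * m) : ℝ) : ℂ) *
          PS (KPer (KG (a - 2 * Real.pi * (5 ^ m * s : ℝ) * I)) (2 * 5 ^ (7 * m)))
          (Vx (14 * m) (SS (7 * m))) - cc γ a (5 ^ m * s : ℝ))).re := by
        rw [← Complex.add_re, ← Finset.sum_add_distrib]
        congr 1
        exact Finset.sum_congr rfl fun s _ => by ring
      rw [h4]
      refine add_le_add le_rfl ?_
      refine (Complex.re_le_norm _).trans ((norm_sum_le _ _).trans ?_)
      have hH' : (0 : ℝ) < H := by exact_mod_cast hH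
      have h5 : ∀ s ∈ Finset.Ioo (-(H : ℤ)) H, ‖(fej H s : ℂ) *
          (((1 / 5 ^ (14 * m) : ℝ) : ℂ) *
          PS (KPer (KG (a - 2 * Real.pi * (5 ^ m * s : ℝ) * I)) (2 * 5 ^ (7 * m)))
          (Vx (14 * m) (SS (7 * m))) - cc γ a (5 ^ m * s : ℝ))‖ ≤
          (1 / H) * ((CP + CL) * (CD * (1 + H) ^ 6) * (1 / 5 : ℝ) ^ m) := by
        intro s hs
        rw [norm_mul, Complex.norm_real, Real.norm_of_nonneg (fej_nonneg hH hs).1]
        refine mul_le_mul (fej_nonneg hH hs).2 ((hone m _).trans ?_) (norm_nonneg _)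
          (by positivity)
        have h6 : |(s : ℝ)| ≤ H := by
          rw [Finset.mem_Ioo] at hs
          have : |s| ≤ (H : ℤ) := abs_le.2 ⟨hs.1.le, hs.2.le⟩
          exact_mod_cast this
        have h5m : (1 : ℝ) ≤ 5 ^ m := one_le_pow₀ (by norm_num)
        have h7 : 1 + |(5 ^ m * s : ℝ)| ≤ 5 ^ m * (1 + H) := by
          rw [abs_mul, abs_of_pos (by positivity : (0 : ℝ) < 5 ^ m)]
          nlinarith [mul_le_mul_of_nonneg_left h6 (by positivity : (0 : ℝ) ≤ 5 ^ m)]
        have h8 : (1 + |(5 ^ m * s : ℝ)|) ^ 6 ≤ (5 ^ m * (1 + H)) ^ 6 :=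
          pow_le_pow_left₀ (by positivity) h7 6
        calc (CP + CL) * (CD * (1 + |(5 ^ m * s : ℝ)|) ^ 6) / 5 ^ (7 * m)
            ≤ (CP + CL) * (CD * (5 ^ m * (1 + H)) ^ 6) / 5 ^ (7 * m) := by gcongr
          _ = (CP + CL) * (CD * (1 + H) ^ 6) * (1 / 5 : ℝ) ^ m := by
            have h9 : (5 : ℝ) ^ (7 * m) = (5 ^ m) ^ 6 * 5 ^ m := by
              rw [← pow_mul, ← pow_add]; congr 1; ring
            rw [h9, one_div, inv_pow]
            field_simp
      refine (Finset.sum_le_sum h5).trans ?_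
      rw [Finset.sum_const, nsmul_eq_mul]
      calc ((Finset.Ioo (-(H : ℤ)) H).card : ℝ) *
            ((1 / H) * ((CP + CL) * (CD * (1 + H) ^ 6) * (1 / 5 : ℝ) ^ m))
          ≤ (2 * H) * ((1 / H) * ((CP + CL) * (CD * (1 + H) ^ 6) * (1 / 5 : ℝ) ^ m)) :=
            mul_le_mul_of_nonneg_right (card_le H) (by positivity)
        _ = E0 * (1 / 5 : ℝ) ^ m := by rw [hE0]; field_simp
    have hlimit := ge_of_tendsto_of_frequently hsum hfreq
    refine hlimit.trans ?_
    -- the limit is small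
    refine (Complex.re_le_norm _).trans ((norm_sum_le _ _).trans ?_)
    have hH' : (0 : ℝ) < H := by exact_mod_cast hH
    have h5 : ∀ s ∈ Finset.Ioo (-(H : ℤ)) H,
        ‖(fej H s : ℂ) * (if s = 0 then cc γ a 0 else (μ.real {0} : ℂ))‖ ≤
          (1 / H) * ((if s = 0 then ‖cc γ a 0‖ else 0) + μ.real {0}) := by
      intro s hs
      rw [norm_mul, Complex.norm_real, Real.norm_of_nonneg (fej_nonneg hH hs).1]
      refine mul_le_mul (fej_nonneg hH hs).2 ?_ (norm_nonneg _) (by positivity)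
      by_cases h0 : s = 0
      · simp only [h0, if_true]; linarith
      · simp only [h0, if_false, Complex.norm_real, Real.norm_of_nonneg hμ0, zero_add]
        exact le_rfl
    refine (Finset.sum_le_sum h5).trans ?_
    rw [← Finset.mul_sum, Finset.sum_add_distrib, Finset.sum_ite_eq', Finset.sum_const,
      nsmul_eq_mul]
    have h0 : (0 : ℤ) ∈ Finset.Ioo (-(H : ℤ)) H := by
      rw [Finset.mem_Ioo]; omega
    rw [if_pos h0]
    calc (1 / (H : ℝ)) * (‖cc γ a 0‖ + ((Finset.Ioo (-(H : ℤ)) H).card : ℝ) * μ.real {0})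
        ≤ (1 / H) * (‖cc γ a 0‖ + (2 * H) * μ.real {0}) := by
          gcongr
          exact card_le H
      _ = (1 / H) * ‖cc γ a 0‖ + 2 * μ.real {0} := by field_simp
  -- let `H → ∞`
  have main2 : ∀ a : ℝ, 0 < a → c * (Real.pi / a) ≤ 2 * μ.real {0} := by
    intro a ha
    have h1 : Tendsto (fun H : ℕ => (1 / (H : ℝ)) * ‖cc γ a 0‖ + 2 * μ.real {0}) atTop
        (𝓝 (0 * ‖cc γ a 0‖ + 2 * μ.real {0})) :=
      (tendsto_one_div_atTop_nhds_zero_nat.mul_const _).add_const _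
    rw [zero_mul, zero_add] at h1
    exact ge_of_tendsto h1 (eventually_atTop.2 ⟨1, fun H hH => main a ha H hH⟩)
  have h := main2 (c * Real.pi / (2 * μ.real {0} + 1)) (by positivity)
  have h2 : c * (Real.pi / (c * Real.pi / (2 * μ.real {0} + 1))) = 2 * μ.real {0} + 1 := by
    have := Real.pi_pos.ne'
    field_simp
  rw [h2] at h
  linarith

end Pool.Agent.Lib.MPd437ed
end

section
/-!
GAU: Gaussians are Schwartz functions (MP_d437ed_an, III.12).
-/
noncomputable section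

open Complex MeasureTheory
open scoped FourierTransform SchwartzMap ContDiff

namespace Pool.Agent.Lib.MPd437ed

namespace GauM

/-- `t ↦ exp (-z t)` -/
def g (z : ℂ) (t : ℝ) : ℂ := cexp (-z * t)

lemma hasDerivAt_g (z : ℂ) (t : ℝ) : HasDerivAt (g z) (-z * g z t) t := by
  unfold g
  have h1 : HasDerivAt (fun t : ℝ => -z * (t : ℂ)) (-z) t := by
    have := (Complex.ofRealCLM.hasDerivAt (x := t)).const_mul (-z)
    simpa using this
  have := h1.cexp
  rw [mul_comm]
  exact this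

lemma contDiff_g (z : ℂ) : ContDiff ℝ ∞ (g z) := by
  unfold g
  have h1 : ContDiff ℝ ∞ (fun t : ℝ => -z * (t : ℂ)) :=
    contDiff_const.mul Complex.ofRealCLM.contDiff
  exact h1.cexp

lemma iteratedDeriv_g (z : ℂ) (n : ℕ) : iteratedDeriv n (g z) = fun t => (-z) ^ n * g z t := by
  induction n with
  | zero => simp
  | succ n ih =>
    rw [iteratedDeriv_succ, ih]
    ext t
    have := (hasDerivAt_g z t).const_mul ((-z) ^ n)
    rw [this.deriv]
    ring

lemma norm_iteratedFDeriv_g (z : ℂ) (n : ℕ) (t : ℝ) :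
    ‖iteratedFDeriv ℝ n (g z) t‖ = ‖z‖ ^ n * Real.exp (-z.re * t) := by
  rw [norm_iteratedFDeriv_eq_norm_iteratedDeriv, iteratedDeriv_g]
  simp only [norm_mul, norm_pow, norm_neg]
  congr 1
  unfold g
  rw [Complex.norm_exp]
  simp

/-- polynomial times Gaussian is bounded -/
lemma poly_gauss (p : ℕ) (b : ℝ) (hb : 0 < b) : ∃ C : ℝ, ∀ y : ℝ, 0 ≤ y →
    (1 + y) ^ p * Real.exp (-b * y ^ 2) ≤ C := by
  refine ⟨2 ^ p * (1 + (p.factorial : ℝ) / b ^ p), fun y hy => ?_⟩
  have h1 : (1 + y) ^ p ≤ 2 ^ p * (1 + (y ^ 2) ^ p) := by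
    rcases le_total y 1 with h | h
    · have : (1 + y) ^ p ≤ 2 ^ p := pow_le_pow_left₀ (by positivity) (by linarith) p
      have h2 : (0 : ℝ) ≤ 2 ^ p * (y ^ 2) ^ p := by positivity
      linarith
    · have h2 : (1 + y) ^ p ≤ (2 * y ^ 2) ^ p :=
        pow_le_pow_left₀ (by positivity) (by nlinarith) p
      rw [mul_pow] at h2
      have h3 : (0 : ℝ) ≤ 2 ^ p := by positivity
      linarith
  have hE : 0 < Real.exp (-b * y ^ 2) := Real.exp_pos _
  have hE1 : Real.exp (-b * y ^ 2) ≤ 1 := by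
    rw [Real.exp_le_one_iff]; nlinarith [sq_nonneg y]
  have h4 : (y ^ 2) ^ p * Real.exp (-b * y ^ 2) ≤ (p.factorial : ℝ) / b ^ p := by
    have h := Real.pow_div_factorial_le_exp (b * y ^ 2) (by positivity) p
    rw [div_le_iff₀ (by positivity)] at h
    rw [le_div_iff₀ (by positivity)]
    have hEE : Real.exp (-b * y ^ 2) * Real.exp (b * y ^ 2) = 1 := by
      rw [← Real.exp_add]; simp
    calc (y ^ 2) ^ p * Real.exp (-b * y ^ 2) * b ^ p
        = (b * y ^ 2) ^ p * Real.exp (-b * y ^ 2) := by rw [mul_pow]; ring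
      _ ≤ (Real.exp (b * y ^ 2) * p.factorial) * Real.exp (-b * y ^ 2) := by gcongr
      _ = p.factorial := by linear_combination (p.factorial : ℝ) * hEE
  calc (1 + y) ^ p * Real.exp (-b * y ^ 2)
      ≤ (2 ^ p * (1 + (y ^ 2) ^ p)) * Real.exp (-b * y ^ 2) := by gcongr
    _ = 2 ^ p * (Real.exp (-b * y ^ 2) + (y ^ 2) ^ p * Real.exp (-b * y ^ 2)) := by ring
    _ ≤ _ := by gcongr

/-- the Gaussian as a Schwartz function -/
def gaussS (z : ℂ) (hz : 0 < z.re) : 𝓢(ℂ, ℂ) where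
  toFun := fun k => g z (‖k‖ ^ 2)
  smooth' := (contDiff_g z).comp (Function.hasTemperateGrowth_norm_sq (H := ℂ)).1
  decay' := by
    intro m n
    obtain ⟨k, C, hC0, hC⟩ :=
      (Function.hasTemperateGrowth_norm_sq (H := ℂ)).norm_iteratedFDeriv_le_uniform n
    obtain ⟨B, hB⟩ := poly_gauss (m + k * n) z.re hz
    refine ⟨(n.factorial : ℝ) * (1 + ‖z‖) ^ n * (C + 1) ^ n * B, fun x => ?_⟩
    set y := ‖x‖ with hy
    have hy0 : 0 ≤ y := norm_nonneg _
    have hD : ∀ i, 1 ≤ i → i ≤ n →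
        ‖iteratedFDeriv ℝ i (fun k : ℂ => ‖k‖ ^ 2) x‖ ≤ ((C + 1) * (1 + y) ^ k) ^ i := by
      intro i hi hin
      have h1 := hC i hin x
      have h2 : (1 : ℝ) ≤ (C + 1) * (1 + y) ^ k := by
        have : (1 : ℝ) ≤ (1 + y) ^ k := one_le_pow₀ (by linarith)
        nlinarith
      calc ‖iteratedFDeriv ℝ i (fun k : ℂ => ‖k‖ ^ 2) x‖ ≤ C * (1 + y) ^ k := h1
        _ ≤ (C + 1) * (1 + y) ^ k := by gcongr; linarith
        _ ≤ ((C + 1) * (1 + y) ^ k) ^ i := le_self_pow₀ h2 (by omega)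
    have hg : ∀ i, i ≤ n → ‖iteratedFDeriv ℝ i (g z) (‖x‖ ^ 2)‖ ≤
        (1 + ‖z‖) ^ n * Real.exp (-z.re * y ^ 2) := by
      intro i hi
      rw [norm_iteratedFDeriv_g]
      gcongr
      calc ‖z‖ ^ i ≤ (1 + ‖z‖) ^ i := by gcongr; linarith
        _ ≤ (1 + ‖z‖) ^ n := pow_le_pow_right₀ (by linarith [norm_nonneg z]) hi
    have h := norm_iteratedFDeriv_comp_le (contDiff_g z)
      (Function.hasTemperateGrowth_norm_sq (H := ℂ)).1 (n := n)
      (by exact_mod_cast le_top) x hg hD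
    change y ^ m * ‖iteratedFDeriv ℝ n (g z ∘ fun k : ℂ => ‖k‖ ^ 2) x‖ ≤ _
    calc y ^ m * ‖iteratedFDeriv ℝ n (g z ∘ fun k : ℂ => ‖k‖ ^ 2) x‖
        ≤ (1 + y) ^ m * ((n.factorial : ℝ) * ((1 + ‖z‖) ^ n * Real.exp (-z.re * y ^ 2)) *
          ((C + 1) * (1 + y) ^ k) ^ n) := by
          gcongr
          linarith
      _ = (n.factorial : ℝ) * (1 + ‖z‖) ^ n * (C + 1) ^ n *
          ((1 + y) ^ (m + k * n) * Real.exp (-z.re * y ^ 2)) := by
          rw [mul_pow, pow_add, pow_mul]; ring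
      _ ≤ _ := by
          gcongr
          exact hB y hy0

end GauM

theorem specGau : SpecGau := by
  intro z hz
  refine ⟨GauM.gaussS z hz, fun k => ?_, fun x => ?_⟩
  · change GauM.g z (‖k‖ ^ 2) = _
    unfold GauM.g
    push_cast
    rfl
  · have h : ((GauM.gaussS z hz : 𝓢(ℂ, ℂ)) : ℂ → ℂ) = fun k => cexp (-z * ‖k‖ ^ 2) := by
      ext k
      change GauM.g z (‖k‖ ^ 2) = _
      unfold GauM.g
      push_cast
      rfl
    rw [h, fourier_gaussian_innerProductSpace hz]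
    unfold KG
    congr 1
    simp

end Pool.Agent.Lib.MPd437ed
end
end

section
/-! Module GEO: one tile and its five children. -/
namespace Pool.Agent.Lib.MPd437ed

open MeasureTheory Filter Topology Complex

noncomputable section

namespace GeoM

/-! ### `tw` -/

lemma tw_true (z : ℂ) : tw true z = z := rfl
lemma tw_false (z : ℂ) : tw false z = (starRingEnd ℂ) z := rfl

lemma tw_tw (s s' : Bool) (z : ℂ) : tw (s == s') z = tw s (tw s' z) := by
  cases s <;> cases s' <;> simp [tw]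

lemma tw_self (s : Bool) (z : ℂ) : tw s (tw s z) = z := by
  cases s <;> simp [tw]

lemma tw_add (s : Bool) (z z' : ℂ) : tw s (z + z') = tw s z + tw s z' := by
  cases s <;> simp [tw]

lemma tw_sub (s : Bool) (z z' : ℂ) : tw s (z - z') = tw s z - tw s z' := by
  cases s <;> simp [tw]

lemma tw_mul (s : Bool) (z z' : ℂ) : tw s (z * z') = tw s z * tw s z' := by
  cases s <;> simp [tw]

lemma tw_div (s : Bool) (z z' : ℂ) : tw s (z / z') = tw s z / tw s z' := by
  cases s <;> simp [tw]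

lemma tw_zero (s : Bool) : tw s 0 = 0 := by
  cases s <;> simp [tw]

lemma tw_smul (s : Bool) (r : ℝ) (z : ℂ) : tw s (r • z) = r • tw s z := by
  cases s <;> simp [tw]

lemma norm_tw (s : Bool) (z : ℂ) : ‖tw s z‖ = ‖z‖ := by
  cases s <;> simp [tw]

lemma tw_cont (s : Bool) : Continuous (tw s) := by
  cases s
  · show Continuous (fun z => (starRingEnd ℂ) z)
    exact Complex.continuous_conj
  · exact continuous_id

lemma varpi_ne : ϖ ≠ 0 := by
  intro h
  have := congrArg Complex.re h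
  simp [ϖ] at this

lemma norm_varpi : ‖ϖ‖ = √5 := by
  rw [Complex.norm_def]
  congr 1
  simp [ϖ, Complex.normSq_apply]
  norm_num

lemma map_comp (t t' : Tile) (z : ℂ) : (t.comp t').map z = t.map (t'.map z) := by
  simp only [Tile.comp, Tile.map, tw_tw, tw_add, tw_mul]
  ring

lemma comp_child (t t' : Tile) (i : Fin 5) : t.comp (t'.child i) = (t.comp t').child i := by
  ext
  · show t.map ((t'.child i).c) = (t.comp t').map (off i / ϖ)
    rw [map_comp]
    rfl
  · show t.w * tw t.s (t'.w * tw t'.s (fac i / ϖ)) =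
      (t.w * tw t.s t'.w) * tw (t.s == t'.s) (fac i / ϖ)
    rw [tw_tw, tw_mul]
    ring
  · show (t.s == (t'.s == pos i)) = ((t.s == t'.s) == pos i)
    cases t.s <;> cases t'.s <;> cases pos i <;> rfl

lemma child_map (t : Tile) (i : Fin 5) (z : ℂ) :
    (t.child i).map z = t.map ((off i + fac i * tw (pos i) z) / ϖ) := by
  simp only [Tile.child, Tile.map, tw_tw]
  have : tw t.s ((off i + fac i * tw (pos i) z) / ϖ) =
      tw t.s (off i / ϖ) + tw t.s (fac i / ϖ) * tw t.s (tw (pos i) z) := by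
    rw [← tw_mul, ← tw_add]
    congr 1
    ring
  rw [this]
  ring

lemma map_dist (t : Tile) (z z' : ℂ) : ‖t.map z - t.map z'‖ = ‖t.w‖ * ‖z - z'‖ := by
  have : t.map z - t.map z' = t.w * tw t.s (z - z') := by
    simp only [Tile.map, tw_sub]; ring
  rw [this, norm_mul, norm_tw]

lemma map_cont (t : Tile) : Continuous t.map := by
  unfold Tile.map
  exact continuous_const.add (continuous_const.mul (tw_cont _))

/-- inverse of `t.map` -/
lemma map_inv (t : Tile) (hw : t.w ≠ 0) (x : ℂ) : t.map (tw t.s ((x - t.c) / t.w)) = x := by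
  simp only [Tile.map, tw_self]
  field_simp
  ring

lemma inv_map (t : Tile) (hw : t.w ≠ 0) (z : ℂ) : tw t.s ((t.map z - t.c) / t.w) = z := by
  simp only [Tile.map]
  have : (t.c + t.w * tw t.s z - t.c) / t.w = tw t.s z := by
    field_simp
    ring
  rw [this, tw_self]

/-! ### volume of images -/

/-- the linear part of `t.map` -/
def lin (t : Tile) : ℂ →ₗ[ℝ] ℂ where
  toFun z := t.w * tw t.s z
  map_add' z z' := by rw [tw_add]; ring
  map_smul' r z := by
    rw [tw_smul, RingHom.id_apply, Complex.real_smul, Complex.real_smul]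
    ring

lemma lin_det (t : Tile) : |LinearMap.det (lin t)| = ‖t.w‖ ^ 2 := by
  have h3 : LinearMap.det (Algebra.lmul ℝ ℂ t.w) = ‖t.w‖ ^ 2 := by
    rw [← Algebra.norm_apply, Algebra.norm_complex_apply, Complex.normSq_eq_norm_sq]
  cases hs : t.s
  · have e : lin t = (Algebra.lmul ℝ ℂ t.w) ∘ₗ (Complex.conjAe.toLinearMap) := by
      ext z
      all_goals simp [lin, hs, tw, Algebra.lmul]
    rw [e, LinearMap.det_comp, h3, Complex.det_conjAe]
    rw [abs_mul]
    simp
  · have e : lin t = Algebra.lmul ℝ ℂ t.w := by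
      ext z
      all_goals simp [lin, hs, tw, Algebra.lmul]
    rw [e, h3, abs_of_nonneg (by positivity)]

lemma vol_image (t : Tile) (A : Set ℂ) :
    volume (t.map '' A) = ENNReal.ofReal (‖t.w‖ ^ 2) * volume A := by
  have e : t.map '' A = (fun z => t.c + z) '' ((lin t) '' A) := by
    rw [Set.image_image]
    rfl
  rw [e]
  have h1 : volume ((fun z => t.c + z) '' ((lin t) '' A)) = volume ((lin t) '' A) := by
    have := measure_preimage_add (volume : Measure ℂ) (-t.c) ((lin t) '' A)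
    rw [← this]
    congr 1
    rw [Set.image_add_left]
  rw [h1, Measure.addHaar_image_linearMap, lin_det]

/-! ### triangles -/

/-- triangle with the legs `2 l`, `l` -/
def tri (a b l : ℝ) : Set ℂ := {z | a ≤ z.re ∧ b ≤ z.im ∧ z.re + 2 * z.im ≤ a + 2 * b + 2 * l}

lemma tri_closed (a b l : ℝ) : IsClosed (tri a b l) := by
  have e : tri a b l = {z | a ≤ z.re} ∩ ({z | b ≤ z.im} ∩
      {z | z.re + 2 * z.im ≤ a + 2 * b + 2 * l}) := by ext z; rfl
  rw [e]
  exact IsClosed.inter (isClosed_le continuous_const Complex.continuous_re) (IsClosed.inter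
    (isClosed_le continuous_const Complex.continuous_im)
    (isClosed_le (Complex.continuous_re.add (continuous_const.mul Complex.continuous_im))
      continuous_const))

lemma vol_tri (a b l : ℝ) (hl : 0 ≤ l) : volume (tri a b l) = ENNReal.ofReal (l ^ 2) := by
  set E : Set (ℝ × ℝ) := {p | a ≤ p.1 ∧ b ≤ p.2 ∧ p.1 + 2 * p.2 ≤ a + 2 * b + 2 * l} with hE
  have h1 : tri a b l = Complex.measurableEquivRealProd ⁻¹' E := by
    ext w; rfl
  have hmeas : MeasurableSet E := by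
    apply IsClosed.measurableSet
    have e : E = {p : ℝ × ℝ | a ≤ p.1} ∩ ({p : ℝ × ℝ | b ≤ p.2} ∩
          {p : ℝ × ℝ | p.1 + 2 * p.2 ≤ a + 2 * b + 2 * l}) := by ext p; rfl
    rw [e]
    exact IsClosed.inter (isClosed_le continuous_const continuous_fst) (IsClosed.inter
      (isClosed_le continuous_const (by fun_prop)) (isClosed_le (by fun_prop) continuous_const))
  rw [h1, (Complex.volume_preserving_equiv_real_prod).measure_preimage hmeas.nullMeasurableSet,
    Measure.volume_eq_prod, Measure.prod_apply hmeas]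
  have hsec : ∀ x : ℝ, volume (Prod.mk x ⁻¹' E) =
      (Set.Icc a (a + 2 * l)).indicator (fun x => ENNReal.ofReal ((a + 2 * l - x) / 2)) x := by
    intro x
    by_cases hx : x ∈ Set.Icc a (a + 2 * l)
    · rw [Set.indicator_of_mem hx]
      have : Prod.mk x ⁻¹' E = Set.Icc b (b + (a + 2 * l - x) / 2) := by
        ext y
        simp only [hE, Set.mem_preimage, Set.mem_ofPred_eq, Set.mem_Icc]
        constructor
        · rintro ⟨_, h, h'⟩
          exact ⟨h, by linarith⟩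
        · rintro ⟨h, h'⟩
          exact ⟨hx.1, h, by linarith⟩
      rw [this, Real.volume_Icc]
      congr 1; ring
    · rw [Set.indicator_of_notMem hx]
      have : Prod.mk x ⁻¹' E = ∅ := by
        ext y
        simp only [hE, Set.mem_preimage, Set.mem_ofPred_eq, Set.mem_empty_iff_false, iff_false]
        rintro ⟨h, h', h''⟩
        exact hx ⟨h, by linarith⟩
      rw [this, measure_empty]
  simp_rw [hsec]
  rw [lintegral_indicator measurableSet_Icc, ← ofReal_integral_eq_lintegral_ofReal]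
  · have : ∫ x in Set.Icc a (a + 2 * l), (a + 2 * l - x) / 2 = l ^ 2 := by
      rw [integral_Icc_eq_integral_Ioc, ← intervalIntegral.integral_of_le (by linarith)]
      have : ∀ x : ℝ, (a + 2 * l - x) / 2 = (a + 2 * l) / 2 - x / 2 := fun x => by ring
      simp_rw [this]
      rw [intervalIntegral.integral_sub (by simp) (by simp), intervalIntegral.integral_div]
      simp
      ring
    rw [this]
  · apply Continuous.integrableOn_Icc
    fun_prop
  · filter_upwards [ae_restrict_mem measurableSet_Icc] with x hx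
    simp only [Pi.zero_apply]
    linarith [hx.2]

lemma proto_eq : proto = tri 0 0 1 := by
  ext z
  simp only [proto, tri, Set.mem_ofPred_eq]
  constructor
  · rintro ⟨h, h', h''⟩
    exact ⟨h, h', by linarith⟩
  · rintro ⟨h, h', h''⟩
    exact ⟨h, h', by linarith⟩

lemma vol_proto : volume proto = 1 := by
  rw [proto_eq, vol_tri _ _ _ (by norm_num)]
  simp

lemma area (t : Tile) : volume.real t.region = ‖t.w‖ ^ 2 := by
  unfold Measure.real Tile.region
  rw [vol_image, vol_proto, mul_one, ENNReal.toReal_ofReal (by positivity)]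

lemma proto_closed : IsClosed proto := by rw [proto_eq]; exact tri_closed _ _ _

lemma proto_diam {z z' : ℂ} (h : z ∈ proto) (h' : z' ∈ proto) : ‖z - z'‖ ≤ √5 := by
  obtain ⟨h1, h2, h3⟩ := h
  obtain ⟨g1, g2, g3⟩ := h'
  rw [Complex.norm_def]
  apply Real.sqrt_le_sqrt
  rw [Complex.normSq_apply, Complex.sub_re, Complex.sub_im]
  generalize z.re = x at *
  generalize z'.re = x' at *
  generalize z.im = y at *
  generalize z'.im = y' at *
  have b1 : (x - x') * (x - x') ≤ 4 := by nlinarith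
  have b2 : (y - y') * (y - y') ≤ 1 := by nlinarith
  linarith

lemma zero_mem : (0 : ℂ) ∈ proto := by simp [proto]

lemma proto_compact : IsCompact proto := by
  apply Metric.isCompact_of_isClosed_isBounded proto_closed
  apply Metric.isBounded_iff.2 ⟨√5, ?_⟩
  intro x hx y hy
  rw [dist_eq_norm]
  exact proto_diam hx hy

lemma proto_convex : Convex ℝ proto := by
  intro z hz z' hz' a b ha hb hab
  obtain ⟨h1, h2, h3⟩ := hz
  obtain ⟨g1, g2, g3⟩ := hz'
  refine ⟨?_, ?_, ?_⟩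
  · simp only [Complex.add_re, Complex.smul_re, smul_eq_mul]; positivity
  · simp only [Complex.add_im, Complex.smul_im, smul_eq_mul]; positivity
  · simp only [Complex.add_re, Complex.smul_re, Complex.add_im, Complex.smul_im, smul_eq_mul]
    nlinarith

lemma compact (t : Tile) : IsCompact t.region := proto_compact.image (map_cont t)

lemma convex (t : Tile) : Convex ℝ t.region := by
  have e : t.region = (fun z => t.c + z) '' ((lin t) '' proto) := by
    rw [Set.image_image]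
    rfl
  rw [e]
  exact (proto_convex.linear_image (lin t)).translate t.c

lemma diam (t : Tile) (x : ℂ) (hx : x ∈ t.region) (y : ℂ) (hy : y ∈ t.region) :
    ‖x - y‖ ≤ √5 * ‖t.w‖ := by
  obtain ⟨z, hz, rfl⟩ := hx
  obtain ⟨z', hz', rfl⟩ := hy
  rw [map_dist, mul_comm]
  exact mul_le_mul_of_nonneg_right (proto_diam hz hz') (norm_nonneg _)

lemma verts_sub (t : Tile) : t.verts ⊆ t.region := by
  intro x hx
  rcases hx with rfl | rfl | rfl
  · exact ⟨0, zero_mem, rfl⟩
  · exact ⟨2, by simp [proto], rfl⟩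
  · exact ⟨I, by simp [proto], rfl⟩

lemma norm_fac (i : Fin 5) : ‖fac i‖ = 1 := by
  fin_cases i <;> simp [fac]

lemma child_w (t : Tile) (i : Fin 5) : ‖(t.child i).w‖ = ‖t.w‖ / √5 := by
  simp only [Tile.child, norm_mul, norm_tw, norm_div, norm_fac, norm_varpi]
  ring

/-! ### children -/

/-- the `i`-th part of `proto` -/
def part (i : Fin 5) : Set ℂ := (fun z => (off i + fac i * tw (pos i) z) / ϖ) '' proto

lemma child_region (t : Tile) (i : Fin 5) : (t.child i).region = t.map '' part i := by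
  unfold Tile.region part
  rw [Set.image_image]
  apply Set.image_congr
  intro z _
  exact child_map t i z

/-- membership in a part: `v = ϖ z'` -/
lemma mem_part (i : Fin 5) (v : ℂ) :
    v / ϖ ∈ part i ↔ ∃ z ∈ proto, off i + fac i * tw (pos i) z = v := by
  unfold part
  constructor
  · rintro ⟨z, hz, h⟩
    refine ⟨z, hz, ?_⟩
    exact (div_left_inj' varpi_ne).1 h
  · rintro ⟨z, hz, h⟩
    exact ⟨z, hz, by simp only [h]⟩

lemma div_varpi_mem (x y : ℝ) : ((x : ℂ) + y * I) / ϖ ∈ proto ↔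
    0 ≤ 2 * x + y ∧ 0 ≤ 2 * y - x ∧ y ≤ 2 := by
  have e : ((x : ℂ) + y * I) / ϖ = ((2 * x + y) / 5 : ℝ) + ((2 * y - x) / 5 : ℝ) * I := by
    rw [div_eq_iff varpi_ne]
    unfold ϖ
    push_cast
    linear_combination (-(1 / 5 : ℂ) * (2 * y - x)) * Complex.I_mul_I
  rw [e]
  simp only [proto, Set.mem_ofPred_eq, Complex.add_re, Complex.ofReal_re, Complex.mul_re,
    Complex.I_re, mul_zero, Complex.ofReal_im, Complex.I_im, mul_one, sub_self, add_zero,
    Complex.add_im, Complex.mul_im, zero_add]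
  constructor
  · rintro ⟨h, h', h''⟩
    refine ⟨?_, ?_, ?_⟩ <;> linarith
  · rintro ⟨h, h', h''⟩
    refine ⟨?_, ?_, ?_⟩ <;> linarith

lemma part0 (x y : ℝ) : (∃ z ∈ proto, off 0 + fac 0 * tw (pos 0) z = (x : ℂ) + y * I) ↔
    y ≤ 2 ∧ x ≤ 0 ∧ 0 ≤ 2 * x + y := by
  constructor
  · rintro ⟨z, ⟨h1, h2, h3⟩, h⟩
    have hr := congrArg Complex.re h
    have hi := congrArg Complex.im h
    simp [off, fac, pos, tw] at hr hi
    refine ⟨?_, ?_, ?_⟩ <;> linarith
  · rintro ⟨h1, h2, h3⟩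
    refine ⟨⟨2 - y, -x⟩, ⟨?_, ?_, ?_⟩, ?_⟩
    · simp; linarith
    · simp; linarith
    · simp; linarith
    · apply Complex.ext <;> simp [off, fac, pos, tw]

lemma part1 (x y : ℝ) : (∃ z ∈ proto, off 1 + fac 1 * tw (pos 1) z = (x : ℂ) + y * I) ↔
    2 ≤ x ∧ y ≤ 2 ∧ x ≤ 2 * y := by
  constructor
  · rintro ⟨z, ⟨h1, h2, h3⟩, h⟩
    have hr := congrArg Complex.re h
    have hi := congrArg Complex.im h
    simp [off, fac, pos, tw] at hr hi
    refine ⟨?_, ?_, ?_⟩ <;> linarith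
  · rintro ⟨h1, h2, h3⟩
    refine ⟨⟨x - 2, 2 - y⟩, ⟨?_, ?_, ?_⟩, ?_⟩
    · simp; linarith
    · simp; linarith
    · simp; linarith
    · apply Complex.ext <;> simp [off, fac, pos, tw]

lemma part2 (x y : ℝ) : (∃ z ∈ proto, off 2 + fac 2 * tw (pos 2) z = (x : ℂ) + y * I) ↔
    0 ≤ x ∧ y ≤ 1 ∧ x ≤ 2 * y := by
  constructor
  · rintro ⟨z, ⟨h1, h2, h3⟩, h⟩
    have hr := congrArg Complex.re h
    have hi := congrArg Complex.im h
    simp [off, fac, pos, tw] at hr hi
    refine ⟨?_, ?_, ?_⟩ <;> linarith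
  · rintro ⟨h1, h2, h3⟩
    refine ⟨⟨x, 1 - y⟩, ⟨?_, ?_, ?_⟩, ?_⟩
    · simp; linarith
    · simp; linarith
    · simp; linarith
    · apply Complex.ext <;> simp [off, fac, pos, tw]

lemma part3 (x y : ℝ) : (∃ z ∈ proto, off 3 + fac 3 * tw (pos 3) z = (x : ℂ) + y * I) ↔
    x ≤ 2 ∧ y ≤ 2 ∧ 4 ≤ x + 2 * y := by
  constructor
  · rintro ⟨z, ⟨h1, h2, h3⟩, h⟩
    have hr := congrArg Complex.re h
    have hi := congrArg Complex.im h
    simp [off, fac, pos, tw] at hr hi
    refine ⟨?_, ?_, ?_⟩ <;> linarith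
  · rintro ⟨h1, h2, h3⟩
    refine ⟨⟨2 - x, 2 - y⟩, ⟨?_, ?_, ?_⟩, ?_⟩
    · simp; linarith
    · simp; linarith
    · simp; linarith
    · apply Complex.ext <;> simp [off, fac, pos, tw]

lemma part4 (x y : ℝ) : (∃ z ∈ proto, off 4 + fac 4 * tw (pos 4) z = (x : ℂ) + y * I) ↔
    0 ≤ x ∧ 1 ≤ y ∧ x + 2 * y ≤ 4 := by
  constructor
  · rintro ⟨z, ⟨h1, h2, h3⟩, h⟩
    have hr := congrArg Complex.re h
    have hi := congrArg Complex.im h
    simp [off, fac, pos, tw] at hr hi
    refine ⟨?_, ?_, ?_⟩ <;> linarith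
  · rintro ⟨h1, h2, h3⟩
    refine ⟨⟨x, y - 1⟩, ⟨?_, ?_, ?_⟩, ?_⟩
    · simp; linarith
    · simp; linarith
    · simp; linarith
    · apply Complex.ext <;> simp [off, fac, pos, tw]

lemma proto_parts : proto = ⋃ i, part i := by
  ext z
  obtain ⟨x, y, hv⟩ : ∃ x y : ℝ, z = ((x : ℂ) + y * I) / ϖ := by
    refine ⟨(z * ϖ).re, (z * ϖ).im, ?_⟩
    rw [Complex.re_add_im]
    field_simp [varpi_ne]
  rw [hv, div_varpi_mem, Set.mem_iUnion]
  simp only [mem_part]
  rw [Fin.exists_fin_succ, Fin.exists_fin_succ, Fin.exists_fin_succ, Fin.exists_fin_succ,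
    Fin.exists_fin_one]
  show _ ↔ (∃ z ∈ proto, off 0 + fac 0 * tw (pos 0) z = _) ∨
    (∃ z ∈ proto, off 1 + fac 1 * tw (pos 1) z = _) ∨
    (∃ z ∈ proto, off 2 + fac 2 * tw (pos 2) z = _) ∨
    (∃ z ∈ proto, off 3 + fac 3 * tw (pos 3) z = _) ∨
    (∃ z ∈ proto, off 4 + fac 4 * tw (pos 4) z = _)
  rw [part0, part1, part2, part3, part4]
  constructor
  · rintro ⟨h1, h2, h3⟩
    by_cases hx : x ≤ 0
    · left; exact ⟨h3, hx, h1⟩
    · have hx' : 0 ≤ x := by linarith
      by_cases hy : y ≤ 1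
      · right; right; left; exact ⟨hx', hy, by linarith⟩
      · by_cases hx2 : x ≤ 2
        · by_cases hxy : x + 2 * y ≤ 4
          · right; right; right; right; exact ⟨hx', by linarith, hxy⟩
          · right; right; right; left; exact ⟨hx2, h3, by linarith⟩
        · right; left; exact ⟨by linarith, h3, by linarith⟩
  · rintro (⟨h1, h2, h3⟩ | ⟨h1, h2, h3⟩ | ⟨h1, h2, h3⟩ | ⟨h1, h2, h3⟩ | ⟨h1, h2, h3⟩)
    all_goals refine ⟨?_, ?_, ?_⟩ <;> linarith

lemma region_child (t : Tile) : t.region = ⋃ i, (t.child i).region := by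
  simp only [child_region]
  rw [← Set.image_iUnion, ← proto_parts]
  rfl

lemma child_null (t : Tile) (hw : t.w ≠ 0) (i k : Fin 5) (hik : i ≠ k) :
    volume ((t.child i).region ∩ (t.child k).region) = 0 := by
  have hfin : ∀ i, volume (t.child i).region ≠ ⊤ := fun i => (compact _).measure_lt_top.ne
  have hv : ∀ i, volume (t.child i).region = ENNReal.ofReal (‖t.w‖ ^ 2 / 5) := by
    intro i
    rw [← ENNReal.ofReal_toReal (hfin i)]
    congr 1
    have := area (t.child i)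
    unfold Measure.real at this
    rw [this, child_w, div_pow, Real.sq_sqrt (by norm_num)]
  have htot : volume t.region = ENNReal.ofReal (‖t.w‖ ^ 2) := by
    unfold Tile.region
    rw [vol_image, vol_proto, mul_one]
  have hle : volume t.region ≤ volume ((t.child i).region ∪ (t.child k).region) +
      ∑ l ∈ (Finset.univ.erase i).erase k, volume (t.child l).region := by
    have hsub : t.region ⊆ ((t.child i).region ∪ (t.child k).region) ∪
        ⋃ l ∈ (Finset.univ.erase i).erase k, (t.child l).region := by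
      rw [region_child]
      intro x hx
      obtain ⟨l, hl⟩ := Set.mem_iUnion.1 hx
      by_cases h1 : l = i
      · left; left; rw [← h1]; exact hl
      · by_cases h2 : l = k
        · left; right; rw [← h2]; exact hl
        · right
          refine Set.mem_biUnion (x := l) ?_ hl
          simp [h1, h2]
    calc volume t.region ≤ _ := measure_mono hsub
      _ ≤ _ := measure_union_le _ _
      _ ≤ _ := by
        gcongr
        exact measure_biUnion_finset_le _ _
  have hcard : ((Finset.univ.erase i).erase k : Finset (Fin 5)).card = 3 := by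
    rw [Finset.card_erase_of_mem (by simp [hik.symm]), Finset.card_erase_of_mem (by simp)]
    simp
  simp only [hv, Finset.sum_const, hcard, htot] at hle
  have hadd := measure_union_add_inter (μ := volume) (t.child i).region
    (compact (t.child k)).measurableSet
  rw [hv, hv] at hadd
  have hw2 : 0 < ‖t.w‖ ^ 2 := by positivity
  set U := volume ((t.child i).region ∪ (t.child k).region)
  set V := volume ((t.child i).region ∩ (t.child k).region)
  have hUfin : U ≠ ⊤ := by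
    intro h; rw [h, top_add] at hadd
    exact absurd hadd.symm (ENNReal.add_ne_top.2 ⟨ENNReal.ofReal_ne_top, ENNReal.ofReal_ne_top⟩)
  have hVfin : V ≠ ⊤ := by
    intro h; rw [h, add_top] at hadd
    exact absurd hadd.symm (ENNReal.add_ne_top.2 ⟨ENNReal.ofReal_ne_top, ENNReal.ofReal_ne_top⟩)
  have e1 : U.toReal + V.toReal = ‖t.w‖ ^ 2 / 5 + ‖t.w‖ ^ 2 / 5 := by
    rw [← ENNReal.toReal_add hUfin hVfin, hadd, ENNReal.toReal_add ENNReal.ofReal_ne_top
      ENNReal.ofReal_ne_top, ENNReal.toReal_ofReal (by positivity)]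
  have e2 : ‖t.w‖ ^ 2 ≤ U.toReal + 3 * (‖t.w‖ ^ 2 / 5) := by
    have h4 : U + 3 • ENNReal.ofReal (‖t.w‖ ^ 2 / 5) ≠ ⊤ := by
      rw [nsmul_eq_mul]
      exact ENNReal.add_ne_top.2 ⟨hUfin, ENNReal.mul_ne_top (by simp) ENNReal.ofReal_ne_top⟩
    have := ENNReal.toReal_mono h4 hle
    rw [ENNReal.toReal_ofReal (by positivity), ENNReal.toReal_add hUfin (by
      rw [nsmul_eq_mul]; exact ENNReal.mul_ne_top (by simp) ENNReal.ofReal_ne_top),
      nsmul_eq_mul, ENNReal.toReal_mul, ENNReal.toReal_ofReal (by positivity)] at this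
    simpa using this
  have e3 : V.toReal = 0 := le_antisymm (by linarith) ENNReal.toReal_nonneg
  exact (ENNReal.toReal_eq_zero_iff _).1 e3 |>.resolve_right hVfin

lemma region_zero (t : Tile) (hw : t.w = 0) : t.region ⊆ {t.c} := by
  rintro x ⟨z, _, rfl⟩
  simp [Tile.map, hw]

lemma child_int (t : Tile) (i k : Fin 5) (hik : i ≠ k) :
    Disjoint (interior (t.child i).region) (interior (t.child k).region) := by
  by_cases hw : t.w = 0
  · have : interior (t.child i).region ⊆ interior {(t.child i).c} :=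
      interior_mono (region_zero _ (by simp [Tile.child, hw]))
    rw [interior_singleton] at this
    rw [Set.subset_empty_iff.1 this]
    exact Set.empty_disjoint _
  · rw [Set.disjoint_iff_inter_eq_empty]
    apply (isOpen_interior.inter isOpen_interior).eq_empty_of_measure_zero (μ := volume)
    exact measure_mono_null (Set.inter_subset_inter interior_subset interior_subset)
      (child_null t hw i k hik)

lemma sum_area (t : Tile) (hw : t.w ≠ 0) (O : Set ℂ) (hO : MeasurableSet O) :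
    PP Tile.child (fun t' => volume.real (t'.region ∩ O)) t = volume.real (t.region ∩ O) := by
  unfold PP
  have h1 : volume (t.region ∩ O) = ∑ i, volume ((t.child i).region ∩ O) := by
    rw [region_child, Set.iUnion_inter, measure_iUnion₀, tsum_fintype]
    · intro i k hik
      exact measure_mono_null (Set.inter_subset_inter Set.inter_subset_left Set.inter_subset_left)
        (child_null t hw i k hik)
    · intro i
      exact ((compact _).measurableSet.inter hO).nullMeasurableSet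
  unfold Measure.real
  rw [h1, ENNReal.toReal_sum]
  intro i _
  exact ((measure_mono Set.inter_subset_left).trans_lt (compact _).measure_lt_top).ne

/-! ### the gauge -/

lemma sqrt5_sq : √(5:ℝ) ^ 2 = 5 := Real.sq_sqrt (by norm_num)
lemma sqrt5_pos : 0 < √(5:ℝ) := Real.sqrt_pos.2 (by norm_num)
lemma sqrt5_lt : √(5:ℝ) < 3 := by
  have := sqrt5_sq
  nlinarith [sqrt5_pos]

lemma rho_pos : 0 < rho := by
  unfold rho
  linarith [sqrt5_lt]

lemma gauge_nonneg (z : ℂ) : 0 ≤ gauge z := by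
  unfold gauge
  by_contra h
  push Not at h
  rw [max_lt_iff, max_lt_iff] at h
  obtain ⟨h1, h2, h3⟩ := h
  have : 0 < (z.re + 2 * z.im) / √5 := div_pos (by linarith) sqrt5_pos
  linarith

lemma abs_lin_le (v : ℂ) : |v.re + 2 * v.im| ≤ √5 * ‖v‖ := by
  apply abs_le_of_sq_le_sq _ (by positivity)
  rw [mul_pow, sqrt5_sq, ← Complex.normSq_eq_norm_sq, Complex.normSq_apply]
  nlinarith [sq_nonneg (2 * v.re - v.im)]

lemma gauge_le (z z' : ℂ) : gauge z ≤ gauge z' + ‖z - z'‖ := by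
  unfold gauge
  have hr : |z.re - z'.re| ≤ ‖z - z'‖ := by
    simpa using Complex.abs_re_le_norm (z - z')
  have hi : |z.im - z'.im| ≤ ‖z - z'‖ := by
    simpa using Complex.abs_im_le_norm (z - z')
  have hl : |(z.re + 2 * z.im) - (z'.re + 2 * z'.im)| ≤ √5 * ‖z - z'‖ := by
    have := abs_lin_le (z - z')
    rw [Complex.sub_re, Complex.sub_im] at this
    calc _ = |z.re - z'.re + 2 * (z.im - z'.im)| := by congr 1; ring
      _ ≤ _ := this
  apply max_le
  · have := neg_abs_le (z.re - z'.re)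
    have h2 := le_max_left (-z'.re) (max (-z'.im) ((z'.re + 2 * z'.im) / √5))
    linarith
  · apply max_le
    · have := neg_abs_le (z.im - z'.im)
      have h2 := le_max_right (-z'.re) (max (-z'.im) ((z'.re + 2 * z'.im) / √5))
      have h3 := le_max_left (-z'.im) ((z'.re + 2 * z'.im) / √5)
      linarith
    · have h1 := le_abs_self ((z.re + 2 * z.im) - (z'.re + 2 * z'.im))
      have h2 := le_max_right (-z'.re) (max (-z'.im) ((z'.re + 2 * z'.im) / √5))
      have h3 := le_max_right (-z'.im) ((z'.re + 2 * z'.im) / √5)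
      have h4 : (z.re + 2 * z.im) / √5 ≤ (z'.re + 2 * z'.im) / √5 + ‖z - z'‖ := by
        rw [div_le_iff₀ sqrt5_pos, add_mul, div_mul_cancel₀ _ sqrt5_pos.ne']
        linarith
      linarith

lemma gauge_smul (r : ℝ) (hr : 0 ≤ r) (z : ℂ) : gauge (r • z) = r * gauge z := by
  unfold gauge
  simp only [Complex.smul_re, Complex.smul_im, smul_eq_mul]
  rw [mul_max_of_nonneg _ _ hr, mul_max_of_nonneg _ _ hr]
  congr 1
  · ring
  · congr 1
    · ring
    · ring

lemma gauge_le_iff (z : ℂ) (r : ℝ) : gauge z ≤ r ↔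
    -r ≤ z.re ∧ -r ≤ z.im ∧ z.re + 2 * z.im ≤ √5 * r := by
  unfold gauge
  rw [max_le_iff, max_le_iff, div_le_iff₀ sqrt5_pos]
  constructor
  · rintro ⟨h1, h2, h3⟩
    refine ⟨by linarith, by linarith, by linarith⟩
  · rintro ⟨h1, h2, h3⟩
    refine ⟨by linarith, by linarith, by linarith⟩

lemma mem_proto_iff (z : ℂ) : z ∈ proto ↔ gauge (z - oo) ≤ rho := by
  rw [gauge_le_iff]
  have h1 : (z - oo).re = z.re - rho := by simp [oo]
  have h2 : (z - oo).im = z.im - rho := by simp [oo]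
  rw [h1, h2]
  have h3 : √5 * rho + 3 * rho = 2 := by
    unfold rho
    have := sqrt5_sq
    nlinarith
  simp only [proto, Set.mem_ofPred_eq]
  constructor
  · rintro ⟨h, h', h''⟩
    refine ⟨by linarith, by linarith, by linarith⟩
  · rintro ⟨h, h', h''⟩
    refine ⟨by linarith, by linarith, by linarith⟩

lemma gt_nonneg (t : Tile) (x : ℂ) : 0 ≤ t.gt x :=
  mul_nonneg (norm_nonneg _) (gauge_nonneg _)

lemma gt_le (t : Tile) (hw : t.w ≠ 0) (x y : ℂ) : t.gt x ≤ t.gt y + ‖x - y‖ := by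
  unfold Tile.gt
  have hp : 0 < ‖t.w‖ := norm_pos_iff.2 hw
  have := gauge_le (tw t.s ((x - t.c) / t.w) - oo) (tw t.s ((y - t.c) / t.w) - oo)
  have e : ‖tw t.s ((x - t.c) / t.w) - oo - (tw t.s ((y - t.c) / t.w) - oo)‖ =
      ‖x - y‖ / ‖t.w‖ := by
    rw [sub_sub_sub_cancel_right, ← tw_sub, norm_tw, ← norm_div]
    congr 1
    ring
  rw [e] at this
  calc _ ≤ ‖t.w‖ * (gauge (tw t.s ((y - t.c) / t.w) - oo) + ‖x - y‖ / ‖t.w‖) :=
        mul_le_mul_of_nonneg_left this hp.le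
    _ = _ := by rw [mul_add, mul_div_cancel₀ _ hp.ne']

lemma gt_lip (t : Tile) (hw : t.w ≠ 0) (x y : ℂ) : |t.gt x - t.gt y| ≤ ‖x - y‖ := by
  rw [abs_le]
  have h1 := gt_le t hw x y
  have h2 := gt_le t hw y x
  rw [norm_sub_rev] at h2
  constructor <;> linarith

lemma gt_map (t : Tile) (hw : t.w ≠ 0) (z : ℂ) : t.gt (t.map z) = ‖t.w‖ * gauge (z - oo) := by
  unfold Tile.gt
  rw [inv_map t hw]

lemma gauge_zero : gauge 0 = 0 := by simp [gauge]

lemma gt_centre (t : Tile) (hw : t.w ≠ 0) : t.gt (t.map oo) = 0 := by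
  rw [gt_map t hw, sub_self, gauge_zero, mul_zero]

lemma mem_region (t : Tile) (hw : t.w ≠ 0) (x : ℂ) :
    x ∈ t.region ↔ t.gt x ≤ rho * ‖t.w‖ := by
  have hp : 0 < ‖t.w‖ := norm_pos_iff.2 hw
  have key : ∀ z, t.gt (t.map z) ≤ rho * ‖t.w‖ ↔ z ∈ proto := by
    intro z
    rw [gt_map t hw, mem_proto_iff, mul_comm, mul_le_mul_iff_left₀ hp]
  constructor
  · rintro ⟨z, hz, rfl⟩
    exact (key z).2 hz
  · intro h
    rw [← map_inv t hw x] at h ⊢
    exact ⟨_, (key _).1 h, rfl⟩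

lemma gt_cont (t : Tile) (hw : t.w ≠ 0) : Continuous t.gt := by
  have : LipschitzWith 1 t.gt := by
    apply LipschitzWith.of_dist_le_mul
    intro x y
    rw [Real.dist_eq, dist_eq_norm]
    simpa using gt_lip t hw x y
  exact this.continuous

lemma mem_interior (t : Tile) (hw : t.w ≠ 0) (x : ℂ) :
    x ∈ interior t.region ↔ t.gt x < rho * ‖t.w‖ := by
  have hp : 0 < ‖t.w‖ := norm_pos_iff.2 hw
  constructor
  · intro h
    obtain ⟨z, rfl⟩ : ∃ z, t.map z = x := ⟨_, map_inv t hw x⟩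
    by_contra hlt
    push Not at hlt
    have hmem : t.map z ∈ t.region := interior_subset h
    have heq : t.gt (t.map z) = rho * ‖t.w‖ := le_antisymm ((mem_region t hw _).1 hmem) hlt
    -- push outwards
    have hc : Continuous (fun e : ℝ => t.map (oo + (1 + e) • (z - oo))) :=
      (map_cont t).comp (by fun_prop)
    have h0 : (fun e : ℝ => t.map (oo + (1 + e) • (z - oo))) 0 ∈ interior t.region := by
      simpa using h
    have hev := (hc.tendsto 0).eventually (isOpen_interior.mem_nhds h0)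
    obtain ⟨δ, hδ, hball⟩ := Metric.eventually_nhds_iff.1 hev
    have h1 := hball (y := δ / 2) (by rw [Real.dist_eq]; rw [abs_of_pos (by linarith)]; linarith)
    have h2 := (mem_region t hw _).1 (interior_subset h1)
    rw [gt_map t hw] at h2 heq
    have e1 : oo + (1 + δ / 2) • (z - oo) - oo = (1 + δ / 2) • (z - oo) := by ring
    rw [e1, gauge_smul _ (by linarith)] at h2
    have hr := rho_pos
    have h3 : ‖t.w‖ * ((1 + δ / 2) * gauge (z - oo)) = (1 + δ / 2) * (rho * ‖t.w‖) := by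
      rw [← heq]; ring
    rw [h3] at h2
    have : 0 < rho * ‖t.w‖ := by positivity
    nlinarith
  · intro h
    have hopen : IsOpen {x | t.gt x < rho * ‖t.w‖} :=
      isOpen_lt (gt_cont t hw) continuous_const
    have hsub : {x | t.gt x < rho * ‖t.w‖} ⊆ t.region := fun y hy => (mem_region t hw y).2 (le_of_lt hy)
    exact interior_maximal hsub hopen h

lemma gauge_set (r : ℝ) : {z : ℂ | gauge z ≤ r} = tri (-r) (-r) ((3 + √5) / 2 * r) := by
  ext z
  simp only [Set.mem_ofPred_eq, gauge_le_iff, tri]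
  constructor
  · rintro ⟨h1, h2, h3⟩
    refine ⟨h1, h2, by linarith⟩
  · rintro ⟨h1, h2, h3⟩
    refine ⟨h1, h2, by linarith⟩

lemma gt_set (t : Tile) (hw : t.w ≠ 0) (r : ℝ) :
    {x | t.gt x ≤ r} = t.map '' ((fun z => oo + z) '' {z | gauge z ≤ r / ‖t.w‖}) := by
  have hp : 0 < ‖t.w‖ := norm_pos_iff.2 hw
  ext x
  constructor
  · intro h
    refine ⟨tw t.s ((x - t.c) / t.w), ⟨tw t.s ((x - t.c) / t.w) - oo, ?_, by ring⟩,
      map_inv t hw x⟩
    simp only [Set.mem_ofPred_eq]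
    rw [le_div_iff₀ hp, mul_comm]
    exact h
  · rintro ⟨_, ⟨z, hz, rfl⟩, rfl⟩
    simp only [Set.mem_ofPred_eq] at hz ⊢
    rw [gt_map t hw]
    rw [le_div_iff₀ hp, mul_comm] at hz
    simpa using hz

lemma gt_vol (t : Tile) (hw : t.w ≠ 0) (r : ℝ) (hr : 0 ≤ r) :
    volume {x | t.gt x ≤ r} = ENNReal.ofReal ((r / rho) ^ 2) := by
  have hp : 0 < ‖t.w‖ := norm_pos_iff.2 hw
  rw [gt_set t hw, vol_image]
  have h1 : volume ((fun z => oo + z) '' {z | gauge z ≤ r / ‖t.w‖}) =
      volume {z | gauge z ≤ r / ‖t.w‖} := by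
    have := measure_preimage_add (volume : Measure ℂ) (-oo) {z | gauge z ≤ r / ‖t.w‖}
    rw [← this]
    congr 1
    rw [Set.image_add_left]
  have hrr : 0 ≤ r / ‖t.w‖ := by positivity
  rw [h1, gauge_set, vol_tri _ _ _ (by positivity), ← ENNReal.ofReal_mul (by positivity)]
  congr 1
  have h5 := sqrt5_sq
  have h3 : (3 + √5) / 2 = 1 / rho := by
    rw [eq_div_iff rho_pos.ne']
    unfold rho
    nlinarith
  rw [h3]
  have hr0 := rho_pos.ne'
  field_simp

lemma gt_area (t : Tile) (hw : t.w ≠ 0) (r : ℝ) (hr : 0 ≤ r) :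
    volume.real {x | t.gt x ≤ r} = (r / rho) ^ 2 := by
  unfold Measure.real
  rw [gt_vol t hw r hr, ENNReal.toReal_ofReal (by positivity)]

lemma gt_area_fin (t : Tile) (hw : t.w ≠ 0) (r : ℝ) : volume {x | t.gt x ≤ r} ≠ ⊤ := by
  have h : {x | t.gt x ≤ r} ⊆ {x | t.gt x ≤ max r 0} := by
    intro x hx
    rw [Set.mem_ofPred_eq] at hx ⊢
    exact le_trans hx (le_max_left _ _)
  exact ne_top_of_le_ne_top (by rw [gt_vol t hw _ (le_max_right _ _)]; exact ENNReal.ofReal_ne_top)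
    (measure_mono h)

end GeoM

open GeoM in
theorem specGeo : SpecGeo where
  map_comp := map_comp
  comp_child := comp_child
  child_map := child_map
  map_dist := map_dist
  compact := compact
  convex := convex
  area := area
  diam := diam
  verts_sub := verts_sub
  child_w := child_w
  region_child := region_child
  child_null := child_null
  child_int := child_int
  sum_area := sum_area
  gt_nonneg := gt_nonneg
  gt_lip := gt_lip
  gt_centre := gt_centre
  mem_region := mem_region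
  mem_interior := mem_interior
  gt_area := gt_area
  gt_area_fin := gt_area_fin

end

end Pool.Agent.Lib.MPd437ed
end

section
/-!
# LAT: corners of the parts of the supertile lie in `w ℤ[i]`
-/
namespace Pool.Agent.Lib.MPd437ed

open Complex

namespace LatM

theorem isG_zero : IsG 0 := ⟨0, 0, by simp⟩

theorem isG_add {x y : ℂ} (hx : IsG x) (hy : IsG y) : IsG (x + y) := by
  obtain ⟨a, b, rfl⟩ := hx
  obtain ⟨c, d, rfl⟩ := hy
  exact ⟨a + c, b + d, by push_cast; ring⟩

theorem isG_mul {x y : ℂ} (hx : IsG x) (hy : IsG y) : IsG (x * y) := by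
  obtain ⟨a, b, rfl⟩ := hx
  obtain ⟨c, d, rfl⟩ := hy
  refine ⟨a * c - b * d, a * d + b * c, ?_⟩
  push_cast
  linear_combination ((b : ℂ) * d) * I_sq

theorem isG_tw {x : ℂ} (s : Bool) (hx : IsG x) : IsG (tw s x) := by
  cases s
  · obtain ⟨a, b, rfl⟩ := hx
    refine ⟨a, -b, ?_⟩
    simp [tw]
  · simpa [tw] using hx

theorem tw_mul (s : Bool) (x y : ℂ) : tw s (x * y) = tw s x * tw s y := by
  cases s <;> simp [tw]

theorem varpi_ne : ϖ ≠ 0 := by
  intro h
  have := congrArg Complex.re h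
  simp [ϖ] at this

theorem isG_varpi : IsG ϖ := ⟨2, 1, by simp [ϖ]⟩

theorem fac_ne (i : Fin 5) : fac i ≠ 0 := by
  fin_cases i <;> simp [fac]

/-- inverses of the units -/
theorem isG_fac_inv (i : Fin 5) : IsG (fac i)⁻¹ := by
  fin_cases i
  · exact ⟨0, 1, by simp [fac]⟩
  · exact ⟨1, 0, by simp [fac]⟩
  · exact ⟨1, 0, by simp [fac]⟩
  · exact ⟨-1, 0, by simp [fac]⟩
  · exact ⟨1, 0, by simp [fac]⟩

theorem isG_off (i : Fin 5) : IsG (off i) := by
  fin_cases i
  · exact ⟨0, 2, by simp [off]⟩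
  · exact ⟨2, 2, by simp [off]⟩
  · exact ⟨0, 1, by simp [off]⟩
  · exact ⟨2, 2, by simp [off]⟩
  · exact ⟨0, 1, by simp [off]⟩

theorem child_c (t : Tile) (i : Fin 5) {z : ℂ} (hz : IsG z) (h : t.c = t.w * z) :
    ∃ z', IsG z' ∧ (t.child i).c = (t.child i).w * z' := by
  refine ⟨z * tw t.s (ϖ * (fac i)⁻¹) + tw t.s (off i * (fac i)⁻¹),
    isG_add (isG_mul hz (isG_tw _ (isG_mul isG_varpi (isG_fac_inv i))))
      (isG_tw _ (isG_mul (isG_off i) (isG_fac_inv i))), ?_⟩
  have h1 : tw t.s (fac i / ϖ) * tw t.s (ϖ * (fac i)⁻¹) = 1 := by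
    rw [← tw_mul]
    have : fac i / ϖ * (ϖ * (fac i)⁻¹) = 1 := by
      field_simp [varpi_ne, fac_ne i]
    rw [this]
    cases t.s <;> simp [tw]
  have h2 : tw t.s (fac i / ϖ) * tw t.s (off i * (fac i)⁻¹) = tw t.s (off i / ϖ) := by
    rw [← tw_mul]
    congr 1
    field_simp [varpi_ne, fac_ne i]
  show t.c + t.w * tw t.s (off i / ϖ) = t.w * tw t.s (fac i / ϖ) * _
  rw [h]
  linear_combination (-t.w * z) * h1 - t.w * h2

theorem desc_c : ∀ (n : ℕ) (t P : Tile), P ∈ desc n t → (∃ z, IsG z ∧ t.c = t.w * z) →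
    ∃ z, IsG z ∧ P.c = P.w * z
  | 0, t, P, hP, h => by
      have : P = t := hP
      rw [this]; exact h
  | n + 1, t, P, hP, ⟨z, hz, h⟩ => by
      obtain ⟨i, hi⟩ := Set.mem_iUnion.1 hP
      exact desc_c n (t.child i) P hi (child_c t i hz h)

end LatM

theorem specLat : SpecLat := by
  intro h n P hP
  exact LatM.desc_c n (SS h) P hP ⟨0, LatM.isG_zero, by simp [SS]⟩

end Pool.Agent.Lib.MPd437ed
end

section
/-! # PAC: packings by unit tiles -/
set_option autoImplicit false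

namespace Pool.Agent.Lib.MPd437ed

open MeasureTheory Filter Topology Complex

noncomputable section

namespace PacM

theorem rho_pos : 0 < rho := by
  rw [rho]
  have : √5 < 3 := by
    rw [Real.sqrt_lt' (by norm_num)]
    norm_num
  linarith

theorem sqrt5_lt : √5 < 2.24 := by
  rw [Real.sqrt_lt' (by norm_num)]
  norm_num

/-- a smaller concentric triangle -/
def core (t : Tile) : Set ℂ := {x | t.gt x ≤ rho / 2 * ‖t.w‖}

section geo

variable (hG : SpecGeo)
include hG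

theorem gt_cont (t : Tile) (ht : t.w ≠ 0) : Continuous t.gt := by
  have h : LipschitzWith 1 t.gt := by
    apply LipschitzWith.of_dist_le_mul
    intro x y
    rw [Real.dist_eq, dist_eq_norm, NNReal.coe_one, one_mul]
    exact hG.gt_lip t ht x y
  exact h.continuous

theorem core_meas (t : Tile) (ht : t.w ≠ 0) : MeasurableSet (core t) :=
  (isClosed_le (gt_cont hG t ht) continuous_const).measurableSet

theorem core_area (t : Tile) (ht : t.w ≠ 0) : volume.real (core t) = ‖t.w‖ ^ 2 / 4 := by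
  have h1 := rho_pos
  rw [core, hG.gt_area t ht _ (by positivity)]
  field_simp
  norm_num

theorem core_int (t : Tile) (ht : t.w ≠ 0) : core t ⊆ interior t.region := by
  intro x hx
  rw [hG.mem_interior t ht]
  have h1 : t.gt x ≤ rho / 2 * ‖t.w‖ := hx
  have h2 := rho_pos
  have h3 : 0 < ‖t.w‖ := norm_pos_iff.mpr ht
  nlinarith [mul_pos h2 h3]

theorem core_sub (t : Tile) (ht : t.w ≠ 0) : core t ⊆ t.region :=
  (core_int hG t ht).trans interior_subset

/-- counting tiles by area -/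
theorem count (T : Finset Tile) (hT : ∀ t ∈ T, ‖t.w‖ = 1)
    (hd : ∀ t ∈ T, ∀ t' ∈ T, t ≠ t' → Disjoint (interior t.region) (interior t'.region))
    (A : Set ℂ) (hAf : volume A ≠ ⊤) (hA : ∀ t ∈ T, t.region ⊆ A) :
    (T.card : ℝ) ≤ 4 * volume.real A := by
  have hw : ∀ t ∈ T, t.w ≠ 0 := fun t ht h => by
    have := hT t ht
    rw [h, norm_zero] at this
    exact zero_ne_one this
  have h1 : volume.real (⋃ t ∈ T, core t) = ∑ t ∈ T, volume.real (core t) := by
    apply measureReal_biUnion_finset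
    · intro t ht t' ht' hne
      exact (hd t ht t' ht' hne).mono (core_int hG t (hw t ht)) (core_int hG t' (hw t' ht'))
    · intro t ht
      exact core_meas hG t (hw t ht)
    · intro t ht
      exact ne_top_of_le_ne_top hAf
        (measure_mono ((core_sub hG t (hw t ht)).trans (hA t ht)))
  have h2 : ∑ t ∈ T, volume.real (core t) = T.card / 4 := by
    rw [Finset.sum_congr rfl fun t ht => by
      rw [core_area hG t (hw t ht), hT t ht], Finset.sum_const, nsmul_eq_mul]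
    ring
  have h3 : volume.real (⋃ t ∈ T, core t) ≤ volume.real A := by
    apply measureReal_mono _ hAf
    exact Set.iUnion₂_subset fun t ht => (core_sub hG t (hw t ht)).trans (hA t ht)
  rw [h1, h2] at h3
  linarith

omit hG in
theorem verts_card (t : Tile) : t.verts.Finite ∧ t.verts.ncard ≤ 3 := by
  rw [Tile.verts]
  refine ⟨Set.toFinite _, ?_⟩
  refine (Set.ncard_insert_le _ _).trans ?_
  have := Set.ncard_insert_le (t.map 2) {t.map I}
  rw [Set.ncard_singleton] at this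
  omega

omit hG in
/-- counting vertices -/
theorem verts_count (T : Finset Tile) (X : Set ℂ) (hX : X ⊆ ⋃ t ∈ T, t.verts) :
    X.Finite ∧ (X.ncard : ℝ) ≤ 3 * T.card := by
  classical
  have hfin : (⋃ t ∈ T, t.verts).Finite :=
    Set.Finite.biUnion (Finset.finite_toSet T) fun t _ => (verts_card t).1
  refine ⟨hfin.subset hX, ?_⟩
  have h1 : X.ncard ≤ (⋃ t ∈ T, t.verts).ncard := Set.ncard_le_ncard hX hfin
  have h2 : ∀ T' : Finset Tile, (⋃ t ∈ T', t.verts).ncard ≤ 3 * T'.card := by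
    intro T'
    induction T' using Finset.induction_on with
    | empty => simp
    | insert t T' ht ih =>
      rw [Finset.set_biUnion_insert, Finset.card_insert_of_notMem ht]
      have h3 := Set.ncard_union_le t.verts (⋃ t ∈ T', t.verts)
      have h4 := (verts_card t).2
      omega
  exact_mod_cast h1.trans (h2 T)

end geo

theorem vol_ball (x : ℂ) (R : ℝ) (hR : 0 ≤ R) :
    volume.real (Metric.closedBall x R) = Real.pi * R ^ 2 ∧
      volume (Metric.closedBall x R) ≠ ⊤ := by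
  refine ⟨?_, (isCompact_closedBall x R).measure_ne_top⟩
  rw [Measure.real, Complex.volume_closedBall, ENNReal.toReal_mul, ENNReal.toReal_pow,
    ENNReal.toReal_ofReal hR, ENNReal.coe_toReal, NNReal.coe_real_pi, mul_comm]

end PacM

open PacM in
theorem specPac (hG : SpecGeo) : SpecPac := by
  refine ⟨220, by norm_num, fun 𝒰 h𝒰 x r hr => ?_⟩
  set U : Set Tile := {t ∈ 𝒰 | (t.region ∩ Metric.closedBall x r).Nonempty} with hU
  have hs5 := sqrt5_lt
  have hs0 : 0 ≤ √5 := Real.sqrt_nonneg 5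
  have hpi := Real.pi_lt_d2
  have hpi0 := Real.pi_pos
  have hbound : ∀ T : Finset Tile, (T : Set Tile) ⊆ U → (T.card : ℝ) ≤ 70 * (1 + r) ^ 2 := by
    intro T hT
    obtain ⟨hv, hf⟩ := vol_ball x (r + √5) (by positivity)
    have h1 := count hG T (fun t ht => h𝒰.1 t (hT ht).1)
      (fun t ht t' ht' hne => h𝒰.2 t (hT ht).1 t' (hT ht').1 hne)
      (Metric.closedBall x (r + √5)) hf (fun t ht => by
        obtain ⟨y, hy, hyx⟩ := (hT ht).2
        intro z hz
        have h2 := hG.diam t z hz y hy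
        rw [h𝒰.1 t (hT ht).1, mul_one] at h2
        rw [Metric.mem_closedBall] at hyx ⊢
        have h3 := dist_triangle z y x
        rw [dist_eq_norm z y] at h3
        linarith)
    rw [hv] at h1
    have h4 : r + √5 ≤ 2.24 * (1 + r) := by linarith
    have h5 : (r + √5) ^ 2 ≤ (2.24 * (1 + r)) ^ 2 := by
      apply pow_le_pow_left₀ (by positivity) h4
    calc (T.card : ℝ) ≤ 4 * (Real.pi * (r + √5) ^ 2) := h1
      _ ≤ 4 * (3.15 * (2.24 * (1 + r)) ^ 2) := by
          apply mul_le_mul_of_nonneg_left _ (by norm_num)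
          exact mul_le_mul hpi.le h5 (by positivity) (by norm_num)
      _ ≤ 70 * (1 + r) ^ 2 := by nlinarith [sq_nonneg (1 + r)]
  have hUf : U.Finite := by
    by_contra hinf
    obtain ⟨T, hT, hTc⟩ := Set.Infinite.exists_subset_card_eq hinf (⌈70 * (1 + r) ^ 2⌉₊ + 1)
    have h1 := hbound T hT
    rw [hTc] at h1
    push_cast at h1
    have h2 := Nat.le_ceil (70 * (1 + r) ^ 2)
    linarith
  have hUc : (U.ncard : ℝ) ≤ 70 * (1 + r) ^ 2 := by
    have h1 := hbound hUf.toFinset (by rw [Set.Finite.coe_toFinset])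
    rwa [← Set.ncard_eq_toFinset_card U hUf] at h1
  obtain ⟨h1, h2⟩ := verts_count hUf.toFinset (vertexSet 𝒰 ∩ Metric.closedBall x r) (by
    rintro v ⟨hv, hvx⟩
    rw [vertexSet, Set.mem_iUnion₂] at hv
    obtain ⟨t, ht, hvt⟩ := hv
    rw [Set.mem_iUnion₂]
    refine ⟨t, ?_, hvt⟩
    rw [Set.Finite.mem_toFinset]
    exact ⟨ht, v, hG.verts_sub t hvt, hvx⟩)
  rw [← Set.ncard_eq_toFinset_card U hUf] at h2
  have h0 : 0 ≤ (1 + r) ^ 2 := by positivity
  refine ⟨hUf, ?_, h1, ?_⟩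
  · linarith
  · linarith

end

end Pool.Agent.Lib.MPd437ed
end

section
/-! # LCN: vertices near the boundary of a supertile -/
set_option autoImplicit false

namespace Pool.Agent.Lib.MPd437ed

open MeasureTheory Filter Topology Complex

noncomputable section

namespace LcnM

open PacM

section geo

variable (hG : SpecGeo) (hD : SpecDes)
include hG hD

omit hG in
theorem unit (N : ℕ) (S : Tile) (hS : ‖S.w‖ = √5 ^ N) (t : Tile) (ht : t ∈ desc N S) :
    ‖t.w‖ = 1 := by
  rw [hD.w N S t ht, hS]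
  have : (0 : ℝ) < √5 := by positivity
  field_simp

omit hG in
theorem vx_finite (N : ℕ) (S : Tile) : (Vx N S).Finite := by
  rw [Vx, vertexSet]
  exact (hD.fin N S).biUnion fun t _ => (verts_card t).1

theorem dS_nonneg (N : ℕ) (S : Tile) (hS : S.w ≠ 0) (x : ℂ) (hx : x ∈ Vx N S) :
    0 ≤ dS S x := by
  rw [Vx, vertexSet, Set.mem_iUnion₂] at hx
  obtain ⟨t, ht, hxt⟩ := hx
  have h1 : x ∈ S.region := hD.sub N S t ht (hG.verts_sub t hxt)
  rw [hG.mem_region S hS] at h1
  rw [dS]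
  linarith

omit hD in
/-- area of a band -/
theorem band (S : Tile) (hS : S.w ≠ 0) (d : ℝ) (hd : 0 ≤ d) :
    volume {x | rho * ‖S.w‖ - d ≤ S.gt x ∧ S.gt x ≤ rho * ‖S.w‖} ≠ ⊤ ∧
    volume.real {x | rho * ‖S.w‖ - d ≤ S.gt x ∧ S.gt x ≤ rho * ‖S.w‖} ≤ 2 * d * ‖S.w‖ / rho := by
  have hρ := rho_pos
  have hw : 0 < ‖S.w‖ := norm_pos_iff.mpr hS
  set R := rho * ‖S.w‖ with hR
  have hR0 : 0 < R := mul_pos hρ hw
  have hfin : volume {x | S.gt x ≤ R} ≠ ⊤ := hG.gt_area_fin S hS R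
  have hsub : {x | R - d ≤ S.gt x ∧ S.gt x ≤ R} ⊆ {x | S.gt x ≤ R} := fun x hx => hx.2
  have hA : volume.real {x | S.gt x ≤ R} = ‖S.w‖ ^ 2 := by
    rw [hG.gt_area S hS R hR0.le, hR]
    field_simp
  refine ⟨ne_top_of_le_ne_top hfin (measure_mono hsub), ?_⟩
  by_cases hdR : d ≤ R
  · -- every `η < R - d`: the band is in the difference
    have key : ∀ η, 0 < η → η ≤ R - d → volume.real {x | R - d ≤ S.gt x ∧ S.gt x ≤ R} ≤
        ‖S.w‖ ^ 2 - ((R - d - η) / rho) ^ 2 := by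
      intro η hη hη2
      have h1 : {x | R - d ≤ S.gt x ∧ S.gt x ≤ R} ⊆
          {x | S.gt x ≤ R} \ {x | S.gt x ≤ R - d - η} := by
        intro x hx
        refine ⟨hx.2, fun h => ?_⟩
        have h2 : S.gt x ≤ R - d - η := h
        linarith [hx.1]
      have h2 : {x | S.gt x ≤ R - d - η} ⊆ {x | S.gt x ≤ R} := by
        intro x hx
        have h3 : S.gt x ≤ R - d - η := hx
        show S.gt x ≤ R
        linarith
      have hmeas : MeasurableSet {x | S.gt x ≤ R - d - η} :=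
        (isClosed_le (gt_cont hG S hS) continuous_const).measurableSet
      have h3 := measureReal_mono h1 (ne_top_of_le_ne_top hfin (measure_mono Set.sdiff_subset))
      rw [measureReal_sdiff h2 hmeas, hA, hG.gt_area S hS _ (by linarith)] at h3
      exact h3
    by_cases hlt : d < R
    · have hlim : Filter.Tendsto (fun η : ℝ => ‖S.w‖ ^ 2 - ((R - d - η) / rho) ^ 2) (𝓝[>] 0)
          (𝓝 (‖S.w‖ ^ 2 - ((R - d - 0) / rho) ^ 2)) := by
        apply tendsto_nhdsWithin_of_tendsto_nhds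
        have hc : Continuous (fun η : ℝ => ‖S.w‖ ^ 2 - ((R - d - η) / rho) ^ 2) := by fun_prop
        exact hc.tendsto 0
      have h1 : volume.real {x | R - d ≤ S.gt x ∧ S.gt x ≤ R} ≤
          ‖S.w‖ ^ 2 - ((R - d - 0) / rho) ^ 2 := by
        apply ge_of_tendsto hlim
        have h2 : ∀ᶠ η : ℝ in 𝓝[>] 0, η ≤ R - d := by
          apply nhdsWithin_le_nhds
          exact Iic_mem_nhds (by linarith)
        filter_upwards [h2, self_mem_nhdsWithin] with η h3 h4
        exact key η h4 h3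
      refine h1.trans ?_
      rw [sub_zero, hR]
      have h5 : (rho * ‖S.w‖ - d) / rho = ‖S.w‖ - d / rho := by
        field_simp
      rw [h5]
      have h6 : 2 * d * ‖S.w‖ / rho = 2 * ‖S.w‖ * (d / rho) := by ring
      rw [h6]
      nlinarith [sq_nonneg (d / rho)]
    · have hdR' : d = R := le_antisymm hdR (not_lt.mp hlt)
      refine (measureReal_mono hsub hfin).trans ?_
      rw [hA, hdR', hR]
      have : 2 * (rho * ‖S.w‖) * ‖S.w‖ / rho = 2 * ‖S.w‖ ^ 2 := by field_simp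
      rw [this]
      nlinarith [sq_nonneg ‖S.w‖]
  · have hdR' : R ≤ d := (not_le.mp hdR).le
    refine (measureReal_mono hsub hfin).trans ?_
    rw [hA, le_div_iff₀ hρ]
    have h1 : R * ‖S.w‖ ≤ d * ‖S.w‖ := mul_le_mul_of_nonneg_right hdR' hw.le
    rw [hR] at h1
    nlinarith [mul_nonneg hd hw.le]

theorem count_band (N : ℕ) (S : Tile) (hS : ‖S.w‖ = √5 ^ N) (r : ℝ) (hr : 0 ≤ r) :
    (({x ∈ Vx N S | dS S x ≤ r}).ncard : ℝ) ≤ 150 * (1 + r) * √5 ^ N := by
  classical
  have hs5 := sqrt5_lt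
  have hs0 : 0 < √5 := by positivity
  have hρ := rho_pos
  have hw : 0 < ‖S.w‖ := by rw [hS]; positivity
  have hSw : S.w ≠ 0 := norm_pos_iff.mp hw
  set T : Finset Tile := (hD.fin N S).toFinset.filter
    (fun t => ∃ x ∈ t.verts, dS S x ≤ r) with hT
  have hTd : ∀ t ∈ T, t ∈ desc N S ∧ ∃ x ∈ t.verts, dS S x ≤ r := by
    intro t ht
    rw [hT, Finset.mem_filter, Set.Finite.mem_toFinset] at ht
    exact ht
  obtain ⟨hf, hb⟩ := band hG S hSw (r + √5) (by positivity)
  have h1 := count hG T (fun t ht => unit hD N S hS t (hTd t ht).1)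
    (fun t ht t' ht' hne => hD.disj N S t t' (hTd t ht).1 (hTd t' ht').1 hne)
    {x | rho * ‖S.w‖ - (r + √5) ≤ S.gt x ∧ S.gt x ≤ rho * ‖S.w‖} hf (by
      intro t ht y hy
      obtain ⟨htd, x, hx, hxr⟩ := hTd t ht
      have h2 : y ∈ S.region := hD.sub N S t htd hy
      rw [hG.mem_region S hSw] at h2
      refine ⟨?_, h2⟩
      have h3 := hG.diam t x (hG.verts_sub t hx) y hy
      rw [unit hD N S hS t htd, mul_one] at h3
      have h4 := hG.gt_lip S hSw x y
      rw [dS] at hxr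
      have h5 := abs_le.mp h4
      linarith [h5.2])
  obtain ⟨-, h2⟩ := verts_count T {x ∈ Vx N S | dS S x ≤ r} (by
    rintro x ⟨hx, hxr⟩
    rw [Vx, vertexSet, Set.mem_iUnion₂] at hx
    obtain ⟨t, ht, hxt⟩ := hx
    rw [Set.mem_iUnion₂]
    refine ⟨t, ?_, hxt⟩
    rw [hT, Finset.mem_filter, Set.Finite.mem_toFinset]
    exact ⟨ht, x, hxt, hxr⟩)
  have h3 : r + √5 ≤ 2.24 * (1 + r) := by linarith
  have hρ2 : (0.38 : ℝ) ≤ rho := by
    rw [rho]
    linarith
  have h4 : 2 * (r + √5) * ‖S.w‖ / rho ≤ 2 * (2.24 * (1 + r)) * ‖S.w‖ / 0.38 := by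
    apply div_le_div₀ (by positivity) _ (by norm_num) hρ2
    apply mul_le_mul_of_nonneg_right _ hw.le
    linarith
  rw [hS] at h4 hb
  have h5 : 0 ≤ (1 + r) * √5 ^ N := by positivity
  calc (({x ∈ Vx N S | dS S x ≤ r}).ncard : ℝ) ≤ 3 * T.card := h2
    _ ≤ 3 * (4 * (2 * (2.24 * (1 + r)) * √5 ^ N / 0.38)) := by
        apply mul_le_mul_of_nonneg_left _ (by norm_num)
        refine h1.trans ?_
        apply mul_le_mul_of_nonneg_left _ (by norm_num)
        refine le_trans ?_ h4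
        rw [hS]
        exact hb
    _ ≤ 150 * (1 + r) * √5 ^ N := by
        have : 3 * (4 * (2 * (2.24 * (1 + r)) * √5 ^ N / 0.38)) =
          (3 * 4 * 2 * 2.24 / 0.38) * ((1 + r) * √5 ^ N) := by ring
        have h6 : 150 * (1 + r) * √5 ^ N = 150 * ((1 + r) * √5 ^ N) := by ring
        rw [this, h6]
        apply mul_le_mul_of_nonneg_right _ h5
        norm_num

omit hG hD in
theorem sum_sq' (M : ℕ) :
    ∑ n ∈ Finset.range (M + 1), 1 / ((n : ℝ) + 1) ^ 2 ≤ 2 - 1 / ((M : ℝ) + 1) := by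
  induction M with
  | zero => norm_num
  | succ M ih =>
    rw [Finset.sum_range_succ]
    have h2 : (0 : ℝ) < (M : ℝ) + 1 := by positivity
    have h3 : 1 / (((M + 1 : ℕ) : ℝ) + 1) ^ 2 ≤
        1 / ((M : ℝ) + 1) - 1 / (((M + 1 : ℕ) : ℝ) + 1) := by
      push_cast
      rw [div_sub_div _ _ (by positivity) (by positivity),
        div_le_div_iff₀ (by positivity) (by positivity)]
      nlinarith
    linarith

omit hG hD in
theorem sum_sq (M : ℕ) : ∑ n ∈ Finset.range M, 1 / ((n : ℝ) + 1) ^ 2 ≤ 2 := by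
  rcases M with _ | M
  · simp
  · have h1 := sum_sq' M
    have h2 : 0 < 1 / ((M : ℝ) + 1) := by positivity
    linarith

theorem sum_bound (N : ℕ) (S : Tile) (hS : ‖S.w‖ = √5 ^ N) :
    ∑ᶠ x ∈ Vx N S, 1 / (1 + dS S x) ^ 3 ≤ 600 * √5 ^ N := by
  classical
  have hw : 0 < ‖S.w‖ := by rw [hS]; positivity
  have hSw : S.w ≠ 0 := norm_pos_iff.mp hw
  have hfin := vx_finite hD N S
  have hd0 : ∀ x ∈ hfin.toFinset, 0 ≤ dS S x := by
    intro x hx
    rw [Set.Finite.mem_toFinset] at hx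
    exact dS_nonneg hG hD N S hSw x hx
  rw [finsum_mem_eq_finite_toFinset_sum _ hfin]
  set M : ℕ := hfin.toFinset.sup (fun x => ⌊dS S x⌋₊) + 1 with hM
  have hmaps : ∀ x ∈ hfin.toFinset, ⌊dS S x⌋₊ ∈ Finset.range M := by
    intro x hx
    rw [Finset.mem_range, hM, Nat.lt_succ_iff]
    exact Finset.le_sup (f := fun x => ⌊dS S x⌋₊) hx
  rw [← Finset.sum_fiberwise_of_maps_to hmaps]
  have hstep : ∀ n ∈ Finset.range M,
      ∑ x ∈ hfin.toFinset with ⌊dS S x⌋₊ = n, 1 / (1 + dS S x) ^ 3 ≤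
        300 * √5 ^ N * (1 / ((n : ℝ) + 1) ^ 2) := by
    intro n _
    have h1 : ∀ x ∈ hfin.toFinset.filter (fun x => ⌊dS S x⌋₊ = n),
        1 / (1 + dS S x) ^ 3 ≤ 1 / ((n : ℝ) + 1) ^ 3 := by
      intro x hx
      obtain ⟨hxV, hxn⟩ := Finset.mem_filter.mp hx
      have h2 := Nat.floor_le (hd0 x hxV)
      rw [hxn] at h2
      apply one_div_le_one_div_of_le (by positivity)
      apply pow_le_pow_left₀ (by positivity)
      linarith
    have h2 := Finset.sum_le_sum h1
    rw [Finset.sum_const, nsmul_eq_mul] at h2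
    have h3 : ((hfin.toFinset.filter (fun x => ⌊dS S x⌋₊ = n)).card : ℝ) ≤
        150 * (1 + ((n : ℝ) + 1)) * √5 ^ N := by
      refine le_trans ?_ (count_band hG hD N S hS ((n : ℝ) + 1) (by positivity))
      rw [Nat.cast_le, ← Set.ncard_coe_finset]
      apply Set.ncard_le_ncard _ (hfin.subset fun x hx => hx.1)
      intro x hx
      rw [Finset.mem_coe, Finset.mem_filter, Set.Finite.mem_toFinset] at hx
      refine ⟨hx.1, ?_⟩
      have h4 := Nat.lt_floor_add_one (dS S x)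
      rw [hx.2] at h4
      exact h4.le
    refine h2.trans ?_
    have h5 : (0 : ℝ) < (n : ℝ) + 1 := by positivity
    calc ((hfin.toFinset.filter (fun x => ⌊dS S x⌋₊ = n)).card : ℝ) * (1 / ((n : ℝ) + 1) ^ 3)
        ≤ (150 * (1 + ((n : ℝ) + 1)) * √5 ^ N) * (1 / ((n : ℝ) + 1) ^ 3) :=
          mul_le_mul_of_nonneg_right h3 (by positivity)
      _ ≤ (150 * (2 * ((n : ℝ) + 1)) * √5 ^ N) * (1 / ((n : ℝ) + 1) ^ 3) := by
          apply mul_le_mul_of_nonneg_right _ (by positivity)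
          apply mul_le_mul_of_nonneg_right _ (by positivity)
          have : (0 : ℝ) ≤ n := Nat.cast_nonneg n
          linarith
      _ = 300 * √5 ^ N * (1 / ((n : ℝ) + 1) ^ 2) := by
          field_simp
          norm_num
  refine (Finset.sum_le_sum hstep).trans ?_
  rw [← Finset.mul_sum]
  have h6 := sum_sq M
  have h7 : (0 : ℝ) ≤ 300 * √5 ^ N := by positivity
  calc 300 * √5 ^ N * ∑ n ∈ Finset.range M, 1 / ((n : ℝ) + 1) ^ 2 ≤ 300 * √5 ^ N * 2 :=
        mul_le_mul_of_nonneg_left h6 h7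
    _ = 600 * √5 ^ N := by ring

end geo

end LcnM

open LcnM in
theorem specLcn (hG : SpecGeo) (hD : SpecDes) : SpecLcn := by
  refine ⟨600, by norm_num, fun N S hS => ?_⟩
  have hw : 0 < ‖S.w‖ := by rw [hS]; positivity
  have hSw : S.w ≠ 0 := norm_pos_iff.mp hw
  refine ⟨vx_finite hD N S, fun x hx => dS_nonneg hG hD N S hSw x hx, fun r hr => ?_,
    sum_bound hG hD N S hS⟩
  refine (count_band hG hD N S hS r hr).trans ?_
  apply mul_le_mul_of_nonneg_right _ (by positivity)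
  apply mul_le_mul_of_nonneg_right _ (by positivity)
  norm_num

end

end Pool.Agent.Lib.MPd437ed
end

section
/-!
# LIM: radial kernels
-/
set_option linter.unusedSectionVars false

namespace Pool.Agent.Lib.MPd437ed

open MeasureTheory Filter Topology Complex

noncomputable section

namespace LimM

lemma vx_map (hG : SpecGeo) (hD : SpecDes) (n : ℕ) (S : Tile) :
    Vx n S = S.map '' Vx n ⟨0, 1, true⟩ := by
  unfold Vx vertexSet
  rw [hD.comp n S, Set.biUnion_image, Set.image_iUnion₂]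
  refine Set.iUnion₂_congr fun t _ => ?_
  unfold Tile.verts
  rw [hG.map_comp, hG.map_comp, hG.map_comp]
  rw [Set.image_insert_eq, Set.image_insert_eq, Set.image_singleton]

lemma map_inj (hG : SpecGeo) (S : Tile) (hS : S.w ≠ 0) : Function.Injective S.map := by
  intro z z' h
  have h1 := hG.map_dist S z z'
  rw [h, sub_self, norm_zero] at h1
  have h2 : ‖S.w‖ ≠ 0 := norm_ne_zero_iff.2 hS
  have h3 : ‖z - z'‖ = 0 := by
    rcases mul_eq_zero.1 h1.symm with h | h
    · exact absurd h h2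
    · exact h
  exact sub_eq_zero.1 (norm_eq_zero.1 h3)

lemma ps_image (K : ℂ → ℂ) (φ : ℂ → ℂ) (hφ : Function.Injective φ) (V : Set ℂ) :
    PS K (φ '' V) = ∑ᶠ p ∈ V ×ˢ V, K (φ p.1 - φ p.2) := by
  unfold PS
  have h : (φ '' V) ×ˢ (φ '' V) = Prod.map φ φ '' (V ×ˢ V) := by
    rw [Set.prodMap_image_prod]
  rw [h, finsum_mem_image ((hφ.prodMap hφ).injOn)]
  rfl

lemma ps_radial (hG : SpecGeo) (hD : SpecDes) (K : ℂ → ℂ)
    (hK : ∀ x y : ℂ, ‖x‖ = ‖y‖ → K x = K y) (n : ℕ) (S S' : Tile) (hS : S.w ≠ 0) (hS' : S'.w ≠ 0)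
    (h : ‖S.w‖ = ‖S'.w‖) : PS K (Vx n S) = PS K (Vx n S') := by
  rw [vx_map hG hD n S, vx_map hG hD n S', ps_image K _ (map_inj hG S hS),
    ps_image K _ (map_inj hG S' hS')]
  refine finsum_mem_congr rfl fun p _ => ?_
  refine hK _ _ ?_
  rw [hG.map_dist, hG.map_dist, h]

end LimM

open LimM

theorem specLim (hG : SpecGeo) (hD : SpecDes) (hCmp : SpecCmp) (hExt : SpecExt) : SpecLim := by
  obtain ⟨C, hC, hcmp⟩ := hCmp
  refine ⟨C, hC, ?_⟩
  intro 𝒯 h𝒯 γ hγ K A hKc hA hK hrad N S hS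
  obtain ⟨CN, hCN, hJ⟩ := hcmp 𝒯 h𝒯 N
  have h5 : (0 : ℝ) < √5 ^ N := by positivity
  have h5' : (√5 ^ N) * (√5 ^ N) = (5 : ℝ) ^ N := by
    rw [← mul_pow, Real.mul_self_sqrt (by norm_num)]
  have hSw : S.w ≠ 0 := by
    intro h
    rw [h, norm_zero] at hS
    exact h5.ne hS
  set g : ℂ := PS K (Vx N S) with hg
  set I : ℂ := ∫ x, K x ∂γ with hI
  have hlim := (hExt 𝒯 h𝒯 γ hγ K A hKc hA hK).2
  have h1 : Tendsto (fun R : ℝ => ‖((Real.pi * R ^ 2)⁻¹ : ℝ) *
      PS K (vertexSet 𝒯 ∩ Metric.closedBall 0 R) - (1 / 5 ^ N : ℝ) * g‖) atTop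
      (𝓝 ‖I - (1 / 5 ^ N : ℝ) * g‖) := (hlim.sub_const _).norm
  have h2 : Tendsto (fun R : ℝ => C * A * (1 / √5 ^ N + CN / Real.pi * R⁻¹) +
      (1 - (1 - CN * R⁻¹) ^ 2) * ‖((1 / 5 ^ N : ℝ) : ℂ) * g‖) atTop
      (𝓝 (C * A * (1 / √5 ^ N + CN / Real.pi * 0) +
        (1 - (1 - CN * 0) ^ 2) * ‖((1 / 5 ^ N : ℝ) : ℂ) * g‖)) := by
    have h0 := tendsto_inv_atTop_zero (𝕜 := ℝ)
    exact ((((h0.const_mul _).const_add _).const_mul _).add
      (((((h0.const_mul _).const_sub _).pow 2).const_sub _).mul_const _))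
  have h3 : C * A * (1 / √5 ^ N + CN / Real.pi * 0) +
        (1 - (1 - CN * 0) ^ 2) * ‖((1 / 5 ^ N : ℝ) : ℂ) * g‖ = C * A / √5 ^ N := by ring
  rw [h3] at h2
  refine le_of_tendsto_of_tendsto h1 h2 ?_
  filter_upwards [eventually_ge_atTop CN] with R hR
  obtain ⟨J, hJw, hJ1, hJ2, hJK⟩ := hJ R hR
  have hR0 : 0 < R := by linarith
  have hpi := Real.pi_pos
  have hsum : ∑ S' ∈ J, PS K (Vx N S') = (J.card : ℂ) * g := by
    rw [Finset.sum_congr rfl fun S' hS' => ?_, Finset.sum_const, nsmul_eq_mul]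
    refine ps_radial hG hD K hrad N S' S ?_ hSw ?_
    · intro h
      have := hJw S' hS'
      rw [h, norm_zero] at this
      exact h5.ne this
    · rw [hJw S' hS', hS]
  have h4 := hJK K A hA hK
  rw [hsum] at h4
  set P : ℂ := PS K (vertexSet 𝒯 ∩ Metric.closedBall 0 R)
  set v : ℝ := Real.pi * R ^ 2 with hv
  have hv0 : 0 < v := by positivity
  set n : ℝ := (J.card : ℝ) with hn
  have hn0 : 0 ≤ n := Nat.cast_nonneg _
  -- decomposition
  have e1 : ((v⁻¹ : ℝ) : ℂ) * P - (1 / 5 ^ N : ℝ) * g =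
      ((v⁻¹ : ℝ) : ℂ) * (P - (J.card : ℂ) * g) -
        ((1 - v⁻¹ * (n * 5 ^ N) : ℝ) : ℂ) * (((1 / 5 ^ N : ℝ) : ℂ) * g) := by
    have h5N : ((5 : ℂ) ^ N) ≠ 0 := pow_ne_zero _ (by norm_num)
    push_cast
    rw [hn]
    push_cast
    field_simp
    ring
  rw [e1]
  refine (norm_sub_le _ _).trans (add_le_add ?_ ?_)
  · rw [norm_mul, Complex.norm_real, Real.norm_of_nonneg (by positivity)]
    refine (mul_le_mul_of_nonneg_left h4 (by positivity)).trans ?_
    have e2 : v⁻¹ * (C * A * (n * √5 ^ N + CN * R)) =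
        C * A * (v⁻¹ * (n * √5 ^ N) + v⁻¹ * (CN * R)) := by ring
    rw [e2]
    refine mul_le_mul_of_nonneg_left (add_le_add ?_ (le_of_eq ?_)) (by positivity)
    · rw [inv_mul_le_iff₀ hv0, mul_one_div, le_div_iff₀ h5, mul_assoc, h5']
      exact hJ1
    · rw [hv]
      field_simp
  · rw [norm_mul, Complex.norm_real]
    refine mul_le_mul_of_nonneg_right ?_ (norm_nonneg _)
    have e3 : v⁻¹ * (n * 5 ^ N) ≤ 1 := by
      rw [inv_mul_le_iff₀ hv0, mul_one]
      exact hJ1
    rw [Real.norm_of_nonneg (by linarith)]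
    have e4 : (1 - CN * R⁻¹) ^ 2 ≤ v⁻¹ * (n * 5 ^ N) := by
      rw [← div_eq_inv_mul, le_div_iff₀ hv0]
      refine le_trans (le_of_eq ?_) hJ2
      rw [hv]
      field_simp
    linarith

end

end Pool.Agent.Lib.MPd437ed
end

section
/-! Modules MLOW and ELOW. -/
namespace Pool.Agent.Lib.MPd437ed

open MeasureTheory Filter Topology Complex

noncomputable section

namespace MlowM

lemma varpi_ne : ϖ ≠ 0 := by
  intro h
  have := congrArg Complex.re h
  simp [ϖ] at this

lemma gab_ne (α β : ℕ) : gab α β ≠ 0 := by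
  unfold gab
  exact mul_ne_zero (pow_ne_zero _ varpi_ne)
    (pow_ne_zero _ (by simpa using varpi_ne))

lemma normSq_varpi : ‖ϖ‖ ^ 2 = 5 := by
  rw [← Complex.normSq_eq_norm_sq]
  simp [ϖ, Complex.normSq_apply]
  norm_num

lemma norm_gab_sq (α β : ℕ) : ‖gab α β‖ ^ 2 = 5 ^ (α + β) := by
  unfold gab
  rw [norm_mul, norm_pow, norm_pow, RCLike.norm_conj, mul_pow, ← pow_mul, ← pow_mul,
    mul_comm α 2, mul_comm β 2, pow_mul, pow_mul, normSq_varpi, ← pow_add]

lemma norm_SS (h : ℕ) : ‖(SS h).w‖ = √5 ^ (2 * h) := by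
  have : √(5:ℝ) ^ 2 = 5 := Real.sq_sqrt (by norm_num)
  rw [pow_mul, this]
  simp [SS]

end MlowM

open MlowM

theorem specMlow (hP : SpecPig) (hC : SpecCls) : SpecMlow := by
  obtain ⟨c, hc, hP⟩ := hP
  obtain ⟨C, hCpos, hC⟩ := hC
  refine ⟨c ^ 2 / C, by positivity, fun m0 => ?_⟩
  obtain ⟨m, hm, α, β, hab, h⟩ := hP m0
  refine ⟨m, hm, α, β, hab, ?_⟩
  have h2 := hC (14 * m) m (SS (7 * m)) (gab α β)
    (by rw [norm_SS]; congr 1; ring) (gab_ne α β)
  have h3 : (c * 5 ^ (14 * m)) ^ 2 ≤ C * 5 ^ m * ((CP (Vx (14 * m) (SS (7 * m))) (gab α β)).ncard : ℝ) :=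
    le_trans (pow_le_pow_left₀ (by positivity) h 2) h2
  have h5 : (0:ℝ) < 5 ^ m := by positivity
  have e : (c * 5 ^ (14 * m)) ^ 2 = 5 ^ m * (c ^ 2 * 5 ^ (27 * m)) := by
    have : (5:ℝ) ^ (14 * m) * 5 ^ (14 * m) = 5 ^ m * 5 ^ (27 * m) := by
      rw [← pow_add, ← pow_add]; congr 1; ring
    calc (c * 5 ^ (14 * m)) ^ 2 = c ^ 2 * ((5:ℝ) ^ (14 * m) * 5 ^ (14 * m)) := by ring
      _ = _ := by rw [this]; ring
  rw [e] at h3
  have h6 : c ^ 2 * 5 ^ (27 * m) ≤ C * ((CP (Vx (14 * m) (SS (7 * m))) (gab α β)).ncard : ℝ) := by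
    have : 5 ^ m * (c ^ 2 * 5 ^ (27 * m)) ≤
        5 ^ m * (C * ((CP (Vx (14 * m) (SS (7 * m))) (gab α β)).ncard : ℝ)) := by
      calc _ ≤ _ := h3
        _ = _ := by ring
    exact le_of_mul_le_mul_left this h5
  rw [div_mul_eq_mul_div, div_le_iff₀ hCpos]
  linarith [h6]

namespace ElowM

lemma isG_one : IsG 1 := ⟨1, 0, by simp⟩
lemma isG_varpi : IsG ϖ := ⟨2, 1, by simp [ϖ]⟩
lemma isG_conj {z : ℂ} (h : IsG z) : IsG ((starRingEnd ℂ) z) := by
  obtain ⟨a, b, rfl⟩ := h
  exact ⟨a, -b, by simp⟩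
lemma isG_mul {z w : ℂ} (h : IsG z) (h' : IsG w) : IsG (z * w) := by
  obtain ⟨a, b, rfl⟩ := h
  obtain ⟨c, d, rfl⟩ := h'
  refine ⟨a * c - b * d, a * d + b * c, ?_⟩
  push_cast
  linear_combination (b * d : ℂ) * Complex.I_mul_I
lemma isG_pow {z : ℂ} (h : IsG z) (n : ℕ) : IsG (z ^ n) := by
  induction n with
  | zero => simpa using isG_one
  | succ n ih => rw [pow_succ]; exact isG_mul ih h
lemma isG_gab (α β : ℕ) : IsG (gab α β) :=
  isG_mul (isG_pow isG_varpi _) (isG_pow (isG_conj isG_varpi) _)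

lemma varpi_mul_conj : ϖ * (starRingEnd ℂ) ϖ = 5 := by
  rw [Complex.mul_conj, Complex.normSq_eq_norm_sq, normSq_varpi]; norm_num

lemma gab_mul (α β α' β' : ℕ) : gab α β * gab α' β' = gab (α + α') (β + β') := by
  unfold gab; ring

lemma gab_self (n : ℕ) : gab n n = 5 ^ n := by
  unfold gab; rw [← mul_pow, varpi_mul_conj]

end ElowM

open ElowM

theorem specElow (hM : SpecMlow) (hE : SpecEne) (hfin : SpecLcn) : SpecElow := by
  obtain ⟨c, hc, hM⟩ := hM
  obtain ⟨_, _, hfin⟩ := hfin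
  refine ⟨c / 4, by positivity, fun m0 => ?_⟩
  obtain ⟨m, hm, α, β, hab, h⟩ := hM m0
  refine ⟨m, hm, fun a H ha hH => ?_⟩
  have hα : α ≤ 7 * m := by omega
  have hβ : β ≤ 7 * m := by omega
  have hmul : (2 * ((5 ^ (7 * m) : ℕ) : ℂ)) = gab α β * (2 * gab (7 * m - α) (7 * m - β)) := by
    have : gab α β * gab (7 * m - α) (7 * m - β) = 5 ^ (7 * m) := by
      rw [gab_mul, show α + (7 * m - α) = 7 * m by omega, show β + (7 * m - β) = 7 * m by omega,
        gab_self]
    push_cast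
    linear_combination (-2 : ℂ) * this
  have hF : (Vx (14 * m) (SS (7 * m))).Finite :=
    (hfin (14 * m) (SS (7 * m)) (by rw [norm_SS]; congr 1; ring)).1
  have key := hE a H (5 ^ (7 * m)) (5 ^ m) (gab α β) (2 * gab (7 * m - α) (7 * m - β))
    (Vx (14 * m) (SS (7 * m))) ha hH (by positivity) (by positivity)
    (by rw [norm_gab_sq, hab]; push_cast; rfl) (isG_gab α β)
    (isG_mul ⟨2, 0, by simp⟩ (isG_gab _ _)) hmul hF
  refine le_trans ?_ (le_trans key (le_of_eq ?_))
  · have h5 : (0:ℝ) < 5 ^ (7 * m) := by positivity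
    have e1 : (5:ℝ) ^ (14 * m) * (5:ℝ) ^ (14 * m) = 5 ^ m * 5 ^ (27 * m) := by
      rw [← pow_add, ← pow_add]; congr 1; ring
    have e2 : ((5:ℝ) ^ (7 * m)) ^ 2 = 5 ^ (14 * m) := by rw [← pow_mul]; congr 1; ring
    have hx : (0:ℝ) < 5 ^ (14 * m) := by positivity
    have hy : (0:ℝ) < 5 ^ m := by positivity
    push_cast
    rw [e2]
    have hpa : 0 < Real.pi / a := by positivity
    have h7 : c * 5 ^ (14 * m) * 5 ^ (14 * m) ≤
        5 ^ m * ((CP (Vx (14 * m) (SS (7 * m))) (gab α β)).ncard : ℝ) := by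
      calc c * 5 ^ (14 * m) * 5 ^ (14 * m) = 5 ^ m * (c * 5 ^ (27 * m)) := by
            rw [mul_assoc, e1]; ring
        _ ≤ _ := mul_le_mul_of_nonneg_left h hy.le
    have h8 : c / 4 * (Real.pi / a) * 5 ^ (14 * m) =
        (Real.pi / a) * (c * 5 ^ (14 * m) * 5 ^ (14 * m)) / (4 * 5 ^ (14 * m)) := by
      field_simp
    rw [h8, div_le_iff₀ (by positivity)]
    calc Real.pi / a * (c * 5 ^ (14 * m) * 5 ^ (14 * m)) ≤
        Real.pi / a * (5 ^ m * ((CP (Vx (14 * m) (SS (7 * m))) (gab α β)).ncard : ℝ)) :=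
          mul_le_mul_of_nonneg_left h7 hpa.le
      _ = _ := by field_simp
  · congr 1
    apply Finset.sum_congr rfl
    intro s _
    push_cast
    rfl

end

end Pool.Agent.Lib.MPd437ed
end

section
/-!
NAT: no atoms outside the origin (MP_d437ed_an, III.11).
-/
noncomputable section

open Complex MeasureTheory Filter Topology
open scoped FourierTransform SchwartzMap ContDiff

namespace Pool.Agent.Lib.MPd437ed

namespace NatM

lemma pow_mod (n : ℕ) : ∃ a b : ℤ, (3 + 4 * I : ℂ) ^ (n + 1) = a + b * I ∧ b % 5 = 4 ∧ a % 5 = 3 := by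
  induction n with
  | zero => exact ⟨3, 4, by simp, by norm_num, by norm_num⟩
  | succ n ih =>
    obtain ⟨a, b, h, hb, ha⟩ := ih
    refine ⟨3 * a - 4 * b, 4 * a + 3 * b, ?_, by omega, by omega⟩
    rw [pow_succ, h]
    have h2 : I * I = -1 := I_mul_I
    push_cast
    linear_combination (4 * (b : ℂ)) * h2

lemma uu_eq : uu = (3 + 4 * I) / 5 := by
  unfold uu ϖ
  have h2 : I * I = -1 := I_mul_I
  have h3 : (starRingEnd ℂ) (2 + I) = 2 - I := by
    simp [map_ofNat, sub_eq_add_neg]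
  have h4 : (2 - I : ℂ) ≠ 0 := by
    intro h
    have := congrArg Complex.re h
    simp at this
  rw [h3, div_eq_div_iff h4 (by norm_num)]
  linear_combination (4 : ℂ) * h2

lemma norm_uu : ‖uu‖ = 1 := by
  unfold uu
  rw [norm_div, RCLike.norm_conj, div_self]
  unfold ϖ
  rw [norm_ne_zero_iff]
  intro h
  have := congrArg Complex.re h
  simp at this

lemma uu_ne : uu ≠ 0 := by
  intro h
  have := norm_uu
  rw [h] at this
  simp at this

lemma uu_pow_ne (n : ℕ) : uu ^ (n + 1) ≠ 1 := by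
  intro h
  obtain ⟨a, b, h1, hb, ha⟩ := pow_mod n
  rw [uu_eq, div_pow, h1, div_eq_one_iff_eq (pow_ne_zero _ (by norm_num))] at h
  have h2 := congrArg Complex.im h
  have h3 : ((5 : ℂ) ^ (n + 1)).im = 0 := by
    have : ((5 : ℂ) ^ (n + 1)) = (((5 : ℝ) ^ (n + 1) : ℝ) : ℂ) := by push_cast; rfl
    rw [this, Complex.ofReal_im]
  rw [h3] at h2
  simp at h2
  omega

lemma uu_pow_inj {k : ℂ} (hk : k ≠ 0) : Function.Injective (fun n : ℕ => uu ^ n * k) := by
  intro m n h
  simp only at h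
  have h1 : uu ^ m = uu ^ n := mul_right_cancel₀ hk h
  by_contra hne
  rcases Nat.lt_or_gt_of_ne hne with hlt | hlt
  · obtain ⟨d, rfl⟩ := Nat.exists_eq_add_of_lt hlt
    rw [add_assoc, pow_add] at h1
    exact uu_pow_ne d (mul_left_cancel₀ (pow_ne_zero m uu_ne) (by rw [mul_one]; exact h1.symm))
  · obtain ⟨d, rfl⟩ := Nat.exists_eq_add_of_lt hlt
    rw [add_assoc, pow_add] at h1
    exact uu_pow_ne d (mul_left_cancel₀ (pow_ne_zero n uu_ne) (by rw [mul_one]; exact h1))

/-- the rotation by `uu` -/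
def rotU : ℂ ≃ₗᵢ[ℝ] ℂ :=
  rotation ⟨uu, show uu ∈ Metric.sphere (0 : ℂ) 1 from by simpa using norm_uu⟩

lemma rotU_apply (x : ℂ) : rotU x = uu * x := rfl

lemma invariance {γ μ : Measure ℂ} (hγ : γ.map (fun x => uu * x) = γ)
    (hF : IsFourierTransform γ μ) (φ : 𝓢(ℂ, ℂ)) :
    ∫ k, φ (uu * k) ∂μ = ∫ k, φ k ∂μ := by
  set ψ : 𝓢(ℂ, ℂ) := SchwartzMap.compCLMOfContinuousLinearEquiv ℝ
    rotU.toContinuousLinearEquiv φ with hψ
  have hψa : ((ψ : 𝓢(ℂ, ℂ)) : ℂ → ℂ) = (φ : ℂ → ℂ) ∘ rotU := by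
    ext x; rfl
  have h1 := (hF.2 ψ).2.2
  have h2 := (hF.2 φ).2.2
  have h3 : ∀ x, 𝓕 (ψ : ℂ → ℂ) x = 𝓕 (φ : ℂ → ℂ) (uu * x) := by
    intro x
    rw [hψa, Real.fourier_comp_linearIsometry, rotU_apply]
  simp only [h3] at h1
  have h4 : ∫ x, 𝓕 (φ : ℂ → ℂ) (uu * x) ∂γ = ∫ x, 𝓕 (φ : ℂ → ℂ) x ∂γ := by
    conv_rhs => rw [← hγ]
    rw [integral_map (by fun_prop)]
    rw [hγ]
    exact (hF.2 φ).1.aestronglyMeasurable
  rw [h4, h2] at h1
  rw [h1]
  refine integral_congr_ae (Eventually.of_forall (fun x => ?_))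
  simp only [hψa, Function.comp_apply, rotU_apply]

/-- bump functions at `k` -/
def bump (k : ℂ) (n : ℕ) : ContDiffBump k where
  rIn := 1 / (2 * ((n : ℝ) + 1))
  rOut := 1 / ((n : ℝ) + 1)
  rIn_pos := by positivity
  rIn_lt_rOut := by
    apply one_div_lt_one_div_of_lt (by positivity)
    have : (0 : ℝ) ≤ n := Nat.cast_nonneg n
    linarith

/-- bump functions as Schwartz functions -/
def bumpS (k : ℂ) (n : ℕ) : 𝓢(ℂ, ℂ) :=
  HasCompactSupport.toSchwartzMap (f := fun x => ((bump k n x : ℝ) : ℂ))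
    ((bump k n).hasCompactSupport.comp_left (g := ((↑) : ℝ → ℂ)) Complex.ofReal_zero)
    (Complex.ofRealCLM.contDiff.comp (bump k n).contDiff)

lemma bumpS_apply (k : ℂ) (n : ℕ) (x : ℂ) : bumpS k n x = ((bump k n x : ℝ) : ℂ) := rfl

lemma tendsto_atom {μ : Measure ℂ} [IsFiniteMeasureOnCompacts μ] (k v : ℂ) (hv : v ≠ 0) :
    Tendsto (fun n : ℕ => ∫ x, bumpS k n (v * x) ∂μ) atTop
      (𝓝 ((μ.real {v⁻¹ * k} : ℝ) : ℂ)) := by
  have hone : ((μ.real {v⁻¹ * k} : ℝ) : ℂ) =
      ∫ x, ({v⁻¹ * k} : Set ℂ).indicator (fun _ => (1 : ℂ)) x ∂μ := by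
    rw [integral_indicator_const _ (measurableSet_singleton _)]
    simp
  rw [hone]
  set B : Set ℂ := Metric.closedBall (v⁻¹ * k) (‖v‖⁻¹) with hB
  have hv' : 0 < ‖v‖ := norm_pos_iff.2 hv
  refine tendsto_integral_of_dominated_convergence (B.indicator (fun _ => (1 : ℝ))) ?_ ?_ ?_ ?_
  · intro n
    apply Continuous.aestronglyMeasurable
    have : Continuous (bumpS k n) := (bumpS k n).continuous
    fun_prop
  · rw [integrable_indicator_iff Metric.isClosed_closedBall.measurableSet]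
    exact integrableOn_const (isCompact_closedBall _ _).measure_ne_top
  · intro n
    refine Eventually.of_forall (fun x => ?_)
    by_cases hx : x ∈ B
    · rw [Set.indicator_of_mem hx, bumpS_apply, Complex.norm_real, Real.norm_of_nonneg
        (bump k n).nonneg]
      exact (bump k n).le_one
    · rw [Set.indicator_of_notMem hx, bumpS_apply]
      have h0 : (bump k n) (v * x) = 0 := by
        apply (bump k n).zero_of_le_dist
        rw [hB, Metric.mem_closedBall, not_le, dist_eq_norm] at hx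
        have h1 : ‖v * x - k‖ = ‖v‖ * ‖x - v⁻¹ * k‖ := by
          rw [← norm_mul]
          congr 1
          field_simp
        rw [dist_eq_norm, h1]
        have h2 : 1 ≤ ‖v‖ * ‖x - v⁻¹ * k‖ := by
          have := mul_lt_mul_of_pos_left hx hv'
          rw [mul_inv_cancel₀ hv'.ne'] at this
          exact this.le
        refine le_trans ?_ h2
        change 1 / ((n : ℝ) + 1) ≤ 1
        rw [div_le_one (by positivity)]
        have : (0 : ℝ) ≤ n := Nat.cast_nonneg n
        linarith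
      rw [h0]
      simp
  · refine Eventually.of_forall (fun x => ?_)
    by_cases hx : x = v⁻¹ * k
    · rw [Set.indicator_of_mem (by simpa using hx)]
      refine tendsto_const_nhds.congr (fun n => ?_)
      have h1 : v * x = k := by rw [hx]; field_simp
      rw [bumpS_apply, h1, (bump k n).one_of_mem_closedBall
        (Metric.mem_closedBall_self (bump k n).rIn_pos.le)]
      simp
    · rw [Set.indicator_of_notMem (by simpa using hx)]
      have hd : 0 < dist (v * x) k := by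
        rw [dist_pos]
        intro h
        apply hx
        rw [← h]; field_simp
      obtain ⟨N, hN⟩ := exists_nat_one_div_lt hd
      refine tendsto_const_nhds.congr' ?_
      filter_upwards [eventually_ge_atTop N] with n hn
      have h0 : (bump k n) (v * x) = 0 := by
        apply (bump k n).zero_of_le_dist
        change 1 / ((n : ℝ) + 1) ≤ _
        refine le_trans ?_ hN.le
        apply one_div_le_one_div_of_le (by positivity)
        have : (N : ℝ) ≤ n := by exact_mod_cast hn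
        linarith
      rw [bumpS_apply, h0]
      simp

lemma atom_inv {γ μ : Measure ℂ} (hγ : γ.map (fun x => uu * x) = γ)
    (hF : IsFourierTransform γ μ) (k : ℂ) : μ {uu⁻¹ * k} = μ {k} := by
  have := hF.1
  have h1 := tendsto_atom (μ := μ) k uu uu_ne
  have h2 := tendsto_atom (μ := μ) k 1 one_ne_zero
  simp only [invariance hγ hF] at h1
  simp only [one_mul, inv_one] at h2
  have h3 := tendsto_nhds_unique h1 h2
  have h4 : μ.real {uu⁻¹ * k} = μ.real {k} := by exact_mod_cast h3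
  exact (measureReal_eq_measureReal_iff (isCompact_singleton.measure_ne_top)
    (isCompact_singleton.measure_ne_top)).1 h4

end NatM

theorem specNat (hRin : SpecRin) : SpecNat := by
  intro 𝒯 h𝒯 γ μ hγ hF k hk
  have hrot := hRin 𝒯 h𝒯 γ hγ
  have := hF.1
  have h1 : ∀ n : ℕ, μ {uu ^ n * k} = μ {k} := by
    intro n
    induction n with
    | zero => simp
    | succ n ih =>
      rw [← ih, ← NatM.atom_inv hrot hF (uu ^ (n + 1) * k)]
      congr 2
      rw [pow_succ]
      have := NatM.uu_ne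
      field_simp
  by_contra hne
  have hpos : 0 < μ {k} := pos_iff_ne_zero.2 hne
  have hfin := Measure.finite_const_le_meas_of_disjoint_iUnion μ hpos
    (As := fun n : ℕ => ({uu ^ n * k} : Set ℂ)) (fun n => measurableSet_singleton _)
    (fun m n hmn => by
      simp only [Function.onFun, Set.disjoint_singleton]
      exact fun h => hmn (NatM.uu_pow_inj hk h))
    (by
      refine ne_top_of_le_ne_top ((isCompact_closedBall (0 : ℂ) ‖k‖).measure_ne_top (μ := μ)) ?_
      apply measure_mono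
      intro x hx
      simp only [Set.mem_iUnion, Set.mem_singleton_iff] at hx
      obtain ⟨n, rfl⟩ := hx
      rw [mem_closedBall_zero_iff, norm_mul, norm_pow, NatM.norm_uu, one_pow, one_mul])
  have huniv : {n : ℕ | μ {k} ≤ μ {uu ^ n * k}} = Set.univ := by
    ext n; simp [h1 n]
  rw [huniv] at hfin
  exact Set.infinite_univ hfin

end Pool.Agent.Lib.MPd437ed
end
end
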