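import Pool.Agent.Lib.MP_d437ed_an.Sup

/-!
# PIG: one virtual family contains a positive fraction of the unit tiles
-/

set_option autoImplicit false

namespace Pool.Agent.Lib.MPd437ed

open MeasureTheory Filter Topology Complex

namespace PigM

noncomputable section

open Classical

lemma rho_bd : (0.38 : ℝ) ≤ rho ∧ 0 < rho := by
  have h : √5 ≤ 2.24 := by
    rw [Real.sqrt_le_left (by norm_num)]
    norm_num
  unfold rho
  constructor <;> linarith

/-- a tile which contains the incentre of another tile overlaps it substantially -/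
lemma overlap (hGeo : SpecGeo) {P Q : Tile} (hP : P.w ≠ 0) (hPQ : ‖Q.w‖ = ‖P.w‖)
    (hx : P.map oo ∈ Q.region) : a1 * ‖P.w‖ ^ 2 ≤ volume.real (P.region ∩ Q.region) := by
  have h5 : (0 : ℝ) < √5 := Real.sqrt_pos.2 (by norm_num)
  have h55 : √5 ^ 2 = 5 := Real.sq_sqrt (by norm_num)
  obtain ⟨hr1, hr0⟩ := rho_bd
  set x := P.map oo with hxdef
  set lam : ℝ := rho / √5 with hlam
  have hlam0 : 0 < lam := by positivity
  have h2 : (2 : ℝ) ≤ √5 := by
    apply Real.le_sqrt_of_sq_le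
    norm_num
  have hlam1 : lam ≤ 1 := by
    rw [hlam, div_le_one h5]
    unfold rho
    linarith
  have hsub : AffineMap.homothety x lam '' Q.region ⊆ P.region ∩ Q.region := by
    rintro _ ⟨y, hy, rfl⟩
    have e : AffineMap.homothety x lam y = x + (lam : ℂ) * (y - x) := by
      rw [AffineMap.homothety_apply]
      simp only [vsub_eq_sub, vadd_eq_add, real_smul]
      ring
    constructor
    · rw [hGeo.mem_region P hP]
      have h3 := hGeo.gt_lip P hP (AffineMap.homothety x lam y) x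
      rw [hxdef, hGeo.gt_centre P hP, ← hxdef, sub_zero] at h3
      have h4 : ‖AffineMap.homothety x lam y - x‖ ≤ rho * ‖P.w‖ := by
        rw [e, add_sub_cancel_left, norm_mul, norm_real, Real.norm_of_nonneg hlam0.le]
        calc lam * ‖y - x‖ ≤ lam * (√5 * ‖Q.w‖) :=
              mul_le_mul_of_nonneg_left (hGeo.diam Q y hy x hx) hlam0.le
          _ = rho * ‖P.w‖ := by
              rw [hlam, hPQ]
              field_simp
      exact (le_abs_self _).trans (h3.trans h4)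
    · have h3 := hGeo.convex Q hx hy (a := 1 - lam) (b := lam) (by linarith) hlam0.le (by ring)
      rw [e]
      have e2 : (1 - lam) • x + lam • y = x + (lam : ℂ) * (y - x) := by
        simp only [real_smul]
        push_cast
        ring
      rwa [e2] at h3
  have hvol : volume.real (AffineMap.homothety x lam '' Q.region) = lam ^ 2 * ‖P.w‖ ^ 2 := by
    rw [measureReal_def, Measure.addHaar_image_homothety, ENNReal.toReal_mul, ← measureReal_def,
      hGeo.area, hPQ, ENNReal.toReal_ofReal (abs_nonneg _), Complex.finrank_real_complex,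
      abs_of_nonneg (by positivity)]
  have hfin : volume (P.region ∩ Q.region) ≠ ⊤ :=
    ((measure_mono Set.inter_subset_right).trans_lt (hGeo.compact Q).measure_lt_top).ne
  calc a1 * ‖P.w‖ ^ 2 ≤ lam ^ 2 * ‖P.w‖ ^ 2 := by
        apply mul_le_mul_of_nonneg_right _ (by positivity)
        rw [hlam, div_pow, h55, a1]
        nlinarith
    _ = volume.real (AffineMap.homothety x lam '' Q.region) := hvol.symm
    _ ≤ _ := measureReal_mono hsub hfin

lemma PP_nonneg {f : Tile → ℝ} (hf : ∀ t, 0 ≤ f t) (n : ℕ) : ∀ t, 0 ≤ (PP Tile.child)^[n] f t := by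
  induction n with
  | zero => exact hf
  | succ n ih =>
    intro t
    rw [Function.iterate_succ_apply']
    unfold PP
    exact Finset.sum_nonneg fun i _ => ih _

lemma gab_ne (α β : ℕ) : gab α β ≠ 0 := by
  unfold gab
  exact mul_ne_zero (pow_ne_zero _ ChebM.varpi_ne) (pow_ne_zero _ ChebM.varpi_conj_ne)

lemma isG_neg {z : ℂ} (h : IsG z) : IsG (-z) := by
  obtain ⟨a, b, rfl⟩ := h
  exact ⟨-a, -b, by push_cast; ring⟩

lemma isG_natCast_mul {z : ℂ} (h : IsG z) : IsG z := h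

/-- the pair `(P, Q)` -/
lemma valid {P : Tile} {α β α' β' : ℕ} {ε z z₀ : ℂ} (hε : ε ^ 4 = 1)
    (hP : P.w = ε * ϖ ^ (α : ℤ) * (starRingEnd ℂ) ϖ ^ (β : ℤ)) (hc : P.c = P.w * z₀) (hz₀ : IsG z₀)
    (hz : IsG z) (hs : α + β = α' + β') (σ : ℂ) (hσ : σ = 1 ∨ σ = -1) :
    Valid ⟨P, ⟨gab α' β' * z, σ * gab α' β', true⟩, (α : ℤ) - α'⟩ := by
  have h1 := ChebM.varpi_ne
  have h2 := ChebM.varpi_conj_ne
  have hε0 : ε ≠ 0 := by
    rintro rfl
    norm_num at hε
  have hσ2 : σ * σ = 1 := by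
    rcases hσ with h | h <;> rw [h] <;> ring
  refine ⟨?_, ⟨ε * σ, ?_, ?_⟩, ⟨z₀, -(σ * z), hz₀, ?_, ?_⟩⟩
  · show P.w ≠ 0
    rw [hP]
    exact mul_ne_zero (mul_ne_zero hε0 (zpow_ne_zero _ h1)) (zpow_ne_zero _ h2)
  · rw [mul_pow, hε]
    rcases hσ with h | h <;> rw [h] <;> norm_num
  · show P.w = ε * σ * uu ^ ((α : ℤ) - α') * (σ * gab α' β')
    have e1 : ((α : ℤ) - α') = (β' : ℤ) - β := by
      have : (α : ℤ) + β = α' + β' := by exact_mod_cast hs
      linarith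
    have e2 : uu ^ ((α : ℤ) - α') * gab α' β' = ϖ ^ (α : ℤ) * (starRingEnd ℂ) ϖ ^ (β : ℤ) := by
      unfold uu gab
      rw [div_zpow, zpow_sub₀ h1, e1, zpow_sub₀ h2]
      simp only [zpow_natCast]
      field_simp
    calc P.w = ε * (ϖ ^ (α : ℤ) * (starRingEnd ℂ) ϖ ^ (β : ℤ)) := by rw [hP]; ring
      _ = ε * (uu ^ ((α : ℤ) - α') * gab α' β') := by rw [e2]
      _ = ε * (σ * σ) * uu ^ ((α : ℤ) - α') * gab α' β' := by rw [hσ2]; ring
      _ = _ := by ring
  · rcases hσ with h | h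
    · rw [h, one_mul]
      exact isG_neg hz
    · rw [h]
      have : -(-1 * z) = z := by ring
      rw [this]
      exact hz
  · show P.c - gab α' β' * z = P.w * z₀ + σ * gab α' β' * -(σ * z)
    rw [hc]
    have : σ * gab α' β' * -(σ * z) = -((σ * σ) * (gab α' β' * z)) := by ring
    rw [this, hσ2]
    ring

end

end PigM

open PigM

lemma SS_w (h : ℕ) : (SS h).w = 5 ^ h := rfl

lemma SS_norm (h n : ℕ) (hn : n = 2 * h) : ‖(SS h).w‖ = √5 ^ n := by
  rw [SS_w, norm_pow, hn, pow_mul, Real.sq_sqrt (by norm_num)]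
  simp

lemma SS_ne (h : ℕ) : (SS h).w ≠ 0 := by
  rw [SS_w]
  exact pow_ne_zero _ (by norm_num)

lemma pig_aux (hGeo : SpecGeo) (hDes : SpecDes) (hSam : SpecSam)
    (hCheb : SpecCheb) (hLat : SpecLat) (hCov : SpecCov) (C : ℕ) (c : ℝ) (hc : 0 < c)
    (K₀ L m J m0 : ℕ) (hK₀ : K₀ = 256 * (C + 1)) (hL : m0 + 60 ≤ L) (hm : m = (C + 1) * L ^ 2)
    (hmL : L ≤ m) (hJ1 : 1 ≤ J) (hJL : L ≤ 32 * J) (hJ16 : 16 * J ≤ L)
    (hLL : ∀ s, Valid s → 16 * |s.j| ≤ L → a1 * ‖s.P.w‖ ^ 2 ≤ mm s → c * ‖s.P.w‖ ^ 2 ≤ same m s) :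
    ∃ α β : ℕ, α + β = m ∧
    c * (3 / 4) / (2 * K₀ + 1) * 5 ^ (14 * m) ≤
      ((InV (14 * m) m (SS (7 * m)) (gab α β)).ncard : ℝ) := by
  classical
  obtain ⟨S, hS⟩ : ∃ S : Tile, S = SS (7 * m) := ⟨_, rfl⟩
  have hSw : S.w ≠ 0 := by
    rw [hS]
    exact SS_ne _
  have hSn : ‖S.w‖ = √5 ^ (14 * m) := by
    rw [hS]
    exact SS_norm _ _ (by ring)
  -- the good tiles
  set D := (hDes.fin (13 * m) S).toFinset with hD
  have hmemD : ∀ P, P ∈ D ↔ P ∈ desc (13 * m) S := fun P => Set.Finite.mem_toFinset _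
  set Gd := D.filter (fun P => ∃ (ε : ℂ) (α β : ℤ), ε ^ 4 = 1 ∧
      P.w = ε * ϖ ^ α * (starRingEnd ℂ) ϖ ^ β ∧ α + β = m ∧ (α - β) ^ 2 ≤ 4 * (13 * m : ℕ)) with hGd
  have hGcard : (3 / 4 : ℝ) * 5 ^ (13 * m) ≤ Gd.card := by
    have h1 := hCheb (7 * m) (13 * m) m (by ring)
    rw [← hS] at h1
    have h2 : {P ∈ desc (13 * m) S | ∃ (ε : ℂ) (α β : ℤ), ε ^ 4 = 1 ∧
      P.w = ε * ϖ ^ α * (starRingEnd ℂ) ϖ ^ β ∧ α + β = m ∧ (α - β) ^ 2 ≤ 4 * (13 * m : ℕ)} =
      (Gd : Set Tile) := by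
      ext P
      simp only [hGd, Finset.coe_filter, hmemD, Set.mem_ofPred_eq]
    rw [h2, Set.ncard_coe_finset] at h1
    exact h1
  -- natural exponents
  have hexp : ∀ P ∈ Gd, ∃ (ε : ℂ) (α β : ℕ), ε ^ 4 = 1 ∧
      P.w = ε * ϖ ^ (α : ℤ) * (starRingEnd ℂ) ϖ ^ (β : ℤ) ∧ α + β = m ∧
      |(2 * α - m : ℤ)| ≤ K₀ * J := by
    intro P hP
    obtain ⟨ε, α, β, hε, hw, hs, hd⟩ := (Finset.mem_filter.1 hP).2
    have hm52 : (52 : ℤ) ≤ m := by
      have : 52 ≤ m := by omega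
      exact_mod_cast this
    have hα : 0 ≤ α := by
      by_contra hcon
      have h1 : (α - β) ≤ -(m : ℤ) := by linarith
      push_cast at hd
      nlinarith
    have hβ : 0 ≤ β := by
      by_contra hcon
      have h1 : (m : ℤ) ≤ α - β := by linarith
      push_cast at hd
      nlinarith
    obtain ⟨α, rfl⟩ := Int.eq_ofNat_of_zero_le hα
    obtain ⟨β, rfl⟩ := Int.eq_ofNat_of_zero_le hβ
    refine ⟨ε, α, β, hε, hw, by exact_mod_cast hs, ?_⟩
    have h1 : (2 * α - m : ℤ) = α - β := by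
      have : (α : ℤ) + β = m := hs
      linarith
    rw [h1]
    apply abs_le_of_sq_le_sq _ (by positivity)
    have h2 : (m : ℤ) = (C + 1) * (L : ℤ) ^ 2 := by
      rw [hm]
      push_cast
      ring
    have h3 : (L : ℤ) ^ 2 ≤ (32 * J : ℤ) ^ 2 := by
      apply pow_le_pow_left₀ (by positivity)
      exact_mod_cast hJL
    calc ((α : ℤ) - β) ^ 2 ≤ 4 * (13 * m : ℕ) := hd
      _ = 52 * ((C + 1) * (L : ℤ) ^ 2) := by
          push_cast
          rw [h2]
          ring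
      _ ≤ 52 * ((C + 1) * (32 * J : ℤ) ^ 2) := by
          apply mul_le_mul_of_nonneg_left _ (by norm_num)
          exact mul_le_mul_of_nonneg_left h3 (by positivity)
      _ ≤ (K₀ * J : ℤ) ^ 2 := by
          have h4 : (K₀ : ℤ) = 256 * (C + 1) := by
            rw [hK₀]
            push_cast
            ring
          rw [h4]
          have h5 : (0 : ℤ) ≤ C := by positivity
          have h6 : 0 ≤ (J : ℤ) ^ 2 := by positivity
          nlinarith [mul_nonneg h5 h6, mul_nonneg (mul_nonneg h5 h5) h6]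
  choose! ε α β hε hw hs hd using hexp
  -- pigeonhole
  set b : Tile → ℤ := fun P => (2 * (α P : ℤ) - m) / J with hb
  have hJ0 : (0 : ℤ) < J := by exact_mod_cast hJ1
  have hbmem : ∀ P ∈ Gd, b P ∈ Finset.Icc (-(K₀ : ℤ)) K₀ := by
    intro P hP
    have h1 := abs_le.1 (hd P hP)
    rw [Finset.mem_Icc, hb]
    simp only
    constructor
    · rw [Int.le_ediv_iff_mul_le hJ0]
      linarith [h1.1]
    · apply Int.ediv_le_of_le_mul hJ0
      exact h1.2
  obtain ⟨b₀, -, hb₀⟩ : ∃ b₀ ∈ Finset.Icc (-(K₀ : ℤ)) K₀,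
      (Gd.card : ℝ) / (2 * K₀ + 1) ≤ ((Gd.filter (fun P => b P = b₀)).card : ℝ) := by
    apply Finset.exists_le_of_sum_le (s := Finset.Icc (-(K₀ : ℤ)) K₀)
      ⟨0, by rw [Finset.mem_Icc]; omega⟩
    rw [Finset.sum_const, Int.card_Icc]
    have h1 : Gd.card = ∑ k ∈ Finset.Icc (-(K₀ : ℤ)) K₀, (Gd.filter (fun P => b P = k)).card :=
      Finset.card_eq_sum_card_fiberwise hbmem
    have h2 : ((K₀ : ℤ) + 1 - -(K₀ : ℤ)).toNat = 2 * K₀ + 1 := by omega
    rw [h2, nsmul_eq_mul]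
    push_cast
    rw [mul_div_cancel₀ _ (by positivity)]
    have h3 : (Gd.card : ℝ) = ∑ k ∈ Finset.Icc (-(K₀ : ℤ)) K₀,
        ((Gd.filter (fun P => b P = k)).card : ℝ) := by exact_mod_cast h1
    exact h3.le
  set B := Gd.filter (fun P => b P = b₀) with hB
  have hBcard : (3 / 4 : ℝ) * 5 ^ (13 * m) / (2 * K₀ + 1) ≤ B.card :=
    (div_le_div_of_nonneg_right hGcard (by positivity)).trans hb₀
  have hBne : B.Nonempty := by
    rw [← Finset.card_pos]
    have : (0 : ℝ) < B.card := lt_of_lt_of_le (by positivity) hBcard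
    exact_mod_cast this
  obtain ⟨P₁, hP₁⟩ := hBne
  have hP₁G : P₁ ∈ Gd := (Finset.mem_filter.1 hP₁).1
  refine ⟨α P₁, β P₁, hs P₁ hP₁G, ?_⟩
  rw [← hS]
  set g := gab (α P₁) (β P₁) with hg
  have hg0 : g ≠ 0 := gab_ne _ _
  -- each tile of the class
  have hclose : ∀ P ∈ B, 16 * |(α P : ℤ) - α P₁| ≤ L := by
    intro P hP
    have h1 := (Finset.mem_filter.1 hP).2
    have h2 := (Finset.mem_filter.1 hP₁).2
    rw [hb] at h1 h2
    simp only at h1 h2
    have e1 := Int.mul_ediv_add_emod (2 * (α P : ℤ) - m) J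
    have e2 := Int.mul_ediv_add_emod (2 * (α P₁ : ℤ) - m) J
    have e3 := Int.emod_nonneg (2 * (α P : ℤ) - m) hJ0.ne'
    have e4 := Int.emod_lt_of_pos (2 * (α P : ℤ) - m) hJ0
    have e5 := Int.emod_nonneg (2 * (α P₁ : ℤ) - m) hJ0.ne'
    have e6 := Int.emod_lt_of_pos (2 * (α P₁ : ℤ) - m) hJ0
    rw [h1] at e1
    rw [h2] at e2
    have h16 : (16 : ℤ) * J ≤ L := by exact_mod_cast hJ16
    have h3 : |(α P : ℤ) - α P₁| ≤ J := by
      rw [abs_le]
      constructor <;> linarith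
    linarith
  set f : Tile → ℝ := fun t => if t ∈ InV (14 * m) m S g then 1 else 0 with hf
  have hf0 : ∀ t, 0 ≤ f t := by
    intro t
    rw [hf]
    simp only
    split_ifs <;> norm_num
  have hfin14 := hDes.fin (14 * m) S
  have hInV : ((InV (14 * m) m S g).ncard : ℝ) = (PP Tile.child)^[14 * m] f S := by
    rw [← hDes.sum (14 * m) S hSw f, finsum_mem_eq_finite_toFinset_sum _ hfin14, hf,
      Finset.sum_boole, ← Set.ncard_coe_finset]
    congr 2
    ext t
    simp only [Finset.coe_filter, Set.Finite.mem_toFinset, Set.mem_ofPred_eq]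
    exact ⟨fun h => ⟨h.1, h⟩, fun h => h.2⟩
  have hloc : ∀ P ∈ B, c * 5 ^ m ≤ (PP Tile.child)^[m] f P := by
    intro P hP
    have hPG : P ∈ Gd := (Finset.mem_filter.1 hP).1
    have hPD : P ∈ desc (13 * m) S := (hmemD P).1 (Finset.mem_filter.1 hPG).1
    have hPn : ‖P.w‖ = √5 ^ m := by
      rw [hDes.w _ _ _ hPD, hSn, show 14 * m = m + 13 * m by ring, pow_add,
        mul_div_assoc, div_self (by positivity), mul_one]
    have hPw : P.w ≠ 0 := by
      rw [← norm_ne_zero_iff, hPn]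
      positivity
    have hgn : ‖g‖ = √5 ^ m := by
      have h1 : ‖ϖ‖ = √5 := by
        rw [Complex.norm_eq_sqrt_sq_add_sq]
        simp [ϖ]
        norm_num
      rw [hg, gab, norm_mul, norm_pow, norm_pow, Complex.norm_conj, h1, ← pow_add, hs P₁ hP₁G]
    obtain ⟨z₀, hz₀, hPc⟩ := hLat (7 * m) (13 * m) P (hS ▸ hPD)
    obtain ⟨z, hz, hzQ⟩ := hCov g hg0 (P.map oo)
    have hσ : ∃ σ : ℂ, (σ = 1 ∨ σ = -1) ∧ P.map oo ∈ (⟨g * z, σ * g, true⟩ : Tile).region := by
      rcases hzQ with h | h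
      · exact ⟨1, Or.inl rfl, by rw [one_mul]; exact h⟩
      · exact ⟨-1, Or.inr rfl, by rw [neg_one_mul]; exact h⟩
    obtain ⟨σ, hσ, hxQ⟩ := hσ
    have hσn : ‖σ‖ = 1 := by
      rcases hσ with h | h <;> rw [h] <;> simp
    set Q : Tile := ⟨g * z, σ * g, true⟩ with hQ
    have hQn : ‖Q.w‖ = ‖P.w‖ := by
      rw [hQ]
      simp only
      rw [norm_mul, hσn, one_mul, hgn, hPn]
    have hvalid : Valid ⟨P, Q, (α P : ℤ) - α P₁⟩ :=
      valid (hε P hPG) (hw P hPG) hPc hz₀ hz (by rw [hs P hPG, hs P₁ hP₁G]) σ hσ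
    have hover : a1 * ‖P.w‖ ^ 2 ≤ mm ⟨P, Q, (α P : ℤ) - α P₁⟩ := overlap hGeo hPw hQn hxQ
    have hsame := hLL ⟨P, Q, (α P : ℤ) - α P₁⟩ hvalid
      (hclose P hP) hover
    rw [hSam m _ hvalid] at hsame
    simp only at hsame
    have hPn2 : 0 < ‖P.w‖ ^ 2 := by positivity
    have h1 : c * 5 ^ m ≤ ((desc m P ∩ desc m Q).ncard : ℝ) := by
      have e : ((desc m P ∩ desc m Q).ncard : ℝ) * (‖P.w‖ ^ 2 / 5 ^ m) =
          (((desc m P ∩ desc m Q).ncard : ℝ) / 5 ^ m) * ‖P.w‖ ^ 2 := by ring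
      rw [e] at hsame
      have h2 := le_of_mul_le_mul_right hsame hPn2
      rwa [le_div_iff₀ (by positivity)] at h2
    refine h1.trans ?_
    have hfinP := hDes.fin m P
    rw [← hDes.sum m P hPw f, finsum_mem_eq_finite_toFinset_sum _ hfinP]
    have h2 : ((desc m P ∩ desc m Q).ncard : ℝ) =
        ∑ t ∈ hfinP.toFinset.filter (fun t => t ∈ desc m Q), (1 : ℝ) := by
      rw [Finset.sum_const, nsmul_eq_mul, mul_one, ← Set.ncard_coe_finset]
      congr 2
      ext t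
      simp
    rw [h2]
    calc ∑ t ∈ hfinP.toFinset.filter (fun t => t ∈ desc m Q), (1 : ℝ)
        ≤ ∑ t ∈ hfinP.toFinset.filter (fun t => t ∈ desc m Q), f t := by
          refine Finset.sum_le_sum fun t ht => ?_
          rw [Finset.mem_filter, Set.Finite.mem_toFinset] at ht
          have h3 : t ∈ InV (14 * m) m S g := by
            refine ⟨?_, z, hz, ?_⟩
            · rw [show 14 * m = 13 * m + m by ring, hDes.add]
              exact Set.mem_biUnion hPD ht.1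
            · rcases hσ with h | h
              · left
                have h4 := ht.2
                rw [hQ, h, one_mul] at h4
                exact h4
              · right
                have h4 := ht.2
                rw [hQ, h, neg_one_mul] at h4
                exact h4
          rw [hf]
          simp only
          rw [if_pos h3]
      _ ≤ _ := Finset.sum_le_sum_of_subset_of_nonneg (Finset.filter_subset _ _)
          fun t _ _ => hf0 t
  rw [hInV, show 14 * m = 13 * m + m by ring, Function.iterate_add_apply,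
    ← hDes.sum (13 * m) S hSw, finsum_mem_eq_finite_toFinset_sum _ (hDes.fin (13 * m) S)]
  calc c * (3 / 4) / (2 * K₀ + 1) * 5 ^ (13 * m + m)
      = ((3 / 4 : ℝ) * 5 ^ (13 * m) / (2 * K₀ + 1)) * (c * 5 ^ m) := by
        rw [pow_add]
        ring
    _ ≤ B.card * (c * 5 ^ m) := mul_le_mul_of_nonneg_right hBcard (by positivity)
    _ = ∑ P ∈ B, c * 5 ^ m := by rw [Finset.sum_const, nsmul_eq_mul]
    _ ≤ ∑ P ∈ B, (PP Tile.child)^[m] f P := Finset.sum_le_sum hloc
    _ ≤ _ := by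
        apply Finset.sum_le_sum_of_subset_of_nonneg
        · intro P hP
          exact (Finset.mem_filter.1 (Finset.mem_filter.1 hP).1).1
        · intro P _ _
          exact PP_nonneg hf0 m P

theorem specPig (hGeo : SpecGeo) (hDes : SpecDes) (hCoal : SpecCoal) (hSam : SpecSam)
    (hCheb : SpecCheb) (hLat : SpecLat) (hCov : SpecCov) : SpecPig := by
  obtain ⟨C, c, hc, hco⟩ := hCoal
  obtain ⟨K₀, hK₀⟩ : ∃ K₀ : ℕ, K₀ = 256 * (C + 1) := ⟨_, rfl⟩
  refine ⟨c * (3 / 4) / (2 * K₀ + 1), by positivity, fun m0 => ?_⟩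
  obtain ⟨L, hL, hLL⟩ := hco (m0 + 60)
  obtain ⟨m, hm⟩ : ∃ m : ℕ, m = (C + 1) * L ^ 2 := ⟨_, rfl⟩
  obtain ⟨J, hJ⟩ : ∃ J : ℕ, J = L / 16 := ⟨_, rfl⟩
  have hmL : L ≤ m := by
    rw [hm]
    have h1 : L ≤ L ^ 2 := Nat.le_self_pow (by norm_num) L
    have h2 : 1 * L ^ 2 ≤ (C + 1) * L ^ 2 := Nat.mul_le_mul_right _ (by omega)
    omega
  refine ⟨m, by omega, ?_⟩
  refine pig_aux hGeo hDes hSam hCheb hLat hCov C c hc K₀ L m J m0 hK₀ hL hm hmL (by omega)
    (by omega) (by omega) (fun s => hLL m ?_ s)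
  rw [hm]
  exact Nat.mul_le_mul_right _ (by omega)

end Pool.Agent.Lib.MPd437ed
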