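import Pool.Agent.Lib.MP_d437ed_an.Spec

section
/-!
# RIN: the autocorrelation is invariant under the rotation by `u`
-/
set_option linter.unusedSectionVars false

namespace Pool.Agent.Lib.MPd437ed

open MeasureTheory Filter Topology Complex

noncomputable section

namespace RinM

lemma ps_eq {Λ : Set ℂ} (hΛ : Λ.Finite) (K : ℂ → ℂ) :
    PS K Λ = ∑ x ∈ hΛ.toFinset, ∑ y ∈ hΛ.toFinset, K (x - y) := by
  unfold PS
  rw [← Finset.sum_product', ← finsum_mem_coe_finset]
  simp

lemma rs_eq {Λ : Set ℂ} (hΛ : Λ.Finite) (f : ℂ → ℝ) :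
    ∑ᶠ p ∈ Λ ×ˢ Λ, f (p.1 - p.2) = ∑ x ∈ hΛ.toFinset, ∑ y ∈ hΛ.toFinset, f (x - y) := by
  rw [← Finset.sum_product', ← finsum_mem_coe_finset]
  simp

lemma vx_fin (hD : SpecDes) (n : ℕ) (t : Tile) : (Vx n t).Finite := by
  unfold Vx vertexSet
  refine (hD.fin n t).biUnion fun t' _ => ?_
  unfold Tile.verts
  exact Set.toFinite _

lemma vx_add (hD : SpecDes) (k n : ℕ) (S : Tile) :
    Vx (k + n) S = ⋃ P ∈ desc k S, Vx n P := by
  unfold Vx vertexSet
  rw [hD.add k n S]
  ext x
  simp only [Set.mem_iUnion, exists_prop]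
  constructor
  · rintro ⟨t, ⟨P, hP, ht⟩, hx⟩
    exact ⟨P, hP, t, ht, hx⟩
  · rintro ⟨P, hP, t, ht, hx⟩
    exact ⟨t, ⟨P, hP, ht⟩, hx⟩

lemma rho_pos : 0 < rho := by
  unfold rho
  have h : √5 < 3 := by
    rw [show (3 : ℝ) = √9 by rw [show (9 : ℝ) = 3 ^ 2 by norm_num, Real.sqrt_sq (by norm_num)]]
    exact Real.sqrt_lt_sqrt (by norm_num) (by norm_num)
  linarith

/-- A vertex of another part is not in the interior. -/
lemma not_int (hG : SpecGeo) (hD : SpecDes) (k n : ℕ) (S P P' : Tile) (hS : S.w ≠ 0)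
    (hP : P ∈ desc k S) (hP' : P' ∈ desc k S) (hne : P ≠ P') (y : ℂ) (hy : y ∈ Vx n P') :
    rho * ‖P.w‖ ≤ P.gt y := by
  have hw : ∀ P ∈ desc k S, P.w ≠ 0 := by
    intro P hP h
    have h1 := hD.w k S P hP
    rw [h, norm_zero] at h1
    have : 0 < ‖S.w‖ / √5 ^ k := by
      have := norm_pos_iff.2 hS
      positivity
    exact this.ne h1
  have hPw := hw P hP
  have hPw' := hw P' hP'
  by_contra hlt
  push Not at hlt
  have hint : y ∈ interior P.region := (hG.mem_interior P hPw y).2 hlt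
  have hreg : y ∈ P'.region := by
    unfold Vx vertexSet at hy
    simp only [Set.mem_iUnion, exists_prop] at hy
    obtain ⟨t, ht, hyt⟩ := hy
    exact hD.sub n P' t ht (hG.verts_sub t hyt)
  have hdis := hD.disj k S P P' hP hP' hne
  have hne' : (interior P'.region).Nonempty := by
    refine ⟨P'.map oo, (hG.mem_interior P' hPw' _).2 ?_⟩
    rw [hG.gt_centre P' hPw']
    exact mul_pos rho_pos (norm_pos_iff.2 hPw')
  have hcl : closure (interior P'.region) = P'.region := by
    rw [(hG.convex P').closure_interior_eq_closure_of_nonempty_interior hne',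
      (hG.compact P').isClosed.closure_eq]
  have hdis2 := hdis.closure_right isOpen_interior
  rw [hcl] at hdis2
  exact Set.disjoint_left.1 hdis2 hint hreg

/-- Decomposition of the pair sum of a supertile. -/
lemma decomp (hG : SpecGeo) (hD : SpecDes) (hPac : SpecPac) (hBnd : SpecBnd) (hLcn : SpecLcn) :
    ∃ C : ℝ, 0 < C ∧ ∀ (k n : ℕ) (S : Tile), ‖S.w‖ = √5 ^ (k + n) → ∀ (K : ℂ → ℂ) (A : ℝ),
      0 ≤ A → Dec K A →
      ‖PS K (Vx (k + n) S) - ∑ P ∈ (hD.fin k S).toFinset, PS K (Vx n P)‖ ≤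
        C * A * 5 ^ k * √5 ^ n := by
  classical
  obtain ⟨C1, hC1, hpac⟩ := hPac
  obtain ⟨C2, hC2, hbnd⟩ := hBnd C1
  obtain ⟨C3, hC3, hlcn⟩ := hLcn
  refine ⟨C2 * C3, by positivity, ?_⟩
  intro k n S hSw K A hA hK
  have h5 : (0 : ℝ) < √5 := by positivity
  have hS0 : S.w ≠ 0 := by
    intro h
    rw [h, norm_zero] at hSw
    exact (pow_pos h5 _).ne hSw
  set D := (hD.fin k S).toFinset with hDdef
  have hDmem : ∀ P, P ∈ D ↔ P ∈ desc k S := fun P => Set.Finite.mem_toFinset _
  have hPw : ∀ P ∈ D, ‖P.w‖ = √5 ^ n := by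
    intro P hP
    rw [hD.w k S P ((hDmem P).1 hP), hSw, pow_add, mul_comm, mul_div_assoc,
      div_self (pow_ne_zero _ h5.ne'), mul_one]
  have hΛ := vx_fin hD (k + n) S
  set L := hΛ.toFinset with hLdef
  have hLmem : ∀ x, x ∈ L ↔ x ∈ Vx (k + n) S := fun x => Set.Finite.mem_toFinset _
  have hsubV : ∀ P ∈ D, Vx n P ⊆ Vx (k + n) S := by
    intro P hP
    rw [vx_add hD k n S]
    exact Set.subset_biUnion_of_mem ((hDmem P).1 hP)
  -- the sums
  have hV : ∀ P ∈ D, (vx_fin hD n P).toFinset = L.filter (fun x => x ∈ Vx n P) := by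
    intro P hP
    ext x
    rw [Set.Finite.mem_toFinset, Finset.mem_filter, hLmem]
    exact ⟨fun h => ⟨hsubV P hP h, h⟩, fun h => h.2⟩
  have hpsP : ∀ P ∈ D, PS K (Vx n P) = ∑ x ∈ L, ∑ y ∈ L,
      (if x ∈ Vx n P ∧ y ∈ Vx n P then (1 : ℂ) else 0) * K (x - y) := by
    intro P hP
    rw [ps_eq (vx_fin hD n P), hV P hP, Finset.sum_filter]
    refine Finset.sum_congr rfl fun x _ => ?_
    by_cases hx : x ∈ Vx n P
    · simp only [hx, if_true, true_and]
      rw [Finset.sum_filter]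
      refine Finset.sum_congr rfl fun y _ => ?_
      split_ifs <;> simp
    · simp [hx]
  let c : ℂ → ℂ → ℕ := fun x y => (D.filter fun P => x ∈ Vx n P ∧ y ∈ Vx n P).card
  let b : ℂ → ℂ → ℕ := fun x y => (D.filter fun P => x ∈ Vx n P ∧ dS P x ≤ ‖x - y‖).card
  have hsum : ∑ P ∈ D, PS K (Vx n P) = ∑ x ∈ L, ∑ y ∈ L, (c x y : ℂ) * K (x - y) := by
    rw [Finset.sum_congr rfl hpsP, Finset.sum_comm]
    refine Finset.sum_congr rfl fun x _ => ?_
    rw [Finset.sum_comm]
    refine Finset.sum_congr rfl fun y _ => ?_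
    rw [← Finset.sum_mul, Finset.sum_boole]
  -- distances
  have hdist : ∀ P ∈ D, ∀ x y, rho * ‖P.w‖ ≤ P.gt y → dS P x ≤ ‖x - y‖ := by
    intro P hP x y hy
    have hPw0 : P.w ≠ 0 := by
      intro h
      have := hPw P hP
      rw [h, norm_zero] at this
      exact (pow_pos h5 _).ne this
    have h1 := hG.gt_lip P hPw0 x y
    rw [abs_le] at h1
    unfold dS
    linarith [h1.1]
  have hcb : ∀ x ∈ L, ∀ y ∈ L, |(1 : ℝ) - c x y| ≤ b x y := by
    intro x hx y hy
    rcases Nat.eq_zero_or_pos (c x y) with h0 | hpos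
    · -- a part containing x but not y
      have hx' := (hLmem x).1 hx
      rw [vx_add hD k n S] at hx'
      simp only [Set.mem_iUnion, exists_prop] at hx'
      obtain ⟨P, hP, hxP⟩ := hx'
      have hPD := (hDmem P).2 hP
      have hyP : y ∉ Vx n P := by
        intro h
        have : P ∈ D.filter fun P => x ∈ Vx n P ∧ y ∈ Vx n P :=
          Finset.mem_filter.2 ⟨hPD, hxP, h⟩
        have h1 : (D.filter fun P => x ∈ Vx n P ∧ y ∈ Vx n P) = ∅ := Finset.card_eq_zero.1 h0
        rw [h1] at this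
        exact absurd this (Finset.notMem_empty _)
      have hy' := (hLmem y).1 hy
      rw [vx_add hD k n S] at hy'
      simp only [Set.mem_iUnion, exists_prop] at hy'
      obtain ⟨P', hP', hyP'⟩ := hy'
      have hne : P ≠ P' := by
        rintro rfl
        exact hyP hyP'
      have h2 := not_int hG hD k n S P P' hS0 hP hP' hne y hyP'
      have h3 : 1 ≤ b x y := by
        refine Finset.card_pos.2 ⟨P, Finset.mem_filter.2 ⟨hPD, hxP, hdist P hPD x y h2⟩⟩
      have h4 : (1 : ℝ) ≤ b x y := by exact_mod_cast h3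
      rw [h0]
      simpa using h4
    · rcases Nat.lt_or_ge 1 (c x y) with h2 | h1
      · -- at least two parts contain both
        have hle : c x y ≤ b x y := by
          refine Finset.card_le_card fun P hP => ?_
          rw [Finset.mem_filter] at hP ⊢
          refine ⟨hP.1, hP.2.1, ?_⟩
          obtain ⟨P', hP', hne⟩ := Finset.exists_mem_ne h2 P
          rw [Finset.mem_filter] at hP'
          have h3 := not_int hG hD k n S P P' hS0 ((hDmem P).1 hP.1) ((hDmem P').1 hP'.1) hne.symm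
            x hP'.2.1
          have h4 := hdist P hP.1 x x h3
          rw [sub_self, norm_zero] at h4
          exact h4.trans (norm_nonneg _)
        have h3 : (1 : ℝ) ≤ c x y := by exact_mod_cast hpos
        have h4 : (c x y : ℝ) ≤ b x y := by exact_mod_cast hle
        rw [abs_sub_comm, abs_of_nonneg (by linarith)]
        linarith
      · have h2 : c x y = 1 := le_antisymm h1 hpos
        rw [h2]
        simp
  -- the packing
  have hpack : IsPack (desc (k + n) S) := by
    refine ⟨fun t ht => ?_, fun t ht t' ht' hne => hD.disj (k + n) S t t' ht ht' hne⟩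
    rw [hD.w (k + n) S t ht, hSw, div_self (pow_ne_zero _ h5.ne')]
  have hy : ∀ P ∈ D, ∀ x ∈ Vx n P, ∑ y ∈ L, (if dS P x ≤ ‖x - y‖ then ‖K (x - y)‖ else 0) ≤
      A * (C2 / (1 + dS P x) ^ 3) := by
    intro P hP x hx
    have hd : 0 ≤ dS P x := (hlcn n P (hPw P hP)).2.1 x hx
    rw [← Finset.sum_filter]
    have h2 : ∀ y ∈ L.filter (fun y => dS P x ≤ ‖x - y‖),
        ‖K (x - y)‖ ≤ A * (1 / (1 + ‖y - x‖) ^ 6) := by
      intro y _
      refine (hK _).trans (le_of_eq ?_)
      rw [norm_sub_rev, mul_one_div]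
    refine (Finset.sum_le_sum h2).trans ?_
    rw [← Finset.mul_sum]
    refine mul_le_mul_of_nonneg_left ?_ hA
    refine hbnd ℂ _ (fun y => y) x (dS P x) hd (fun r hr => ?_) fun y hy => ?_
    · have h3 := (hpac (desc (k + n) S) hpack x r hr).2.2
      refine le_trans ?_ h3.2
      have h4 : {i ∈ ((L.filter (fun y => dS P x ≤ ‖x - y‖) : Finset ℂ) : Set ℂ) |
          ‖(fun y => y) i - x‖ ≤ r} ⊆
          vertexSet (desc (k + n) S) ∩ Metric.closedBall x r := by
        intro y hy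
        have hy1 := hy.1
        rw [Finset.mem_coe, Finset.mem_filter, hLmem] at hy1
        refine ⟨hy1.1, ?_⟩
        rw [Metric.mem_closedBall, dist_eq_norm]
        exact hy.2
      exact_mod_cast Set.ncard_le_ncard h4 h3.1
    · have h3 := (Finset.mem_filter.1 hy).2
      rw [norm_sub_rev]
      exact h3
  have hcardD : (D.card : ℝ) = 5 ^ k := by
    have h := hD.card k S hS0
    rw [Set.ncard_eq_toFinset_card _ (hD.fin k S)] at h
    exact_mod_cast h
  rw [hsum, ps_eq hΛ, ← Finset.sum_sub_distrib]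
  calc ‖∑ x ∈ L, (∑ y ∈ L, K (x - y) - ∑ y ∈ L, (c x y : ℂ) * K (x - y))‖
      ≤ ∑ x ∈ L, ∑ y ∈ L, (b x y : ℝ) * ‖K (x - y)‖ := by
        refine (norm_sum_le _ _).trans (Finset.sum_le_sum fun x hx => ?_)
        rw [← Finset.sum_sub_distrib]
        refine (norm_sum_le _ _).trans (Finset.sum_le_sum fun y hy => ?_)
        have e : K (x - y) - (c x y : ℂ) * K (x - y) =
            (((1 : ℝ) - c x y : ℝ) : ℂ) * K (x - y) := by
          push_cast
          ring
        rw [e, norm_mul, Complex.norm_real]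
        exact mul_le_mul_of_nonneg_right (hcb x hx y hy) (norm_nonneg _)
    _ = ∑ P ∈ D, ∑ x ∈ L.filter (fun x => x ∈ Vx n P),
          ∑ y ∈ L, (if dS P x ≤ ‖x - y‖ then ‖K (x - y)‖ else 0) := by
        have e1 : ∀ x ∈ L, ∑ y ∈ L, (b x y : ℝ) * ‖K (x - y)‖ =
            ∑ P ∈ D, ∑ y ∈ L, (if x ∈ Vx n P ∧ dS P x ≤ ‖x - y‖ then ‖K (x - y)‖ else 0) := by
          intro x _
          rw [Finset.sum_comm]
          refine Finset.sum_congr rfl fun y _ => ?_
          simp only [b]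
          rw [← Finset.sum_boole, Finset.sum_mul]
          refine Finset.sum_congr rfl fun P _ => ?_
          split_ifs <;> simp
        rw [Finset.sum_congr rfl e1, Finset.sum_comm]
        refine Finset.sum_congr rfl fun P _ => ?_
        rw [Finset.sum_filter]
        refine Finset.sum_congr rfl fun x _ => ?_
        by_cases hx : x ∈ Vx n P
        · simp [hx]
        · simp [hx]
    _ ≤ ∑ P ∈ D, (A * C2) * (C3 * √5 ^ n) := by
        refine Finset.sum_le_sum fun P hP => ?_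
        have h1 : ∀ x ∈ L.filter (fun x => x ∈ Vx n P),
            ∑ y ∈ L, (if dS P x ≤ ‖x - y‖ then ‖K (x - y)‖ else 0) ≤
              (A * C2) * (1 / (1 + dS P x) ^ 3) := by
          intro x hx
          refine (hy P hP x (Finset.mem_filter.1 hx).2).trans (le_of_eq ?_)
          ring
        refine (Finset.sum_le_sum h1).trans ?_
        rw [← Finset.mul_sum]
        refine mul_le_mul_of_nonneg_left ?_ (by positivity)
        have h2 := (hlcn n P (hPw P hP)).2.2.2
        rw [finsum_mem_eq_finite_toFinset_sum _ (vx_fin hD n P), hV P hP] at h2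
        exact h2
    _ = C2 * C3 * A * 5 ^ k * √5 ^ n := by
        rw [Finset.sum_const, nsmul_eq_mul, hcardD]
        ring

/-! ### Orientations -/

/-- The pair sum as a function of factor and orientation. -/
def H (n : ℕ) (K : ℂ → ℂ) (w : ℂ) (s : Bool) : ℂ :=
  ∑ᶠ p ∈ Vx n ⟨0, 1, true⟩ ×ˢ Vx n ⟨0, 1, true⟩, K (w * (tw s p.1 - tw s p.2))

lemma vx_map (hG : SpecGeo) (hD : SpecDes) (n : ℕ) (S : Tile) :
    Vx n S = S.map '' Vx n ⟨0, 1, true⟩ := by
  unfold Vx vertexSet
  rw [hD.comp n S, Set.biUnion_image, Set.image_iUnion₂]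
  refine Set.iUnion₂_congr fun t _ => ?_
  unfold Tile.verts
  rw [hG.map_comp, hG.map_comp, hG.map_comp]
  rw [Set.image_insert_eq, Set.image_insert_eq, Set.image_singleton]

lemma map_inj (hG : SpecGeo) (S : Tile) (hS : S.w ≠ 0) : Function.Injective S.map := by
  intro z z' h
  have h1 := hG.map_dist S z z'
  rw [h, sub_self, norm_zero] at h1
  have h2 : ‖S.w‖ ≠ 0 := norm_ne_zero_iff.2 hS
  have h3 : ‖z - z'‖ = 0 := by
    rcases mul_eq_zero.1 h1.symm with h | h
    · exact absurd h h2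
    · exact h
  exact sub_eq_zero.1 (norm_eq_zero.1 h3)

lemma ps_H (hG : SpecGeo) (hD : SpecDes) (n : ℕ) (K : ℂ → ℂ) (P : Tile) (hP : P.w ≠ 0) :
    PS K (Vx n P) = H n K P.w P.s := by
  rw [vx_map hG hD n P]
  unfold PS H
  have h : (P.map '' Vx n ⟨0, 1, true⟩) ×ˢ (P.map '' Vx n ⟨0, 1, true⟩) =
      Prod.map P.map P.map '' (Vx n ⟨0, 1, true⟩ ×ˢ Vx n ⟨0, 1, true⟩) := by
    rw [Set.prodMap_image_prod]
  rw [h, finsum_mem_image (((map_inj hG P hP).prodMap (map_inj hG P hP)).injOn)]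
  refine finsum_mem_congr rfl fun p _ => ?_
  congr 1
  show P.map p.1 - P.map p.2 = _
  unfold Tile.map
  ring

lemma H_rot (n : ℕ) (K : ℂ → ℂ) (w : ℂ) (s : Bool) :
    H n (fun x => K (uu * x)) w s = H n K (uu * w) s := by
  unfold H
  refine finsum_mem_congr rfl fun p _ => ?_
  rw [mul_assoc]

lemma H_bound (hD : SpecDes) (n : ℕ) (K : ℂ → ℂ) (A : ℝ) (hA : 0 ≤ A) (hK : Dec K A) :
    ∃ M : ℝ, 0 ≤ M ∧ ∀ w s, ‖H n K w s‖ ≤ M := by
  have hV := vx_fin hD n ⟨0, 1, true⟩
  have hVV := hV.prod hV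
  refine ⟨hVV.toFinset.card * A, by positivity, fun w s => ?_⟩
  unfold H
  rw [finsum_mem_eq_finite_toFinset_sum _ hVV]
  refine (norm_sum_le _ _).trans ?_
  rw [← nsmul_eq_mul]
  refine Finset.sum_le_card_nsmul _ _ _ fun p _ => ?_
  refine (hK _).trans ?_
  refine div_le_self hA ?_
  exact one_le_pow₀ (by linarith [norm_nonneg (w * (tw s p.1 - tw s p.2))])

lemma norm_uu : ‖uu‖ = 1 := by
  unfold uu
  rw [norm_div, RCLike.norm_conj]
  refine div_self (norm_ne_zero_iff.2 ?_)
  intro h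
  have := congrArg Complex.re h
  simp [ϖ] at this

/-- Comparison of the two kernels on a supertile. -/
lemma compare (hG : SpecGeo) (hD : SpecDes) (C' : ℝ)
    (hdec : ∀ (k n : ℕ) (S : Tile), ‖S.w‖ = √5 ^ (k + n) → ∀ (K : ℂ → ℂ) (A : ℝ),
      0 ≤ A → Dec K A →
      ‖PS K (Vx (k + n) S) - ∑ P ∈ (hD.fin k S).toFinset, PS K (Vx n P)‖ ≤
        C' * A * 5 ^ k * √5 ^ n) (η : ℕ → ℝ)
    (hη : ∀ (Γ : ℂ → Bool → ℝ) (M : ℝ), (∀ w s, |Γ w s| ≤ M) → ∀ (k : ℕ) (t : Tile),
      |(PP Tile.child)^[k] (fun t => Γ t.w t.s - Γ (uu * t.w) t.s) t| ≤ η k * 5 ^ k * M)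
    (K : ℂ → ℂ) (A : ℝ) (hA : 0 ≤ A) (hK : Dec K A) (hK' : Dec (fun x => K (uu * x)) A)
    (n : ℕ) (M : ℝ) (hM : ∀ w s, ‖H n K w s‖ ≤ M) (k : ℕ) (S : Tile)
    (hS : ‖S.w‖ = √5 ^ (k + n)) :
    |(PS K (Vx (k + n) S)).re - (PS (fun x => K (uu * x)) (Vx (k + n) S)).re| ≤
      2 * (C' * A * 5 ^ k * √5 ^ n) + η k * 5 ^ k * M := by
  have h5 : (0 : ℝ) < √5 := by positivity
  have hS0 : S.w ≠ 0 := by
    intro h
    rw [h, norm_zero] at hS
    exact (pow_pos h5 _).ne hS
  have h1 := hdec k n S hS K A hA hK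
  have h2 := hdec k n S hS (fun x => K (uu * x)) A hA hK'
  have hPw : ∀ P ∈ (hD.fin k S).toFinset, P.w ≠ 0 := by
    intro P hP h
    have h3 := hD.w k S P ((Set.Finite.mem_toFinset _).1 hP)
    rw [h, norm_zero, hS] at h3
    have : 0 < √5 ^ (k + n) / √5 ^ k := by positivity
    exact this.ne h3
  have e1 : ∑ P ∈ (hD.fin k S).toFinset, PS K (Vx n P) =
      ∑ P ∈ (hD.fin k S).toFinset, H n K P.w P.s :=
    Finset.sum_congr rfl fun P hP => ps_H hG hD n K P (hPw P hP)
  have e2 : ∑ P ∈ (hD.fin k S).toFinset, PS (fun x => K (uu * x)) (Vx n P) =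
      ∑ P ∈ (hD.fin k S).toFinset, H n K (uu * P.w) P.s :=
    Finset.sum_congr rfl fun P hP => by rw [ps_H hG hD n _ P (hPw P hP), H_rot]
  rw [e1] at h1
  rw [e2] at h2
  have h3 := hη (fun w s => (H n K w s).re) M
    (fun w s => (Complex.abs_re_le_norm _).trans (hM w s)) k S
  rw [← hD.sum k S hS0, finsum_mem_eq_finite_toFinset_sum _ (hD.fin k S),
    Finset.sum_sub_distrib, ← Complex.re_sum, ← Complex.re_sum] at h3
  have h4 := (Complex.abs_re_le_norm _).trans h1
  have h6 := (Complex.abs_re_le_norm _).trans h2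
  rw [Complex.sub_re] at h4 h6
  rw [abs_le] at h3 h4 h6 ⊢
  constructor <;> linarith [h3.1, h3.2, h4.1, h4.2, h6.1, h6.2]

end RinM

open RinM

theorem specRin (hG : SpecGeo) (hD : SpecDes) (hPac : SpecPac) (hBnd : SpecBnd)
    (hLcn : SpecLcn) (hCmp : SpecCmp) (hTv : SpecTv) : SpecRin := by
  obtain ⟨C', hC', hdec⟩ := decomp hG hD hPac hBnd hLcn
  obtain ⟨C, hC, hcmp⟩ := hCmp
  obtain ⟨η, hη0, hη⟩ := hTv
  obtain ⟨C1, hC1, hpac⟩ := hPac
  intro 𝒯 h𝒯 γ hγ
  have : IsFiniteMeasureOnCompacts γ := hγ.1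
  have huu : uu ≠ 0 := by
    intro h
    have := norm_uu
    rw [h, norm_zero] at this
    norm_num at this
  have hP : IsPack 𝒯 := ⟨h𝒯.congruent, h𝒯.disjoint⟩
  have hfin : ∀ R : ℝ, (vertexSet 𝒯 ∩ Metric.closedBall 0 R).Finite := by
    intro R
    rcases le_or_gt 0 R with h | h
    · exact (hpac 𝒯 hP 0 R h).2.2.1
    · rw [Metric.closedBall_eq_empty.2 h, Set.inter_empty]
      exact Set.finite_empty
  have h5 : (0 : ℝ) < √5 := by positivity
  have h55 : ∀ n : ℕ, (√5 ^ n) * (√5 ^ n) = (5 : ℝ) ^ n := by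
    intro n
    rw [← mul_pow, Real.mul_self_sqrt (by norm_num)]
  -- the main claim
  have key : ∀ f : ℂ → ℝ, Continuous f → HasCompactSupport f →
      ∫ x, f x ∂γ = ∫ x, f (uu * x) ∂γ := by
    intro f hf hfs
    -- decay
    obtain ⟨A, hA⟩ : ∃ A : ℝ, ∀ x, |f x| ≤ A / (1 + ‖x‖) ^ 6 := by
      let q : ℂ → ℝ := fun x => (1 + ‖x‖) ^ 6
      have hq : Continuous q := by fun_prop
      have h1 : Continuous (f * q) := hf.mul hq
      have hs : HasCompactSupport (f * q) := hfs.mul_right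
      obtain ⟨A, hA⟩ := hs.exists_bound_of_continuous h1
      refine ⟨A, fun x => ?_⟩
      rw [le_div_iff₀ (by positivity)]
      have h2 := hA x
      rw [Real.norm_eq_abs, Pi.mul_apply, abs_mul,
        abs_of_nonneg (by positivity : (0 : ℝ) ≤ q x)] at h2
      exact h2
    have hA0 : 0 ≤ A := by
      have h1 := (abs_nonneg _).trans (hA 0)
      simpa using h1
    set K : ℂ → ℂ := fun x => (f x : ℂ) with hKdef
    have hK : Dec K A := by
      intro x
      rw [hKdef, Complex.norm_real, Real.norm_eq_abs]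
      exact hA x
    have hK' : Dec (fun x => K (uu * x)) A := by
      intro x
      have h1 := hK (uu * x)
      rw [norm_mul, norm_uu, one_mul] at h1
      exact h1
    have hps : ∀ (g : ℂ → ℝ) (R : ℝ), (PS (fun x => (g x : ℂ))
        (vertexSet 𝒯 ∩ Metric.closedBall 0 R)).re =
        ∑ᶠ p ∈ (vertexSet 𝒯 ∩ Metric.closedBall 0 R) ×ˢ
          (vertexSet 𝒯 ∩ Metric.closedBall 0 R), g (p.1 - p.2) := by
      intro g R
      rw [ps_eq (hfin R), rs_eq (hfin R), Complex.re_sum]
      refine Finset.sum_congr rfl fun x _ => ?_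
      rw [Complex.re_sum]
      exact Finset.sum_congr rfl fun y _ => Complex.ofReal_re _
    have hfr : Continuous fun x => f (uu * x) := hf.comp (continuous_const.mul continuous_id)
    have hfrs : HasCompactSupport fun x => f (uu * x) :=
      hfs.comp_homeomorph (Homeomorph.mulLeft₀ uu huu)
    have hl1 := hγ.2 f hf hfs
    have hl2 := hγ.2 (fun x => f (uu * x)) hfr hfrs
    have hl := (hl1.sub hl2).abs
    set δ : ℝ := |∫ x, f x ∂γ - ∫ x, f (uu * x) ∂γ| with hδ
    -- bound for every n, k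
    have hb1 : ∀ n : ℕ, ∃ M : ℝ, 0 ≤ M ∧ ∀ k : ℕ,
        δ ≤ 2 * (C * A) / √5 ^ (k + n) + 2 * (C' * A) / √5 ^ n + η k * M := by
      intro n
      obtain ⟨M, hM0, hM⟩ := H_bound hD n K A hA0 hK
      refine ⟨M / 5 ^ n, by positivity, fun k => ?_⟩
      obtain ⟨CN, hCN, hJ⟩ := hcmp 𝒯 h𝒯 (k + n)
      have hpi := Real.pi_pos
      have hr : Tendsto (fun R : ℝ => 2 * (C * A) / √5 ^ (k + n) +
          2 * (C * A) * (CN / Real.pi) * R⁻¹ + (2 * (C' * A) / √5 ^ n + η k * (M / 5 ^ n))) atTop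
          (𝓝 (2 * (C * A) / √5 ^ (k + n) +
          2 * (C * A) * (CN / Real.pi) * 0 + (2 * (C' * A) / √5 ^ n + η k * (M / 5 ^ n)))) :=
        (((tendsto_inv_atTop_zero (𝕜 := ℝ)).const_mul _).const_add _).add_const _
      have e0 : 2 * (C * A) / √5 ^ (k + n) +
          2 * (C * A) * (CN / Real.pi) * 0 + (2 * (C' * A) / √5 ^ n + η k * (M / 5 ^ n)) =
          2 * (C * A) / √5 ^ (k + n) + 2 * (C' * A) / √5 ^ n + η k * (M / 5 ^ n) := by ring
      rw [e0] at hr
      refine le_of_tendsto_of_tendsto hl hr ?_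
      filter_upwards [eventually_ge_atTop CN] with R hR
      obtain ⟨J, hJw, hJ1, -, hJK⟩ := hJ R hR
      have hR0 : 0 < R := by linarith
      have h1 := hJK K A hA0 hK
      have h2 := hJK (fun x => K (uu * x)) A hA0 hK'
      have h3 := (Complex.abs_re_le_norm _).trans h1
      have h4 := (Complex.abs_re_le_norm _).trans h2
      rw [Complex.sub_re, Complex.re_sum] at h3 h4
      have e1 := hps f R
      have e2 := hps (fun x => f (uu * x)) R
      rw [← e1, ← e2, ← mul_sub, abs_mul, abs_of_nonneg (by positivity)]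
      set v : ℝ := Real.pi * R ^ 2 with hv
      have hv0 : 0 < v := by positivity
      set m : ℝ := (J.card : ℝ) with hm
      have hm0 : 0 ≤ m := Nat.cast_nonneg _
      set B : ℝ := 2 * (C' * A * 5 ^ k * √5 ^ n) + η k * 5 ^ k * M with hB
      have h6 : |∑ S ∈ J, (PS K (Vx (k + n) S)).re -
          ∑ S ∈ J, (PS (fun x => K (uu * x)) (Vx (k + n) S)).re| ≤ m * B := by
        rw [← Finset.sum_sub_distrib]
        refine (Finset.abs_sum_le_sum_abs _ _).trans ?_
        rw [hm, ← nsmul_eq_mul]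
        refine Finset.sum_le_card_nsmul _ _ _ fun S hS => ?_
        exact compare hG hD C' hdec η hη K A hA0 hK hK' n M hM k S (hJw S hS)
      have h7 : |(PS K (vertexSet 𝒯 ∩ Metric.closedBall 0 R)).re -
          (PS (fun x => K (uu * x)) (vertexSet 𝒯 ∩ Metric.closedBall 0 R)).re| ≤
          2 * (C * A * (m * √5 ^ (k + n) + CN * R)) + m * B := by
        rw [abs_le] at h3 h4 h6 ⊢
        constructor <;> linarith [h3.1, h3.2, h4.1, h4.2, h6.1, h6.2]
      have hB0 : 0 ≤ B := by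
        by_contra hneg
        push Not at hneg
        -- if `B < 0` then the compare bound is contradictory
        have h8 := compare hG hD C' hdec η hη K A hA0 hK hK' n M hM k
          ⟨0, (√5 : ℂ) ^ (k + n), true⟩ (by
            simp only [norm_pow, Complex.norm_real]
            rw [Real.norm_of_nonneg h5.le])
        exact absurd ((abs_nonneg _).trans h8) (not_le.2 hneg)
      refine (mul_le_mul_of_nonneg_left h7 (by positivity)).trans ?_
      have hmv : v⁻¹ * m ≤ 1 / 5 ^ (k + n) := by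
        rw [inv_mul_le_iff₀ hv0, mul_one_div, le_div_iff₀ (by positivity)]
        exact hJ1
      have e3 : v⁻¹ * (2 * (C * A * (m * √5 ^ (k + n) + CN * R)) + m * B) =
          (v⁻¹ * m) * (2 * (C * A) * √5 ^ (k + n) + B) + 2 * (C * A) * (v⁻¹ * (CN * R)) := by
        ring
      rw [e3]
      have h9 : (v⁻¹ * m) * (2 * (C * A) * √5 ^ (k + n) + B) ≤
          (1 / 5 ^ (k + n)) * (2 * (C * A) * √5 ^ (k + n) + B) :=
        mul_le_mul_of_nonneg_right hmv (by positivity)
      have e4 : (1 / 5 ^ (k + n)) * (2 * (C * A) * √5 ^ (k + n) + B) =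
          2 * (C * A) / √5 ^ (k + n) + (2 * (C' * A) / √5 ^ n + η k * (M / 5 ^ n)) := by
        rw [hB, ← h55 (k + n), pow_add (√5) k n]
        have e5 : (5 : ℝ) ^ k = √5 ^ k * √5 ^ k := (h55 k).symm
        have e6 : (5 : ℝ) ^ n = √5 ^ n * √5 ^ n := (h55 n).symm
        rw [e5, e6]
        field_simp
      have e7 : v⁻¹ * (CN * R) = CN / Real.pi * R⁻¹ := by
        rw [hv]
        field_simp
      rw [e7]
      rw [e4] at h9
      linarith
    -- k to infinity
    have hb2 : ∀ n : ℕ, δ ≤ 2 * (C' * A) / √5 ^ n := by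
      intro n
      obtain ⟨M, hM0, hk⟩ := hb1 n
      have h1 : Tendsto (fun k : ℕ => 2 * (C * A) / √5 ^ (k + n) + 2 * (C' * A) / √5 ^ n +
          η k * M) atTop (𝓝 (0 + 2 * (C' * A) / √5 ^ n + 0 * M)) := by
        refine (Tendsto.add_const _ ?_).add (hη0.mul_const M)
        have h2 : Tendsto (fun k : ℕ => √5 ^ (k + n)) atTop atTop :=
          (tendsto_pow_atTop_atTop_of_one_lt (by
            rw [show (1 : ℝ) = √1 by simp]
            exact Real.sqrt_lt_sqrt (by norm_num) (by norm_num))).comp (tendsto_add_atTop_nat n)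
        exact h2.const_div_atTop _
      have h2 := ge_of_tendsto' h1 hk
      simpa using h2
    have hb3 : δ ≤ 0 := by
      have h1 : Tendsto (fun n : ℕ => 2 * (C' * A) / √5 ^ n) atTop (𝓝 0) := by
        have h2 : Tendsto (fun k : ℕ => √5 ^ k) atTop atTop :=
          tendsto_pow_atTop_atTop_of_one_lt (by
            rw [show (1 : ℝ) = √1 by simp]
            exact Real.sqrt_lt_sqrt (by norm_num) (by norm_num))
        exact h2.const_div_atTop _
      exact ge_of_tendsto' h1 hb2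
    have h0 : δ = 0 := le_antisymm hb3 (abs_nonneg _)
    rw [hδ, abs_eq_zero, sub_eq_zero] at h0
    exact h0
  -- equality of measures
  let e : ℂ ≃ₜ ℂ := Homeomorph.mulLeft₀ uu huu
  have hmap : γ.map (fun x => uu * x) = γ.map e := rfl
  rw [hmap]
  have hreg : (γ.map e).Regular := Measure.Regular.map e
  refine Measure.ext_of_integral_eq_on_compactlySupported fun f => ?_
  have h1 : ∫ x, f x ∂(γ.map e) = ∫ x, f (e x) ∂γ :=
    integral_map e.measurable.aemeasurable f.continuous.aestronglyMeasurable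
  rw [h1]
  exact (key f f.continuous f.hasCompactSupport).symm

end

end Pool.Agent.Lib.MPd437ed
end

section
/-!
RLE: Riemann–Lebesgue for the phase `‖k‖²` (MP_d437ed_an, IV).
-/
noncomputable section

open Complex MeasureTheory Filter Topology
open scoped FourierTransform

namespace Pool.Agent.Lib.MPd437ed

namespace RleM

/-- the squares of the moduli of almost all points avoid a given null set -/
lemma null_preimage (A : Set ℝ) (hA : MeasurableSet A) (h0 : volume A = 0) :
    volume ((fun k : ℂ => ‖k‖ ^ 2) ⁻¹' A) = 0 := by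
  have hm : Measurable (fun k : ℂ => ‖k‖ ^ 2) := by fun_prop
  have hmA : MeasurableSet ((fun k : ℂ => ‖k‖ ^ 2) ⁻¹' A) := hm hA
  have hB0 : volume {r : ℝ | 0 < r ∧ r ^ 2 ∈ A} = 0 := by
    have h1 : {r : ℝ | 0 < r ∧ r ^ 2 ∈ A} ⊆ Real.sqrt '' (A ∩ Set.Ioi 0) := by
      rintro r ⟨hr, hrA⟩
      exact ⟨r ^ 2, ⟨hrA, by simpa using pow_pos hr 2⟩, Real.sqrt_sq hr.le⟩
    refine measure_mono_null h1 ?_
    refine addHaar_image_eq_zero_of_differentiableOn_of_addHaar_eq_zero volume ?_ ?_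
    · intro x hx
      exact (Real.hasDerivAt_sqrt (ne_of_gt hx.2)).differentiableAt.differentiableWithinAt
    · exact measure_mono_null Set.inter_subset_left h0
  have h2 := Complex.lintegral_comp_polarCoord_symm
    (((fun k : ℂ => ‖k‖ ^ 2) ⁻¹' A).indicator (fun _ => (1 : ENNReal)))
  rw [lintegral_indicator_const hmA, one_mul] at h2
  rw [← h2]
  have h3 : volume ((Prod.fst : ℝ × ℝ → ℝ) ⁻¹' {r : ℝ | 0 < r ∧ r ^ 2 ∈ A}) = 0 := by
    have : (Prod.fst : ℝ × ℝ → ℝ) ⁻¹' {r : ℝ | 0 < r ∧ r ^ 2 ∈ A} =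
        {r : ℝ | 0 < r ∧ r ^ 2 ∈ A} ×ˢ Set.univ := by
      ext p; simp
    rw [this, Measure.volume_eq_prod, Measure.prod_prod, hB0, zero_mul]
  refine lintegral_eq_zero_of_ae_eq_zero ?_
  rw [Filter.EventuallyEq, ae_restrict_iff' polarCoord.open_target.measurableSet]
  have h4 : ∀ᵐ p : ℝ × ℝ, p ∉ (Prod.fst : ℝ × ℝ → ℝ) ⁻¹' {r : ℝ | 0 < r ∧ r ^ 2 ∈ A} :=
    measure_eq_zero_iff_ae_notMem.1 h3
  filter_upwards [h4] with p hp hpt
  have hp1 : 0 < p.1 := by
    rw [polarCoord_target] at hpt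
    exact hpt.1
  have hnA : p.1 ^ 2 ∉ A := fun h => hp ⟨hp1, h⟩
  simp [hnA]

end RleM

theorem specRle : SpecRle := by
  intro ν hν hac
  have hm : Measurable (fun k : ℂ => ‖k‖ ^ 2) := by fun_prop
  set ν' : Measure ℝ := ν.map (fun k : ℂ => ‖k‖ ^ 2) with hν'
  have hac' : ν' ≪ volume := by
    refine Measure.AbsolutelyContinuous.mk (fun A hA h0 => ?_)
    rw [hν', Measure.map_apply hm hA]
    exact hac (RleM.null_preimage A hA h0)
  have h1 := (Real.tendsto_integral_exp_smul_cocompact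
    (fun x : ℝ => (((ν'.rnDeriv volume x).toReal : ℝ) : ℂ))).comp
      (show Tendsto (fun t : ℝ => -t) (cocompact ℝ) (cocompact ℝ) from
        (Homeomorph.neg ℝ).isClosedEmbedding.tendsto_cocompact)
  refine h1.congr (fun t => ?_)
  have h2 : ∫ k, cexp (2 * Real.pi * (t * ‖k‖ ^ 2 : ℝ) * I) ∂ν =
      ∫ x, cexp (2 * Real.pi * (t * x : ℝ) * I) ∂ν' := by
    rw [hν', integral_map hm.aemeasurable]
    exact (Continuous.aestronglyMeasurable (by fun_prop))
  rw [h2, ← integral_rnDeriv_smul hac']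
  refine integral_congr_ae (Eventually.of_forall (fun x => ?_))
  simp only [Circle.smul_def, Real.fourierChar_apply, smul_eq_mul, Complex.real_smul]
  rw [mul_comm]
  congr 2
  push_cast
  ring

end Pool.Agent.Lib.MPd437ed
end
end

section
/-!
# SAM: `same` counts the common descendants
-/
namespace Pool.Agent.Lib.MPd437ed

open Complex

namespace SamM

/-- iterated sums over pairs are iterated double sums -/
theorem pair (F : Tile → Tile → ℝ) : ∀ (n : ℕ) (s : St),
    (PP St.child)^[n] (fun s => F s.P s.Q) s =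
      (PP Tile.child)^[n] (fun t => (PP Tile.child)^[n] (fun t' => F t t') s.Q) s.P
  | 0, s => rfl
  | n + 1, s => by
      rw [Function.iterate_succ_apply', Function.iterate_succ_apply']
      show ∑ k : Fin 5 × Fin 5, _ = ∑ i : Fin 5, _
      rw [Fintype.sum_prod_type]
      refine Finset.sum_congr rfl fun i _ => ?_
      -- inner sum
      have hlin : ∀ (m : ℕ) (H : Fin 5 → Tile → ℝ) (P : Tile),
          (PP Tile.child)^[m] (fun t => ∑ k, H k t) P = ∑ k, (PP Tile.child)^[m] (H k) P := by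
        intro m
        induction m with
        | zero => intro H P; rfl
        | succ m ih =>
          intro H P
          rw [Function.iterate_succ_apply']
          simp only [Function.iterate_succ_apply']
          show ∑ i, _ = ∑ k, ∑ i, _
          rw [Finset.sum_comm]
          exact Finset.sum_congr rfl fun i _ => ih H _
      have h1 : (fun t => (PP Tile.child)^[n + 1] (fun t' => F t t') s.Q) =
          fun t => ∑ k, (PP Tile.child)^[n] (fun t' => F t t') (s.Q.child k) := by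
        funext t
        rw [Function.iterate_succ_apply']
        rfl
      rw [h1, hlin]
      refine Finset.sum_congr rfl fun k _ => ?_
      exact pair F n (s.child (i, k))

open Classical in
theorem main (hD : SpecDes) (k : ℕ) (s : St) (hs : Valid s) :
    same k s = ((desc k s.P ∩ desc k s.Q).ncard : ℝ) * (‖s.P.w‖ ^ 2 / 5 ^ k) := by
  obtain ⟨hP, ⟨ε, hε, hw⟩, -⟩ := hs
  have hQ : s.Q.w ≠ 0 := by
    intro h
    rw [h, mul_zero] at hw
    exact hP hw
  have h0 : same0 = fun s : St => (fun t t' : Tile => if t = t' then ‖t.w‖ ^ 2 else 0) s.P s.Q := by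
    funext s
    unfold same0
    by_cases h : s.P = s.Q <;> simp [h]
  unfold same
  rw [h0, pair (fun t t' : Tile => if t = t' then ‖t.w‖ ^ 2 else 0) k s]
  have h1 : (PP Tile.child)^[k]
      (fun t => (PP Tile.child)^[k] (fun t' => if t = t' then ‖t.w‖ ^ 2 else 0) s.Q) s.P =
      ∑ᶠ t ∈ desc k s.P, (PP Tile.child)^[k] (fun t' => if t = t' then ‖t.w‖ ^ 2 else 0) s.Q :=
    (hD.sum k s.P hP _).symm
  rw [h1]
  have h2 : ∀ t, (PP Tile.child)^[k] (fun t' => if t = t' then ‖t.w‖ ^ 2 else 0) s.Q =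
      if t ∈ desc k s.Q then ‖t.w‖ ^ 2 else 0 := by
    intro t
    rw [← hD.sum k s.Q hQ (fun t' => if t = t' then ‖t.w‖ ^ 2 else 0)]
    rw [finsum_mem_eq_finite_toFinset_sum _ (hD.fin k s.Q)]
    rw [Finset.sum_ite_eq]
    simp
  have h3 : ∑ᶠ t ∈ desc k s.P, (PP Tile.child)^[k]
      (fun t' => if t = t' then ‖t.w‖ ^ 2 else 0) s.Q =
      ∑ᶠ t ∈ desc k s.P, (if t ∈ desc k s.Q then ‖s.P.w‖ ^ 2 / 5 ^ k else 0) := by
    refine finsum_mem_congr rfl fun t ht => ?_
    rw [h2]
    have h5 : ‖t.w‖ ^ 2 = ‖s.P.w‖ ^ 2 / 5 ^ k := by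
      rw [hD.w k s.P t ht, div_pow]
      congr 1
      rw [← pow_mul, mul_comm k 2, pow_mul, Real.sq_sqrt (by norm_num)]
    rw [h5]
  rw [h3, finsum_mem_eq_finite_toFinset_sum _ (hD.fin k s.P), ← Finset.sum_filter,
    Finset.sum_const, nsmul_eq_mul]
  congr 2
  rw [Set.ncard_eq_toFinset_card _ ((hD.fin k s.P).inter_of_left _)]
  congr 1
  ext t
  simp

end SamM

theorem specSam (hD : SpecDes) : SpecSam := fun k s hs => SamM.main hD k s hs

end Pool.Agent.Lib.MPd437ed
end
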