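import Pool.Agent.Lib.MP_d437ed_an.Spec

section
/-!
BND: sums over packed points (MP_d437ed_an, III.4).
-/
noncomputable section

open Complex MeasureTheory

namespace Pool.Agent.Lib.MPd437ed

namespace BndM

lemma cube_sum {ι : Type} (T : Finset ι) (y : ι → ℝ) (C : ℝ) (hC : 0 ≤ C)
    (hy : ∀ i ∈ T, 0 ≤ y i)
    (hc : ∀ r : ℝ, 0 ≤ r → (({i ∈ (T : Set ι) | y i ≤ r}).ncard : ℝ) ≤ C * (1 + r) ^ 2) :
    ∑ i ∈ T, 1 / (1 + y i) ^ 3 ≤ 16 * C := by
  classical
  have hex : ∀ i, ∃ n : ℕ, i ∈ T → (2 : ℝ) ^ n ≤ 1 + y i ∧ 1 + y i < 2 ^ (n + 1) := by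
    intro i
    by_cases hi : i ∈ T
    · obtain ⟨n, hn⟩ := exists_nat_pow_near (show (1 : ℝ) ≤ 1 + y i by linarith [hy i hi])
        (show (1 : ℝ) < 2 by norm_num)
      exact ⟨n, fun _ => hn⟩
    · exact ⟨0, fun h => absurd h hi⟩
  choose n hn using hex
  set K := T.sup n with hK
  have h1 : ∑ i ∈ T, 1 / (1 + y i) ^ 3 ≤ ∑ i ∈ T, (1 / 8 : ℝ) ^ (n i) := by
    refine Finset.sum_le_sum (fun i hi => ?_)
    rw [one_div_pow]
    have h2 : ((2 : ℝ) ^ (n i)) ^ 3 ≤ (1 + y i) ^ 3 :=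
      pow_le_pow_left₀ (by positivity) (hn i hi).1 3
    have h3 : ((2 : ℝ) ^ (n i)) ^ 3 = 8 ^ (n i) := by
      rw [← pow_mul, mul_comm, pow_mul]; norm_num
    rw [h3] at h2
    exact one_div_le_one_div_of_le (by positivity) h2
  have h2 : ∑ i ∈ T, (1 / 8 : ℝ) ^ (n i) =
      ∑ k ∈ Finset.range (K + 1), ∑ i ∈ T with n i = k, (1 / 8 : ℝ) ^ (n i) := by
    rw [Finset.sum_fiberwise_of_maps_to]
    intro i hi
    rw [Finset.mem_range]
    have := Finset.le_sup (f := n) hi
    omega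
  have h3 : ∀ k ∈ Finset.range (K + 1), ∑ i ∈ T with n i = k, (1 / 8 : ℝ) ^ (n i) ≤
      8 * C * (1 / 2 : ℝ) ^ (k + 1) := by
    intro k _
    have h4 : ∑ i ∈ T with n i = k, (1 / 8 : ℝ) ^ (n i) =
        ((T.filter (fun i => n i = k)).card : ℝ) * (1 / 8 : ℝ) ^ k := by
      rw [Finset.sum_congr rfl (g := fun _ => (1 / 8 : ℝ) ^ k)]
      · simp
      · intro i hi
        rw [(Finset.mem_filter.1 hi).2]
    rw [h4]
    have h2k : (1 : ℝ) ≤ 2 ^ (k + 1) := one_le_pow₀ (by norm_num)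
    have h5 := hc (2 ^ (k + 1) - 1) (by linarith)
    have h6 : ((T.filter (fun i => n i = k)).card : ℝ) ≤
        (({i ∈ (T : Set ι) | y i ≤ 2 ^ (k + 1) - 1}).ncard : ℝ) := by
      have hfin : ({i ∈ (T : Set ι) | y i ≤ 2 ^ (k + 1) - 1}).Finite :=
        T.finite_toSet.subset (fun i hi => hi.1)
      have hsub : ((T.filter (fun i => n i = k) : Finset ι) : Set ι) ⊆
          {i ∈ (T : Set ι) | y i ≤ 2 ^ (k + 1) - 1} := by
        intro i hi
        rw [Finset.mem_coe, Finset.mem_filter] at hi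
        refine ⟨hi.1, ?_⟩
        have := (hn i hi.1).2
        rw [hi.2] at this
        linarith
      have := Set.ncard_le_ncard hsub hfin
      rw [Set.ncard_coe_finset] at this
      exact Nat.cast_le.2 this
    have h7 : (1 + ((2 : ℝ) ^ (k + 1) - 1)) ^ 2 = 4 ^ (k + 1) := by
      rw [add_sub_cancel, ← pow_mul, mul_comm, pow_mul]; norm_num
    rw [h7] at h5
    have h8 : (0 : ℝ) ≤ (1 / 8 : ℝ) ^ k := by positivity
    calc ((T.filter (fun i => n i = k)).card : ℝ) * (1 / 8 : ℝ) ^ k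
        ≤ (C * 4 ^ (k + 1)) * (1 / 8 : ℝ) ^ k := by
          apply mul_le_mul_of_nonneg_right (h6.trans h5) h8
      _ = 8 * C * (1 / 2 : ℝ) ^ (k + 1) := by
          have : (4 : ℝ) ^ (k + 1) * (1 / 8 : ℝ) ^ k = 8 * (1 / 2 : ℝ) ^ (k + 1) := by
            have e1 : (4 : ℝ) ^ (k + 1) * (1 / 8 : ℝ) ^ (k + 1) = (1 / 2 : ℝ) ^ (k + 1) := by
              rw [← mul_pow]; norm_num
            have e2 : (1 / 8 : ℝ) ^ (k + 1) = (1 / 8 : ℝ) ^ k * (1 / 8) := pow_succ _ _
            rw [← e1, e2]; ring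
          rw [mul_assoc, this]; ring
  rw [h2] at h1
  refine h1.trans ((Finset.sum_le_sum h3).trans ?_)
  rw [← Finset.mul_sum]
  have h9 : ∑ k ∈ Finset.range (K + 1), (1 / 2 : ℝ) ^ (k + 1) ≤ 1 := by
    have e : ∀ m : ℕ, ∑ k ∈ Finset.range m, (1 / 2 : ℝ) ^ (k + 1) = 1 - (1 / 2) ^ m := by
      intro m
      induction m with
      | zero => simp
      | succ m ih => rw [Finset.sum_range_succ, ih, pow_succ]; ring
    rw [e]
    have : (0 : ℝ) ≤ (1 / 2) ^ (K + 1) := by positivity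
    linarith
  nlinarith

end BndM

theorem specBnd : SpecBnd := by
  intro C
  refine ⟨16 * |C| + 1, by positivity, ?_⟩
  intro ι T f x d hd hc hT
  have hy : ∀ i ∈ T, 0 ≤ ‖f i - x‖ := fun i _ => norm_nonneg _
  have h1 := BndM.cube_sum T (fun i => ‖f i - x‖) |C| (abs_nonneg C) hy
    (fun r hr => (hc r hr).trans (by gcongr; exact le_abs_self C))
  have h2 : ∑ i ∈ T, 1 / (1 + ‖f i - x‖) ^ 6 ≤
      ∑ i ∈ T, 1 / (1 + d) ^ 3 * (1 / (1 + ‖f i - x‖) ^ 3) := by
    refine Finset.sum_le_sum (fun i hi => ?_)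
    rw [one_div_mul_one_div]
    apply one_div_le_one_div_of_le (by positivity)
    have h3 : (1 + d) ^ 3 ≤ (1 + ‖f i - x‖) ^ 3 :=
      pow_le_pow_left₀ (by positivity) (by linarith [hT i hi]) 3
    calc (1 + d) ^ 3 * (1 + ‖f i - x‖) ^ 3 ≤ (1 + ‖f i - x‖) ^ 3 * (1 + ‖f i - x‖) ^ 3 := by
          gcongr
      _ = _ := by ring
  rw [← Finset.mul_sum] at h2
  refine h2.trans ?_
  rw [div_eq_mul_one_div (16 * |C| + 1), mul_comm]
  gcongr
  linarith

end Pool.Agent.Lib.MPd437ed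
end
end

section
/-!
# CHEB: index spread of the parts of the supertile
-/
set_option autoImplicit false

namespace Pool.Agent.Lib.MPd437ed

open MeasureTheory Filter Topology Complex

namespace ChebM

noncomputable section

open Classical

/-- integer sign -/
def sz (b : Bool) : ℤ := if b then 1 else -1

/-- second moment -/
def MM : ℕ → Bool → ℤ → ℝ
  | 0, _, a => (a : ℝ) ^ 2
  | n + 1, s, a => ∑ i : Fin 5, MM n (s == pos i) (a - sz s)

/-- mean -/
def aa : ℕ → ℝ
  | 0 => 0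
  | n + 1 => 5 ^ (n + 1) - aa n

lemma aa_bd (n : ℕ) : 0 ≤ aa n ∧ aa n ≤ 5 ^ n := by
  induction n with
  | zero => simp [aa]
  | succ n ih =>
    unfold aa
    have h : (5 : ℝ) ^ (n + 1) = 5 * 5 ^ n := by ring
    have h0 : (0 : ℝ) < 5 ^ n := by positivity
    constructor <;> linarith [ih.1, ih.2]

lemma MM_le (n : ℕ) : ∀ (s : Bool) (a : ℤ),
    MM n s a ≤ 5 ^ n * (a : ℝ) ^ 2 - 2 * a * sz s * aa n + n * 5 ^ n := by
  induction n with
  | zero =>
    intro s a
    simp [MM, aa]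
  | succ n ih =>
    intro s a
    have h0 := (aa_bd n).1
    unfold MM
    refine (Finset.sum_le_sum fun i _ => ih (s == pos i) (a - sz s)).trans ?_
    have e : (aa (n + 1)) = 5 ^ (n + 1) - aa n := rfl
    rw [e]
    have p0 : pos 0 = false := rfl
    have p1 : pos 1 = false := rfl
    have p2 : pos 2 = false := rfl
    have p3 : pos 3 = true := rfl
    have p4 : pos 4 = true := rfl
    have e5 : (5 : ℝ) ^ (n + 1) = 5 * 5 ^ n := by ring
    have b1 : (false == true) = false := rfl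
    have b2 : (true == false) = false := rfl
    have b3 : (false == false) = true := rfl
    have b4 : (true == true) = true := rfl
    have s1 : sz true = 1 := rfl
    have s2 : sz false = -1 := rfl
    cases s
    · simp only [Fin.sum_univ_five, p0, p1, p2, p3, p4, e5, b1, b3, s1, s2]
      push_cast
      nlinarith [h0]
    · simp only [Fin.sum_univ_five, p0, p1, p2, p3, p4, e5, b2, b4, s1, s2]
      push_cast
      nlinarith [h0]

lemma varpi_ne : ϖ ≠ 0 := by
  intro h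
  have := congrArg Complex.re h
  simp [ϖ] at this

lemma varpi_conj_ne : (starRingEnd ℂ) ϖ ≠ 0 := by
  rw [map_ne_zero]
  exact varpi_ne

/-- `P` has the index `(α, β)` -/
def Rep (w : ℂ) (α β : ℤ) : Prop :=
  ∃ ε : ℂ, ε ^ 4 = 1 ∧ w = ε * ϖ ^ α * (starRingEnd ℂ) ϖ ^ β

lemma fac_pow (i : Fin 5) : fac i ^ 4 = 1 := by
  have hI : I ^ 4 = 1 := Complex.I_pow_four
  have hI' : (-I) ^ 4 = 1 := by rw [neg_pow, hI]; norm_num
  fin_cases i
  · exact hI'
  · simp [fac]
  · simp [fac]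
  · show (-1 : ℂ) ^ 4 = 1
    norm_num
  · simp [fac]

lemma rep_child {t : Tile} {α β : ℤ} (h : Rep t.w α β) (i : Fin 5) :
    ∃ α' β' : ℤ, Rep (t.child i).w α' β' ∧ α' + β' = α + β - 1 ∧
      α' - β' = (α - β) - sz t.s := by
  obtain ⟨ε, hε, hw⟩ := h
  unfold Tile.child tw sz
  cases hs : t.s
  · refine ⟨α, β - 1, ⟨ε * (starRingEnd ℂ) (fac i), ?_, ?_⟩, by ring, by simp; ring⟩
    · rw [mul_pow, hε, ← map_pow, fac_pow]
      simp
    · simp only [Bool.false_eq_true, if_false]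
      rw [hw, map_div₀, zpow_sub_one₀ varpi_conj_ne]
      field_simp
  · refine ⟨α - 1, β, ⟨ε * fac i, ?_, ?_⟩, by ring, by simp; ring⟩
    · rw [mul_pow, hε, fac_pow]
      simp
    · simp only [if_true]
      rw [hw, zpow_sub_one₀ varpi_ne]
      field_simp

/-- good tiles -/
def Good (m N : ℕ) (P : Tile) : Prop :=
  ∃ (ε : ℂ) (α β : ℤ), ε ^ 4 = 1 ∧ P.w = ε * ϖ ^ α * (starRingEnd ℂ) ϖ ^ β ∧ α + β = m ∧
    (α - β) ^ 2 ≤ 4 * N

/-- indicator of the bad tiles -/
def bad (m N : ℕ) (P : Tile) : ℝ := if Good m N P then 0 else 1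

lemma main (m N : ℕ) (n : ℕ) : ∀ (t : Tile) (α β : ℤ), Rep t.w α β → α + β = m + n →
    (PP Tile.child)^[n] (bad m N) t * (4 * N) ≤ MM n t.s (α - β) := by
  induction n with
  | zero =>
    intro t α β h hs
    obtain ⟨ε, hε, hw⟩ := h
    simp only [Function.iterate_zero, id_eq, MM]
    unfold bad
    split_ifs with hg
    · rw [zero_mul]
      positivity
    · have h1 : ¬ (α - β) ^ 2 ≤ 4 * (N : ℤ) := by
        intro h2
        exact hg ⟨ε, α, β, hε, hw, by simpa using hs, h2⟩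
      rw [not_le] at h1
      have h2 : (4 * (N : ℝ)) ≤ ((α - β : ℤ) : ℝ) ^ 2 := by exact_mod_cast h1.le
      rw [one_mul]
      exact h2
  | succ n ih =>
    intro t α β h hs
    rw [Function.iterate_succ_apply']
    unfold PP MM
    rw [Finset.sum_mul]
    refine Finset.sum_le_sum fun i _ => ?_
    obtain ⟨α', β', hr, h1, h2⟩ := rep_child h i
    rw [← h2]
    have := ih (t.child i) α' β' hr (by rw [h1, hs]; push_cast; ring)
    exact this

lemma varpi_mul : ϖ * (starRingEnd ℂ) ϖ = 5 := by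
  apply Complex.ext
  · simp [ϖ]
    norm_num
  · simp [ϖ]

lemma rep_SS (h : ℕ) : Rep (SS h).w h h := by
  refine ⟨1, one_pow 4, ?_⟩
  unfold SS
  simp only
  rw [one_mul, zpow_natCast, zpow_natCast, ← mul_pow, varpi_mul]

end

end ChebM

open ChebM

theorem specCheb (hDes : SpecDes) : SpecCheb := by
  classical
  intro h n m hnm
  have hw : (SS h).w ≠ 0 := by
    unfold SS
    simp
  set D := (hDes.fin n (SS h)).toFinset with hD
  have hcard : (D.card : ℝ) = 5 ^ n := by
    have h1 := hDes.card n (SS h) hw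
    rw [Set.ncard_eq_toFinset_card _ (hDes.fin n (SS h))] at h1
    exact_mod_cast h1
  have hset : {P ∈ desc n (SS h) | ∃ (ε : ℂ) (α β : ℤ), ε ^ 4 = 1 ∧
      P.w = ε * ϖ ^ α * (starRingEnd ℂ) ϖ ^ β ∧ α + β = m ∧ (α - β) ^ 2 ≤ 4 * n} =
      (D.filter (fun P => Good m n P) : Set Tile) := by
    ext P
    simp only [hD, Finset.coe_filter, Set.Finite.mem_toFinset, Set.mem_ofPred_eq]
    rfl
  rw [hset, Set.ncard_coe_finset]
  have hsum : ∑ P ∈ D, bad m n P = (PP Tile.child)^[n] (bad m n) (SS h) := by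
    rw [← hDes.sum n (SS h) hw, hD, finsum_mem_eq_finite_toFinset_sum _ (hDes.fin n (SS h))]
  have hsplit : ((D.filter (fun P => Good m n P)).card : ℝ) = 5 ^ n - ∑ P ∈ D, bad m n P := by
    rw [← hcard]
    have h1 : ∑ P ∈ D, bad m n P = ((D.filter (fun P => ¬ Good m n P)).card : ℝ) := by
      unfold bad
      rw [Finset.card_filter]
      push_cast
      refine Finset.sum_congr rfl fun P _ => ?_
      by_cases hg : Good m n P <;> simp [hg]
    rw [h1]
    have h2 := Finset.card_filter_add_card_filter_not (s := D) (fun P => Good m n P)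
    have h3 : ((D.filter (fun P => Good m n P)).card : ℝ) + ((D.filter (fun P => ¬ Good m n P)).card : ℝ)
      = D.card := by exact_mod_cast h2
    linarith
  rw [hsplit, hsum]
  have hrep : Rep (SS h).w h h := rep_SS h
  rcases Nat.eq_zero_or_pos n with hn | hn
  · subst hn
    have hg : Good m 0 (SS h) := by
      obtain ⟨ε, hε, hw'⟩ := hrep
      refine ⟨ε, h, h, hε, hw', ?_, by simp⟩
      have : m = 2 * h := by omega
      rw [this]
      push_cast
      ring
    simp only [Function.iterate_zero, id_eq, bad, if_pos hg, pow_zero]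
    norm_num
  · have h1 := main m n n (SS h) h h hrep (by
      have : ((n : ℤ) + m) = 2 * h := by exact_mod_cast hnm
      linarith)
    rw [sub_self] at h1
    have h2 := MM_le n (SS h).s 0
    have hn0 : (0 : ℝ) < n := by exact_mod_cast hn
    have h3 : (PP Tile.child)^[n] (bad m n) (SS h) * (4 * n) ≤ n * 5 ^ n := by
      refine h1.trans (h2.trans ?_)
      simp
    have h4 : (PP Tile.child)^[n] (bad m n) (SS h) ≤ 5 ^ n / 4 := by
      rw [le_div_iff₀ (by norm_num)]
      have : (PP Tile.child)^[n] (bad m n) (SS h) * 4 * n ≤ 5 ^ n * n := by linarith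
      exact le_of_mul_le_mul_right this hn0
    linarith

end Pool.Agent.Lib.MPd437ed
end

section
/-!
# CLS: congruent pairs
-/
set_option autoImplicit false

namespace Pool.Agent.Lib.MPd437ed

open MeasureTheory Filter Topology Complex

namespace ClsM

noncomputable section

open Classical

/-- the parts as a finset -/
def D (hDes : SpecDes) (N : ℕ) (S : Tile) : Finset Tile := (hDes.fin N S).toFinset

lemma mem_D (hDes : SpecDes) {N : ℕ} {S t : Tile} : t ∈ D hDes N S ↔ t ∈ desc N S := by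
  unfold D
  exact Set.Finite.mem_toFinset _

lemma sum_D (hDes : SpecDes) {N : ℕ} {S : Tile} (hS : S.w ≠ 0) (O : Set ℂ)
    (hO : MeasurableSet O) :
    ∑ t ∈ D hDes N S, volume.real (t.region ∩ O) = volume.real (S.region ∩ O) := by
  rw [← hDes.sum_area N S hS O hO, ← hDes.sum N S hS, D,
    finsum_mem_eq_finite_toFinset_sum _ (hDes.fin N S)]

lemma fiber (hGeo : SpecGeo) (hDes : SpecDes) {N : ℕ} {S : Tile} (hS : ‖S.w‖ = √5 ^ N) (x : ℂ)
    (T : Finset Tile) (hT : ∀ t ∈ T, t ∈ desc N S ∧ t.c = x) : T.card ≤ 16 := by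
  have h5 : (0 : ℝ) < √5 := Real.sqrt_pos.2 (by norm_num)
  have hw : S.w ≠ 0 := by
    rw [← norm_ne_zero_iff, hS]
    positivity
  have hsub : T ⊆ D hDes N S := fun t ht => (mem_D hDes).2 (hT t ht).1
  have h1 : ∀ t ∈ T, (1 : ℝ) ≤ volume.real (t.region ∩ Metric.closedBall x √5) := by
    intro t ht
    obtain ⟨h2, h3⟩ := hT t ht
    have h4 : ‖t.w‖ = 1 := by
      rw [hDes.w N S t h2, hS, div_self (by positivity)]
    have h6 : t.region ∩ Metric.closedBall x √5 = t.region := by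
      rw [Set.inter_eq_left]
      intro y hy
      rw [Metric.mem_closedBall, dist_eq_norm]
      have h7 : t.map 0 ∈ t.region := hGeo.verts_sub t (by simp [Tile.verts])
      have h8 : t.map 0 = x := by
        rw [← h3]
        unfold Tile.map tw
        split_ifs <;> simp
      have h9 := hGeo.diam t y hy (t.map 0) h7
      rw [h8, h4, mul_one] at h9
      exact h9
    rw [h6, hGeo.area, h4]
    norm_num
  have h2 : (T.card : ℝ) ≤ 5 * Real.pi := by
    calc (T.card : ℝ) = ∑ t ∈ T, (1 : ℝ) := by simp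
      _ ≤ ∑ t ∈ T, volume.real (t.region ∩ Metric.closedBall x √5) := Finset.sum_le_sum h1
      _ ≤ ∑ t ∈ D hDes N S, volume.real (t.region ∩ Metric.closedBall x √5) :=
          Finset.sum_le_sum_of_subset_of_nonneg hsub fun t _ _ => measureReal_nonneg
      _ = volume.real (S.region ∩ Metric.closedBall x √5) :=
          sum_D hDes hw _ Metric.isClosed_closedBall.measurableSet
      _ ≤ volume.real (Metric.closedBall x √5) := by
          exact measureReal_mono Set.inter_subset_right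
            (isCompact_closedBall x √5).measure_lt_top.ne
      _ = 5 * Real.pi := by
          rw [measureReal_def, Complex.volume_closedBall, ENNReal.toReal_mul, ENNReal.toReal_pow,
            ENNReal.toReal_ofReal h5.le, Real.sq_sqrt (by norm_num)]
          rfl
  have h3 : (T.card : ℝ) < 16 := by
    have := Real.pi_lt_d2
    linarith
  have h4 : T.card < 16 := by exact_mod_cast h3
  omega

/-- corners of the parts of a virtual tile -/
lemma corner (hDes : SpecDes) {m : ℕ} {a g : ℂ} {t : Tile} (ht : t ∈ desc m ⟨a, g, true⟩) :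
    ∃ t' ∈ desc m ⟨0, g, true⟩, t.c = a + t'.c := by
  rw [hDes.comp m ⟨a, g, true⟩] at ht
  obtain ⟨t₀, ht₀, rfl⟩ := ht
  refine ⟨(⟨0, g, true⟩ : Tile).comp t₀, ?_, ?_⟩
  · rw [hDes.comp m ⟨0, g, true⟩]
    exact ⟨t₀, ht₀, rfl⟩
  · simp [Tile.comp, Tile.map, tw]

/-- Cauchy-Schwarz -/
lemma cs (X Cl : Finset ℂ) (κ : ℂ → ℂ) (hκ : ∀ x ∈ X, κ x ∈ Cl) :
    (X.card : ℝ) ^ 2 ≤ Cl.card * ((X ×ˢ X).filter (fun p => κ p.1 = κ p.2)).card := by
  have h1 : X.card = ∑ k ∈ Cl, (X.filter (fun x => κ x = k)).card :=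
    Finset.card_eq_sum_card_fiberwise hκ
  have h2 : ((X ×ˢ X).filter (fun p => κ p.1 = κ p.2)).card =
      ∑ k ∈ Cl, (X.filter (fun x => κ x = k)).card ^ 2 := by
    rw [Finset.card_eq_sum_card_fiberwise (f := fun p : ℂ × ℂ => κ p.1) (t := Cl)]
    · refine Finset.sum_congr rfl fun k _ => ?_
      rw [sq, ← Finset.card_product]
      congr 1
      ext p
      simp only [Finset.mem_filter, Finset.mem_product]
      constructor
      · rintro ⟨⟨⟨h3, h4⟩, h5⟩, h6⟩
        exact ⟨⟨h3, h6⟩, ⟨h4, by rw [← h5, h6]⟩⟩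
      · rintro ⟨⟨h3, h6⟩, ⟨h4, h7⟩⟩
        exact ⟨⟨⟨h3, h4⟩, by rw [h6, h7]⟩, h6⟩
    · intro p hp
      have := (Finset.mem_product.1 (Finset.mem_filter.1 hp).1).1
      exact hκ _ this
  rw [h1, h2]
  push_cast
  exact sq_sum_le_card_mul_sum_sq

end

end ClsM

open ClsM

theorem specCls (hGeo : SpecGeo) (hDes : SpecDes) : SpecCls := by
  classical
  refine ⟨512, by norm_num, fun N m S g hS hg => ?_⟩
  set Λ := Vx N S with hΛ
  have hΛfin : Λ.Finite := by
    rw [hΛ]
    unfold Vx vertexSet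
    refine (hDes.fin N S).biUnion fun t _ => ?_
    unfold Tile.verts
    exact Set.toFinite _
  have hCPfin : (CP Λ g).Finite := by
    refine (hΛfin.prod hΛfin).subset ?_
    rintro p ⟨h1, h2, _⟩
    exact ⟨h1, h2⟩
  set FI : Finset Tile := (D hDes N S).filter (fun t => t ∈ InV N m S g) with hFI
  have hcard : (InV N m S g).ncard = FI.card := by
    rw [← Set.ncard_coe_finset]
    congr 1
    ext t
    rw [hFI]
    simp only [Finset.coe_filter, Set.mem_ofPred_eq, mem_D]
    constructor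
    · intro h
      exact ⟨h.1, h⟩
    · rintro ⟨_, h⟩
      exact h
  have hF16 : FI.card ≤ 16 * (FI.image Tile.c).card := by
    apply Finset.card_le_mul_card_image
    intro x _
    apply fiber hGeo hDes hS x
    intro t ht
    rw [Finset.mem_filter] at ht
    have h1 := Finset.mem_filter.1 ht.1
    exact ⟨(mem_D hDes).1 h1.1, ht.2⟩
  set Cl : Finset ℂ := (D hDes m ⟨0, g, true⟩).image Tile.c ∪ (D hDes m ⟨0, -g, true⟩).image Tile.c
    with hCl
  have hDcard : ∀ g' : ℂ, g' ≠ 0 → (D hDes m ⟨0, g', true⟩).card = 5 ^ m := by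
    intro g' hg'
    rw [← hDes.card m ⟨0, g', true⟩ hg', ← Set.ncard_coe_finset]
    congr 1
    ext t
    simp [mem_D]
  have hClcard : Cl.card ≤ 2 * 5 ^ m := by
    calc Cl.card ≤ ((D hDes m ⟨0, g, true⟩).image Tile.c).card
          + ((D hDes m ⟨0, -g, true⟩).image Tile.c).card := Finset.card_union_le _ _
      _ ≤ (D hDes m ⟨0, g, true⟩).card + (D hDes m ⟨0, -g, true⟩).card :=
          add_le_add Finset.card_image_le Finset.card_image_le
      _ = 2 * 5 ^ m := by
          rw [hDcard g hg, hDcard (-g) (neg_ne_zero.2 hg)]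
          ring
  have hX : ∀ x ∈ FI.image Tile.c, x ∈ Λ ∧ ∃ k ∈ Cl, ∃ z, IsG z ∧ x - k = g * z := by
    intro x hx
    rw [Finset.mem_image] at hx
    obtain ⟨t, ht, rfl⟩ := hx
    have h1 := Finset.mem_filter.1 ht
    have ht1 := (mem_D hDes).1 h1.1
    refine ⟨?_, ?_⟩
    · rw [hΛ]
      unfold Vx vertexSet
      refine Set.mem_biUnion ht1 ?_
      unfold Tile.verts
      left
      unfold Tile.map tw
      split_ifs <;> simp
    · obtain ⟨-, z, hz, h2 | h2⟩ := h1.2
      · obtain ⟨t', ht', hc⟩ := corner hDes h2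
        refine ⟨t'.c, ?_, z, hz, by rw [hc]; ring⟩
        rw [hCl, Finset.mem_union]
        left
        exact Finset.mem_image_of_mem _ ((mem_D hDes).2 ht')
      · obtain ⟨t', ht', hc⟩ := corner hDes h2
        refine ⟨t'.c, ?_, z, hz, by rw [hc]; ring⟩
        rw [hCl, Finset.mem_union]
        right
        exact Finset.mem_image_of_mem _ ((mem_D hDes).2 ht')
  choose! κ hκ using fun x hx => (hX x hx).2
  have hcs := cs (FI.image Tile.c) Cl κ (fun x hx => (hκ x hx).1)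
  have hpairs : (((FI.image Tile.c) ×ˢ (FI.image Tile.c)).filter (fun p => κ p.1 = κ p.2)).card
      ≤ (CP Λ g).ncard := by
    rw [← Set.ncard_coe_finset]
    apply Set.ncard_le_ncard _ hCPfin
    intro p hp
    simp only [Finset.coe_filter, Set.mem_ofPred_eq, Finset.mem_product] at hp
    obtain ⟨⟨h1, h2⟩, h3⟩ := hp
    refine ⟨(hX _ h1).1, (hX _ h2).1, ?_⟩
    obtain ⟨-, z₁, hz₁, e₁⟩ := hκ _ h1
    obtain ⟨-, z₂, hz₂, e₂⟩ := hκ _ h2
    refine ⟨z₁ - z₂, ?_, ?_⟩
    · obtain ⟨a₁, b₁, rfl⟩ := hz₁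
      obtain ⟨a₂, b₂, rfl⟩ := hz₂
      refine ⟨a₁ - a₂, b₁ - b₂, ?_⟩
      push_cast
      ring
    · rw [mul_sub, ← e₁, ← e₂, h3]
      ring
  rw [hcard]
  have h1 : (FI.card : ℝ) ≤ 16 * (FI.image Tile.c).card := by exact_mod_cast hF16
  have h2 : (FI.card : ℝ) ^ 2 ≤ (16 * (FI.image Tile.c).card) ^ 2 :=
    pow_le_pow_left₀ (Nat.cast_nonneg _) h1 2
  have h3 : (Cl.card : ℝ) ≤ 2 * 5 ^ m := by exact_mod_cast hClcard
  have h4 : ((((FI.image Tile.c) ×ˢ (FI.image Tile.c)).filter (fun p => κ p.1 = κ p.2)).card : ℝ)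
      ≤ ((CP Λ g).ncard : ℝ) := by exact_mod_cast hpairs
  calc (FI.card : ℝ) ^ 2 ≤ (16 * ((FI.image Tile.c).card : ℝ)) ^ 2 := h2
    _ = 256 * ((FI.image Tile.c).card : ℝ) ^ 2 := by ring
    _ ≤ 256 * ((Cl.card : ℝ) *
        ((((FI.image Tile.c) ×ˢ (FI.image Tile.c)).filter (fun p => κ p.1 = κ p.2)).card : ℝ)) :=
        mul_le_mul_of_nonneg_left hcs (by norm_num)
    _ ≤ 256 * ((2 * 5 ^ m) * ((CP Λ g).ncard : ℝ)) := by
        apply mul_le_mul_of_nonneg_left _ (by norm_num)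
        exact mul_le_mul h3 h4 (Nat.cast_nonneg _) (by positivity)
    _ = _ := by ring

end Pool.Agent.Lib.MPd437ed
end

section
/-!
Tiles with disjoint interiors: common lemmas for SUP, CMP, PER.
-/
namespace Pool.Agent.Lib.MPd437ed.PkM

open MeasureTheory Filter Topology Complex

noncomputable section

theorem w_ne_of_norm {t : Tile} (h : ‖t.w‖ = 1) : t.w ≠ 0 := by
  intro h0; rw [h0, norm_zero] at h; norm_num at h

theorem w_ne_of_pow {t : Tile} {N : ℕ} (h : ‖t.w‖ = √5 ^ N) : t.w ≠ 0 := by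
  intro h0; rw [h0, norm_zero] at h
  have : (0 : ℝ) < √5 ^ N := by positivity
  linarith

theorem rho_pos : 0 < rho := by
  unfold rho
  have : √5 < 3 := by
    rw [Real.sqrt_lt' (by norm_num)]; norm_num
  linarith

theorem centre_mem (hG : SpecGeo) (t : Tile) (ht : t.w ≠ 0) :
    t.map oo ∈ interior t.region := by
  rw [hG.mem_interior t ht, hG.gt_centre t ht]
  exact mul_pos rho_pos (norm_pos_iff.mpr ht)

theorem sub_closure (hG : SpecGeo) (t : Tile) (ht : t.w ≠ 0) :
    t.region ⊆ closure (interior t.region) := by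
  rw [(hG.convex t).closure_interior_eq_closure_of_nonempty_interior ⟨_, centre_mem hG t ht⟩]
  exact subset_closure

theorem meet (hG : SpecGeo) (t : Tile) (ht : t.w ≠ 0) (U : Set ℂ) (hU : IsOpen U) (x : ℂ)
    (hxU : x ∈ U) (hx : x ∈ t.region) : (U ∩ interior t.region).Nonempty :=
  mem_closure_iff.mp (sub_closure hG t ht hx) U hU hxU

/-- tiles with disjoint interiors: an interior point is in no other tile -/
theorem eq_of_mem (hG : SpecGeo) (t t' : Tile) (ht' : t'.w ≠ 0)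
    (hd : t ≠ t' → Disjoint (interior t.region) (interior t'.region)) (x : ℂ)
    (hx : x ∈ interior t.region) (hx' : x ∈ t'.region) : t = t' := by
  by_contra hne
  obtain ⟨z, hz1, hz2⟩ := meet hG t' ht' _ isOpen_interior x hx hx'
  exact Set.disjoint_left.mp (hd hne) hz1 hz2

theorem vol_interior (hG : SpecGeo) (t : Tile) : volume.real (interior t.region) = ‖t.w‖ ^ 2 := by
  rw [← hG.area t]
  have h1 : volume (frontier t.region) = 0 := (hG.convex t).addHaar_frontier volume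
  have hc : IsClosed t.region := (hG.compact t).isClosed
  have h2 : volume t.region = volume (interior t.region) := by
    apply le_antisymm
    · calc volume t.region ≤ volume (interior t.region ∪ frontier t.region) := by
            apply measure_mono
            intro x hx
            by_cases h : x ∈ interior t.region
            · exact Or.inl h
            · right
              exact ⟨subset_closure hx, h⟩
        _ ≤ volume (interior t.region) + volume (frontier t.region) := measure_union_le _ _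
        _ = _ := by rw [h1, add_zero]
    · exact measure_mono interior_subset
  rw [Measure.real, Measure.real, h2]

theorem vol_fin (hG : SpecGeo) (t : Tile) : volume t.region ≠ ⊤ :=
  (hG.compact t).measure_lt_top.ne

/-- tiles with disjoint interiors in a set: total area -/
theorem card_mul_le (hG : SpecGeo) (J : Finset Tile) (ω : ℝ) (hω : ∀ t ∈ J, ‖t.w‖ = ω)
    (hd : ∀ t ∈ J, ∀ t' ∈ J, t ≠ t' → Disjoint (interior t.region) (interior t'.region))
    (E : Set ℂ) (hE : volume E ≠ ⊤) (hsub : ∀ t ∈ J, t.region ⊆ E) :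
    (J.card : ℝ) * ω ^ 2 ≤ volume.real E := by
  have h1 : volume.real (⋃ t ∈ J, interior t.region) = ∑ t ∈ J, volume.real (interior t.region) := by
    apply measureReal_biUnion_finset
    · intro t ht t' ht' hne
      exact hd t ht t' ht' hne
    · intro t _
      exact isOpen_interior.measurableSet
    · intro t _
      exact ne_top_of_le_ne_top (vol_fin hG t) (measure_mono interior_subset)
  have h2 : ∑ t ∈ J, volume.real (interior t.region) = (J.card : ℝ) * ω ^ 2 := by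
    rw [Finset.sum_congr rfl (g := fun _ => ω ^ 2)]
    · simp
    · intro t ht
      rw [vol_interior hG t, hω t ht]
  rw [← h2, ← h1]
  apply measureReal_mono _ hE
  intro x hx
  simp only [Set.mem_iUnion] at hx
  obtain ⟨t, ht, hx⟩ := hx
  exact hsub t ht (interior_subset hx)

/-- covering -/
theorem le_card_mul (hG : SpecGeo) (J : Finset Tile) (ω : ℝ) (hω : ∀ t ∈ J, ‖t.w‖ = ω)
    (E : Set ℂ) (hsub : E ⊆ ⋃ t ∈ J, t.region) :
    volume.real E ≤ (J.card : ℝ) * ω ^ 2 := by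
  calc volume.real E ≤ volume.real (⋃ t ∈ J, t.region) := by
        refine measureReal_mono hsub (h₂ := ne_top_of_lt (b := ⊤) ?_)
        apply lt_of_le_of_lt (measure_biUnion_finset_le J _)
        exact ENNReal.sum_lt_top.mpr fun t _ => (hG.compact t).measure_lt_top
    _ ≤ ∑ t ∈ J, volume.real t.region := measureReal_biUnion_finset_le _ _
    _ = _ := by
        rw [Finset.sum_congr rfl (g := fun _ => ω ^ 2)]
        · simp
        · intro t ht
          rw [hG.area t, hω t ht]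

theorem vol_ball (x : ℂ) (r : ℝ) (hr : 0 ≤ r) :
    volume.real (Metric.closedBall x r) = Real.pi * r ^ 2 := by
  rw [Measure.real, Complex.volume_closedBall]
  simp [hr]
  ring

end

end Pool.Agent.Lib.MPd437ed.PkM
end

section
/-!
PER: the periodisation costs only a boundary term.
-/
namespace Pool.Agent.Lib.MPd437ed

open MeasureTheory Filter Topology Complex PkM

noncomputable section

namespace PerM

/-- translate of a tile -/
def sh (v : ℂ) (t : Tile) : Tile := ⟨t.c + v, t.w, t.s⟩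

theorem sh_map (v : ℂ) (t : Tile) (z : ℂ) : (sh v t).map z = t.map z + v := by
  simp only [sh, Tile.map]; ring

theorem mem_sh (v : ℂ) (t : Tile) (x : ℂ) : x ∈ (sh v t).region ↔ x - v ∈ t.region := by
  simp only [Tile.region, Set.mem_image, sh_map]
  constructor
  · rintro ⟨z, hz, rfl⟩
    exact ⟨z, hz, by ring⟩
  · rintro ⟨z, hz, h⟩
    exact ⟨z, hz, by rw [h]; ring⟩

theorem sh_gt (v : ℂ) (t : Tile) (x : ℂ) : (sh v t).gt x = t.gt (x - v) := by
  simp only [Tile.gt, sh]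
  congr 3
  ring_nf

theorem mem_int_sh (hG : SpecGeo) (v : ℂ) (t : Tile) (ht : t.w ≠ 0) (x : ℂ) :
    x ∈ interior (sh v t).region ↔ x - v ∈ interior t.region := by
  rw [hG.mem_interior (sh v t) ht, hG.mem_interior t ht, sh_gt]
  rfl

theorem norm_SS (h : ℕ) : ‖(SS h).w‖ = √5 ^ (2 * h) := by
  simp only [SS]
  rw [norm_pow, pow_mul, Real.sq_sqrt (by norm_num)]
  simp

theorem SS_w (h : ℕ) : (SS h).w ≠ 0 := w_ne_of_pow (norm_SS h)

theorem region_SS (h : ℕ) (x : ℂ) (hx : x ∈ (SS h).region) :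
    0 ≤ x.re ∧ x.re ≤ 2 * 5 ^ h ∧ 0 ≤ x.im ∧ x.im ≤ 5 ^ h := by
  obtain ⟨z, ⟨h1, h2, h3⟩, rfl⟩ := hx
  have e : (SS h).map z = ((5 ^ h : ℝ) : ℂ) * z := by
    simp only [SS, Tile.map, tw]
    push_cast
    simp
  rw [e, Complex.re_ofReal_mul, Complex.im_ofReal_mul]
  have hp : (0 : ℝ) < 5 ^ h := by positivity
  refine ⟨by positivity, ?_, by positivity, ?_⟩
  · nlinarith
  · nlinarith

theorem int_SS (hG : SpecGeo) (h : ℕ) (x : ℂ) (hx : x ∈ interior (SS h).region) :
    0 < x.re ∧ x.re < 2 * 5 ^ h ∧ 0 < x.im ∧ x.im < 5 ^ h := by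
  have h0 := hx
  rw [hG.mem_interior _ (SS_w h)] at hx
  have hp : (0 : ℝ) < 5 ^ h := by positivity
  have hn : ‖(SS h).w‖ = 5 ^ h := by
    simp only [SS]; rw [norm_pow]; simp
  simp only [Tile.gt, hn] at hx
  have h1 : gauge (tw (SS h).s ((x - (SS h).c) / (SS h).w) - oo) < rho := by
    rw [mul_comm rho] at hx
    exact lt_of_mul_lt_mul_left hx hp.le
  have e : tw (SS h).s ((x - (SS h).c) / (SS h).w) = x / ((5 ^ h : ℝ) : ℂ) := by
    simp only [SS, tw]
    push_cast
    simp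
  rw [e] at h1
  simp only [gauge, max_lt_iff, Complex.sub_re, Complex.sub_im, oo, Complex.div_ofReal_re,
    Complex.div_ofReal_im, Complex.re_ofReal_mul, Complex.im_ofReal_mul, Complex.add_re,
    Complex.add_im, Complex.one_re, Complex.one_im, Complex.I_re, Complex.I_im] at h1
  obtain ⟨a, b, c⟩ := h1
  have h5 : (0 : ℝ) < √5 := by positivity
  have h55 : √5 * √5 = 5 := Real.mul_self_sqrt (by norm_num)
  have X0 : 0 < x.re / 5 ^ h := by linarith
  have Y0 : 0 < x.im / 5 ^ h := by linarith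
  have c' : x.re / 5 ^ h + 2 * (x.im / 5 ^ h) < 2 := by
    rw [div_lt_iff₀ h5] at c
    have hr : rho * (3 + √5) = 2 := by
      unfold rho
      nlinarith
    nlinarith
  refine ⟨?_, ?_, ?_, ?_⟩
  · exact (div_pos_iff_of_pos_right hp).mp X0
  · rw [← div_lt_iff₀ hp]; linarith
  · exact (div_pos_iff_of_pos_right hp).mp Y0
  · have : x.im / 5 ^ h < 1 := by linarith
    rw [div_lt_one hp] at this
    exact this

theorem int_of_lt (a b W : ℝ) (hW : 0 < W) (n : ℤ) (ha0 : 0 < a) (ha : a < W) (hb0 : 0 ≤ b)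
    (hb : b ≤ W) (h : a - b = W * n) : n = 0 := by
  have h1 : W * n < W * 1 := by linarith
  have h2 : W * (-1) < W * n := by linarith
  have h3 : (n : ℝ) < 1 := lt_of_mul_lt_mul_left h1 hW.le
  have h4 : (-1 : ℝ) < n := lt_of_mul_lt_mul_left h2 hW.le
  have h5 : n < 1 := by exact_mod_cast h3
  have h6 : -1 < n := by exact_mod_cast h4
  omega

theorem G2_re (n : ℤ × ℤ) : (G2 n).re = n.1 := by simp [G2]
theorem G2_im (n : ℤ × ℤ) : (G2 n).im = n.2 := by simp [G2]

/-- translates of the triangle by `2·5^h ℤ[i]` are disjoint -/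
theorem zero_of (hG : SpecGeo) (h : ℕ) (a b : ℂ) (ha : a ∈ interior (SS h).region)
    (hb : b ∈ (SS h).region) (n : ℤ × ℤ) (hab : a - b = ((2 * 5 ^ h : ℝ) : ℂ) * G2 n) : n = 0 := by
  obtain ⟨a1, a2, a3, a4⟩ := int_SS hG h a ha
  obtain ⟨b1, b2, b3, b4⟩ := region_SS h b hb
  have hp : (0 : ℝ) < 5 ^ h := by positivity
  have hre : a.re - b.re = (2 * 5 ^ h : ℝ) * n.1 := by
    have := congrArg Complex.re hab
    rwa [Complex.sub_re, Complex.re_ofReal_mul, G2_re] at this
  have him : a.im - b.im = (2 * 5 ^ h : ℝ) * n.2 := by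
    have := congrArg Complex.im hab
    rwa [Complex.sub_im, Complex.im_ofReal_mul, G2_im] at this
  have h1 := int_of_lt _ _ _ (by positivity) _ a1 a2 b1 b2 hre
  have h2 := int_of_lt _ _ _ (by positivity) _ a3 (by linarith) b3 (by linarith) him
  exact Prod.ext h1 h2

/-- the periodic packing -/
def UU (h : ℕ) : Set Tile :=
  {U | ∃ (n : ℤ × ℤ) (t : Tile), t ∈ desc (2 * h) (SS h) ∧ U = sh (-(((2 * 5 ^ h : ℝ) : ℂ) * G2 n)) t}

theorem G2_sub (n m : ℤ × ℤ) : G2 n - G2 m = G2 (n - m) := by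
  simp only [G2, Prod.fst_sub, Prod.snd_sub]
  push_cast
  ring

theorem desc_norm (hD : SpecDes) (h : ℕ) (t : Tile) (ht : t ∈ desc (2 * h) (SS h)) : ‖t.w‖ = 1 := by
  rw [hD.w _ _ _ ht, norm_SS]
  have : (0 : ℝ) < √5 ^ (2 * h) := by positivity
  field_simp

theorem shift_unique (hG : SpecGeo) (hD : SpecDes) (h : ℕ) (n n' : ℤ × ℤ) (t t' : Tile)
    (ht : t ∈ desc (2 * h) (SS h)) (ht' : t' ∈ desc (2 * h) (SS h)) (x : ℂ)
    (hx : x ∈ interior (sh (-(((2 * 5 ^ h : ℝ) : ℂ) * G2 n)) t).region)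
    (hx' : x ∈ interior (sh (-(((2 * 5 ^ h : ℝ) : ℂ) * G2 n')) t').region) : n = n' ∧ t = t' := by
  have hw := w_ne_of_norm (desc_norm hD h t ht)
  have hw' := w_ne_of_norm (desc_norm hD h t' ht')
  rw [mem_int_sh hG _ _ hw] at hx
  rw [mem_int_sh hG _ _ hw'] at hx'
  have h1 := interior_mono (hD.sub _ _ _ ht) hx
  have h2 := hD.sub _ _ _ ht' (interior_subset hx')
  have h3 := zero_of hG h _ _ h1 h2 (n - n') (by rw [← G2_sub]; ring)
  have hn : n = n' := sub_eq_zero.mp h3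
  subst hn
  refine ⟨rfl, ?_⟩
  exact eq_of_mem hG t t' hw' (fun hne => hD.disj _ _ _ _ ht ht' hne) _ hx (interior_subset hx')

theorem pack_UU (hG : SpecGeo) (hD : SpecDes) (h : ℕ) : IsPack (UU h) := by
  constructor
  · rintro U ⟨n, t, ht, rfl⟩
    exact desc_norm hD h t ht
  · rintro U ⟨n, t, ht, rfl⟩ U' ⟨n', t', ht', rfl⟩ hne
    rw [Set.disjoint_left]
    intro x hx hx'
    obtain ⟨rfl, rfl⟩ := shift_unique hG hD h n n' t t' ht ht' x hx hx'
    exact hne rfl

/-- index points: vertex and lattice translate -/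
def ff (h : ℕ) (i : ℂ × (ℤ × ℤ)) : ℂ := i.1 - ((2 * 5 ^ h : ℝ) : ℂ) * G2 i.2

theorem verts_ncard (t : Tile) : t.verts.ncard ≤ 3 := by
  unfold Tile.verts
  refine (Set.ncard_insert_le _ _).trans ?_
  have := Set.ncard_insert_le (t.map 2) {t.map I}
  rw [Set.ncard_singleton] at this
  omega

theorem verts_fin (t : Tile) : t.verts.Finite := by
  unfold Tile.verts
  exact Set.toFinite _

theorem mem_Vx {n : ℕ} {S : Tile} {x : ℂ} : x ∈ Vx n S ↔ ∃ t ∈ desc n S, x ∈ t.verts := by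
  simp [Vx, vertexSet]

open Classical in
/-- counting -/
theorem count (hG : SpecGeo) (hD : SpecDes) (C : ℝ)
    (hPac : ∀ 𝒰 : Set Tile, IsPack 𝒰 → ∀ (x : ℂ) (r : ℝ), 0 ≤ r →
      {t ∈ 𝒰 | (t.region ∩ Metric.closedBall x r).Nonempty}.Finite ∧
      ({t ∈ 𝒰 | (t.region ∩ Metric.closedBall x r).Nonempty}.ncard : ℝ) ≤ C * (1 + r) ^ 2)
    (h : ℕ) (x : ℂ) (T : Finset (ℂ × (ℤ × ℤ))) (hT : ∀ i ∈ T, i.1 ∈ Vx (2 * h) (SS h))
    (r : ℝ) (hr : 0 ≤ r) :
    (({i ∈ (T : Set (ℂ × (ℤ × ℤ))) | ‖ff h i - x‖ ≤ r}).ncard : ℝ) ≤ (3 * C) * (1 + r) ^ 2 := by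
  obtain ⟨hfin, hcard⟩ := hPac (UU h) (pack_UU hG hD h) x r hr
  have hch : ∀ y : ℂ, ∃ t : Tile, y ∈ Vx (2 * h) (SS h) → t ∈ desc (2 * h) (SS h) ∧ y ∈ t.verts := by
    intro y
    by_cases hy : y ∈ Vx (2 * h) (SS h)
    · obtain ⟨t, ht, hyt⟩ := mem_Vx.mp hy
      exact ⟨t, fun _ => ⟨ht, hyt⟩⟩
    · exact ⟨⟨0, 1, true⟩, fun h => absurd h hy⟩
  choose ty hty using hch
  let φ : ℂ × (ℤ × ℤ) → Tile := fun i => sh (-(((2 * 5 ^ h : ℝ) : ℂ) * G2 i.2)) (ty i.1)
  let A : Finset (ℂ × (ℤ × ℤ)) := T.filter (fun i => ‖ff h i - x‖ ≤ r)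
  have hA : {i ∈ (T : Set (ℂ × (ℤ × ℤ))) | ‖ff h i - x‖ ≤ r} = (A : Set (ℂ × (ℤ × ℤ))) := by
    ext i; simp [A]
  rw [hA, Set.ncard_coe_finset]
  have hAmem : ∀ i ∈ A, i.1 ∈ Vx (2 * h) (SS h) ∧ ‖ff h i - x‖ ≤ r := by
    intro i hi
    rw [Finset.mem_filter] at hi
    exact ⟨hT i hi.1, hi.2⟩
  have h1 : A.card ≤ 3 * (A.image φ).card := by
    apply Finset.card_le_mul_card_image
    intro U hU
    rw [Finset.mem_image] at hU
    obtain ⟨i, hi, rfl⟩ := hU
    have hti := (hty i.1 (hAmem i hi).1)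
    have hsub : ((A.filter (fun i' => φ i' = φ i) : Finset _) : Set (ℂ × (ℤ × ℤ))) ⊆
        (fun y => (y, i.2)) '' (ty i.1).verts := by
      intro i' hi'
      rw [Finset.mem_coe, Finset.mem_filter] at hi'
      obtain ⟨hi', he⟩ := hi'
      have hti' := (hty i'.1 (hAmem i' hi').1)
      have hwU : (φ i').w ≠ 0 := w_ne_of_norm (desc_norm hD h (ty i'.1) hti'.1)
      have hc := centre_mem hG (φ i') hwU
      have hc' : (φ i').map oo ∈ interior (φ i).region := by
        rw [← he]; exact hc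
      obtain ⟨e1, e2⟩ := shift_unique hG hD h i'.2 i.2 _ _ hti'.1 hti.1 _ hc hc'
      refine ⟨i'.1, ?_, ?_⟩
      · rw [← e2]; exact hti'.2
      · rw [← e1]
    calc (A.filter (fun i' => φ i' = φ i)).card
        = ((A.filter (fun i' => φ i' = φ i) : Finset _) : Set (ℂ × (ℤ × ℤ))).ncard := by
          rw [Set.ncard_coe_finset]
      _ ≤ ((fun y => (y, i.2)) '' (ty i.1).verts).ncard :=
          Set.ncard_le_ncard hsub ((verts_fin _).image _)
      _ ≤ (ty i.1).verts.ncard := Set.ncard_image_le (verts_fin _)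
      _ ≤ 3 := verts_ncard _
  have h2 : ((A.image φ).card : ℝ) ≤ C * (1 + r) ^ 2 := by
    refine le_trans ?_ hcard
    have h3 : (A.image φ).card = ((A.image φ : Finset Tile) : Set Tile).ncard := by
      rw [Set.ncard_coe_finset]
    rw [h3]
    refine Nat.cast_le.mpr (Set.ncard_le_ncard ?_ hfin)
    intro U hU
    rw [Finset.mem_coe, Finset.mem_image] at hU
    obtain ⟨i, hi, rfl⟩ := hU
    obtain ⟨hiV, hir⟩ := hAmem i hi
    refine ⟨⟨i.2, ty i.1, (hty i.1 hiV).1, rfl⟩, ff h i, ?_, ?_⟩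
    · show ff h i ∈ (sh _ _).region
      rw [mem_sh]
      have : ff h i - -(((2 * 5 ^ h : ℝ) : ℂ) * G2 i.2) = i.1 := by
        unfold ff; ring
      rw [this]
      exact hG.verts_sub _ (hty i.1 hiV).2
    · rw [Metric.mem_closedBall, dist_eq_norm]
      exact hir
  calc (A.card : ℝ) ≤ 3 * ((A.image φ).card : ℝ) := by exact_mod_cast h1
    _ ≤ 3 * (C * (1 + r) ^ 2) := by linarith
    _ = _ := by ring

/-- a nonzero translate of a point of the supertile is not nearer than the boundary -/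
theorem dS_le (hG : SpecGeo) (h : ℕ) (x y : ℂ) (hy : y ∈ (SS h).region) (n : ℤ × ℤ) (hn : n ≠ 0) :
    dS (SS h) x ≤ ‖ff h (y, n) - x‖ := by
  have h1 : ¬ (SS h).gt (ff h (y, n)) < rho * ‖(SS h).w‖ := by
    intro hlt
    rw [← hG.mem_interior _ (SS_w h)] at hlt
    have := zero_of hG h _ y hlt hy (-n) (by
      have e : G2 (-n) = - G2 n := by
        simp only [G2, Prod.fst_neg, Prod.snd_neg]; push_cast; ring
      rw [e]; simp only [ff]; ring)
    exact hn (neg_eq_zero.mp this)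
  have h2 := hG.gt_lip _ (SS_w h) (ff h (y, n)) x
  have h3 := (abs_le.mp h2).2
  unfold dS
  linarith

end PerM

open PerM

theorem specPer (hG : SpecGeo) (hD : SpecDes) (hP : SpecPac) (hB : SpecBnd) (hL : SpecLcn) :
    SpecPer := by
  classical
  obtain ⟨CP, hCP, hPac⟩ := hP
  obtain ⟨CB, hCB, hBnd⟩ := hB (3 * CP)
  obtain ⟨CL, hCL, hLcn⟩ := hL
  refine ⟨CB * CL, by positivity, ?_⟩
  intro h K A hA hK
  obtain ⟨hVfin, hVdS, -, hVsum⟩ := hLcn (2 * h) (SS h) (norm_SS h)
  obtain ⟨Λ, hΛ⟩ := hVfin.exists_finset_coe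
  have hmem : ∀ x, x ∈ Λ ↔ x ∈ Vx (2 * h) (SS h) := by
    intro x; rw [← Finset.mem_coe, hΛ]
  have hreg : ∀ x ∈ Λ, x ∈ (SS h).region := by
    intro x hx
    obtain ⟨t, ht, hxt⟩ := mem_Vx.mp ((hmem x).mp hx)
    exact hD.sub _ _ _ ht (hG.verts_sub t hxt)
  rw [← hΛ] at hVsum ⊢
  rw [finsum_mem_coe_finset] at hVsum
  -- the bound for fixed x
  have hcore : ∀ x ∈ Λ, ∀ T : Finset (ℂ × (ℤ × ℤ)), (∀ i ∈ T, i.1 ∈ Λ ∧ i.2 ≠ 0) →
      ∑ i ∈ T, 1 / (1 + ‖ff h i - x‖) ^ 6 ≤ CB / (1 + dS (SS h) x) ^ 3 := by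
    intro x hx T hT
    apply hBnd _ T (ff h) x (dS (SS h) x) (hVdS x ((hmem x).mp hx))
    · intro r hr
      exact count hG hD CP (fun 𝒰 hU x r hr => ⟨(hPac 𝒰 hU x r hr).1, (hPac 𝒰 hU x r hr).2.1⟩) h x T
        (fun i hi => (hmem _).mp (hT i hi).1) r hr
    · intro i hi
      exact dS_le hG h x i.1 (hreg _ (hT i hi).1) i.2 (hT i hi).2
  -- the terms
  let g : ℂ → ℂ → ℤ × ℤ → ℝ := fun x y n =>
    if n = 0 then 0 else ‖K (x - y + ((2 * 5 ^ h : ℝ) : ℂ) * G2 n)‖
  have hg0 : ∀ x y n, 0 ≤ g x y n := by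
    intro x y n; simp only [g]; split_ifs
    · exact le_rfl
    · exact norm_nonneg _
  have hgT : ∀ x ∈ Λ, ∀ T : Finset (ℤ × ℤ), ∑ n ∈ T, ∑ y ∈ Λ, g x y n ≤
      A * (CB / (1 + dS (SS h) x) ^ 3) := by
    intro x hx T
    have h1 : ∑ n ∈ T, ∑ y ∈ Λ, g x y n = ∑ n ∈ T.filter (fun n => n ≠ 0), ∑ y ∈ Λ, g x y n := by
      rw [Finset.sum_filter]
      apply Finset.sum_congr rfl
      intro n _
      by_cases hn : n = 0
      · simp [hn, g]
      · simp [hn]
    have h2 : ∑ n ∈ T.filter (fun n => n ≠ 0), ∑ y ∈ Λ, g x y n =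
        ∑ i ∈ Λ ×ˢ (T.filter (fun n => n ≠ 0)), g x i.1 i.2 := by
      rw [Finset.sum_product_right]
    rw [h1, h2]
    calc ∑ i ∈ Λ ×ˢ (T.filter (fun n => n ≠ 0)), g x i.1 i.2
        ≤ ∑ i ∈ Λ ×ˢ (T.filter (fun n => n ≠ 0)), A * (1 / (1 + ‖ff h i - x‖) ^ 6) := by
          apply Finset.sum_le_sum
          intro i hi
          rw [Finset.mem_product, Finset.mem_filter] at hi
          simp only [g, if_neg hi.2.2]
          have e : x - i.1 + ((2 * 5 ^ h : ℝ) : ℂ) * G2 i.2 = -(ff h i - x) := by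
            unfold ff; ring
          rw [e]
          have := hK (-(ff h i - x))
          rw [norm_neg] at this
          rw [mul_one_div]
          exact this
      _ = A * ∑ i ∈ Λ ×ˢ (T.filter (fun n => n ≠ 0)), (1 / (1 + ‖ff h i - x‖) ^ 6) := by
          rw [Finset.mul_sum]
      _ ≤ A * (CB / (1 + dS (SS h) x) ^ 3) := by
          apply mul_le_mul_of_nonneg_left _ hA
          apply hcore x hx
          intro i hi
          rw [Finset.mem_product, Finset.mem_filter] at hi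
          exact ⟨hi.1, hi.2.2⟩
  have hgs : ∀ x ∈ Λ, ∀ y ∈ Λ, Summable (g x y) := by
    intro x hx y hy
    apply summable_of_sum_le (hg0 x y) (c := A * (CB / (1 + dS (SS h) x) ^ 3))
    intro T
    refine le_trans ?_ (hgT x hx T)
    apply Finset.sum_le_sum
    intro n _
    exact Finset.single_le_sum (fun z _ => hg0 x z n) hy
  have hgsum : ∀ x ∈ Λ, ∑ y ∈ Λ, ∑' n, g x y n ≤ A * (CB / (1 + dS (SS h) x) ^ 3) := by
    intro x hx
    rw [← Summable.tsum_finsetSum (fun y hy => hgs x hx y hy)]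
    apply Real.tsum_le_of_sum_le
    · intro n
      exact Finset.sum_nonneg fun y _ => hg0 x y n
    · exact hgT x hx
  have hdiff : ∀ x ∈ Λ, ∀ y ∈ Λ, ‖KPer K (2 * 5 ^ h) (x - y) - K (x - y)‖ ≤ ∑' n, g x y n := by
    intro x hx y hy
    let k : ℤ × ℤ → ℂ := fun n => if n = 0 then 0 else K (x - y + ((2 * 5 ^ h : ℝ) : ℂ) * G2 n)
    have hkn : ∀ n, ‖k n‖ = g x y n := by
      intro n; simp only [k, g]; split_ifs <;> simp
    have hks : Summable (fun n => ‖k n‖) := by
      simp_rw [hkn]; exact hgs x hx y hy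
    have h0 : HasSum (fun n : ℤ × ℤ => if n = 0 then K (x - y) else 0) (K (x - y)) := by
      exact hasSum_ite_eq 0 (K (x - y))
    have h1 := h0.add hks.of_norm.hasSum
    have h2 : (fun n : ℤ × ℤ => (if n = 0 then K (x - y) else 0) + k n) =
        fun n => K (x - y + ((2 * 5 ^ h : ℝ) : ℂ) * G2 n) := by
      funext n
      simp only [k]
      split_ifs with hn
      · simp [hn, G2]
      · simp
    rw [h2] at h1
    have h3 : KPer K (2 * 5 ^ h) (x - y) = K (x - y) + ∑' n, k n := by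
      unfold KPer
      exact h1.tsum_eq
    rw [h3, add_sub_cancel_left]
    refine (norm_tsum_le_tsum_norm hks).trans ?_
    simp_rw [hkn]
    exact le_rfl
  have hPS : ∀ L : ℂ → ℂ, PS L (Λ : Set ℂ) = ∑ x ∈ Λ, ∑ y ∈ Λ, L (x - y) := by
    intro L
    unfold PS
    rw [← Finset.coe_product, finsum_mem_coe_finset, Finset.sum_product]
  rw [hPS, hPS, ← Finset.sum_sub_distrib]
  simp_rw [← Finset.sum_sub_distrib]
  calc ‖∑ x ∈ Λ, ∑ y ∈ Λ, (KPer K (2 * 5 ^ h) (x - y) - K (x - y))‖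
      ≤ ∑ x ∈ Λ, ∑ y ∈ Λ, ‖KPer K (2 * 5 ^ h) (x - y) - K (x - y)‖ :=
        (norm_sum_le _ _).trans (Finset.sum_le_sum fun x _ => norm_sum_le _ _)
    _ ≤ ∑ x ∈ Λ, ∑ y ∈ Λ, ∑' n, g x y n :=
        Finset.sum_le_sum fun x hx => Finset.sum_le_sum fun y hy => hdiff x hx y hy
    _ ≤ ∑ x ∈ Λ, A * (CB / (1 + dS (SS h) x) ^ 3) :=
        Finset.sum_le_sum fun x hx => hgsum x hx
    _ = A * CB * ∑ x ∈ Λ, 1 / (1 + dS (SS h) x) ^ 3 := by
        rw [Finset.mul_sum]
        apply Finset.sum_congr rfl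
        intro x _
        ring
    _ ≤ A * CB * (CL * √5 ^ (2 * h)) := mul_le_mul_of_nonneg_left hVsum (by positivity)
    _ = CB * CL * A * 5 ^ h := by
        rw [pow_mul, Real.sq_sqrt (by norm_num)]
        ring

end

end Pool.Agent.Lib.MPd437ed
end

section
/-!
CMP: comparison of a pinwheel tiling with its supertiles.
-/
namespace Pool.Agent.Lib.MPd437ed

open MeasureTheory Filter Topology Complex PkM PerM

noncomputable section

namespace CmpM

theorem mem_vertexSet {𝒯 : Set Tile} {x : ℂ} : x ∈ vertexSet 𝒯 ↔ ∃ t ∈ 𝒯, x ∈ t.verts := by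
  simp [vertexSet]

/-- a vertex of the tiling in the interior of a supertile is a vertex of the supertile -/
theorem mem_of_interior (hG : SpecGeo) (hD : SpecDes) {𝒯 : Set Tile} (hT : IsPinwheelTiling 𝒯)
    {N : ℕ} {S : Tile} (hS : desc N S ⊆ 𝒯) (y : ℂ) (hy : y ∈ vertexSet 𝒯)
    (hi : y ∈ interior S.region) : y ∈ Vx N S := by
  obtain ⟨t, ht, hyt⟩ := mem_vertexSet.mp hy
  obtain ⟨z, hz1, hz2⟩ := meet hG t (w_ne_of_norm (hT.congruent t ht)) _ isOpen_interior y hi
    (hG.verts_sub t hyt)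
  have hz3 := interior_subset hz1
  rw [hD.cover N S] at hz3
  simp only [Set.mem_iUnion] at hz3
  obtain ⟨t', ht', hzt'⟩ := hz3
  have := eq_of_mem hG t t' (w_ne_of_norm (hT.congruent t' (hS ht')))
    (fun hne => hT.disjoint t ht t' (hS ht') hne) z hz2 hzt'
  subst this
  exact mem_Vx.mpr ⟨t, ht', hyt⟩

/-- a tile of the tiling whose centre is in a supertile is a part of the supertile -/
theorem mem_of_centre (hG : SpecGeo) (hD : SpecDes) {𝒯 : Set Tile} (hT : IsPinwheelTiling 𝒯)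
    {N : ℕ} {S : Tile} (hS : desc N S ⊆ 𝒯) (t : Tile) (ht : t ∈ 𝒯)
    (hi : t.map oo ∈ S.region) : t ∈ desc N S := by
  have hc := centre_mem hG t (w_ne_of_norm (hT.congruent t ht))
  rw [hD.cover N S] at hi
  simp only [Set.mem_iUnion] at hi
  obtain ⟨t', ht', hzt'⟩ := hi
  have := eq_of_mem hG t t' (w_ne_of_norm (hT.congruent t' (hS ht')))
    (fun hne => hT.disjoint t ht t' (hS ht') hne) _ hc hzt'
  rw [this]
  exact ht'

theorem dS_le_of (hG : SpecGeo) {S : Tile} (hS : S.w ≠ 0) (x y : ℂ) (hy : y ∉ interior S.region) :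
    dS S x ≤ ‖y - x‖ := by
  rw [hG.mem_interior _ hS] at hy
  have h3 := (abs_le.mp (hG.gt_lip _ hS y x)).2
  unfold dS
  linarith

open Classical in
/-- number of vertices of the tiling near the boundary circle -/
theorem card_bad (hG : SpecGeo) {𝒯 : Set Tile} (hT : IsPinwheelTiling 𝒯) (R c : ℝ) (hc : 0 ≤ c)
    (hR : c + √5 ≤ R) (B : Finset ℂ)
    (hB : ∀ x ∈ B, x ∈ vertexSet 𝒯 ∧ ‖x‖ ≤ R ∧ R - c < ‖x‖) :
    (B.card : ℝ) ≤ 6 * Real.pi * (c + 2 * √5) * R := by
  have h5 : (0 : ℝ) < √5 := by positivity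
  have hch : ∀ x : ℂ, ∃ t : Tile, x ∈ vertexSet 𝒯 → t ∈ 𝒯 ∧ x ∈ t.verts := by
    intro x
    by_cases hx : x ∈ vertexSet 𝒯
    · obtain ⟨t, ht, hxt⟩ := mem_vertexSet.mp hx
      exact ⟨t, fun _ => ⟨ht, hxt⟩⟩
    · exact ⟨⟨0, 1, true⟩, fun h => absurd h hx⟩
  choose φ hφ using hch
  have h1 : B.card ≤ 3 * (B.image φ).card := by
    apply Finset.card_le_mul_card_image
    intro U hU
    rw [Finset.mem_image] at hU
    obtain ⟨x, hx, rfl⟩ := hU
    have hsub : ((B.filter (fun x' => φ x' = φ x) : Finset _) : Set ℂ) ⊆ (φ x).verts := by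
      intro x' hx'
      rw [Finset.mem_coe, Finset.mem_filter] at hx'
      rw [← hx'.2]
      exact (hφ x' (hB x' hx'.1).1).2
    have h2 := Set.ncard_le_ncard hsub (verts_fin _)
    rw [Set.ncard_coe_finset] at h2
    exact h2.trans (verts_ncard _)
  have hFt : ∀ t ∈ B.image φ, t ∈ 𝒯 ∧ ∃ x ∈ B, x ∈ t.verts := by
    intro t ht
    rw [Finset.mem_image] at ht
    obtain ⟨x, hx, rfl⟩ := ht
    exact ⟨(hφ x (hB x hx).1).1, x, hx, (hφ x (hB x hx).1).2⟩
  have h2 := card_mul_le hG (B.image φ) 1 (fun t ht => hT.congruent t (hFt t ht).1)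
    (fun t ht t' ht' hne => hT.disjoint t (hFt t ht).1 t' (hFt t' ht').1 hne)
    (Metric.closedBall 0 (R + √5) \ Metric.closedBall 0 (R - c - √5))
    (ne_top_of_le_ne_top (isCompact_closedBall (0 : ℂ) (R + √5)).measure_lt_top.ne
      (measure_mono Set.sdiff_subset)) (by
      intro t ht y hy
      obtain ⟨htT, x, hx, hxt⟩ := hFt t ht
      have h3 := hG.diam t y hy x (hG.verts_sub t hxt)
      rw [hT.congruent t htT, mul_one] at h3
      obtain ⟨-, hx1, hx2⟩ := hB x hx
      have h4 : ‖y‖ ≤ ‖y - x‖ + ‖x‖ := by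
        calc ‖y‖ = ‖(y - x) + x‖ := by ring_nf
          _ ≤ _ := norm_add_le _ _
      have h6 : ‖x‖ ≤ ‖y - x‖ + ‖y‖ := by
        calc ‖x‖ = ‖-(y - x) + y‖ := by ring_nf
          _ ≤ ‖-(y - x)‖ + ‖y‖ := norm_add_le _ _
          _ = _ := by rw [norm_neg]
      simp only [Set.mem_sdiff, Metric.mem_closedBall, dist_zero_right, not_le]
      constructor <;> linarith)
  have h3 : volume.real (Metric.closedBall (0 : ℂ) (R + √5) \ Metric.closedBall 0 (R - c - √5)) =
      Real.pi * (R + √5) ^ 2 - Real.pi * (R - c - √5) ^ 2 := by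
    have hsubs : Metric.closedBall (0 : ℂ) (R - c - √5) ⊆ Metric.closedBall 0 (R + √5) :=
      Metric.closedBall_subset_closedBall (by linarith)
    rw [measureReal_sdiff hsubs Metric.isClosed_closedBall.measurableSet
      (isCompact_closedBall (0 : ℂ) (R + √5)).measure_lt_top.ne,
      vol_ball _ _ (by linarith), vol_ball _ _ (by linarith)]
  rw [h3] at h2
  have hp := Real.pi_pos
  have h4 : Real.pi * (R + √5) ^ 2 - Real.pi * (R - c - √5) ^ 2 ≤
      2 * Real.pi * (c + 2 * √5) * R := by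
    have : Real.pi * (R + √5) ^ 2 - Real.pi * (R - c - √5) ^ 2 =
      Real.pi * ((c + 2 * √5) * (2 * R - c)) := by ring
    rw [this]
    have h7 : (c + 2 * √5) * (2 * R - c) ≤ (c + 2 * √5) * (2 * R) := by
      apply mul_le_mul_of_nonneg_left _ (by positivity)
      linarith
    calc Real.pi * ((c + 2 * √5) * (2 * R - c)) ≤ Real.pi * ((c + 2 * √5) * (2 * R)) :=
          mul_le_mul_of_nonneg_left h7 hp.le
      _ = _ := by ring
  have h5' : (B.card : ℝ) ≤ 3 * ((B.image φ).card : ℝ) := by exact_mod_cast h1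
  linarith

/-- counting argument for one point -/
theorem key {ι : Type} (J : Finset ι) (a a' b : ι → ℝ) (ha : ∀ S ∈ J, a S = 0 ∨ a S = 1)
    (ha' : ∀ S ∈ J, a' S = 0 ∨ a' S = 1) (hb : ∀ S ∈ J, b S = 0 ∨ b S = 1)
    (hex : ∃ S ∈ J, a S = 1)
    (h : (∃ S ∈ J, a S = 1 ∧ (∀ S' ∈ J, S' ≠ S → a S' = 0) ∧ (a' S = 0 → b S = 1)) ∨
      (∀ S ∈ J, a S = 1 → b S = 1)) :
    |1 - ∑ S ∈ J, a S * a' S| ≤ ∑ S ∈ J, a S * b S := by
  rcases h with ⟨S, hS, h1, h2, h3⟩ | h
  · have e1 : ∑ S ∈ J, a S * a' S = a' S := by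
      rw [Finset.sum_eq_single S]
      · rw [h1, one_mul]
      · intro S' hS' hne; rw [h2 S' hS' hne, zero_mul]
      · intro hn; exact absurd hS hn
    have e2 : ∑ S ∈ J, a S * b S = b S := by
      rw [Finset.sum_eq_single S]
      · rw [h1, one_mul]
      · intro S' hS' hne; rw [h2 S' hS' hne, zero_mul]
      · intro hn; exact absurd hS hn
    rw [e1, e2]
    rcases ha' S hS with h4 | h4
    · rw [h4, h3 h4]; norm_num
    · rw [h4]
      rcases hb S hS with h5 | h5 <;> rw [h5] <;> norm_num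
  · have e2 : ∑ S ∈ J, a S * b S = ∑ S ∈ J, a S := by
      apply Finset.sum_congr rfl
      intro S hS
      rcases ha S hS with h4 | h4
      · rw [h4, zero_mul]
      · rw [h4, h S hS h4, one_mul]
    rw [e2]
    have h0 : 0 ≤ ∑ S ∈ J, a S * a' S := by
      apply Finset.sum_nonneg
      intro S hS
      rcases ha S hS with h4 | h4 <;> rcases ha' S hS with h5 | h5 <;> rw [h4, h5] <;> norm_num
    have h1 : ∑ S ∈ J, a S * a' S ≤ ∑ S ∈ J, a S := by
      apply Finset.sum_le_sum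
      intro S hS
      rcases ha S hS with h4 | h4 <;> rcases ha' S hS with h5 | h5 <;> rw [h4, h5] <;> norm_num
    have h2 : 1 ≤ ∑ S ∈ J, a S := by
      obtain ⟨S, hS, h3⟩ := hex
      rw [← h3]
      apply Finset.single_le_sum _ hS
      intro S' hS'
      rcases ha S' hS' with h4 | h4 <;> rw [h4] <;> norm_num
    rw [abs_le]
    constructor <;> linarith

end CmpM

open CmpM

theorem specCmp (hG : SpecGeo) (hD : SpecDes) (hSup : SpecSup) (hP : SpecPac) (hB : SpecBnd)
    (hL : SpecLcn) : SpecCmp := by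
  classical
  obtain ⟨CP, hCP, hPac⟩ := hP
  obtain ⟨CB, hCB, hBnd⟩ := hB CP
  obtain ⟨CL, hCL, hLcn⟩ := hL
  have hpi := Real.pi_pos
  refine ⟨CB * (6 * Real.pi + CL), by positivity, ?_⟩
  intro 𝒯 hT N
  obtain ⟨c0, hc0, hJ⟩ := hSup 𝒯 hT N
  have h5 : (0 : ℝ) < √5 := by positivity
  refine ⟨c0 + 3 * √5, by linarith, ?_⟩
  intro R hR
  have hR0 : 0 ≤ R := by linarith
  obtain ⟨J, hJ1, hJ2, hJ3⟩ := hJ R (by linarith)
  have hpow : (√5 ^ N) ^ 2 = (5 : ℝ) ^ N := by
    rw [← pow_mul, mul_comm, pow_mul, Real.sq_sqrt (by norm_num)]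
  refine ⟨J, fun S hS => (hJ1 S hS).1, ?_, ?_, ?_⟩
  · have := card_mul_le hG J (√5 ^ N) (fun S hS => (hJ1 S hS).1) hJ2 (Metric.closedBall 0 R)
      (isCompact_closedBall (0 : ℂ) R).measure_lt_top.ne (fun S hS => (hJ1 S hS).2.2)
    rwa [vol_ball _ _ hR0, hpow] at this
  · have := le_card_mul hG J (√5 ^ N) (fun S hS => (hJ1 S hS).1)
      (Metric.closedBall 0 (R - (c0 + 3 * √5)))
      ((Metric.closedBall_subset_closedBall (by linarith)).trans hJ3)
    rwa [vol_ball _ _ (by linarith), hpow] at this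
  · intro K A hA hK
    have hpackT : IsPack 𝒯 := ⟨hT.congruent, hT.disjoint⟩
    have hfinR := (hPac 𝒯 hpackT 0 R hR0).2.2.1
    obtain ⟨Λ, hΛ⟩ := hfinR.exists_finset_coe
    have hmem : ∀ x, x ∈ Λ ↔ x ∈ vertexSet 𝒯 ∧ ‖x‖ ≤ R := by
      intro x
      rw [← Finset.mem_coe, hΛ]
      simp
    have hSw : ∀ S ∈ J, S.w ≠ 0 := fun S hS => w_ne_of_pow (hJ1 S hS).1
    -- vertices of the supertiles
    have hVsub : ∀ S ∈ J, ∀ x ∈ Vx N S, x ∈ Λ ∧ x ∈ S.region := by
      intro S hS x hx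
      obtain ⟨t, ht, hxt⟩ := mem_Vx.mp hx
      have hxS : x ∈ S.region := hD.sub _ _ _ ht (hG.verts_sub t hxt)
      refine ⟨(hmem x).mpr ⟨mem_vertexSet.mpr ⟨t, (hJ1 S hS).2.1 ht, hxt⟩, ?_⟩, hxS⟩
      simpa using (hJ1 S hS).2.2 hxS
    let a : Tile → ℂ → ℝ := fun S x => if x ∈ Vx N S then 1 else 0
    have ha01 : ∀ S x, a S x = 0 ∨ a S x = 1 := by
      intro S x; simp only [a]; split_ifs <;> simp
    have ha0 : ∀ S x, 0 ≤ a S x := by
      intro S x; simp only [a]; split_ifs <;> simp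
    have ha1 : ∀ S x, a S x = 1 ↔ x ∈ Vx N S := by
      intro S x; simp only [a]; split_ifs with hx <;> simp [hx]
    have ha2 : ∀ S x, a S x = 0 ↔ x ∉ Vx N S := by
      intro S x; simp only [a]; split_ifs with hx <;> simp [hx]
    have hPS : PS K (vertexSet 𝒯 ∩ Metric.closedBall 0 R) = ∑ x ∈ Λ, ∑ y ∈ Λ, K (x - y) := by
      rw [← hΛ]
      unfold PS
      rw [← Finset.coe_product, finsum_mem_coe_finset, Finset.sum_product]
    have hPSS : ∀ S ∈ J, PS K (Vx N S) = ∑ x ∈ Λ, ∑ y ∈ Λ, ((a S x * a S y : ℝ) : ℂ) * K (x - y) := by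
      intro S hS
      have hV : Vx N S = ((Λ.filter (fun x => x ∈ Vx N S) : Finset ℂ) : Set ℂ) := by
        ext x
        rw [Finset.mem_coe, Finset.mem_filter]
        exact ⟨fun h => ⟨(hVsub S hS x h).1, h⟩, fun h => h.2⟩
      rw [hV]
      unfold PS
      rw [← Finset.coe_product, finsum_mem_coe_finset, Finset.sum_product, Finset.sum_filter]
      apply Finset.sum_congr rfl
      intro x _
      rw [Finset.sum_filter]
      by_cases hx : x ∈ Vx N S
      · rw [if_pos hx]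
        apply Finset.sum_congr rfl
        intro y _
        by_cases hy : y ∈ Vx N S
        · rw [if_pos hy, (ha1 S x).mpr hx, (ha1 S y).mpr hy]; simp
        · rw [if_neg hy, (ha2 S y).mpr hy]; simp
      · rw [if_neg hx]
        symm
        apply Finset.sum_eq_zero
        intro y _
        rw [(ha2 S x).mpr hx]; simp
    have hdiff : PS K (vertexSet 𝒯 ∩ Metric.closedBall 0 R) - ∑ S ∈ J, PS K (Vx N S) =
        ∑ x ∈ Λ, ∑ y ∈ Λ, ((1 - ∑ S ∈ J, a S x * a S y : ℝ) : ℂ) * K (x - y) := by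
      rw [hPS, Finset.sum_congr rfl hPSS, Finset.sum_comm (s := J), ← Finset.sum_sub_distrib]
      apply Finset.sum_congr rfl
      intro x _
      rw [Finset.sum_comm (s := J), ← Finset.sum_sub_distrib]
      apply Finset.sum_congr rfl
      intro y _
      rw [← Finset.sum_mul]
      push_cast
      ring
    -- kernel sums
    have hker : ∀ (x : ℂ) (T : Finset ℂ) (d : ℝ), 0 ≤ d → T ⊆ Λ → (∀ y ∈ T, d ≤ ‖y - x‖) →
        ∑ y ∈ T, ‖K (x - y)‖ ≤ A * (CB / (1 + d) ^ 3) := by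
      intro x T d hd hTΛ hTd
      have h1 := hBnd ℂ T (fun y => y) x d hd (by
        intro r hr
        refine le_trans ?_ (hPac 𝒯 hpackT x r hr).2.2.2
        refine Nat.cast_le.mpr (Set.ncard_le_ncard ?_ (hPac 𝒯 hpackT x r hr).2.2.1)
        rintro y ⟨hy, hyr⟩
        refine ⟨((hmem y).mp (hTΛ hy)).1, ?_⟩
        rw [Metric.mem_closedBall, dist_eq_norm]
        exact hyr) hTd
      calc ∑ y ∈ T, ‖K (x - y)‖ ≤ ∑ y ∈ T, A * (1 / (1 + ‖y - x‖) ^ 6) := by
            apply Finset.sum_le_sum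
            intro y _
            have := hK (x - y)
            rw [norm_sub_rev x y] at this
            rw [mul_one_div]
            exact this
        _ = A * ∑ y ∈ T, 1 / (1 + ‖y - x‖) ^ 6 := by rw [Finset.mul_sum]
        _ ≤ _ := mul_le_mul_of_nonneg_left h1 hA
    -- bad points
    let Bd : Finset ℂ := Λ.filter (fun x => ∀ S ∈ J, x ∉ Vx N S)
    have hbad : (Bd.card : ℝ) ≤ 6 * Real.pi * ((c0 + √5) + 2 * √5) * R := by
      apply card_bad hG hT R (c0 + √5) (by linarith) (by linarith)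
      intro x hx
      rw [Finset.mem_filter] at hx
      obtain ⟨hxΛ, hxJ⟩ := hx
      obtain ⟨hxT, hxR⟩ := (hmem x).mp hxΛ
      refine ⟨hxT, hxR, ?_⟩
      by_contra hle
      push Not at hle
      obtain ⟨t, ht, hxt⟩ := mem_vertexSet.mp hxT
      have hc : t.map oo ∈ t.region :=
        interior_subset (centre_mem hG t (w_ne_of_norm (hT.congruent t ht)))
      have h3 := hG.diam t _ hc x (hG.verts_sub t hxt)
      rw [hT.congruent t ht, mul_one] at h3
      have h4 : ‖t.map oo‖ ≤ ‖t.map oo - x‖ + ‖x‖ := by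
        calc ‖t.map oo‖ = ‖(t.map oo - x) + x‖ := by ring_nf
          _ ≤ _ := norm_add_le _ _
      have h6 : t.map oo ∈ Metric.closedBall (0 : ℂ) (R - c0) := by
        simp only [Metric.mem_closedBall, dist_zero_right]
        linarith
      have h7 := hJ3 h6
      simp only [Set.mem_iUnion] at h7
      obtain ⟨S, hS, hcS⟩ := h7
      have := mem_of_centre hG hD hT (hJ1 S hS).2.1 t ht hcS
      exact hxJ S hS (mem_Vx.mpr ⟨t, this, hxt⟩)
    -- one x
    have hone : ∀ x ∈ Λ, ∑ y ∈ Λ, |1 - ∑ S ∈ J, a S x * a S y| * ‖K (x - y)‖ ≤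
        (if x ∈ Bd then A * CB else 0) + ∑ S ∈ J, a S x * (A * (CB / (1 + dS S x) ^ 3)) := by
      intro x hx
      by_cases hxB : x ∈ Bd
      · rw [if_pos hxB]
        have hxJ := (Finset.mem_filter.mp hxB).2
        have e1 : ∀ S ∈ J, a S x = 0 := fun S hS => (ha2 S x).mpr (hxJ S hS)
        have e2 : ∑ S ∈ J, a S x * (A * (CB / (1 + dS S x) ^ 3)) = 0 := by
          apply Finset.sum_eq_zero
          intro S hS; rw [e1 S hS, zero_mul]
        have e3 : ∀ y, ∑ S ∈ J, a S x * a S y = 0 := by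
          intro y
          apply Finset.sum_eq_zero
          intro S hS; rw [e1 S hS, zero_mul]
        rw [e2, add_zero]
        have h1 := hker x Λ 0 le_rfl (Finset.Subset.refl _) (fun y _ => norm_nonneg _)
        calc ∑ y ∈ Λ, |1 - ∑ S ∈ J, a S x * a S y| * ‖K (x - y)‖ = ∑ y ∈ Λ, ‖K (x - y)‖ := by
              apply Finset.sum_congr rfl
              intro y _
              rw [e3 y]; simp
          _ ≤ _ := h1
          _ = _ := by norm_num
      · rw [if_neg hxB, zero_add]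
        have hex : ∃ S ∈ J, a S x = 1 := by
          by_contra hne
          push Not at hne
          apply hxB
          rw [Finset.mem_filter]
          refine ⟨hx, fun S hS hxS => hne S hS ((ha1 S x).mpr hxS)⟩
        let b : Tile → ℂ → ℝ := fun S y => if dS S x ≤ ‖y - x‖ then 1 else 0
        have hb01 : ∀ S y, b S y = 0 ∨ b S y = 1 := by
          intro S y; simp only [b]; split_ifs <;> simp
        have hkey : ∀ y ∈ Λ, |1 - ∑ S ∈ J, a S x * a S y| ≤ ∑ S ∈ J, a S x * b S y := by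
          intro y hy
          apply key J (fun S => a S x) (fun S => a S y) (fun S => b S y)
            (fun S _ => ha01 S x) (fun S _ => ha01 S y) (fun S _ => hb01 S y) hex
          by_cases hint : ∃ S ∈ J, a S x = 1 ∧ x ∈ interior S.region
          · left
            obtain ⟨S, hS, hSx, hSi⟩ := hint
            refine ⟨S, hS, hSx, ?_, ?_⟩
            · intro S' hS' hne
              rw [ha2]
              intro hx'
              have := eq_of_mem hG S S' (hSw S' hS') (fun hne => hJ2 S hS S' hS' hne) x hSi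
                (hVsub S' hS' x hx').2
              exact hne this.symm
            · intro hay
              have hy' : y ∉ interior S.region := by
                intro hyi
                exact (ha2 S y).mp hay (mem_of_interior hG hD hT (hJ1 S hS).2.1 y
                  ((hmem y).mp hy).1 hyi)
              have := dS_le_of hG (hSw S hS) x y hy'
              simp only [b, if_pos this]
          · right
            intro S hS hSx
            have hni : x ∉ interior S.region := fun hi => hint ⟨S, hS, hSx, hi⟩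
            have h1 := dS_le_of hG (hSw S hS) x x hni
            rw [sub_self, norm_zero] at h1
            have h2 : dS S x ≤ ‖y - x‖ := h1.trans (norm_nonneg _)
            simp only [b, if_pos h2]
        calc ∑ y ∈ Λ, |1 - ∑ S ∈ J, a S x * a S y| * ‖K (x - y)‖
            ≤ ∑ y ∈ Λ, (∑ S ∈ J, a S x * b S y) * ‖K (x - y)‖ := by
              apply Finset.sum_le_sum
              intro y hy
              exact mul_le_mul_of_nonneg_right (hkey y hy) (norm_nonneg _)
          _ = ∑ S ∈ J, a S x * ∑ y ∈ Λ, b S y * ‖K (x - y)‖ := by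
              simp_rw [Finset.sum_mul]
              rw [Finset.sum_comm]
              apply Finset.sum_congr rfl
              intro S _
              rw [Finset.mul_sum]
              apply Finset.sum_congr rfl
              intro y _
              ring
          _ ≤ ∑ S ∈ J, a S x * (A * (CB / (1 + dS S x) ^ 3)) := by
              apply Finset.sum_le_sum
              intro S hS
              rcases ha01 S x with h0 | h1
              · rw [h0, zero_mul, zero_mul]
              · rw [h1, one_mul, one_mul]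
                have hd := (hLcn N S (hJ1 S hS).1).2.1 x ((ha1 S x).mp h1)
                have h2 := hker x (Λ.filter (fun y => dS S x ≤ ‖y - x‖)) (dS S x) hd
                  (Finset.filter_subset _ _) (fun y hy => (Finset.mem_filter.mp hy).2)
                refine le_trans (le_of_eq ?_) h2
                rw [Finset.sum_filter]
                apply Finset.sum_congr rfl
                intro y _
                simp only [b]
                split_ifs <;> simp
    -- sum over x of the main terms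
    have hmain : ∑ x ∈ Λ, ∑ S ∈ J, a S x * (A * (CB / (1 + dS S x) ^ 3)) ≤
        A * CB * CL * (J.card * √5 ^ N) := by
      rw [Finset.sum_comm]
      calc ∑ S ∈ J, ∑ x ∈ Λ, a S x * (A * (CB / (1 + dS S x) ^ 3))
          ≤ ∑ S ∈ J, A * CB * (CL * √5 ^ N) := by
            apply Finset.sum_le_sum
            intro S hS
            have hV : Vx N S = ((Λ.filter (fun x => x ∈ Vx N S) : Finset ℂ) : Set ℂ) := by
              ext x
              rw [Finset.mem_coe, Finset.mem_filter]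
              exact ⟨fun h => ⟨(hVsub S hS x h).1, h⟩, fun h => h.2⟩
            have h1 := (hLcn N S (hJ1 S hS).1).2.2.2
            rw [hV, finsum_mem_coe_finset] at h1
            calc ∑ x ∈ Λ, a S x * (A * (CB / (1 + dS S x) ^ 3))
                = A * CB * ∑ x ∈ Λ.filter (fun x => x ∈ Vx N S), 1 / (1 + dS S x) ^ 3 := by
                  rw [Finset.mul_sum, Finset.sum_filter]
                  apply Finset.sum_congr rfl
                  intro x _
                  simp only [a]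
                  split_ifs
                  · ring
                  · ring
              _ ≤ _ := mul_le_mul_of_nonneg_left h1 (by positivity)
        _ = _ := by
            rw [Finset.sum_const, nsmul_eq_mul]; ring
    have hbsum : ∑ x ∈ Λ, (if x ∈ Bd then A * CB else 0) = Bd.card * (A * CB) := by
      rw [← Finset.sum_filter, Finset.sum_const, nsmul_eq_mul]
      congr 2
      congr 1
      ext x
      simp only [Finset.mem_filter, Bd]
      tauto
    rw [hdiff]
    calc ‖∑ x ∈ Λ, ∑ y ∈ Λ, ((1 - ∑ S ∈ J, a S x * a S y : ℝ) : ℂ) * K (x - y)‖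
        ≤ ∑ x ∈ Λ, ∑ y ∈ Λ, ‖((1 - ∑ S ∈ J, a S x * a S y : ℝ) : ℂ) * K (x - y)‖ :=
          (norm_sum_le _ _).trans (Finset.sum_le_sum fun x _ => norm_sum_le _ _)
      _ = ∑ x ∈ Λ, ∑ y ∈ Λ, |1 - ∑ S ∈ J, a S x * a S y| * ‖K (x - y)‖ := by
          apply Finset.sum_congr rfl
          intro x _
          apply Finset.sum_congr rfl
          intro y _
          rw [norm_mul, Complex.norm_real, Real.norm_eq_abs]
      _ ≤ ∑ x ∈ Λ, ((if x ∈ Bd then A * CB else 0) +
            ∑ S ∈ J, a S x * (A * (CB / (1 + dS S x) ^ 3))) := Finset.sum_le_sum hone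
      _ = Bd.card * (A * CB) + ∑ x ∈ Λ, ∑ S ∈ J, a S x * (A * (CB / (1 + dS S x) ^ 3)) := by
          rw [Finset.sum_add_distrib, hbsum]
      _ ≤ (6 * Real.pi * ((c0 + √5) + 2 * √5) * R) * (A * CB) + A * CB * CL * (J.card * √5 ^ N) :=
          add_le_add (mul_le_mul_of_nonneg_right hbad (by positivity)) hmain
      _ ≤ CB * (6 * Real.pi + CL) * A * (J.card * √5 ^ N + (c0 + 3 * √5) * R) := by
          have t1 : 0 ≤ A * CB * CL * ((c0 + 3 * √5) * R) := by positivity
          have t2 : 0 ≤ A * CB * (6 * Real.pi) * (J.card * √5 ^ N) := by positivity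
          nlinarith

end

end Pool.Agent.Lib.MPd437ed
end

section
/-!
# COV: the virtual tiles cover the plane
-/
namespace Pool.Agent.Lib.MPd437ed

open Complex

theorem specCov : SpecCov := by
  intro g hg x
  set y : ℂ := x / g with hy
  have hx : x = g * y := by rw [hy]; field_simp
  have h1 : (⌊y.re⌋ : ℝ) ≤ y.re := Int.floor_le _
  have h2 : y.re < ⌊y.re⌋ + 1 := Int.lt_floor_add_one _
  have h3 : (⌊y.im⌋ : ℝ) ≤ y.im := Int.floor_le _
  have h4 : y.im < ⌊y.im⌋ + 1 := Int.lt_floor_add_one _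
  by_cases h : (y.re - ⌊y.re⌋) + 2 * (y.im - ⌊y.im⌋) ≤ 2
  · refine ⟨⌊y.re⌋ + ⌊y.im⌋ * I, ⟨_, _, rfl⟩, Or.inl ?_⟩
    refine ⟨y - (⌊y.re⌋ + ⌊y.im⌋ * I), ⟨?_, ?_, ?_⟩, ?_⟩
    · simp only [sub_re, add_re, intCast_re, mul_re, intCast_im, I_re, I_im]
      linarith
    · simp only [sub_im, add_im, intCast_re, mul_im, intCast_im, I_re, I_im]
      linarith
    · simp only [sub_im, add_im, intCast_re, mul_im, intCast_im, I_re, I_im, sub_re, add_re, mul_re]
      linarith
    · simp only [Tile.map, tw, if_true]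
      rw [hx]; ring
  · refine ⟨((⌊y.re⌋ + 2 : ℤ) : ℂ) + ((⌊y.im⌋ + 1 : ℤ) : ℂ) * I, ⟨_, _, rfl⟩, Or.inr ?_⟩
    refine ⟨((⌊y.re⌋ + 2 : ℤ) : ℂ) + ((⌊y.im⌋ + 1 : ℤ) : ℂ) * I - y, ⟨?_, ?_, ?_⟩, ?_⟩
    · simp only [sub_re, add_re, intCast_re, mul_re, intCast_im, I_re, I_im]
      push_cast
      linarith
    · simp only [sub_im, add_im, intCast_re, mul_im, intCast_im, I_re, I_im]
      push_cast
      linarith
    · simp only [sub_im, add_im, intCast_re, mul_im, intCast_im, I_re, I_im, sub_re, add_re, mul_re]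
      push_cast
      linarith
    · simp only [Tile.map, tw, if_true]
      rw [hx]; ring

end Pool.Agent.Lib.MPd437ed
end

section
/-!
DEC: polynomial decay of the kernels (MP_d437ed_an, III).
-/
noncomputable section

open Complex MeasureTheory

namespace Pool.Agent.Lib.MPd437ed

namespace DecM

lemma norm_KG (z x : ℂ) (hz : z ≠ 0) :
    ‖KG z x‖ = Real.pi / ‖z‖ * Real.exp (-(Real.pi ^ 2 * ‖x‖ ^ 2 * z.re / ‖z‖ ^ 2)) := by
  unfold KG
  rw [norm_mul, norm_div, Complex.norm_exp]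
  congr 2
  · simp [abs_of_pos Real.pi_pos]
  · have h : (-(Real.pi : ℂ) ^ 2 * (‖x‖ : ℂ) ^ 2 / z) =
      ((-(Real.pi ^ 2 * ‖x‖ ^ 2) : ℝ) : ℂ) * z⁻¹ := by
      push_cast
      ring
    rw [h, Complex.re_ofReal_mul, Complex.inv_re, Complex.normSq_eq_norm_sq]
    ring

lemma dec_aux (a : ℝ) (ha : 0 < a) (t : ℝ) :
    Dec (KG (a - 2 * Real.pi * t * I))
      ((64 * Real.pi / a + 384 * (a + 2 * Real.pi) ^ 5 / (Real.pi ^ 5 * a ^ 3)) *
        (1 + |t|) ^ 6) := by
  intro x
  set z : ℂ := (a : ℂ) - 2 * Real.pi * t * I with hz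
  have hpi := Real.pi_pos
  have hre : z.re = a := by simp [hz]
  have hz0 : z ≠ 0 := by
    intro h
    rw [h] at hre
    simp at hre
    linarith
  have hna : a ≤ ‖z‖ := by
    have := Complex.abs_re_le_norm z
    rw [hre, abs_of_pos ha] at this
    exact this
  have hzp : 0 < ‖z‖ := by linarith
  have hnu : ‖z‖ ≤ (a + 2 * Real.pi) * (1 + |t|) := by
    have h1 : ‖z‖ ≤ ‖(a : ℂ)‖ + ‖2 * Real.pi * t * I‖ := norm_sub_le _ _
    have h2 : ‖(a : ℂ)‖ = a := by simp [abs_of_pos ha]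
    have h3 : ‖(2 : ℂ) * Real.pi * t * I‖ = 2 * Real.pi * |t| := by
      simp [abs_of_pos hpi]
    rw [h2, h3] at h1
    nlinarith [abs_nonneg t]
  rw [norm_KG z x hz0, hre]
  set y := ‖x‖ with hy
  have hy0 : 0 ≤ y := norm_nonneg _
  rw [le_div_iff₀ (by positivity)]
  have h64 : (1 + y) ^ 6 ≤ 64 * (1 + y ^ 6) := by
    rcases le_total y 1 with h | h
    · have : (1 + y) ^ 6 ≤ 2 ^ 6 := pow_le_pow_left₀ (by positivity) (by linarith) 6
      have : 0 ≤ y ^ 6 := by positivity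
      linarith
    · have : (1 + y) ^ 6 ≤ (2 * y) ^ 6 := pow_le_pow_left₀ (by positivity) (by linarith) 6
      rw [mul_pow] at this
      linarith
  set s := Real.pi ^ 2 * y ^ 2 * a / ‖z‖ ^ 2 with hs
  have hs0 : 0 ≤ s := by positivity
  have hexp1 : Real.exp (-s) ≤ 1 := by
    rw [Real.exp_le_one_iff]; linarith
  have hexp3 : s ^ 3 * Real.exp (-s) ≤ 6 := by
    have h := Real.pow_div_factorial_le_exp s hs0 3
    have h6 : ((3).factorial : ℝ) = 6 := by norm_num [Nat.factorial]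
    rw [h6, div_le_iff₀ (by norm_num)] at h
    have hE : Real.exp (-s) * Real.exp s = 1 := by rw [← Real.exp_add]; simp
    calc s ^ 3 * Real.exp (-s) ≤ (Real.exp s * 6) * Real.exp (-s) := by gcongr
      _ = 6 := by linear_combination 6 * hE
  have hy6 : y ^ 6 = s ^ 3 * (‖z‖ ^ 6 / (Real.pi ^ 6 * a ^ 3)) := by
    rw [hs]; field_simp
  have hEp : 0 < Real.exp (-s) := Real.exp_pos _
  calc Real.pi / ‖z‖ * Real.exp (-s) * (1 + y) ^ 6
      ≤ Real.pi / ‖z‖ * Real.exp (-s) * (64 * (1 + y ^ 6)) := by gcongr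
    _ = 64 * (Real.pi / ‖z‖) * Real.exp (-s) +
        64 * (Real.pi / ‖z‖) * (‖z‖ ^ 6 / (Real.pi ^ 6 * a ^ 3)) * (s ^ 3 * Real.exp (-s)) := by
        rw [hy6]; ring
    _ ≤ 64 * (Real.pi / a) * 1 +
        64 * (Real.pi / ‖z‖) * (‖z‖ ^ 6 / (Real.pi ^ 6 * a ^ 3)) * 6 := by gcongr
    _ = 64 * Real.pi / a + 384 * ‖z‖ ^ 5 / (Real.pi ^ 5 * a ^ 3) := by
        field_simp
        ring
    _ ≤ 64 * Real.pi / a * (1 + |t|) ^ 6 +
        384 * ((a + 2 * Real.pi) * (1 + |t|)) ^ 5 / (Real.pi ^ 5 * a ^ 3) * (1 + |t|) := by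
        have h1 : (1 : ℝ) ≤ 1 + |t| := by linarith [abs_nonneg t]
        have h2 : (1 : ℝ) ≤ (1 + |t|) ^ 6 := one_le_pow₀ h1
        have h3 : 64 * Real.pi / a ≤ 64 * Real.pi / a * (1 + |t|) ^ 6 :=
          le_mul_of_one_le_right (by positivity) h2
        have h4 : 384 * ‖z‖ ^ 5 / (Real.pi ^ 5 * a ^ 3) ≤
            384 * ((a + 2 * Real.pi) * (1 + |t|)) ^ 5 / (Real.pi ^ 5 * a ^ 3) := by gcongr
        have h5 : 384 * ((a + 2 * Real.pi) * (1 + |t|)) ^ 5 / (Real.pi ^ 5 * a ^ 3) ≤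
            384 * ((a + 2 * Real.pi) * (1 + |t|)) ^ 5 / (Real.pi ^ 5 * a ^ 3) * (1 + |t|) :=
          le_mul_of_one_le_right (by positivity) h1
        linarith
    _ = _ := by ring

lemma cont (z : ℂ) : Continuous (KG z) := by
  unfold KG
  fun_prop

end DecM

theorem specDec : SpecDec := by
  intro a ha
  refine ⟨64 * Real.pi / a + 384 * (a + 2 * Real.pi) ^ 5 / (Real.pi ^ 5 * a ^ 3), ?_, ?_⟩
  · have := Real.pi_pos
    positivity
  · intro t
    exact ⟨DecM.dec_aux a ha t, DecM.cont _⟩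

end Pool.Agent.Lib.MPd437ed
end
end

section
/-! # DES: descendants of a tile -/
set_option autoImplicit false

namespace Pool.Agent.Lib.MPd437ed

open MeasureTheory Filter Topology Complex

noncomputable section

namespace DesM

theorem desc_zero (t : Tile) : desc 0 t = {t} := rfl

theorem desc_succ (n : ℕ) (t : Tile) : desc (n + 1) t = ⋃ i, desc n (t.child i) := rfl

theorem mem_succ (n : ℕ) (t t' : Tile) : t' ∈ desc (n + 1) t ↔ ∃ i, t' ∈ desc n (t.child i) := by
  rw [desc_succ, Set.mem_iUnion]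

theorem path (n : ℕ) (t t' : Tile) : t' ∈ desc n t ↔ Path Tile.child (fun _ => True) n t t' := by
  induction n generalizing t with
  | zero => exact Iff.rfl
  | succ n ih =>
    rw [mem_succ]
    constructor
    · rintro ⟨i, hi⟩
      exact ⟨i, trivial, (ih _).mp hi⟩
    · rintro ⟨i, -, hi⟩
      exact ⟨i, (ih _).mpr hi⟩

theorem add (n k : ℕ) (t : Tile) : desc (n + k) t = ⋃ t' ∈ desc n t, desc k t' := by
  induction n generalizing t with
  | zero => simp [desc_zero]
  | succ n ih =>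
    ext x
    rw [show n + 1 + k = (n + k) + 1 by ring, mem_succ, Set.mem_iUnion₂]
    constructor
    · rintro ⟨i, hi⟩
      rw [ih, Set.mem_iUnion₂] at hi
      obtain ⟨t', ht', hx⟩ := hi
      exact ⟨t', (mem_succ _ _ _).mpr ⟨i, ht'⟩, hx⟩
    · rintro ⟨t', ht', hx⟩
      obtain ⟨i, hi⟩ := (mem_succ _ _ _).mp ht'
      refine ⟨i, ?_⟩
      rw [ih, Set.mem_iUnion₂]
      exact ⟨t', hi, hx⟩

theorem fin (n : ℕ) (t : Tile) : (desc n t).Finite := by
  induction n generalizing t with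
  | zero => exact Set.finite_singleton t
  | succ n ih => exact Set.finite_iUnion fun i => ih _

theorem comp_one (t : Tile) : t.comp ⟨0, 1, true⟩ = t := by
  obtain ⟨c, w, s⟩ := t
  cases s <;> simp [Tile.comp, Tile.map, tw]

section geo

variable (hG : SpecGeo)
include hG

theorem w_eq (n : ℕ) (t t' : Tile) (h : t' ∈ desc n t) : ‖t'.w‖ = ‖t.w‖ / √5 ^ n := by
  induction n generalizing t with
  | zero =>
    rw [desc_zero, Set.mem_singleton_iff] at h
    rw [h, pow_zero, div_one]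
  | succ n ih =>
    obtain ⟨i, hi⟩ := (mem_succ _ _ _).mp h
    rw [ih _ hi, hG.child_w, pow_succ', div_div]

theorem child_w_ne (t : Tile) (ht : t.w ≠ 0) (i : Fin 5) : (t.child i).w ≠ 0 := by
  rw [← norm_ne_zero_iff, hG.child_w]
  have h1 : ‖t.w‖ ≠ 0 := norm_ne_zero_iff.mpr ht
  positivity

theorem child_sub (t : Tile) (i : Fin 5) : (t.child i).region ⊆ t.region := by
  rw [hG.region_child t]
  exact Set.subset_iUnion (fun i => (t.child i).region) i

theorem sub (n : ℕ) (t t' : Tile) (h : t' ∈ desc n t) : t'.region ⊆ t.region := by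
  induction n generalizing t with
  | zero =>
    rw [desc_zero, Set.mem_singleton_iff] at h
    rw [h]
  | succ n ih =>
    obtain ⟨i, hi⟩ := (mem_succ _ _ _).mp h
    exact (ih _ hi).trans (child_sub hG t i)

theorem cover (n : ℕ) (t : Tile) : t.region = ⋃ t' ∈ desc n t, t'.region := by
  induction n generalizing t with
  | zero => simp [desc_zero]
  | succ n ih =>
    rw [hG.region_child t]
    ext x
    rw [Set.mem_iUnion, Set.mem_iUnion₂]
    constructor
    · rintro ⟨i, hi⟩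
      rw [ih, Set.mem_iUnion₂] at hi
      obtain ⟨t', ht', hx⟩ := hi
      exact ⟨t', (mem_succ _ _ _).mpr ⟨i, ht'⟩, hx⟩
    · rintro ⟨t', ht', hx⟩
      obtain ⟨i, hi⟩ := (mem_succ _ _ _).mp ht'
      exact ⟨i, sub hG n _ _ hi hx⟩

theorem disj (n : ℕ) (t t' t'' : Tile) (h' : t' ∈ desc n t) (h'' : t'' ∈ desc n t)
    (hne : t' ≠ t'') : Disjoint (interior t'.region) (interior t''.region) := by
  induction n generalizing t with
  | zero =>
    rw [desc_zero, Set.mem_singleton_iff] at h' h''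
    exact absurd (h'.trans h''.symm) hne
  | succ n ih =>
    obtain ⟨i, hi⟩ := (mem_succ _ _ _).mp h'
    obtain ⟨k, hk⟩ := (mem_succ _ _ _).mp h''
    by_cases hik : i = k
    · subst hik
      exact ih _ hi hk
    · exact (hG.child_int t i k hik).mono (interior_mono (sub hG n _ _ hi))
        (interior_mono (sub hG n _ _ hk))

theorem int_nonempty (t : Tile) (ht : t.w ≠ 0) : (interior t.region).Nonempty := by
  refine ⟨t.map oo, ?_⟩
  rw [hG.mem_interior t ht, hG.gt_centre t ht]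
  have h1 : 0 < ‖t.w‖ := norm_pos_iff.mpr ht
  have h2 : 0 < rho := by
    rw [rho]
    have : √5 < 3 := by
      rw [Real.sqrt_lt' (by norm_num)]
      norm_num
    linarith
  positivity

theorem desc_disj (n : ℕ) (t : Tile) (ht : t.w ≠ 0) (i k : Fin 5) (hik : i ≠ k) :
    Disjoint (desc n (t.child i)) (desc n (t.child k)) := by
  rw [Set.disjoint_left]
  intro t' h1 h2
  have h3 := (hG.child_int t i k hik).mono (interior_mono (sub hG n _ _ h1))
    (interior_mono (sub hG n _ _ h2))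
  rw [disjoint_self, Set.bot_eq_empty] at h3
  have hw : t'.w ≠ 0 := by
    rw [← norm_ne_zero_iff, w_eq hG n _ _ h1]
    have h4 := child_w_ne hG t ht i
    have h5 : ‖(t.child i).w‖ ≠ 0 := norm_ne_zero_iff.mpr h4
    positivity
  exact (int_nonempty hG t' hw).ne_empty h3

theorem sum (n : ℕ) (t : Tile) (ht : t.w ≠ 0) (f : Tile → ℝ) :
    ∑ᶠ t' ∈ desc n t, f t' = (PP Tile.child)^[n] f t := by
  induction n generalizing t with
  | zero => simp [desc_zero]
  | succ n ih =>
    rw [Function.iterate_succ_apply', PP, desc_succ,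
      finsum_mem_iUnion (fun i k hik => desc_disj hG n t ht i k hik) (fun i => fin n _),
      finsum_eq_sum_of_fintype]
    apply Finset.sum_congr rfl
    intro i _
    exact ih _ (child_w_ne hG t ht i)

theorem card (n : ℕ) (t : Tile) (ht : t.w ≠ 0) : (desc n t).ncard = 5 ^ n := by
  have h1 := sum hG n t ht (fun _ => 1)
  have h2 : ∀ s : Tile, (PP Tile.child)^[n] (fun _ => (1 : ℝ)) s = 5 ^ n := by
    induction n with
    | zero => intro s; simp
    | succ n ih =>
      intro s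
      rw [Function.iterate_succ_apply', PP, pow_succ']
      have h3 : ∀ i, (PP Tile.child)^[n] (fun _ => (1 : ℝ)) (s.child i) = 5 ^ n := by
        intro i
        refine ih ?_ _
        exact sum hG n t ht (fun _ => 1)
      rw [Finset.sum_congr rfl fun i _ => h3 i, Finset.sum_const, Finset.card_univ,
        Fintype.card_fin, nsmul_eq_mul]
      norm_num
  rw [h2, finsum_mem_eq_finite_toFinset_sum _ (fin n t), Finset.sum_const, nsmul_eq_mul,
    mul_one, ← Set.ncard_eq_toFinset_card _ (fin n t)] at h1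
  exact_mod_cast h1

theorem sum_area (n : ℕ) (t : Tile) (ht : t.w ≠ 0) (O : Set ℂ) (hO : MeasurableSet O) :
    (PP Tile.child)^[n] (fun t' => volume.real (t'.region ∩ O)) t =
      volume.real (t.region ∩ O) := by
  induction n generalizing t with
  | zero => rfl
  | succ n ih =>
    rw [Function.iterate_succ_apply', PP,
      Finset.sum_congr rfl fun i _ => ih _ (child_w_ne hG t ht i)]
    exact hG.sum_area t ht O hO

theorem comp' (n : ℕ) (t t' : Tile) : desc n (t.comp t') = t.comp '' desc n t' := by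
  induction n generalizing t' with
  | zero => simp [desc_zero]
  | succ n ih =>
    rw [desc_succ, desc_succ, Set.image_iUnion]
    apply Set.iUnion_congr
    intro i
    rw [← hG.comp_child, ih]

theorem comp (n : ℕ) (t : Tile) : desc n t = t.comp '' desc n ⟨0, 1, true⟩ := by
  rw [← comp' hG n t, comp_one]

end geo

end DesM

open DesM in
theorem specDes (hG : SpecGeo) : SpecDes where
  path := path
  add := add
  w := w_eq hG
  sub := sub hG
  cover := cover hG
  disj := disj hG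
  fin := fin
  card := card hG
  sum := fun n t ht f => sum hG n t ht f
  sum_area := fun n t ht O hO => sum_area hG n t ht O hO
  comp := comp hG

end

end Pool.Agent.Lib.MPd437ed
end

section
/-!
POI: two-dimensional Poisson summation for Gaussians (MP_d437ed_an, III.1).
-/
noncomputable section

open Complex MeasureTheory

namespace Pool.Agent.Lib.MPd437ed

namespace PoiM

lemma summable_theta {a : ℂ} (ha : 0 < a.re) (ξ : ℝ) :
    Summable (fun n : ℤ => cexp (-(Real.pi : ℂ) * a * (n : ℂ) ^ 2 +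
      2 * Real.pi * (I * ξ) * n)) := by
  have h := (summable_jacobiTheta₂_term_iff (ξ : ℂ) (I * a)).2 (by simpa using ha)
  refine h.congr (fun n => ?_)
  unfold jacobiTheta₂_term
  congr 1
  have : (Real.pi : ℂ) * I * (n : ℂ) ^ 2 * (I * a) = -(Real.pi : ℂ) * a * (n : ℂ) ^ 2 := by
    have h2 : I * I = -1 := I_mul_I
    linear_combination ((Real.pi : ℂ) * (n : ℂ) ^ 2 * a) * h2
  rw [this]; ring

lemma re_inv_pos {a : ℂ} (ha : 0 < a.re) : 0 < ((1 : ℂ) / a).re := by
  rw [one_div, inv_re]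
  refine div_pos ha (normSq_pos.mpr ?_)
  contrapose! ha
  rw [ha, zero_re]

lemma summable_gauss {a : ℂ} (ha : 0 < a.re) (ξ : ℝ) :
    Summable (fun n : ℤ => cexp (-(Real.pi : ℂ) / a * ((n : ℂ) + ξ) ^ 2)) := by
  have ha' := re_inv_pos ha
  have h := (summable_jacobiTheta₂_term_iff (I * (ξ / a)) (I * (1 / a))).2 (by simpa using ha')
  have h' := h.mul_left (cexp (-(Real.pi : ℂ) / a * (ξ : ℂ) ^ 2))
  refine h'.congr (fun n => ?_)
  unfold jacobiTheta₂_term
  rw [← Complex.exp_add]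
  congr 1
  have h2 : I * I = -1 := I_mul_I
  have ha0 : a ≠ 0 := by
    rintro rfl
    simp at ha
  field_simp
  linear_combination (2 * ξ * (n : ℂ) + (n : ℂ) ^ 2) * h2

/-- one-dimensional Poisson summation for a translated Gaussian -/
lemma poisson1 {a : ℂ} (ha : 0 < a.re) (ξ : ℝ) :
    ∑' n : ℤ, cexp (-(Real.pi : ℂ) / a * ((n : ℂ) + ξ) ^ 2) =
      a ^ (1 / 2 : ℂ) * ∑' n : ℤ, cexp (-(Real.pi : ℂ) * a * (n : ℂ) ^ 2 +
        2 * Real.pi * (I * ξ) * n) := by
  have h := Complex.tsum_exp_neg_quadratic ha (I * (-ξ))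
  have ha0 : a ≠ 0 := by
    rintro rfl
    simp at ha
  have h1 : a ^ (1 / 2 : ℂ) ≠ 0 := by
    rw [Ne, Complex.cpow_eq_zero_iff]
    tauto
  have h2 : ∀ n : ℤ, (n : ℂ) + I * (I * (-ξ : ℂ)) = (n : ℂ) + ξ := by
    intro n
    have h2 : I * I = -1 := I_mul_I
    linear_combination (-ξ : ℂ) * h2
  simp only [h2] at h
  have h3 : ∑' n : ℤ, cexp (-(Real.pi : ℂ) * a * (n : ℂ) ^ 2 +
      2 * Real.pi * (I * (-ξ)) * n) =
      ∑' n : ℤ, cexp (-(Real.pi : ℂ) * a * (n : ℂ) ^ 2 + 2 * Real.pi * (I * ξ) * n) := by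
    rw [← (Equiv.neg ℤ).tsum_eq]
    refine tsum_congr (fun n => ?_)
    congr 1
    simp
  rw [h3] at h
  rw [h]
  field_simp

lemma norm_sq_eq (x : ℂ) : (‖x‖ : ℂ) ^ 2 = (x.re : ℂ) ^ 2 + (x.im : ℂ) ^ 2 := by
  rw [← ofReal_pow, Complex.sq_norm, Complex.normSq_apply]
  push_cast
  ring

lemma KG_eq {z g : ℂ} (hz : 0 < z.re) (hg : g ≠ 0) (x : ℂ) (l : ℤ × ℤ) :
    KG z (x + g * G2 l) = (Real.pi : ℂ) / z *
      (cexp (-(Real.pi : ℂ) / (z / ((Real.pi : ℂ) * (‖g‖ : ℂ) ^ 2)) *
        ((l.1 : ℂ) + ((x / g).re : ℝ)) ^ 2) *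
       cexp (-(Real.pi : ℂ) / (z / ((Real.pi : ℂ) * (‖g‖ : ℂ) ^ 2)) *
        ((l.2 : ℂ) + ((x / g).im : ℝ)) ^ 2)) := by
  unfold KG
  rw [← Complex.exp_add]
  congr 2
  have hz0 : z ≠ 0 := by
    rintro rfl
    simp at hz
  have hg0 : (‖g‖ : ℂ) ≠ 0 := by simpa using hg
  have hpi : (Real.pi : ℂ) ≠ 0 := by simp [Real.pi_ne_zero]
  have e1 : x + g * G2 l = g * (x / g + G2 l) := by field_simp
  rw [e1, norm_mul, ofReal_mul, mul_pow, norm_sq_eq (x / g + G2 l)]
  have e2 : (x / g + G2 l).re = l.1 + (x / g).re := by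
    unfold G2; simp; ring
  have e3 : (x / g + G2 l).im = l.2 + (x / g).im := by
    unfold G2; simp; ring
  rw [e2, e3]
  push_cast
  field_simp
  ring

lemma a_re {z g : ℂ} (hz : 0 < z.re) (hg : g ≠ 0) :
    0 < (z / ((Real.pi : ℂ) * (‖g‖ : ℂ) ^ 2)).re := by
  have hg2 : (0 : ℝ) < ‖g‖ ^ 2 := by positivity
  have : z / ((Real.pi : ℂ) * (‖g‖ : ℂ) ^ 2) = z / ((Real.pi * ‖g‖ ^ 2 : ℝ) : ℂ) := by
    push_cast; rfl
  rw [this, Complex.div_ofReal_re]
  have := Real.pi_pos
  positivity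

lemma summable_KG {z g : ℂ} (hz : 0 < z.re) (hg : g ≠ 0) (x : ℂ) :
    Summable (fun l : ℤ × ℤ => KG z (x + g * G2 l)) := by
  have hare := a_re hz hg
  have h1 := summable_gauss hare (x / g).re
  have h2 := summable_gauss hare (x / g).im
  have h := (summable_mul_of_summable_norm h1.norm h2.norm).mul_left ((Real.pi : ℂ) / z)
  exact h.congr (fun l => (KG_eq hz hg x l).symm)

lemma term_eq {z g : ℂ} (hg : g ≠ 0) (x : ℂ) (l : ℤ × ℤ) :
    cexp (-(Real.pi : ℂ) * (z / ((Real.pi : ℂ) * (‖g‖ : ℂ) ^ 2)) * (l.1 : ℂ) ^ 2 +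
        2 * Real.pi * (I * ((x / g).re : ℝ)) * l.1) *
      cexp (-(Real.pi : ℂ) * (z / ((Real.pi : ℂ) * (‖g‖ : ℂ) ^ 2)) * (l.2 : ℂ) ^ 2 +
        2 * Real.pi * (I * ((x / g).im : ℝ)) * l.2) =
      cexp (-z * ‖G2 l‖ ^ 2 / ‖g‖ ^ 2) *
        cexp (2 * Real.pi * (((starRingEnd ℂ) (G2 l) * x / g).re : ℝ) * I) := by
  have hg0 : (‖g‖ : ℂ) ≠ 0 := by simpa using hg
  have hpi : (Real.pi : ℂ) ≠ 0 := by simp [Real.pi_ne_zero]
  rw [← Complex.exp_add, ← Complex.exp_add]
  congr 1
  have e6 : (((starRingEnd ℂ) (G2 l) * x / g).re : ℝ) =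
      l.1 * (x / g).re + l.2 * (x / g).im := by
    rw [mul_div_assoc]
    unfold G2
    simp [Complex.mul_re]
  rw [e6, norm_sq_eq (G2 l)]
  have e7 : (G2 l).re = l.1 := by unfold G2; simp
  have e8 : (G2 l).im = l.2 := by unfold G2; simp
  rw [e7, e8]
  push_cast
  field_simp
  ring

lemma summable_dual {z g : ℂ} (hz : 0 < z.re) (hg : g ≠ 0) :
    Summable (fun n : ℤ × ℤ => cexp (-z * ‖G2 n‖ ^ 2 / ‖g‖ ^ 2)) := by
  have hare := a_re hz hg
  have h3 := summable_theta hare ((0 : ℂ) / g).re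
  have h4 := summable_theta hare ((0 : ℂ) / g).im
  have h := summable_mul_of_summable_norm h3.norm h4.norm
  refine h.congr (fun l => ?_)
  rw [term_eq hg 0 l]
  simp

/-- Poisson summation over the lattice `g ℤ[i]` -/
theorem poisson {z g : ℂ} (hz : 0 < z.re) (hg : g ≠ 0) (x : ℂ) :
    ∑' l : ℤ × ℤ, KG z (x + g * G2 l) =
      (1 / ‖g‖ ^ 2 : ℝ) * ∑' n : ℤ × ℤ, cexp (-z * ‖G2 n‖ ^ 2 / ‖g‖ ^ 2) *
        cexp (2 * Real.pi * (((starRingEnd ℂ) (G2 n) * x / g).re : ℝ) * I) := by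
  have hare := a_re hz hg
  have hz0 : z ≠ 0 := by
    rintro rfl
    simp at hz
  have hg0 : (‖g‖ : ℂ) ≠ 0 := by simpa using hg
  have hpi : (Real.pi : ℂ) ≠ 0 := by simp [Real.pi_ne_zero]
  have lhs : ∑' l : ℤ × ℤ, KG z (x + g * G2 l) = (Real.pi : ℂ) / z *
      ((∑' n : ℤ, cexp (-(Real.pi : ℂ) / (z / ((Real.pi : ℂ) * (‖g‖ : ℂ) ^ 2)) *
          ((n : ℂ) + ((x / g).re : ℝ)) ^ 2)) *
        ∑' n : ℤ, cexp (-(Real.pi : ℂ) / (z / ((Real.pi : ℂ) * (‖g‖ : ℂ) ^ 2)) *
          ((n : ℂ) + ((x / g).im : ℝ)) ^ 2)) := by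
    rw [tsum_mul_tsum_of_summable_norm (summable_gauss hare _).norm (summable_gauss hare _).norm,
      ← tsum_mul_left]
    exact tsum_congr (fun l => KG_eq hz hg x l)
  have ha0 : z / ((Real.pi : ℂ) * (‖g‖ : ℂ) ^ 2) ≠ 0 := by positivity
  rw [lhs, poisson1 hare, poisson1 hare]
  have e4 : (z / ((Real.pi : ℂ) * (‖g‖ : ℂ) ^ 2)) ^ (1 / 2 : ℂ) *
      (z / ((Real.pi : ℂ) * (‖g‖ : ℂ) ^ 2)) ^ (1 / 2 : ℂ) =
      z / ((Real.pi : ℂ) * (‖g‖ : ℂ) ^ 2) := by
    rw [← Complex.cpow_add _ _ ha0]; norm_num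
  have e5 : (Real.pi : ℂ) / z * (z / ((Real.pi : ℂ) * (‖g‖ : ℂ) ^ 2)) =
      ((1 / ‖g‖ ^ 2 : ℝ) : ℂ) := by
    push_cast
    field_simp
  rw [show ∀ A B c d : ℂ, c * (d * A * (d * B)) = c * (d * d) * (A * B) from
    fun A B c d => by ring, e4, e5,
    tsum_mul_tsum_of_summable_norm (summable_theta hare _).norm (summable_theta hare _).norm]
  congr 1
  exact tsum_congr (fun l => term_eq hg x l)

end PoiM

theorem specPoi : SpecPoi := by
  intro z hz g hg x
  exact ⟨PoiM.summable_KG hz hg x, PoiM.summable_dual hz hg, PoiM.poisson hz hg x⟩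

end Pool.Agent.Lib.MPd437ed
end
end

section
/-!
# EXT: the vague limit for decaying kernels
-/
set_option linter.unusedSectionVars false

namespace Pool.Agent.Lib.MPd437ed

open MeasureTheory Filter Topology Complex

noncomputable section

namespace ExtM

/-- The cutoff: `1` on the ball of radius `n`, `0` outside the ball of radius `n + 1`. -/
def cut (n : ℕ) (x : ℂ) : ℝ := max 0 (min 1 (n + 1 - ‖x‖))

lemma cut_cont (n : ℕ) : Continuous (cut n) := by
  unfold cut
  fun_prop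

lemma cut_nonneg (n : ℕ) (x : ℂ) : 0 ≤ cut n x := le_max_left _ _

lemma cut_le_one (n : ℕ) (x : ℂ) : cut n x ≤ 1 := by
  unfold cut
  exact max_le (by norm_num) (min_le_left _ _)

lemma cut_one (n : ℕ) (x : ℂ) (h : ‖x‖ ≤ n) : cut n x = 1 := by
  unfold cut
  rw [min_eq_left (by linarith), max_eq_right (by norm_num)]

lemma cut_zero (n : ℕ) (x : ℂ) (h : (n : ℝ) + 1 ≤ ‖x‖) : cut n x = 0 := by
  unfold cut
  rw [max_eq_left]
  exact (min_le_right _ _).trans (by linarith)

lemma cut_supp (n : ℕ) : HasCompactSupport (cut n) := by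
  refine HasCompactSupport.intro (isCompact_closedBall (0 : ℂ) (n + 1)) fun x hx => ?_
  refine cut_zero n x ?_
  rw [Metric.mem_closedBall, dist_zero_right, not_le] at hx
  exact hx.le

lemma cut_tendsto (x : ℂ) : Tendsto (fun n => cut n x) atTop (𝓝 1) := by
  refine tendsto_const_nhds.congr' ?_
  obtain ⟨n0, hn0⟩ := exists_nat_ge ‖x‖
  filter_upwards [eventually_ge_atTop n0] with n hn
  rw [cut_one n x]
  exact hn0.trans (by exact_mod_cast hn)

lemma cut_mono (x : ℂ) {n m : ℕ} (h : n ≤ m) : cut n x ≤ cut m x := by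
  unfold cut
  have : (n : ℝ) ≤ m := by exact_mod_cast h
  exact max_le_max le_rfl (min_le_min le_rfl (by linarith))

/-- PS as a finite sum -/
lemma ps_eq {Λ : Set ℂ} (hΛ : Λ.Finite) (K : ℂ → ℂ) :
    PS K Λ = ∑ x ∈ hΛ.toFinset, ∑ y ∈ hΛ.toFinset, K (x - y) := by
  unfold PS
  rw [← Finset.sum_product', ← finsum_mem_coe_finset]
  simp

lemma rs_eq {Λ : Set ℂ} (hΛ : Λ.Finite) (f : ℂ → ℝ) :
    ∑ᶠ p ∈ Λ ×ˢ Λ, f (p.1 - p.2) = ∑ x ∈ hΛ.toFinset, ∑ y ∈ hΛ.toFinset, f (x - y) := by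
  rw [← Finset.sum_product', ← finsum_mem_coe_finset]
  simp

/-- The key bound. -/
lemma tail (hPac : SpecPac) (hBnd : SpecBnd) : ∃ C : ℝ, 0 < C ∧ ∀ 𝒰 : Set Tile, IsPack 𝒰 →
    ∀ (R : ℝ) (hΛ : (vertexSet 𝒰 ∩ Metric.closedBall 0 R).Finite), 1 ≤ R → ∀ (d : ℝ), 0 ≤ d →
    ∀ (f : ℂ → ℝ) (A : ℝ), 0 ≤ A → (∀ x, 0 ≤ f x) → (∀ x, f x ≤ A / (1 + ‖x‖) ^ 6) →
      (∀ x, ‖x‖ < d → f x = 0) →
      ∑ x ∈ hΛ.toFinset, ∑ y ∈ hΛ.toFinset, f (x - y) ≤ C * A / (1 + d) ^ 3 * R ^ 2 := by
  obtain ⟨C1, hC1, hpac⟩ := hPac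
  obtain ⟨C2, hC2, hbnd⟩ := hBnd C1
  refine ⟨C1 * 4 * C2, by positivity, ?_⟩
  intro 𝒰 h𝒰 R hΛ hR d hd f A hA hf0 hf hfd
  classical
  set Λ := vertexSet 𝒰 ∩ Metric.closedBall 0 R with hΛdef
  have hcard : (hΛ.toFinset.card : ℝ) ≤ C1 * (1 + R) ^ 2 := by
    have h := (hpac 𝒰 h𝒰 0 R (by linarith)).2.2.2
    rw [Set.ncard_eq_toFinset_card _ hΛ] at h
    exact h
  have hin : ∀ x, ∑ y ∈ hΛ.toFinset, f (x - y) ≤ A * (C2 / (1 + d) ^ 3) := by
    intro x
    have h1 : ∑ y ∈ hΛ.toFinset, f (x - y) =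
        ∑ y ∈ hΛ.toFinset.filter (fun y => d ≤ ‖y - x‖), f (x - y) := by
      symm
      refine Finset.sum_subset (Finset.filter_subset _ _) fun y hy hy' => ?_
      refine hfd _ ?_
      rw [Finset.mem_filter, not_and, not_le] at hy'
      rw [norm_sub_rev]
      exact hy' hy
    rw [h1]
    have h2 : ∀ y ∈ hΛ.toFinset.filter (fun y => d ≤ ‖y - x‖),
        f (x - y) ≤ A * (1 / (1 + ‖y - x‖) ^ 6) := by
      intro y _
      refine (hf _).trans (le_of_eq ?_)
      rw [norm_sub_rev, mul_one_div]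
    refine (Finset.sum_le_sum h2).trans ?_
    rw [← Finset.mul_sum]
    refine mul_le_mul_of_nonneg_left ?_ hA
    refine hbnd ℂ _ (fun y => y) x d hd (fun r hr => ?_) fun y hy => (Finset.mem_filter.1 hy).2
    have h3 := (hpac 𝒰 h𝒰 x r hr).2.2
    refine le_trans ?_ h3.2
    have h4 : {i ∈ ((hΛ.toFinset.filter (fun y => d ≤ ‖y - x‖) : Finset ℂ) : Set ℂ) |
        ‖(fun y => y) i - x‖ ≤ r} ⊆ vertexSet 𝒰 ∩ Metric.closedBall x r := by
      intro y hy
      have hy1 := hy.1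
      rw [Finset.mem_coe, Finset.mem_filter, Set.Finite.mem_toFinset] at hy1
      refine ⟨hy1.1.1, ?_⟩
      rw [Metric.mem_closedBall, dist_eq_norm]
      exact hy.2
    exact_mod_cast Set.ncard_le_ncard h4 h3.1
  calc ∑ x ∈ hΛ.toFinset, ∑ y ∈ hΛ.toFinset, f (x - y)
      ≤ ∑ x ∈ hΛ.toFinset, A * (C2 / (1 + d) ^ 3) := Finset.sum_le_sum fun x _ => hin x
    _ = hΛ.toFinset.card * (A * (C2 / (1 + d) ^ 3)) := by rw [Finset.sum_const, nsmul_eq_mul]
    _ ≤ (C1 * (1 + R) ^ 2) * (A * (C2 / (1 + d) ^ 3)) :=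
        mul_le_mul_of_nonneg_right hcard (by positivity)
    _ ≤ (C1 * (4 * R ^ 2)) * (A * (C2 / (1 + d) ^ 3)) := by
        refine mul_le_mul_of_nonneg_right ?_ (by positivity)
        refine mul_le_mul_of_nonneg_left ?_ hC1.le
        nlinarith
    _ = _ := by ring

end ExtM

open ExtM

theorem specExt (hPac : SpecPac) (hBnd : SpecBnd) : SpecExt := by
  obtain ⟨C, hC, htail⟩ := tail hPac hBnd
  obtain ⟨C1, hC1, hpac⟩ := hPac
  intro 𝒯 h𝒯 γ hγ K A hKc hA hK
  have : IsFiniteMeasureOnCompacts γ := hγ.1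
  have hP : IsPack 𝒯 := ⟨h𝒯.congruent, h𝒯.disjoint⟩
  have hfin : ∀ R : ℝ, (vertexSet 𝒯 ∩ Metric.closedBall 0 R).Finite := by
    intro R
    rcases le_or_gt 0 R with h | h
    · exact (hpac 𝒯 hP 0 R h).2.2.1
    · rw [Metric.closedBall_eq_empty.2 h, Set.inter_empty]
      exact Set.finite_empty
  -- real sums
  let T : ℝ → (ℂ → ℝ) → ℝ := fun R f => (Real.pi * R ^ 2)⁻¹ *
    ∑ x ∈ (hfin R).toFinset, ∑ y ∈ (hfin R).toFinset, f (x - y)
  have hT : ∀ f : ℂ → ℝ, Continuous f → HasCompactSupport f →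
      Tendsto (fun R => T R f) atTop (𝓝 (∫ x, f x ∂γ)) := by
    intro f hf hfs
    have h := hγ.2 f hf hfs
    refine h.congr fun R => ?_
    rw [rs_eq (hfin R) f]
  have hTtail : ∀ (R : ℝ), 1 ≤ R → ∀ (d : ℝ), 0 ≤ d → ∀ (f : ℂ → ℝ), (∀ x, 0 ≤ f x) →
      (∀ x, f x ≤ A / (1 + ‖x‖) ^ 6) → (∀ x, ‖x‖ < d → f x = 0) →
      T R f ≤ C * A / (1 + d) ^ 3 := by
    intro R hR d hd f hf0 hf hfd
    have h := htail 𝒯 hP R (hfin R) hR d hd f A hA hf0 hf hfd
    have hR2 : 0 < R ^ 2 := by positivity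
    have hpi : (1 : ℝ) ≤ Real.pi := by linarith [Real.pi_gt_three]
    have hCA : 0 ≤ C * A / (1 + d) ^ 3 := by positivity
    show (Real.pi * R ^ 2)⁻¹ * _ ≤ _
    rw [inv_mul_le_iff₀ (by positivity)]
    refine h.trans ?_
    have : C * A / (1 + d) ^ 3 * R ^ 2 ≤ Real.pi * (C * A / (1 + d) ^ 3 * R ^ 2) :=
      le_mul_of_one_le_left (by positivity) hpi
    linarith
  -- integrability of the norm
  have hKn : Continuous fun x => ‖K x‖ := hKc.norm
  have hbound : ∀ n : ℕ, ∫ x, ‖K x‖ * cut n x ∂γ ≤ C * A := by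
    intro n
    have h1 := hT (fun x => ‖K x‖ * cut n x) (hKn.mul (cut_cont n)) (cut_supp n).mul_left
    refine le_of_tendsto h1 ?_
    filter_upwards [eventually_ge_atTop 1] with R hR
    have h2 := hTtail R hR 0 le_rfl (fun x => ‖K x‖ * cut n x)
      (fun x => mul_nonneg (norm_nonneg _) (cut_nonneg _ _))
      (fun x => (mul_le_of_le_one_right (norm_nonneg _) (cut_le_one _ _)).trans (hK x))
      (fun x hx => absurd (norm_nonneg x) (not_le.2 hx))
    simpa using h2
  have hint_n : ∀ n : ℕ, Integrable (fun x => ‖K x‖ * cut n x) γ := fun n =>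
    (hKn.mul (cut_cont n)).integrable_of_hasCompactSupport (cut_supp n).mul_left
  have hKint : Integrable K γ := by
    have hlint : ∫⁻ x, ‖K x‖ₑ ∂γ ≤ ENNReal.ofReal (C * A) := by
      have h1 : ∀ n : ℕ, ∫⁻ x, ENNReal.ofReal (‖K x‖ * cut n x) ∂γ ≤ ENNReal.ofReal (C * A) := by
        intro n
        rw [← ofReal_integral_eq_lintegral_ofReal (hint_n n)
          (by filter_upwards with x; exact mul_nonneg (norm_nonneg _) (cut_nonneg _ _))]
        exact ENNReal.ofReal_le_ofReal (hbound n)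
      have h2 : Tendsto (fun n : ℕ => ∫⁻ x, ENNReal.ofReal (‖K x‖ * cut n x) ∂γ) atTop
          (𝓝 (∫⁻ x, ‖K x‖ₑ ∂γ)) := by
        refine lintegral_tendsto_of_tendsto_of_monotone ?_ ?_ ?_
        · intro n
          exact (hKn.mul (cut_cont n)).measurable.ennreal_ofReal.aemeasurable
        · filter_upwards with x
          intro n m hnm
          exact ENNReal.ofReal_le_ofReal
            (mul_le_mul_of_nonneg_left (cut_mono x hnm) (norm_nonneg _))
        · filter_upwards with x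
          have h3 := ((cut_tendsto x).const_mul ‖K x‖)
          rw [mul_one] at h3
          rw [← ofReal_norm]
          exact ENNReal.tendsto_ofReal h3
      exact le_of_tendsto' h2 h1
    exact ⟨hKc.aestronglyMeasurable, hlint.trans_lt ENNReal.ofReal_lt_top⟩
  refine ⟨hKint, ?_⟩
  -- complex sums
  let TC : ℝ → (ℂ → ℂ) → ℂ := fun R f => ((Real.pi * R ^ 2)⁻¹ : ℝ) *
    ∑ x ∈ (hfin R).toFinset, ∑ y ∈ (hfin R).toFinset, f (x - y)
  have hTC : ∀ f : ℂ → ℂ, Continuous f → HasCompactSupport f →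
      Tendsto (fun R => TC R f) atTop (𝓝 (∫ x, f x ∂γ)) := by
    intro f hf hfs
    have hfi : Integrable f γ := hf.integrable_of_hasCompactSupport hfs
    have hre := hT (fun x => (f x).re) (Complex.continuous_re.comp hf)
      (hfs.comp_left (g := Complex.re) rfl)
    have him := hT (fun x => (f x).im) (Complex.continuous_im.comp hf)
      (hfs.comp_left (g := Complex.im) rfl)
    have h1 : Tendsto (fun R => ((T R fun x => (f x).re : ℝ) : ℂ) +
        ((T R fun x => (f x).im : ℝ) : ℂ) * I) atTop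
        (𝓝 (((∫ x, (f x).re ∂γ : ℝ) : ℂ) + ((∫ x, (f x).im ∂γ : ℝ) : ℂ) * I)) :=
      ((Complex.continuous_ofReal.tendsto _).comp hre).add
        (((Complex.continuous_ofReal.tendsto _).comp him).mul_const _)
    have h2 : ((∫ x, (f x).re ∂γ : ℝ) : ℂ) + ((∫ x, (f x).im ∂γ : ℝ) : ℂ) * I =
        ∫ x, f x ∂γ := integral_re_add_im hfi
    rw [h2] at h1
    refine h1.congr fun R => ?_
    simp only [T, TC]
    push_cast
    rw [mul_assoc, ← mul_add, Finset.sum_mul, ← Finset.sum_add_distrib]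
    congr 1
    refine Finset.sum_congr rfl fun x _ => ?_
    rw [Finset.sum_mul, ← Finset.sum_add_distrib]
    exact Finset.sum_congr rfl fun y _ => Complex.re_add_im _
  have hgoal : (fun R : ℝ => ((Real.pi * R ^ 2)⁻¹ : ℝ) *
      PS K (vertexSet 𝒯 ∩ Metric.closedBall 0 R)) = fun R => TC R K := by
    funext R
    simp only [TC]
    rw [ps_eq (hfin R) K]
  rw [hgoal]
  -- approximation
  have happ : ∀ n : ℕ, ∀ R : ℝ, 1 ≤ R → ‖TC R K - TC R (fun x => K x * cut n x)‖ ≤
      C * A / (1 + n) ^ 3 := by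
    intro n R hR
    have h1 : TC R K - TC R (fun x => K x * cut n x) =
        TC R (fun x => K x * ((1 - cut n x : ℝ) : ℂ)) := by
      simp only [TC]
      rw [← mul_sub, ← Finset.sum_sub_distrib]
      congr 1
      refine Finset.sum_congr rfl fun x _ => ?_
      rw [← Finset.sum_sub_distrib]
      refine Finset.sum_congr rfl fun y _ => ?_
      push_cast
      ring
    rw [h1]
    refine le_trans ?_ (hTtail R hR n (Nat.cast_nonneg n) (fun x => ‖K x‖ * (1 - cut n x))
      (fun x => mul_nonneg (norm_nonneg _) (by linarith [cut_le_one n x]))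
      (fun x => (mul_le_of_le_one_right (norm_nonneg _) (by linarith [cut_nonneg n x])).trans
        (hK x)) (fun x hx => by rw [cut_one n x hx.le]; ring))
    simp only [TC, T]
    rw [norm_mul, Complex.norm_real, Real.norm_of_nonneg (by positivity)]
    refine mul_le_mul_of_nonneg_left ?_ (by positivity)
    refine (norm_sum_le _ _).trans (Finset.sum_le_sum fun x _ => ?_)
    refine (norm_sum_le _ _).trans (Finset.sum_le_sum fun y _ => ?_)
    rw [norm_mul, Complex.norm_real, Real.norm_of_nonneg (by linarith [cut_le_one n (x - y)])]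
  have hIcut : Tendsto (fun n : ℕ => ∫ x, K x * cut n x ∂γ) atTop (𝓝 (∫ x, K x ∂γ)) := by
    refine tendsto_integral_of_dominated_convergence (fun x => ‖K x‖) ?_ hKint.norm ?_ ?_
    · intro n
      exact (hKc.mul (Complex.continuous_ofReal.comp (cut_cont n))).aestronglyMeasurable
    · intro n
      filter_upwards with x
      rw [norm_mul, Complex.norm_real, Real.norm_of_nonneg (cut_nonneg _ _)]
      exact mul_le_of_le_one_right (norm_nonneg _) (cut_le_one _ _)
    · filter_upwards with x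
      have h3 := ((Complex.continuous_ofReal.tendsto _).comp (cut_tendsto x)).const_mul (K x)
      simpa using h3
  have hsmall : Tendsto (fun n : ℕ => C * A / (1 + (n : ℝ)) ^ 3) atTop (𝓝 0) := by
    have h1 : Tendsto (fun n : ℕ => (1 + (n : ℝ)) ^ 3) atTop atTop :=
      (tendsto_pow_atTop (by norm_num)).comp
        (tendsto_atTop_add_const_left _ _ tendsto_natCast_atTop_atTop)
    exact h1.const_div_atTop _
  rw [Metric.tendsto_atTop]
  intro ε hε
  have h1 := (Metric.tendsto_atTop.1 hIcut (ε / 3) (by positivity))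
  have h2 := (Metric.tendsto_atTop.1 hsmall (ε / 3) (by positivity))
  obtain ⟨n1, hn1⟩ := h1
  obtain ⟨n2, hn2⟩ := h2
  set n := max n1 n2 with hn
  have h3 := hn1 n (le_max_left _ _)
  have h4 := hn2 n (le_max_right _ _)
  have hcs : HasCompactSupport (fun x : ℂ => K x * (cut n x : ℂ)) := by
    refine HasCompactSupport.mul_left ?_
    exact (cut_supp n).comp_left (g := fun t : ℝ => (t : ℂ)) (by simp)
  have h5 := hTC (fun x => K x * cut n x)
    (hKc.mul (Complex.continuous_ofReal.comp (cut_cont n))) hcs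
  obtain ⟨R0, hR0⟩ := (Metric.tendsto_atTop.1 h5 (ε / 3) (by positivity))
  refine ⟨max R0 1, fun R hR => ?_⟩
  have h6 := hR0 R ((le_max_left _ _).trans hR)
  have h7 := happ n R ((le_max_right _ _).trans hR)
  rw [Real.dist_eq, sub_zero, abs_of_nonneg (by positivity)] at h4
  rw [← dist_eq_norm] at h7
  have h8 := dist_triangle (TC R K) (TC R fun x => K x * cut n x) (∫ x, K x ∂γ)
  have h9 := dist_triangle (TC R fun x => K x * cut n x) (∫ x, K x * cut n x ∂γ) (∫ x, K x ∂γ)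
  linarith

end

end Pool.Agent.Lib.MPd437ed
end

section
/-!
SUP: balls of a pinwheel tiling are filled by supertiles.
-/
namespace Pool.Agent.Lib.MPd437ed

open MeasureTheory Filter Topology Complex PkM

noncomputable section

namespace SupM

theorem pack {𝒯 : Set Tile} (hT : IsPinwheelTiling 𝒯) : IsPack 𝒯 :=
  ⟨hT.congruent, hT.disjoint⟩

/-- the tiles of `𝒯` which meet a set cover it -/
theorem cover {𝒯 : Set Tile} (hT : IsPinwheelTiling 𝒯) (x : ℂ) :
    ∃ t ∈ 𝒯, x ∈ t.region := by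
  have := hT.covers ▸ Set.mem_univ x
  simpa using this

end SupM

open SupM

theorem specSup (hG : SpecGeo) (hD : SpecDes) (hP : SpecPac) : SpecSup := by
  obtain ⟨C, hC, hPac⟩ := hP
  intro 𝒯 hT N
  have h5 : (0 : ℝ) < √5 := by positivity
  have h55 : √5 * √5 = 5 := Real.mul_self_sqrt (by norm_num)
  have hp5 : (0 : ℝ) < √5 ^ N := by positivity
  refine ⟨√5 * √5 ^ N + 1, by nlinarith, ?_⟩
  intro R hR
  have hR0 : 0 ≤ R := by nlinarith
  set F : Set Tile := {t ∈ 𝒯 | (t.region ∩ Metric.closedBall 0 R).Nonempty} with hFdef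
  have hF : F.Finite := (hPac 𝒯 (pack hT) 0 R hR0).1
  obtain ⟨n, S, hS, hFS⟩ := hT.patch F (Set.sep_subset _ _) hF
  have hcov : ∀ x ∈ Metric.closedBall (0 : ℂ) R, ∃ t ∈ F, x ∈ t.region := by
    intro x hx
    obtain ⟨t, ht, hxt⟩ := cover hT x
    exact ⟨t, ⟨ht, ⟨x, hxt, hx⟩⟩, hxt⟩
  have hcovS : Metric.closedBall (0 : ℂ) R ⊆ S.region := by
    intro x hx
    obtain ⟨t, ht, hxt⟩ := hcov x hx
    exact hD.sub n S t (hFS ht) hxt
  have hSw : S.w ≠ 0 := w_ne_of_pow hS
  have hnN : N ≤ n := by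
    by_contra hlt
    push Not at hlt
    have h1 : volume.real (Metric.closedBall (0 : ℂ) R) ≤ volume.real S.region :=
      measureReal_mono hcovS (h₂ := vol_fin hG S)
    rw [vol_ball _ _ hR0, hG.area S, hS] at h1
    have h2 : (√5 ^ n) ^ 2 ≤ (√5 ^ N) ^ 2 := by
      apply pow_le_pow_left₀ (by positivity)
      apply pow_le_pow_right₀ _ hlt.le
      rw [Real.one_le_sqrt]; norm_num
    have h3 : (√5 * √5 ^ N) ^ 2 ≤ R ^ 2 := by
      apply pow_le_pow_left₀ (by positivity)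
      linarith
    have h4 : (√5 * √5 ^ N) ^ 2 = 5 * (√5 ^ N) ^ 2 := by
      rw [mul_pow, Real.sq_sqrt (by norm_num)]
    have h5 : 0 < (√5 ^ N) ^ 2 := by positivity
    have h6 := Real.pi_gt_three
    nlinarith
  obtain ⟨k, rfl⟩ := Nat.exists_eq_add_of_le' hnN
  -- n = k + N
  have hw : ∀ t ∈ desc k S, ‖t.w‖ = √5 ^ N := by
    intro t ht
    rw [hD.w k S t ht, hS, pow_add]
    field_simp
  have hfin : {t ∈ desc k S | t.region ⊆ Metric.closedBall 0 R}.Finite :=
    (hD.fin k S).subset (Set.sep_subset _ _)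
  refine ⟨hfin.toFinset, ?_, ?_, ?_⟩
  · intro t ht
    rw [Set.Finite.mem_toFinset] at ht
    obtain ⟨ht, hball⟩ := ht
    refine ⟨hw t ht, ?_, hball⟩
    intro s hs
    have hs' : s ∈ desc (k + N) S := by
      rw [hD.add k N S]
      simp only [Set.mem_iUnion]
      exact ⟨t, ht, hs⟩
    have hs1 : ‖s.w‖ = 1 := by
      rw [hD.w (k + N) S s hs', hS]
      field_simp
    have hx := centre_mem hG s (w_ne_of_norm hs1)
    have hx2 : s.map oo ∈ Metric.closedBall (0 : ℂ) R :=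
      hball (hD.sub N t s hs (interior_subset hx))
    obtain ⟨f, hf, hxf⟩ := hcov _ hx2
    have := eq_of_mem hG s f (w_ne_of_norm (hT.congruent f hf.1))
      (fun hne => hD.disj (k + N) S s f hs' (hFS hf) hne) _ hx hxf
    rw [this]
    exact hf.1
  · intro t ht t' ht' hne
    rw [Set.Finite.mem_toFinset] at ht ht'
    exact hD.disj k S t t' ht.1 ht'.1 hne
  · intro x hx
    have hx' : ‖x‖ ≤ R - (√5 * √5 ^ N + 1) := by simpa using hx
    have hxb : x ∈ Metric.closedBall (0 : ℂ) R := by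
      simp only [Metric.mem_closedBall, dist_zero_right]
      nlinarith
    have hxS := hcovS hxb
    rw [hD.cover k S] at hxS
    simp only [Set.mem_iUnion] at hxS
    obtain ⟨t, ht, hxt⟩ := hxS
    simp only [Set.mem_iUnion, Set.Finite.mem_toFinset]
    refine ⟨t, ⟨ht, ?_⟩, hxt⟩
    intro y hy
    have h1 := hG.diam t y hy x hxt
    rw [hw t ht] at h1
    simp only [Metric.mem_closedBall, dist_zero_right]
    have h2 : ‖y‖ ≤ ‖y - x‖ + ‖x‖ := by
      calc ‖y‖ = ‖(y - x) + x‖ := by ring_nf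
        _ ≤ _ := norm_add_le _ _
    linarith

end

end Pool.Agent.Lib.MPd437ed
end
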