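import Pool.Agent.Lib.MP_d437ed_an.Spec

/-!
# TV: asymptotic invariance of the orientations under `u`
-/

set_option linter.unusedSectionVars false

namespace Pool.Agent.Lib.MPd437ed

open MeasureTheory Filter Topology Complex

noncomputable section

namespace TvM

/-- functions of factor and orientation -/
abbrev F : Type := ℂ → Bool → ℝ

/-- linear operators -/
abbrev Op : Type := Module.End ℝ F

/-- substitution `w ↦ w a_s`, `s ↦ b_s` -/
def sub (a : Bool → ℂ) (b : Bool → Bool) : Op where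
  toFun Γ := fun w s => Γ (w * a s) (b s)
  map_add' _ _ := rfl
  map_smul' _ _ := rfl

lemma sub_apply (a : Bool → ℂ) (b : Bool → Bool) (Γ : F) (w : ℂ) (s : Bool) :
    sub a b Γ w s = Γ (w * a s) (b s) := rfl

lemma sub_mul (a a' : Bool → ℂ) (b b' : Bool → Bool) :
    sub a b * sub a' b' = sub (fun s => a s * a' (b s)) (fun s => b' (b s)) := by
  ext Γ w s
  show Γ (w * a s * a' (b s)) (b' (b s)) = Γ (w * (a s * a' (b s))) (b' (b s))
  rw [mul_assoc]

/-- multiplication by `u` -/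
def U : Op := sub (fun _ => uu) id

/-- child `i` -/
def Ch (i : Fin 5) : Op := sub (fun s => tw s (fac i / ϖ)) (fun s => s == pos i)

/-- sum over the children -/
def S : Op := ∑ i, Ch i

/-- the operator has norm at most `c` -/
def Bd (T : Op) (c : ℝ) : Prop := ∀ (Γ : F) (M : ℝ), (∀ w s, |Γ w s| ≤ M) →
  ∀ w s, |T Γ w s| ≤ c * M

lemma Bd.mono {T : Op} {c c' : ℝ} (h : Bd T c) (hc : c ≤ c') : Bd T c' := by
  intro Γ M hM w s
  exact (h Γ M hM w s).trans (mul_le_mul_of_nonneg_right hc ((abs_nonneg _).trans (hM 0 true)))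

lemma Bd.add {T T' : Op} {c c' : ℝ} (h : Bd T c) (h' : Bd T' c') : Bd (T + T') (c + c') := by
  intro Γ M hM w s
  show |T Γ w s + T' Γ w s| ≤ _
  refine (abs_add_le _ _).trans ?_
  rw [add_mul]
  exact add_le_add (h Γ M hM w s) (h' Γ M hM w s)

lemma Bd.sub' {T T' : Op} {c c' : ℝ} (h : Bd T c) (h' : Bd T' c') : Bd (T - T') (c + c') := by
  intro Γ M hM w s
  show |T Γ w s - T' Γ w s| ≤ _
  refine (abs_sub _ _).trans ?_
  rw [add_mul]
  exact add_le_add (h Γ M hM w s) (h' Γ M hM w s)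

lemma Bd.mul {T T' : Op} {c c' : ℝ} (h : Bd T c) (h' : Bd T' c') : Bd (T * T') (c * c') := by
  intro Γ M hM w s
  rw [mul_assoc]
  exact h (T' Γ) (c' * M) (fun w s => h' Γ M hM w s) w s

lemma bd_zero : Bd 0 0 := by
  intro Γ M _ w s
  show |(0 : ℝ)| ≤ _
  simp

lemma bd_one : Bd 1 1 := by
  intro Γ M hM w s
  rw [one_mul]
  exact hM w s

lemma bd_sub (a : Bool → ℂ) (b : Bool → Bool) : Bd (sub a b) 1 := by
  intro Γ M hM w s
  rw [one_mul]
  exact hM _ _

lemma Bd.pow {T : Op} {c : ℝ} (h : Bd T c) (n : ℕ) : Bd (T ^ n) (c ^ n) := by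
  induction n with
  | zero => rw [pow_zero, pow_zero]; exact bd_one
  | succ n ih => rw [pow_succ, pow_succ]; exact ih.mul h

lemma bd_sum {ι : Type} (s : Finset ι) (T : ι → Op) (h : ∀ i ∈ s, Bd (T i) 1) :
    Bd (∑ i ∈ s, T i) s.card := by
  classical
  induction s using Finset.induction_on with
  | empty => simpa using bd_zero
  | insert i s hi ih =>
    rw [Finset.sum_insert hi, Finset.card_insert_of_notMem hi]
    push_cast
    rw [add_comm (s.card : ℝ) 1]
    exact (h i (Finset.mem_insert_self _ _)).add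
      (ih fun j hj => h j (Finset.mem_insert_of_mem hj))

lemma bd_S : Bd S 5 := by
  have h := bd_sum Finset.univ Ch (fun i _ => bd_sub _ _)
  rw [Finset.card_univ, Fintype.card_fin] at h
  exact_mod_cast h

lemma comm_sub (a : Bool → ℂ) (b : Bool → Bool) : Commute U (sub a b) := by
  show U * sub a b = sub a b * U
  unfold U
  rw [sub_mul, sub_mul]
  congr 1
  funext s
  simp [mul_comm]

lemma comm_sum {ι : Type} (s : Finset ι) (T : ι → Op) (h : ∀ i ∈ s, Commute U (T i)) :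
    Commute U (∑ i ∈ s, T i) := Commute.sum_right s T U h

/-- the operators used -/
def P (T : Op) (c : ℝ) : Prop := Bd T c ∧ Commute U T

lemma P.add {T T' : Op} {c c' : ℝ} (h : P T c) (h' : P T' c') : P (T + T') (c + c') :=
  ⟨h.1.add h'.1, h.2.add_right h'.2⟩

lemma P.mul {T T' : Op} {c c' : ℝ} (h : P T c) (h' : P T' c') : P (T * T') (c * c') :=
  ⟨h.1.mul h'.1, h.2.mul_right h'.2⟩

lemma P.pow {T : Op} {c : ℝ} (h : P T c) (n : ℕ) : P (T ^ n) (c ^ n) :=
  ⟨h.1.pow n, h.2.pow_right n⟩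

lemma P_ch (i : Fin 5) : P (Ch i) 1 := ⟨bd_sub _ _, comm_sub _ _⟩

lemma P_S : P S 5 := ⟨bd_S, comm_sum _ _ fun _ _ => comm_sub _ _⟩

/-- the remaining children -/
def R0 : Op := Ch 0 + Ch 1 + Ch 3

lemma P_R0 : P R0 3 := by
  have h := ((P_ch 0).add (P_ch 1)).add (P_ch 3)
  have e : (1 : ℝ) + 1 + 1 = 3 := by norm_num
  rw [e] at h
  exact h

lemma S_eq : S = Ch 4 + Ch 2 + R0 := by
  unfold S R0
  rw [Fin.sum_univ_five]
  abel

/-- words `E^b D E^c` -/
lemma split (k : ℕ) :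
    (∃ R'', S ^ k = Ch 4 ^ k + R'' ∧ P R'' (5 ^ k - 1)) ∧
    ∃ R', S ^ k = ∑ b ∈ Finset.range k, Ch 4 ^ b * Ch 2 * Ch 4 ^ (k - 1 - b) + R' ∧
      P R' (5 ^ k - k) := by
  induction k with
  | zero =>
    refine ⟨⟨0, by simp, ?_⟩, ⟨1, by simp, ?_⟩⟩
    · rw [pow_zero, sub_self]
      exact ⟨bd_zero, Commute.zero_right _⟩
    · rw [pow_zero, Nat.cast_zero, sub_zero]
      exact ⟨bd_one, Commute.one_right _⟩
  | succ k ih =>
    obtain ⟨⟨R2, hR2, hP2⟩, ⟨R1, hR1, hP1⟩⟩ := ih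
    have hSk : P (S ^ k) (5 ^ k) := P_S.pow k
    constructor
    · refine ⟨Ch 4 * R2 + Ch 2 * S ^ k + R0 * S ^ k, ?_, ?_⟩
      · rw [pow_succ' S, S_eq]
        rw [← S_eq]
        have e : S * S ^ k = Ch 4 * S ^ k + Ch 2 * S ^ k + R0 * S ^ k := by
          nth_rewrite 1 [S_eq]
          rw [add_mul, add_mul]
        rw [e]
        have e2 : Ch 4 * S ^ k = Ch 4 ^ (k + 1) + Ch 4 * R2 := by
          nth_rewrite 1 [hR2]
          rw [mul_add, ← pow_succ']
        rw [e2]
        abel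
      · have h := (((P_ch 4).mul hP2).add ((P_ch 2).mul hSk)).add (P_R0.mul hSk)
        have e : (1 : ℝ) * (5 ^ k - 1) + 1 * 5 ^ k + 3 * 5 ^ k = 5 ^ (k + 1) - 1 := by ring
        rw [e] at h
        exact h
    · refine ⟨Ch 4 * R1 + Ch 2 * R2 + R0 * S ^ k, ?_, ?_⟩
      · have e : S ^ (k + 1) = Ch 4 * S ^ k + Ch 2 * S ^ k + R0 * S ^ k := by
          rw [pow_succ' S]
          nth_rewrite 1 [S_eq]
          rw [add_mul, add_mul]
        rw [e]
        have e2 : Ch 2 * S ^ k = Ch 2 * Ch 4 ^ k + Ch 2 * R2 := by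
          nth_rewrite 1 [hR2]
          rw [mul_add]
        have e1 : Ch 4 * S ^ k = Ch 4 * ∑ b ∈ Finset.range k,
            Ch 4 ^ b * Ch 2 * Ch 4 ^ (k - 1 - b) + Ch 4 * R1 := by
          nth_rewrite 1 [hR1]
          rw [mul_add]
        rw [e1, e2, Finset.sum_range_succ', Finset.mul_sum]
        have e3 : ∀ b ∈ Finset.range k, Ch 4 * (Ch 4 ^ b * Ch 2 * Ch 4 ^ (k - 1 - b)) =
            Ch 4 ^ (b + 1) * Ch 2 * Ch 4 ^ (k + 1 - 1 - (b + 1)) := by
          intro b hb
          rw [← mul_assoc, ← mul_assoc, ← pow_succ']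
          congr 2
          have := Finset.mem_range.1 hb
          omega
        rw [Finset.sum_congr rfl e3]
        simp only [pow_zero, one_mul, Nat.add_sub_cancel, Nat.sub_zero]
        abel
      · have h := (((P_ch 4).mul hP1).add ((P_ch 2).mul hP2)).add (P_R0.mul hSk)
        have e : (1 : ℝ) * (5 ^ k - k) + 1 * (5 ^ k - 1) + 3 * 5 ^ k =
            5 ^ (k + 1) - ((k + 1 : ℕ) : ℝ) := by
          push_cast
          ring
        rw [e] at h
        exact h

lemma pi_ne : ϖ ≠ 0 := by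
  intro h
  have := congrArg Complex.re h
  simp [ϖ] at this

/-- `1 / ϖ` or its conjugate -/
def ip (s : Bool) : ℂ := tw s (1 / ϖ)

lemma ip_ne (s : Bool) : ip s ≠ 0 := by
  unfold ip tw
  split_ifs
  · exact one_div_ne_zero pi_ne
  · rw [map_ne_zero]
    exact one_div_ne_zero pi_ne

lemma uu_eq : uu = ip false / ip true := by
  unfold uu ip tw
  simp only [Bool.false_eq_true, if_false, if_true, map_div₀, map_one]
  have h := pi_ne
  have h' : (starRingEnd ℂ) ϖ ≠ 0 := by rwa [map_ne_zero]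
  field_simp

lemma fac4 : fac 4 = 1 := rfl

lemma fac2 : fac 2 = 1 := rfl

lemma ch4 : Ch 4 = sub ip id := by
  have e1 : (fun s => tw s (fac 4 / ϖ)) = ip := by
    funext s
    rw [fac4]
    rfl
  have e2 : (fun s => s == pos 4) = id := by
    funext s
    cases s <;> rfl
  unfold Ch
  rw [e1, e2]

lemma ch2 : Ch 2 = sub ip (fun s => !s) := by
  have e1 : (fun s => tw s (fac 2 / ϖ)) = ip := by
    funext s
    rw [fac2]
    rfl
  have e2 : (fun s => s == pos 2) = fun s => !s := by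
    funext s
    cases s <;> rfl
  unfold Ch
  rw [e1, e2]

lemma sub_pow (a : Bool → ℂ) (n : ℕ) : sub a id ^ n = sub (fun s => a s ^ n) id := by
  induction n with
  | zero =>
    ext Γ w s
    simp [sub_apply]
  | succ n ih =>
    rw [pow_succ, ih, sub_mul]
    rfl

/-- end operator of the words `E^b D E^c` -/
def V (k : ℕ) : Op :=
  sub (fun s => if s then ip true ^ k else ip false ^ k * (ip true / ip false) ^ (k - 1))
    (fun s => !s)

lemma words (k : ℕ) : ∑ b ∈ Finset.range k, Ch 4 ^ b * Ch 2 * Ch 4 ^ (k - 1 - b) =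
    (∑ c ∈ Finset.range k, U ^ c) * V k := by
  -- both sides are sums over the same set of functions
  have h4 : ∀ n, Ch 4 ^ n = sub (fun s => ip s ^ n) id := fun n => by rw [ch4, sub_pow]
  have hU : ∀ n, U ^ n = sub (fun _ => uu ^ n) id := fun n => by unfold U; rw [sub_pow]
  ext Γ w s
  have hL : (∑ b ∈ Finset.range k, Ch 4 ^ b * Ch 2 * Ch 4 ^ (k - 1 - b)) Γ w s =
      ∑ b ∈ Finset.range k, Γ (w * (ip s ^ b * ip s * ip (!s) ^ (k - 1 - b))) (!s) := by
    rw [LinearMap.sum_apply, Finset.sum_apply, Finset.sum_apply]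
    refine Finset.sum_congr rfl fun b _ => ?_
    rw [h4, h4, ch2, sub_mul, sub_mul, sub_apply]
    rfl
  have hR : ((∑ c ∈ Finset.range k, U ^ c) * V k) Γ w s =
      ∑ c ∈ Finset.range k, Γ (w * (uu ^ c *
        (if s then ip true ^ k else ip false ^ k * (ip true / ip false) ^ (k - 1)))) (!s) := by
    rw [Finset.sum_mul, LinearMap.sum_apply, Finset.sum_apply, Finset.sum_apply]
    refine Finset.sum_congr rfl fun c _ => ?_
    rw [hU, V, sub_mul, sub_apply]
    rfl
  rw [hL, hR]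
  have ht := ip_ne true
  have hf := ip_ne false
  cases s with
  | true =>
    rw [← Finset.sum_range_reflect]
    refine Finset.sum_congr rfl fun c hc => ?_
    have hck := Finset.mem_range.1 hc
    congr 2
    have e1 : k - 1 - (k - 1 - c) = c := by omega
    have e2 : k = (k - 1 - c) + 1 + c := by omega
    rw [e1, uu_eq, div_pow]
    simp only [Bool.not_true, if_true]
    have e3 : ip true ^ k = ip true ^ (k - 1 - c) * ip true * ip true ^ c := by
      rw [← pow_succ, ← pow_add, ← e2]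
    rw [e3]
    field_simp
  | false =>
    refine Finset.sum_congr rfl fun c hc => ?_
    have hck := Finset.mem_range.1 hc
    congr 2
    rw [uu_eq, div_pow, div_pow]
    simp only [Bool.not_false, Bool.false_eq_true, if_false]
    have e3 : ip false ^ k = ip false ^ (k - 1) * ip false := by
      rw [← pow_succ]
      congr 1
      omega
    have e4 : ip true ^ (k - 1) = ip true ^ (k - 1 - c) * ip true ^ c := by
      rw [← pow_add]
      congr 1
      omega
    rw [e3, e4]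
    field_simp

lemma P_V (k : ℕ) : P (V k) 1 := ⟨bd_sub _ _, comm_sub _ _⟩

lemma P_U : P U 1 := ⟨bd_sub _ _, Commute.refl _⟩

/-- One step. -/
lemma step (k : ℕ) (n : ℕ) (c : ℝ) (h : Bd ((S ^ k) ^ n * (1 - U)) c) :
    Bd ((S ^ k) ^ (n + 1) * (1 - U)) (2 * (5 ^ k) ^ n + (5 ^ k - k) * c) := by
  obtain ⟨R', hR, hP⟩ := (split k).2
  rw [words] at hR
  have e : (S ^ k) ^ (n + 1) * (1 - U) =
      (S ^ k) ^ n * ((1 - U ^ k) * V k) + (S ^ k) ^ n * (1 - U) * R' := by
    rw [pow_succ]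
    have e1 : S ^ k * (1 - U) = (1 - U ^ k) * V k + (1 - U) * R' := by
      have hc : Commute (S ^ k) (1 - U) :=
        (Commute.one_right _).sub_right ((P_S.pow k).2.symm)
      rw [hc.eq, hR, mul_add, ← mul_assoc, mul_geom_sum_eq]
    rw [mul_assoc, e1, mul_add, mul_assoc]
  rw [e]
  have h1 : Bd ((S ^ k) ^ n * ((1 - U ^ k) * V k)) (2 * (5 ^ k) ^ n) := by
    have h2 := ((bd_S.pow k).pow n).mul ((bd_one.sub' (P_U.1.pow k)).mul (P_V k).1)
    refine h2.mono (le_of_eq ?_)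
    rw [one_pow]
    ring
  have h2 : Bd ((S ^ k) ^ n * (1 - U) * R') ((5 ^ k - k) * c) := by
    have h3 := h.mul hP.1
    rwa [mul_comm] at h3
  exact h1.add h2
where
  mul_geom_sum_eq {k : ℕ} : (1 - U) * (∑ c ∈ Finset.range k, U ^ c) = 1 - U ^ k :=
    mul_neg_geom_sum U k

lemma bound (k : ℕ) (hk : 1 ≤ k) (n : ℕ) : Bd ((S ^ k) ^ n * (1 - U))
    ((5 ^ k) ^ n * (2 / k + 2 * (1 - k / 5 ^ k) ^ n)) := by
  have hk0 : (0 : ℝ) < k := by exact_mod_cast hk
  induction n with
  | zero =>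
    rw [pow_zero, one_mul, pow_zero, pow_zero, one_mul, mul_one]
    refine (bd_one.sub' P_U.1).mono ?_
    have : (0 : ℝ) ≤ 2 / k := by positivity
    linarith
  | succ n ih =>
    refine (step k n _ ih).mono (le_of_eq ?_)
    have h5 : (5 : ℝ) ^ k ≠ 0 := by positivity
    have e : (5 : ℝ) ^ k - k = 5 ^ k * (1 - k / 5 ^ k) := by
      field_simp
    rw [e, pow_succ (5 ^ k : ℝ), pow_succ (1 - (k : ℝ) / 5 ^ k)]
    field_simp
    ring

/-- The set of admissible constants. -/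
def A (j : ℕ) : Set ℝ := {c | 0 ≤ c ∧ Bd (S ^ j * (1 - U)) (5 ^ j * c)}

/-- The best constant. -/
def eta (j : ℕ) : ℝ := sInf (A j)

lemma two_mem (j : ℕ) : (2 : ℝ) ∈ A j := by
  refine ⟨by norm_num, ?_⟩
  refine ((bd_S.pow j).mul (bd_one.sub' P_U.1)).mono (le_of_eq ?_)
  norm_num

lemma bddBelow_A (j : ℕ) : BddBelow (A j) := ⟨0, fun _ hc => hc.1⟩

lemma eta_nonneg (j : ℕ) : 0 ≤ eta j := le_csInf ⟨2, two_mem j⟩ fun _ hc => hc.1

lemma eta_bd (j : ℕ) : Bd (S ^ j * (1 - U)) (5 ^ j * eta j) := by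
  intro Γ M hM w s
  have hM0 : 0 ≤ M := (abs_nonneg _).trans (hM 0 true)
  rcases hM0.eq_or_lt with h0 | h0
  · have h := (two_mem j).2 Γ M hM w s
    rw [← h0, mul_zero] at h
    rw [← h0, mul_zero]
    exact h
  · have h5 : (0 : ℝ) < 5 ^ j := by positivity
    have h : |(S ^ j * (1 - U)) Γ w s| / (5 ^ j * M) ≤ eta j := by
      refine le_csInf ⟨2, two_mem j⟩ fun c hc => ?_
      rw [div_le_iff₀ (by positivity)]
      refine (hc.2 Γ M hM w s).trans (le_of_eq ?_)
      ring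
    rw [div_le_iff₀ (by positivity)] at h
    refine h.trans (le_of_eq ?_)
    ring

lemma A_mono (j i : ℕ) (c : ℝ) (h : c ∈ A j) : c ∈ A (i + j) := by
  refine ⟨h.1, ?_⟩
  have h1 := (bd_S.pow i).mul h.2
  rw [← mul_assoc, ← pow_add] at h1
  refine h1.mono (le_of_eq ?_)
  rw [pow_add]
  ring

lemma eta_tendsto : Tendsto eta atTop (𝓝 0) := by
  rw [Metric.tendsto_atTop]
  intro ε hε
  obtain ⟨k, hk⟩ := exists_nat_gt (max 1 (8 / ε))
  have hk1 : 1 ≤ k := by
    have := (le_max_left _ _).trans hk.le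
    exact_mod_cast this
  have hk0 : (0 : ℝ) < k := by exact_mod_cast hk1
  have hk2 : 2 / (k : ℝ) ≤ ε / 4 := by
    have h1 : 8 / ε < k := (le_max_right _ _).trans_lt hk
    rw [div_lt_iff₀ hε] at h1
    rw [div_le_div_iff₀ hk0 (by norm_num)]
    linarith
  have hlt : (k : ℝ) < 5 ^ k := by
    have : k < 5 ^ k := Nat.lt_pow_self (by norm_num)
    exact_mod_cast this
  have h5 : (0 : ℝ) < 5 ^ k := by positivity
  have hq0 : 0 ≤ 1 - (k : ℝ) / 5 ^ k := by
    rw [sub_nonneg, div_le_one h5]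
    exact hlt.le
  have hq1 : 1 - (k : ℝ) / 5 ^ k < 1 := by
    have : 0 < (k : ℝ) / 5 ^ k := by positivity
    linarith
  obtain ⟨n, hn⟩ := exists_pow_lt_of_lt_one (by positivity : 0 < ε / 8) hq1
  refine ⟨k * n, fun j hj => ?_⟩
  have hmem : ε / 2 ∈ A (k * n) := by
    refine ⟨by positivity, ?_⟩
    have h := bound k hk1 n
    rw [← pow_mul, ← pow_mul] at h
    refine h.mono (mul_le_mul_of_nonneg_left ?_ (by positivity))
    linarith
  obtain ⟨i, rfl⟩ : ∃ i, j = i + k * n := ⟨j - k * n, by omega⟩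
  have h1 : eta (i + k * n) ≤ ε / 2 := csInf_le (bddBelow_A _) (A_mono _ _ _ hmem)
  rw [Real.dist_eq, sub_zero, abs_of_nonneg (eta_nonneg _)]
  linarith

lemma iter (k : ℕ) : ∀ G : F, (PP Tile.child)^[k] (fun t => G t.w t.s) =
    fun t => (S ^ k) G t.w t.s := by
  induction k with
  | zero => intro G; rfl
  | succ k ih =>
    intro G
    rw [Function.iterate_succ_apply]
    have h : PP Tile.child (fun t => G t.w t.s) = fun t => (S G) t.w t.s := by
      funext t
      unfold PP S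
      rw [LinearMap.sum_apply, Finset.sum_apply, Finset.sum_apply]
      rfl
    rw [h, ih, pow_succ]
    rfl

end TvM

open TvM

theorem specTv : SpecTv := by
  refine ⟨eta, eta_tendsto, ?_⟩
  intro Γ M hM k t
  have h1 : (fun t : Tile => Γ t.w t.s - Γ (uu * t.w) t.s) =
      fun t => ((1 - U : Op) Γ) t.w t.s := by
    funext t
    show Γ t.w t.s - Γ (uu * t.w) t.s = Γ t.w t.s - Γ (t.w * uu) t.s
    rw [mul_comm]
  rw [h1, iter]
  have h := eta_bd k Γ M hM t.w t.s
  refine h.trans (le_of_eq ?_)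
  ring

end

end Pool.Agent.Lib.MPd437ed
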