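import Pool.Agent.Lib.MP_d437ed_an.Spec
import Pool.Agent.Lib.MP_d437ed.Hit.Geo
import Pool.Agent.Lib.MP_d437ed.Hit.All
import Pool.Agent.Lib.MP_d437ed.Hit.R
import Pool.Agent.Lib.MP_d437ed.Hit.Hitting
import Pool.Agent.Lib.MP_d437ed_an.Nat
import Pool.Agent.Lib.MP_d437ed_an.Sup
import Pool.Agent.Lib.MP_d437ed_an.Sam
import Pool.Agent.Lib.MP_d437ed_an.Pig
import Pool.Agent.Lib.MP_d437ed_an.Ene
import Pool.Agent.Lib.MP_d437ed_an.Tv

section
/-! # BRI: translation of the coalescence theorem between the two sets of definitions -/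
set_option autoImplicit false

namespace Pool.Agent.Lib.MPd437ed

open MeasureTheory Filter Topology Complex

noncomputable section

namespace BriM

open Pool.Agent.Lib.MP_d437ed

/-- translation of tiles -/
def tr (t : Tile) : Hit.Tile := ⟨t.c, t.w, t.s⟩

theorem tr_inj {t t' : Tile} (h : tr t = tr t') : t = t' := by
  obtain ⟨c, w, s⟩ := t
  obtain ⟨c', w', s'⟩ := t'
  simp only [tr, Hit.Tile.mk.injEq] at h
  obtain ⟨h1, h2, h3⟩ := h
  subst h1
  subst h2
  subst h3
  rfl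

theorem conj_two : (starRingEnd ℂ) 2 = 2 := by
  apply Complex.ext <;> simp

theorem conj_varpi : (starRingEnd ℂ) ϖ = 2 - I := by
  simp [ϖ, sub_eq_add_neg, conj_two]

theorem varpi_ne : (2 + I : ℂ) ≠ 0 := by
  intro h
  have := congrArg Complex.re h
  simp at this

theorem varpi_ne' : (2 - I : ℂ) ≠ 0 := by
  intro h
  have := congrArg Complex.re h
  simp at this

theorem tr_child (t : Tile) (i : Fin 5) : tr (t.child i) = (tr t).child i := by
  obtain ⟨c, w, s⟩ := t
  cases s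
  · ext
    · show c + w * (starRingEnd ℂ) (off i / ϖ) = c + w / (2 - I) * Hit.oM i
      rw [map_div₀, conj_varpi]
      have h : (starRingEnd ℂ) (off i) = Hit.oM i := by
        fin_cases i <;> simp [off, Hit.oM, sub_eq_add_neg, conj_two]
      rw [h]
      ring
    · show w * (starRingEnd ℂ) (fac i / ϖ) = w / (2 - I) * Hit.dM i
      rw [map_div₀, conj_varpi]
      have h : (starRingEnd ℂ) (fac i) = Hit.dM i := by
        fin_cases i <;> simp [fac, Hit.dM]
      rw [h]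
      ring
    · show (false == pos i) = Hit.cM i
      fin_cases i <;> rfl
  · ext
    · show c + w * (off i / ϖ) = c + w / (2 + I) * (starRingEnd ℂ) (Hit.oM i)
      have h : (starRingEnd ℂ) (Hit.oM i) = off i := by
        fin_cases i <;> simp [off, Hit.oM, sub_eq_add_neg, conj_two]
      rw [h, ϖ]
      ring
    · show w * (fac i / ϖ) = w / (2 + I) * (starRingEnd ℂ) (Hit.dM i)
      have h : (starRingEnd ℂ) (Hit.dM i) = fac i := by
        fin_cases i <;> simp [fac, Hit.dM]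
      rw [h, ϖ]
      ring
    · show (true == pos i) = !(Hit.cM i)
      fin_cases i <;> rfl

theorem tr_set (t : Tile) (ht : t.w ≠ 0) : (tr t).set = t.region := by
  obtain ⟨c, w, s⟩ := t
  replace ht : w ≠ 0 := ht
  ext z
  constructor
  · intro hz
    cases s
    · refine ⟨(starRingEnd ℂ) ((z - c) / w), ?_, ?_⟩
      · have h : 0 ≤ ((z - c) / w).re ∧ 0 ≤ (-1 : ℝ) * ((z - c) / w).im ∧
          ((z - c) / w).re + 2 * ((-1 : ℝ) * ((z - c) / w).im) ≤ 2 := by
            simpa [Hit.Tile.set, Hit.Tile.w, tr, Hit.sg] using hz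
        refine ⟨?_, ?_, ?_⟩
        · rw [conj_re]; exact h.1
        · rw [conj_im]; linarith [h.2.1]
        · rw [conj_re, conj_im]; linarith [h.2.2]
      · show c + w * (starRingEnd ℂ) ((starRingEnd ℂ) ((z - c) / w)) = z
        rw [conj_conj]
        field_simp
        ring
    · refine ⟨(z - c) / w, ?_, ?_⟩
      · have h : 0 ≤ ((z - c) / w).re ∧ 0 ≤ ((z - c) / w).im ∧
          ((z - c) / w).re + 2 * (((z - c) / w).im) ≤ 2 := by
            simpa [Hit.Tile.set, Hit.Tile.w, tr, Hit.sg] using hz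
        exact h
      · show c + w * ((z - c) / w) = z
        field_simp
        ring
  · rintro ⟨x, hx, rfl⟩
    obtain ⟨h1, h2, h3⟩ := hx
    cases s
    · have h : ((tr ⟨c, w, false⟩).w (Tile.map ⟨c, w, false⟩ x)) = (starRingEnd ℂ) x := by
        show (c + w * (starRingEnd ℂ) x - c) / w = _
        field_simp
        ring
      refine ⟨?_, ?_, ?_⟩
      · rw [h, conj_re]; exact h1
      · rw [h, conj_im]
        show 0 ≤ (-1 : ℝ) * _
        linarith
      · rw [h, conj_re, conj_im]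
        show x.re + 2 * ((-1 : ℝ) * _) ≤ 2
        linarith
    · have h : ((tr ⟨c, w, true⟩).w (Tile.map ⟨c, w, true⟩ x)) = x := by
        show (c + w * x - c) / w = _
        field_simp
        ring
      refine ⟨?_, ?_, ?_⟩
      · rw [h]; exact h1
      · rw [h]
        show 0 ≤ (1 : ℝ) * _
        linarith
      · rw [h]
        show x.re + 2 * ((1 : ℝ) * _) ≤ 2
        linarith

theorem child_w_ne (t : Tile) (ht : t.w ≠ 0) (i : Fin 5) : (t.child i).w ≠ 0 := by
  show t.w * tw t.s (fac i / ϖ) ≠ 0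
  apply mul_ne_zero ht
  have h1 : fac i / ϖ ≠ 0 := by
    apply div_ne_zero
    · fin_cases i <;> simp [fac]
    · rw [ϖ]; exact varpi_ne
  unfold tw
  split_ifs
  · exact h1
  · exact (map_ne_zero _).mpr h1

theorem ar_eq (P Q : Tile) (hP : P.w ≠ 0) (hQ : Q.w ≠ 0) :
    Hit.ar (tr P) (tr Q) = volume.real (P.region ∩ Q.region) := by
  rw [Hit.ar, tr_set P hP, tr_set Q hQ]
  rfl

theorem ar_self (P : Tile) (hP : P.w ≠ 0) : Hit.ar (tr P) (tr P) = ‖P.w‖ ^ 2 := by
  rw [Hit.ar, Set.inter_self, Hit.GeoM.vol_set (tr P) hP, ENNReal.toReal_ofReal (by positivity)]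
  rfl

theorem same_eq (k : ℕ) (s : St) (hP : s.P.w ≠ 0) (hQ : s.Q.w ≠ 0) :
    same k s = Hit.co k (tr s.P) (tr s.Q) := by
  induction k generalizing s with
  | zero =>
    show same0 s = _
    rw [same0, Hit.co]
    by_cases h : s.P = s.Q
    · rw [if_pos h, if_pos (by rw [h]), ar_self _ hP]
    · rw [if_neg h, if_neg (fun h' => h (tr_inj h'))]
  | succ k ih =>
    have h1 : same (k + 1) s = ∑ x : Fin 5 × Fin 5, same k (s.child x) := by
      show (PP St.child)^[k + 1] same0 s = _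
      rw [Function.iterate_succ_apply']
      rfl
    rw [h1, Fintype.sum_prod_type, Hit.co]
    apply Finset.sum_congr rfl
    intro i _
    apply Finset.sum_congr rfl
    intro l _
    rw [ih (s.child (i, l)) (child_w_ne _ hP i) (child_w_ne _ hQ l), ← tr_child, ← tr_child]
    rfl

theorem exists_pow_I (ε : ℂ) (h : ε ^ 4 = 1) : ∃ k : ℕ, ε = I ^ k := by
  have h1 : (ε - 1) * ((ε + 1) * ((ε - I) * (ε + I))) = 0 := by
    have hI : I ^ 2 = -1 := I_sq
    have : (ε - 1) * ((ε + 1) * ((ε - I) * (ε + I))) = (ε ^ 2 - 1) * (ε ^ 2 - I ^ 2) := by ring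
    rw [this, hI]
    linear_combination h
  rcases mul_eq_zero.mp h1 with h2 | h2
  · exact ⟨0, by rw [pow_zero]; exact sub_eq_zero.mp h2⟩
  rcases mul_eq_zero.mp h2 with h3 | h3
  · exact ⟨2, by rw [I_sq]; exact eq_neg_of_add_eq_zero_left h3⟩
  rcases mul_eq_zero.mp h3 with h4 | h4
  · exact ⟨1, by rw [pow_one]; exact sub_eq_zero.mp h4⟩
  · refine ⟨3, ?_⟩
    rw [eq_neg_of_add_eq_zero_left h4, show (3 : ℕ) = 2 + 1 by norm_num, pow_add, I_sq, pow_one]
    ring

theorem isG_mul {a b : ℂ} (ha : IsG a) (hb : IsG b) : IsG (a * b) := by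
  obtain ⟨p, q, rfl⟩ := ha
  obtain ⟨r, s, rfl⟩ := hb
  refine ⟨p * r - q * s, p * s + q * r, ?_⟩
  push_cast
  linear_combination ((q : ℂ) * s) * I_sq

theorem isG_add {a b : ℂ} (ha : IsG a) (hb : IsG b) : IsG (a + b) := by
  obtain ⟨p, q, rfl⟩ := ha
  obtain ⟨r, s, rfl⟩ := hb
  exact ⟨p + r, q + s, by push_cast; ring⟩

theorem isG_neg {a : ℂ} (ha : IsG a) : IsG (-a) := by
  obtain ⟨p, q, rfl⟩ := ha
  exact ⟨-p, -q, by push_cast; ring⟩

theorem isG_one : IsG 1 := ⟨1, 0, by simp⟩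

theorem isG_pow {a : ℂ} (ha : IsG a) (n : ℕ) : IsG (a ^ n) := by
  induction n with
  | zero => rw [pow_zero]; exact isG_one
  | succ n ih => rw [pow_succ]; exact isG_mul ih ha

theorem isG_I : IsG I := ⟨0, 1, by simp⟩
theorem isG_v : IsG (2 + I) := ⟨2, 1, by simp⟩
theorem isG_v' : IsG (2 - I) := ⟨2, -1, by push_cast; ring⟩

theorem comp_of_valid (s : St) (hs : Valid s) :
    Hit.Comp ⟨tr s.P, tr s.Q, s.j⟩ ∧ s.Q.w ≠ 0 ∧ ‖s.P.w‖ = ‖s.Q.w‖ := by
  obtain ⟨hP, ⟨ε, hε, hw⟩, a, b, ha, hb, hab⟩ := hs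
  have hQ : s.Q.w ≠ 0 := by
    intro h
    rw [h, mul_zero] at hw
    exact hP hw
  obtain ⟨k, rfl⟩ := exists_pow_I ε hε
  have hv := varpi_ne
  have hv' := varpi_ne'
  have huu : uu = (2 + I) / (2 - I) := by rw [uu, conj_varpi, ϖ]
  set A : ℕ := s.j.toNat with hA
  set B : ℕ := (-s.j).toNat with hB
  have hjp : uu ^ s.j = (2 + I) ^ A * (2 - I) ^ B / ((2 - I) ^ A * (2 + I) ^ B) := by
    rw [huu]
    have h1 : s.j = (A : ℤ) - (B : ℤ) := by omega
    rw [h1, zpow_sub₀ (div_ne_zero hv hv'), zpow_natCast, zpow_natCast, div_pow, div_pow]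
    field_simp
  set g : ℂ := s.Q.w / ((2 - I) ^ A * (2 + I) ^ B) with hg
  have hden : ((2 - I : ℂ) ^ A * (2 + I) ^ B) ≠ 0 := mul_ne_zero (pow_ne_zero _ hv') (pow_ne_zero _ hv)
  have hgQ : s.Q.w = g * ((2 - I) ^ A * (2 + I) ^ B) := by
    rw [hg]
    field_simp
  have hgP : s.P.w = I ^ k * g * (2 + I) ^ A * (2 - I) ^ B := by
    rw [hw, hjp, hg]
    field_simp
  refine ⟨⟨g, ?_, ⟨k, hgP⟩, ⟨0, ?_⟩, ?_⟩, hQ, ?_⟩
  · rw [hg]
    exact div_ne_zero hQ hden
  · show s.Q.w = _
    rw [pow_zero, one_mul, mul_assoc]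
    exact hgQ
  · have h1 : IsG (-(I ^ k * (2 + I) ^ A * (2 - I) ^ B * a + (2 - I) ^ A * (2 + I) ^ B * b)) := by
      apply isG_neg
      apply isG_add
      · exact isG_mul (isG_mul (isG_mul (isG_pow isG_I k) (isG_pow isG_v A)) (isG_pow isG_v' B)) ha
      · exact isG_mul (isG_mul (isG_pow isG_v' A) (isG_pow isG_v B)) hb
    obtain ⟨m, n, hmn⟩ := h1
    refine ⟨m, n, ?_⟩
    rw [← hmn]
    show s.Q.c - s.P.c = _
    have h2 : s.Q.c - s.P.c = -(s.P.w * a + s.Q.w * b) := by rw [← hab]; ring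
    rw [h2, hgP, hgQ]
    ring
  · rw [hw, norm_mul, norm_mul, norm_pow, norm_I, one_pow, one_mul, norm_zpow]
    have h3 : ‖uu‖ = 1 := by
      rw [uu, norm_div, RCLike.norm_conj]
      apply div_self
      rw [norm_ne_zero_iff, ϖ]
      exact hv
    rw [h3, one_zpow, one_mul]

end BriM

open BriM Pool.Agent.Lib.MP_d437ed in
theorem specCoal (h : Hit.SpecFin) : SpecCoal := by
  obtain ⟨c, hc, h⟩ := h
  have ha1 : 0 < a1 := by norm_num [a1]
  obtain ⟨C, hC, h⟩ := h a1 ha1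
  refine ⟨⌈C⌉₊, c * a1, mul_pos hc ha1, fun L0 => ?_⟩
  obtain ⟨K, hK, h⟩ := h L0
  refine ⟨K, hK, fun k hk s hs hj hm => ?_⟩
  obtain ⟨hcomp, hQ, hn⟩ := comp_of_valid s hs
  have hP := hs.1
  have har : Hit.ar (tr s.P) (tr s.Q) = mm s := ar_eq _ _ hP hQ
  have hw : 0 < ‖s.P.w‖ ^ 2 := by
    have : 0 < ‖s.P.w‖ := norm_pos_iff.mpr hP
    positivity
  have h1 := h ⟨tr s.P, tr s.Q, s.j⟩ k ⟨hP, hn, ?_⟩ hcomp ?_ ?_ ?_
  · rw [same_eq k s hP hQ]
    refine le_trans ?_ h1
    rw [mul_assoc]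
    apply mul_le_mul_of_nonneg_left _ hc.le
    show a1 * ‖s.P.w‖ ^ 2 ≤ Hit.ar (tr s.P) (tr s.Q)
    rw [har]
    exact hm
  · show 0 < Hit.ar (tr s.P) (tr s.Q)
    rw [har]
    exact lt_of_lt_of_le (mul_pos ha1 hw) hm
  · show a1 ≤ Hit.ar (tr s.P) (tr s.Q) / ‖s.P.w‖ ^ 2
    rw [le_div_iff₀ hw, har]
    exact hm
  · show 8 * |s.j| ≤ (K : ℤ)
    have h0 := abs_nonneg s.j
    have hj' : 16 * |s.j| ≤ (K : ℤ) := by exact_mod_cast hj
    linarith
  · have h2 : (⌈C⌉₊ : ℝ) * (K : ℝ) ^ 2 ≤ k := by exact_mod_cast hk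
    refine le_trans ?_ h2
    exact mul_le_mul_of_nonneg_right (Nat.le_ceil C) (by positivity)

end

end Pool.Agent.Lib.MPd437ed
end

section
/-! Assembly of the final theorem. -/
namespace Pool.Agent.Lib.MPd437ed.All

open Pool.Agent.Lib.MP_d437ed in
/-- half 1: the coalescence theorem -/
theorem coalescence : Hit.SpecFin :=
  Hit.fin_of (Hit.specHit Hit.bas Hit.eta Hit.mart Hit.good
    (Hit.w_of (Hit.specR Hit.r1 Hit.r2 Hit.specCan Hit.specSec Hit.bas)) Hit.specLat Hit.specDl)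

theorem des : SpecDes := specDes specGeo
theorem pac : SpecPac := specPac specGeo
theorem lcn : SpecLcn := specLcn specGeo des
theorem per : SpecPer := specPer specGeo des pac specBnd lcn
theorem sup : SpecSup := specSup specGeo des pac
theorem ext : SpecExt := specExt pac specBnd
theorem coal : SpecCoal := specCoal coalescence
theorem pig : SpecPig := specPig specGeo des coal (specSam des) (specCheb des) specLat specCov
theorem mlow : SpecMlow := specMlow pig (specCls specGeo des)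
theorem elow : SpecElow := specElow mlow specEne lcn
theorem cmp : SpecCmp := specCmp specGeo des sup pac specBnd lcn
theorem lim : SpecLim := specLim specGeo des cmp ext
theorem rin : SpecRin := specRin specGeo des pac specBnd lcn cmp specTv
theorem nat : SpecNat := specNat rin

theorem final : SpecFinal := specFinal elow per specDec lim nat specGau specRle

end Pool.Agent.Lib.MPd437ed.All
end
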