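import Pool.Agent.Lib.MP_d437ed_an.Statement

/-!
# Definitions for the proof (MP_d437ed_an)

Text: `/team-store/MP_d437ed_an_PROOF.md`.
-/

namespace Pool.Agent.Lib.MPd437ed

open MeasureTheory Filter Topology Complex
open scoped FourierTransform SchwartzMap

noncomputable section

/-! ## Abstract processes -/

section Proc

variable {S ι : Type} [Fintype ι]

/-- Sum over the children. -/
def PP (ch : S → ι → S) (f : S → ℝ) (s : S) : ℝ := ∑ i, f (ch s i)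

open Classical in
/-- Sum over the children which satisfy `A`. -/
def QQ (ch : S → ι → S) (A : S → Prop) (f : S → ℝ) (s : S) : ℝ :=
  ∑ i, if A (ch s i) then f (ch s i) else 0

/-- `s'` is a descendant of `s` of depth `n`; all the states on the way, except possibly `s`,
satisfy `A`. -/
def Path (ch : S → ι → S) (A : S → Prop) : ℕ → S → S → Prop
  | 0, s, s' => s' = s
  | n + 1, s, s' => ∃ i, A (ch s i) ∧ Path ch A n (ch s i) s'

/-- `s'` is a descendant of `s` of depth `n`. -/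
def Desc (ch : S → ι → S) (n : ℕ) (s s' : S) : Prop := Path ch (fun _ => True) n s s'

/-- Unstopped states: `0 < j < L`. -/
def Unst (j : S → ℤ) (L : ℤ) (s : S) : Prop := 0 < j s ∧ j s < L

/-- `m ψ(D / m)`. -/
def Phi (m D : S → ℝ) (ψ : ℝ → ℝ) (s : S) : ℝ := m s * ψ (D s / m s)

/-- One step gain. -/
def gg (ch : S → ι → S) (m D : S → ℝ) (ψ : ℝ → ℝ) (s : S) : ℝ :=
  PP ch (Phi m D ψ) s - Phi m D ψ s

/-- Sum of `f` over the unstopped states at the times `t < n`. -/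
def VV (ch : S → ι → S) (A : S → Prop) (f : S → ℝ) (n : ℕ) (s : S) : ℝ :=
  ∑ t ∈ Finset.range n, (QQ ch A)^[t] f s

/-- Gain up to time `n`. -/
def GG (ch : S → ι → S) (A : S → Prop) (m D : S → ℝ) (ψ : ℝ → ℝ) (n : ℕ) (s : S) : ℝ :=
  VV ch A (gg ch m D ψ) n s

/-- Gain plus `w` times the mass stopped within `n` steps (for unstopped `s`). -/
def ZZ (ch : S → ι → S) (A : S → Prop) (m D : S → ℝ) (ψ : ℝ → ℝ) (w : ℝ) (n : ℕ) (s : S) : ℝ :=
  GG ch A m D ψ n s + w * (m s - (QQ ch A)^[n] m s)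

open Classical in
/-- Mass of the bad unstopped states (`m < a₀ e`) at the times `t < n`. -/
def Bad (ch : S → ι → S) (A : S → Prop) (m e : S → ℝ) (a0 : ℝ) (n : ℕ) (s : S) : ℝ :=
  VV ch A (fun s => if m s < a0 * e s then m s else 0) n s

/-- Mass which reaches `j = 0` within `n` steps before leaving `A`. -/
def Hit (ch : S → ι → S) (A : S → Prop) (m : S → ℝ) (j : S → ℤ) (n : ℕ) (s : S) : ℝ :=
  VV ch A (fun s => ∑ i, if j (ch s i) = 0 then m (ch s i) else 0) n s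

/-- `ψ` has a kink of size `w` at all points near `j`. -/
def Kink (ψ : ℝ → ℝ) (w : ℝ) (j : ℤ) (B : ℝ) : Prop :=
  ∀ y : ℝ, |y - j| ≤ B → ∃ g : ℝ, ∀ y' : ℝ,
    ψ y + g * (y' - y) ≤ ψ y' ∧ (1 ≤ |y' - y| → ψ y + g * (y' - y) + w ≤ ψ y')

/-- `τ(j) = K + ∑_{|i - j| ≤ K} r_i`. -/
def tau (r : ℤ → ℕ) (K : ℕ) (j : ℤ) : ℕ := K + ∑ i ∈ Finset.Icc (j - K) (j + K), r i

/-- `1 / √5`. -/
def th : ℝ := 1 / √5

/-- The standing hypotheses on an abstract process. -/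
structure ProcHyp (ch : S → ι → S) (m e D : S → ℝ) (j : S → ℤ) (V : S → Prop)
    (C0 C1 : ℝ) : Prop where
  closed : ∀ s, V s → ∀ i, V (ch s i)
  m_nonneg : ∀ s, V s → 0 ≤ m s
  m_le : ∀ s, V s → m s ≤ e s
  m_sum : ∀ s, V s → PP ch m s = m s
  D_sum : ∀ s, V s → PP ch D s = D s
  j_step : ∀ s, V s → ∀ i, |j (ch s i) - j s| ≤ 1
  corr : ∀ s, V s → ∀ Λ : ℝ, 1 ≤ Λ → |D s - m s * j s| ≤ C1 * (m s * (1 + Real.log Λ) + e s / Λ)
  count : ∀ s, V s → ∀ t : ℕ, (PP ch)^[t] e s ≤ C0 * (m s + th ^ t * e s)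

/-- Activity hypothesis. -/
def Act (ch : S → ι → S) (m e D : S → ℝ) (j : S → ℤ) (V : S → Prop) (a0 c B : ℝ) (K : ℕ)
    (r : ℤ → ℕ) (L : ℤ) : Prop :=
  ∀ s, V s → Unst j L s → 0 < m s → a0 * e s ≤ m s → ∀ ψ : ℝ → ℝ, ConvexOn ℝ Set.univ ψ →
    ∀ w : ℝ, 0 ≤ w → Kink ψ w (j s) B →
      c * w * m s ≤ ZZ ch (Unst j L) m D ψ w (tau r K (j s)) s

end Proc

/-! ## Gauge of the triangle -/

/-- inradius of `proto` -/
def rho : ℝ := (3 - √5) / 2

/-- incentre of `proto` -/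
def oo : ℂ := (rho : ℂ) * (1 + I)

/-- the gauge: `proto = {z | gauge (z - oo) ≤ rho}` -/
def gauge (z : ℂ) : ℝ := max (-z.re) (max (-z.im) ((z.re + 2 * z.im) / √5))

/-- the gauge of a tile: `region t = {x | t.gt x ≤ rho * ‖t.w‖}`, `1`-Lipschitz -/
def Tile.gt (t : Tile) (x : ℂ) : ℝ := ‖t.w‖ * gauge (tw t.s ((x - t.c) / t.w) - oo)

/-- distance to the boundary (for points of the tile) -/
def dS (S : Tile) (x : ℂ) : ℝ := rho * ‖S.w‖ - S.gt x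

/-- composition of similarities: `(t.comp t').map z = t.map (t'.map z)` -/
def Tile.comp (t t' : Tile) : Tile := ⟨t.map t'.c, t.w * tw t.s t'.w, t.s == t'.s⟩

/-! ## Pairs of tiles -/

/-- `(2+i)/(2-i) = (3+4i)/5` -/
def uu : ℂ := ϖ / (starRingEnd ℂ) ϖ

/-- Gaussian integers -/
def IsG (z : ℂ) : Prop := ∃ a b : ℤ, z = a + b * I

/-- a pair of tiles with their gap -/
@[ext] structure St where
  P : Tile
  Q : Tile
  j : ℤ

/-- how the gap drops -/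
def drop (a b : Bool) : ℤ := if a && !b then 1 else if !a && b then -1 else 0

/-- children of a pair -/
def St.child (s : St) (k : Fin 5 × Fin 5) : St :=
  ⟨s.P.child k.1, s.Q.child k.2, s.j - drop s.P.s s.Q.s⟩

/-- valid pairs -/
def Valid (s : St) : Prop :=
  s.P.w ≠ 0 ∧ (∃ ε : ℂ, ε ^ 4 = 1 ∧ s.P.w = ε * uu ^ s.j * s.Q.w) ∧
    ∃ a b : ℂ, IsG a ∧ IsG b ∧ s.P.c - s.Q.c = s.P.w * a + s.Q.w * b

/-- overlap area -/
def mm (s : St) : ℝ := volume.real (s.P.region ∩ s.Q.region)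

open Classical in
/-- size of overlapping pairs -/
def ee (s : St) : ℝ := if mm s = 0 then 0 else ‖s.P.w‖ ^ 2

/-- sign -/
def sg (b : Bool) : ℝ := if b then 1 else -1

/-- chirality correlation after `r` steps -/
def XX (r : ℕ) (s : St) : ℝ := (PP St.child)^[r] (fun s => mm s * (sg s.P.s - sg s.Q.s)) s

/-- the martingale (times the overlap area) -/
def DD (s : St) : ℝ := mm s * s.j - 1 / 2 * ∑' r, XX r s

open Classical in
/-- common area after subdividing -/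
def same0 (s : St) : ℝ := if s.P = s.Q then ‖s.P.w‖ ^ 2 else 0

/-- area of the points which are in the same level `k` subtile of both tiles -/
def same (k : ℕ) (s : St) : ℝ := (PP St.child)^[k] same0 s

/-- distance of `u^j` to the units of `ℤ[i]` -/
def del (j : ℤ) : ℝ := min (min ‖uu ^ j - 1‖ ‖uu ^ j + 1‖) (min ‖uu ^ j - I‖ ‖uu ^ j + I‖)

/-- episode length `⌈2 log₅ (1/δ_j)⌉` -/
def rr (j : ℤ) : ℕ := ⌈2 * Real.logb 5 (1 / del j)⌉₊

open Classical in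
/-- area of a tile which overlaps `Q` but is not contained in it -/
def badArea (Q t : Tile) : ℝ :=
  if 0 < volume.real (t.region ∩ Q.region) ∧ ¬ t.region ⊆ Q.region then
    volume.real t.region else 0

/-! ## The Cantor set of the points which are always in a tile of positive chirality -/

/-- `{∑ ± ϖ^{-k}}` -/
def Xset : Set ℂ := {x | ∃ σ : ℕ → ℂ, (∀ k, σ k = 1 ∨ σ k = -1) ∧ x = ∑' k, σ k * (1 / ϖ) ^ k}

/-- `κ + ω X` -/
def Kset (κ ω : ℂ) : Set ℂ := (fun x => κ + ω * x) '' Xset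

/-- `(7+4i)/10` -/
def kap0 : ℂ := (7 + 4 * I) / 10

/-- `(-7+i)/50` -/
def tau0 : ℂ := (-7 + I) / 50

/-- centre of the Cantor set of a tile -/
def kap (t : Tile) : ℂ := t.map kap0

/-- Cantor set of a tile with `t.s = true` -/
def KK (t : Tile) : Set ℂ := Kset (kap t) (tau0 * t.w)

/-- a point of the Cantor set of `P` is in `Q` -/
def Plus (s : St) : Prop := s.P.s = true ∧ (KK s.P ∩ s.Q.region).Nonempty

/-- over the Cantor set of `P` the tile `Q` has positive chirality up to depth `ℓ` -/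
def Stuck (ℓ : ℕ) (s : St) : Prop :=
  ∀ x ∈ KK s.P ∩ s.Q.region, ∀ k ≤ ℓ, ∀ Q' ∈ desc k s.Q, x ∈ Q'.region → Q'.s = true

/-- nearly identical -/
def NI (ε : ℝ) (s : St) : Prop :=
  s.P.s = true ∧ s.Q.s = true ∧ ‖kap s.P - kap s.Q‖ ≤ ε * ‖s.P.w‖ ∧
    ‖s.P.w - s.Q.w‖ ≤ ε * ‖s.P.w‖

/-- `Q` is `P` rotated by `lam ≠ 1` about `x0` -/
def Rot (lam x0 : ℂ) (s : St) : Prop :=
  ‖lam‖ = 1 ∧ lam ≠ 1 ∧ s.Q = ⟨x0 + lam * (s.P.c - x0), lam * s.P.w, s.P.s⟩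

/-- minimal overlap fraction in the stages -/
def a1 : ℝ := 0.00288

/-- `ZZ` for pairs of tiles -/
def ZP (L : ℤ) (ψ : ℝ → ℝ) (w : ℝ) (n : ℕ) (s : St) : ℝ :=
  ZZ St.child (Unst St.j L) mm DD ψ w n s

/-! ## Part II -/

/-- the level `2h` supertile -/
def SS (h : ℕ) : Tile := ⟨0, (5 : ℂ) ^ h, true⟩

/-- `ϖ^α conj(ϖ)^β` -/
def gab (α β : ℕ) : ℂ := ϖ ^ α * (starRingEnd ℂ) ϖ ^ β

/-- vertices of the level-`n` subdivision -/
def Vx (n : ℕ) (S : Tile) : Set ℂ := vertexSet (desc n S)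

/-- unit tiles of `S` (depth `N`) which are depth `m` parts of a virtual tile `(g z, ± g, +)` -/
def InV (N m : ℕ) (S : Tile) (g : ℂ) : Set Tile :=
  {t | t ∈ desc N S ∧ ∃ z, IsG z ∧ (t ∈ desc m ⟨g * z, g, true⟩ ∨ t ∈ desc m ⟨g * z, -g, true⟩)}

/-- congruent pairs -/
def CP (Λ : Set ℂ) (g : ℂ) : Set (ℂ × ℂ) := {p | p.1 ∈ Λ ∧ p.2 ∈ Λ ∧ ∃ z, IsG z ∧ p.1 - p.2 = g * z}

/-! ## Part III -/

/-- Fourier transform of `exp (-z |k|²)` -/
def KG (z x : ℂ) : ℂ := Real.pi / z * cexp (-Real.pi ^ 2 * ‖x‖ ^ 2 / z)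

/-- lattice points -/
def G2 (n : ℤ × ℤ) : ℂ := n.1 + n.2 * I

/-- periodisation with the lattice `W ℤ[i]` -/
def KPer (K : ℂ → ℂ) (W : ℝ) (x : ℂ) : ℂ := ∑' n : ℤ × ℤ, K (x + W * G2 n)

/-- Fejér weights -/
def fej (H : ℕ) (s : ℤ) : ℝ := (1 / H) * (1 - |(s : ℝ)| / H)

/-- packings by unit tiles -/
def IsPack (𝒰 : Set Tile) : Prop :=
  (∀ t ∈ 𝒰, ‖t.w‖ = 1) ∧
    ∀ t ∈ 𝒰, ∀ t' ∈ 𝒰, t ≠ t' → Disjoint (interior t.region) (interior t'.region)

/-- `∑_{x, y ∈ Λ} K (x - y)` -/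
def PS (K : ℂ → ℂ) (Λ : Set ℂ) : ℂ := ∑ᶠ p ∈ Λ ×ˢ Λ, K (p.1 - p.2)

/-- decay -/
def Dec (K : ℂ → ℂ) (A : ℝ) : Prop := ∀ x, ‖K x‖ ≤ A / (1 + ‖x‖) ^ 6

end

end Pool.Agent.Lib.MPd437ed
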