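import Pool.Agent.Lib.MP_d437ed_an.Defs

/-!
# Specs (MP_d437ed_an): the singular continuous part of the pinwheel diffraction is nonzero

Text with a proof of every module: `/team-store/MP_d437ed_an_PROOF.md`.
Module `XXX`: file `Xxx.lean` in this folder, theorem
`specXxx (other Specs as hypotheses) : SpecXxx`, own lemmas in the namespace
`Pool.Agent.Lib.MPd437ed.XxxM`.
-/

namespace Pool.Agent.Lib.MPd437ed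

open MeasureTheory Filter Topology Complex
open scoped FourierTransform SchwartzMap

noncomputable section

/-! ## Part 0: geometry -/

/-- GEO: one tile and its five children. -/
structure SpecGeo : Prop where
  map_comp : ∀ (t t' : Tile) (z : ℂ), (t.comp t').map z = t.map (t'.map z)
  comp_child : ∀ (t t' : Tile) (i : Fin 5), t.comp (t'.child i) = (t.comp t').child i
  child_map : ∀ (t : Tile) (i : Fin 5) (z : ℂ),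
    (t.child i).map z = t.map ((off i + fac i * tw (pos i) z) / ϖ)
  map_dist : ∀ (t : Tile) (z z' : ℂ), ‖t.map z - t.map z'‖ = ‖t.w‖ * ‖z - z'‖
  compact : ∀ t : Tile, IsCompact t.region
  convex : ∀ t : Tile, Convex ℝ t.region
  area : ∀ t : Tile, volume.real t.region = ‖t.w‖ ^ 2
  diam : ∀ t : Tile, ∀ x ∈ t.region, ∀ y ∈ t.region, ‖x - y‖ ≤ √5 * ‖t.w‖
  verts_sub : ∀ t : Tile, t.verts ⊆ t.region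
  child_w : ∀ (t : Tile) (i : Fin 5), ‖(t.child i).w‖ = ‖t.w‖ / √5
  region_child : ∀ t : Tile, t.region = ⋃ i, (t.child i).region
  child_null : ∀ t : Tile, t.w ≠ 0 → ∀ i k : Fin 5, i ≠ k →
    volume ((t.child i).region ∩ (t.child k).region) = 0
  child_int : ∀ t : Tile, ∀ i k : Fin 5, i ≠ k →
    Disjoint (interior (t.child i).region) (interior (t.child k).region)
  sum_area : ∀ t : Tile, t.w ≠ 0 → ∀ O : Set ℂ, MeasurableSet O →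
    PP Tile.child (fun t' => volume.real (t'.region ∩ O)) t = volume.real (t.region ∩ O)
  gt_nonneg : ∀ (t : Tile) (x : ℂ), 0 ≤ t.gt x
  gt_lip : ∀ t : Tile, t.w ≠ 0 → ∀ x y : ℂ, |t.gt x - t.gt y| ≤ ‖x - y‖
  gt_centre : ∀ t : Tile, t.w ≠ 0 → t.gt (t.map oo) = 0
  mem_region : ∀ t : Tile, t.w ≠ 0 → ∀ x : ℂ, x ∈ t.region ↔ t.gt x ≤ rho * ‖t.w‖
  mem_interior : ∀ t : Tile, t.w ≠ 0 → ∀ x : ℂ, x ∈ interior t.region ↔ t.gt x < rho * ‖t.w‖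
  gt_area : ∀ t : Tile, t.w ≠ 0 → ∀ r : ℝ, 0 ≤ r → volume.real {x | t.gt x ≤ r} = (r / rho) ^ 2
  gt_area_fin : ∀ t : Tile, t.w ≠ 0 → ∀ r : ℝ, volume {x | t.gt x ≤ r} ≠ ⊤

/-- DES: descendants. -/
structure SpecDes : Prop where
  path : ∀ (n : ℕ) (t t' : Tile), t' ∈ desc n t ↔ Path Tile.child (fun _ => True) n t t'
  add : ∀ (n k : ℕ) (t : Tile), desc (n + k) t = ⋃ t' ∈ desc n t, desc k t'
  w : ∀ (n : ℕ) (t t' : Tile), t' ∈ desc n t → ‖t'.w‖ = ‖t.w‖ / √5 ^ n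
  sub : ∀ (n : ℕ) (t t' : Tile), t' ∈ desc n t → t'.region ⊆ t.region
  cover : ∀ (n : ℕ) (t : Tile), t.region = ⋃ t' ∈ desc n t, t'.region
  disj : ∀ (n : ℕ) (t t' t'' : Tile), t' ∈ desc n t → t'' ∈ desc n t → t' ≠ t'' →
    Disjoint (interior t'.region) (interior t''.region)
  fin : ∀ (n : ℕ) (t : Tile), (desc n t).Finite
  card : ∀ (n : ℕ) (t : Tile), t.w ≠ 0 → (desc n t).ncard = 5 ^ n
  sum : ∀ (n : ℕ) (t : Tile), t.w ≠ 0 → ∀ f : Tile → ℝ,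
    ∑ᶠ t' ∈ desc n t, f t' = (PP Tile.child)^[n] f t
  sum_area : ∀ (n : ℕ) (t : Tile), t.w ≠ 0 → ∀ O : Set ℂ, MeasurableSet O →
    (PP Tile.child)^[n] (fun t' => volume.real (t'.region ∩ O)) t = volume.real (t.region ∩ O)
  comp : ∀ (n : ℕ) (t : Tile), desc n t = t.comp '' desc n ⟨0, 1, true⟩

/-- PAIR: pairs of tiles. -/
structure SpecPair : Prop where
  child : ∀ s, Valid s → ∀ k, Valid (s.child k)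
  swap : ∀ s : St, Valid s → Valid ⟨s.Q, s.P, -s.j⟩
  norm : ∀ s, Valid s → ‖s.Q.w‖ = ‖s.P.w‖
  desc_valid : ∀ (n : ℕ) (s s' : St), Valid s → Desc St.child n s s' → Valid s'
  desc_mem : ∀ (n : ℕ) (s s' : St), Desc St.child n s s' → s'.P ∈ desc n s.P ∧ s'.Q ∈ desc n s.Q
  desc_of : ∀ (n : ℕ) (s : St) (t t' : Tile), t ∈ desc n s.P → t' ∈ desc n s.Q →
    ∃ j : ℤ, |j - s.j| ≤ n ∧ Desc St.child n s ⟨t, t', j⟩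
  desc_add : ∀ (n k : ℕ) (s s' s'' : St), Desc St.child n s s' → Desc St.child k s' s'' →
    Desc St.child (n + k) s s''
  mm_nonneg : ∀ s, 0 ≤ mm s
  mm_le : ∀ s, Valid s → mm s ≤ ‖s.P.w‖ ^ 2
  mm_sum : ∀ s, Valid s → PP St.child mm s = mm s
  sum_fst : ∀ (n : ℕ) (s : St), Valid s → ∀ f : Tile → ℝ,
    (PP St.child)^[n] (fun s => mm s * f s.P) s =
      (PP Tile.child)^[n] (fun t => volume.real (t.region ∩ s.Q.region) * f t) s.P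
  sum_snd : ∀ (n : ℕ) (s : St), Valid s → ∀ f : Tile → ℝ,
    (PP St.child)^[n] (fun s => mm s * f s.Q) s =
      (PP Tile.child)^[n] (fun t => volume.real (t.region ∩ s.P.region) * f t) s.Q

/-- LAYER: the boundary layer. -/
def SpecLayer : Prop :=
  ∀ P Q : Tile, P.w ≠ 0 → ‖Q.w‖ = ‖P.w‖ → ∀ i : ℕ,
    (PP Tile.child)^[i] (badArea Q) P ≤ 24 * th ^ i * ‖P.w‖ ^ 2

/-- COUNT: the number of overlapping pairs. -/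
def SpecCount : Prop :=
  ∃ C0 : ℝ, 1 ≤ C0 ∧ ∀ s, Valid s → ∀ t : ℕ,
    (PP St.child)^[t] ee s ≤ C0 * (mm s + th ^ t * ee s)

/-- CHIR: correlation of the chirality. -/
def SpecChir : Prop :=
  ∃ C1 : ℝ, 0 < C1 ∧ ∀ s, Valid s → Summable (fun r => XX r s) ∧
    ∀ Λ : ℝ, 1 ≤ Λ → |∑' r, XX r s| ≤ C1 * (mm s * (1 + Real.log Λ) + ee s / Λ)

/-- HYP: the pair process satisfies the standing hypotheses. -/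
def SpecHyp : Prop :=
  ∃ C0 C1 : ℝ, 1 ≤ C0 ∧ 0 < C1 ∧ ProcHyp St.child mm ee DD St.j Valid C0 C1

/-! ## Part I, the abstract drift argument -/

/-- BAD: few bad states. -/
def SpecBad : Prop :=
  ∀ C0 : ℝ, 1 ≤ C0 → ∃ C3 : ℝ, 1 ≤ C3 ∧
    ∀ (S ι : Type) [Fintype ι] (ch : S → ι → S) (m e D : S → ℝ) (j : S → ℤ) (V : S → Prop)
      (C1 : ℝ), ProcHyp ch m e D j V C0 C1 → ∀ (L : ℤ) (s : S), V s → ∀ n : ℕ,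
        VV ch (Unst j L) e n s ≤ C3 * C0 * VV ch (Unst j L) m n s + C3 * e s

/-- BLOCK: the expected time is bounded by the gain. -/
def SpecBlock : Prop :=
  ∀ (S ι : Type) [Fintype ι] (ch : S → ι → S) (m e D : S → ℝ) (j : S → ℤ) (V : S → Prop)
    (C0 C1 : ℝ), ProcHyp ch m e D j V C0 C1 →
    ∀ (a0 c B T : ℝ) (K : ℕ) (r : ℤ → ℕ) (L : ℤ) (ψ : ℝ → ℝ), 0 ≤ a0 → 0 < c → 1 ≤ K →
      ConvexOn ℝ Set.univ ψ →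
      (∀ i : ℤ, 0 < i → i < L → (tau r K i : ℝ) ≤ T ∧ Kink ψ (tau r K i) i B) →
      Act ch m e D j V a0 c B K r L →
      ∀ (n : ℕ) (s : S), V s → Unst j L s →
        VV ch (Unst j L) m n s ≤ (1 / c) * GG ch (Unst j L) m D ψ n s +
          (T / c + T) * (m s - (QQ ch (Unst j L))^[n] m s) + T * (QQ ch (Unst j L))^[n] m s +
          Bad ch (Unst j L) m e a0 n s

/-- UPPER: upper bound for the gain, and optional stopping. -/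
def SpecUpper : Prop :=
  ∀ (S ι : Type) [Fintype ι] (ch : S → ι → S) (m e D : S → ℝ) (j : S → ℤ) (V : S → Prop)
    (C0 C1 : ℝ), 1 ≤ C0 → 0 < C1 → ProcHyp ch m e D j V C0 C1 →
    ∀ (L : ℤ) (s : S), V s → Unst j L s → ∀ n : ℕ,
      (∀ (ψ : ℝ → ℝ) (M Λ : ℝ), ConvexOn ℝ Set.univ ψ → (∀ y, 0 ≤ ψ y) →
        (∀ y, 0 ≤ y → y ≤ L → ψ y ≤ M) → 0 ≤ Λ → (∀ y y', |ψ y - ψ y'| ≤ Λ * |y - y'|) →
        GG ch (Unst j L) m D ψ n s ≤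
          M * m s + Λ * C1 * (m s * (1 + Real.log (n + 1)) + C0 * (m s + 2 * e s))) ∧
      (L : ℝ) * (m s - (QQ ch (Unst j L))^[n] m s - Hit ch (Unst j L) m j n s) ≤
        D s + C1 * (m s * (1 + Real.log (n + 1)) + C0 * (m s + 2 * e s))

/-- PSI: the potential. -/
def SpecPsi : Prop :=
  ∀ (B CR : ℝ) (K : ℕ), ∃ (C : ℝ) (L0 : ℕ), ∀ (r : ℤ → ℕ) (L : ℕ), L0 ≤ L →
    (∑ i ∈ Finset.Icc (-(2 * L : ℤ)) (2 * L), (r i : ℝ)) ≤ CR * L →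
    ∃ (ψ : ℝ → ℝ) (M Λ T : ℝ), ConvexOn ℝ Set.univ ψ ∧ (∀ y, 0 ≤ ψ y) ∧
      (∀ y, 0 ≤ y → y ≤ L → ψ y ≤ M) ∧ (∀ y y', |ψ y - ψ y'| ≤ Λ * |y - y'|) ∧
      (∀ i : ℤ, 0 < i → i < L → (tau r K i : ℝ) ≤ T ∧ Kink ψ (tau r K i) i B) ∧
      0 ≤ M ∧ M ≤ C * L ^ 2 ∧ 0 ≤ Λ ∧ Λ ≤ C * L ∧ 0 ≤ T ∧ T ≤ C * L

/-- DRIFT: the hitting theorem (from BAD, BLOCK, UPPER, PSI). -/
def SpecDrift : Prop :=
  ∀ C0 C1 : ℝ, 1 ≤ C0 → 0 < C1 → ∃ a0 : ℝ, 0 < a0 ∧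
    ∀ (c B CR b : ℝ) (K : ℕ), 0 < c → 0 < b → 1 ≤ K → ∃ L0 C : ℕ,
      ∀ (S ι : Type) [Fintype ι] (ch : S → ι → S) (m e D : S → ℝ) (j : S → ℤ) (V : S → Prop),
        ProcHyp ch m e D j V C0 C1 → ∀ (r : ℤ → ℕ) (L : ℕ), L0 ≤ L →
        (∑ i ∈ Finset.Icc (-(2 * L : ℤ)) (2 * L), (r i : ℝ)) ≤ CR * L →
        Act ch m e D j V a0 c B K r L →
        ∀ s, V s → 0 < j s → 16 * j s ≤ L → b * e s ≤ m s → ∀ n : ℕ, C * L ^ 2 ≤ n →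
          m s / 2 ≤ Hit ch (Unst j L) m j n s

/-- GAIN: elementary facts on the functional `ZZ`. -/
def SpecGain : Prop :=
  ∀ (S ι : Type) [Fintype ι] (ch : S → ι → S) (m e D : S → ℝ) (j : S → ℤ) (V : S → Prop)
    (C0 C1 : ℝ), 1 ≤ C0 → 0 < C1 → ProcHyp ch m e D j V C0 C1 →
    ∀ (L : ℤ) (ψ : ℝ → ℝ) (w : ℝ), ConvexOn ℝ Set.univ ψ → 0 ≤ w →
      (∀ (k : ℕ) (s s' : S), V s → Desc ch k s s' →
        Path ch (Unst j L) k s s' ∨ w * m s' ≤ ZZ ch (Unst j L) m D ψ w k s) ∧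
      (∀ (k n : ℕ) (s s' : S), V s → Path ch (Unst j L) k s s' →
        ZZ ch (Unst j L) m D ψ w n s' ≤ ZZ ch (Unst j L) m D ψ w (k + n) s) ∧
      (∀ (n k : ℕ) (s : S), V s →
        ZZ ch (Unst j L) m D ψ w n s ≤ ZZ ch (Unst j L) m D ψ w (n + k) s) ∧
      (∀ (k : ℕ) (s s' : S) (j0 : ℤ) (B : ℝ), V s → Path ch (Unst j L) k s s' →
        0 < m s → 0 < m s' → Kink ψ w j0 B → |D s / m s - j0| ≤ B →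
        1 ≤ |D s' / m s' - D s / m s| → w * m s' ≤ ZZ ch (Unst j L) m D ψ w k s) ∧
      (∀ (n : ℕ) (s : S), V s →
        QQ ch (Unst j L) (ZZ ch (Unst j L) m D ψ w n) s ≤ ZZ ch (Unst j L) m D ψ w (n + 1) s)

/-! ## Part I, activity -/

/-- XSET -/
structure SpecXset : Prop where
  norm : ∀ x ∈ Xset, ‖x‖ ≤ (5 + √5) / 4
  split : ∀ x, x ∈ Xset ↔ ∃ y ∈ Xset, x = 1 + y / ϖ ∨ x = -1 + y / ϖ
  neg : ∀ x ∈ Xset, -x ∈ Xset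
  nonempty : Xset.Nonempty
  gap : ∃ g0 : ℝ, 0.38 ≤ g0 ∧ (∀ x ∈ Xset, ∀ y ∈ Xset, g0 ≤ ‖(1 + x / ϖ) - (-1 + y / ϖ)‖) ∧
    ∀ g : ℝ, g0 < g → ∀ A : Set ℂ, (∀ x ∈ Xset, x ∈ A → ∀ y ∈ Xset, ‖x - y‖ ≤ g → y ∈ A) →
      (∀ x ∈ Xset, x ∉ A) ∨ Xset ⊆ A
  diam : ∃ d0 : ℝ, 1 ≤ d0 ∧ (∀ x ∈ Xset, ∀ y ∈ Xset, ‖x - y‖ ≤ d0) ∧
    ∀ η : ℝ, 0 < η → ∃ x ∈ Xset, ∃ y ∈ Xset, d0 - η < ‖x - y‖

/-- RIG: rigidity of the Cantor set. -/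
def SpecRig : Prop :=
  ∀ (h : ℕ) (ε' : ℝ), 0 < ε' → ∃ ε : ℝ, 0 < ε ∧ ∀ κ κs ω ωs : ℂ, ω ≠ 0 → ‖ωs‖ = √5 ^ h * ‖ω‖ →
    (∀ x ∈ Kset κ ω, ∃ y ∈ Kset κs ωs, ‖x - y‖ ≤ ε * ‖ω‖) →
    ∃ σ : ℕ → ℂ, (∀ k, σ k = 1 ∨ σ k = -1) ∧
      ‖κ - (κs + ∑ k ∈ Finset.range h, σ k * ωs * (1 / ϖ) ^ k)‖ ≤ ε' * ‖ω‖ ∧
      (‖ω - ωs / ϖ ^ h‖ ≤ ε' * ‖ω‖ ∨ ‖ω + ωs / ϖ ^ h‖ ≤ ε' * ‖ω‖)

/-- KSET -/
structure SpecKset : Prop where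
  split : ∀ t : Tile, t.s = true → KK t = KK (t.child 4) ∪ KK (t.child 3)
  child_s : ∀ t : Tile, t.s = true → (t.child 4).s = true ∧ (t.child 3).s = true
  nonempty : ∀ t : Tile, (KK t).Nonempty
  kap_mem : ∀ t : Tile, kap t ∈ t.region
  ball : ∀ t : Tile, t.s = true → ∀ x ∈ KK t, Metric.closedBall x (0.12 * ‖t.w‖) ⊆ t.region
  diam : ∀ t : Tile, ∀ x ∈ KK t, ∀ y ∈ KK t, ‖x - y‖ ≤ 0.52 * ‖t.w‖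
  overlap : ∀ s, Valid s → Plus s → a1 * ‖s.P.w‖ ^ 2 ≤ mm s
  pick : ∀ t : Tile, t.s = true → ∀ x ∈ KK t, ∀ h : ℕ, ∃ t',
    Path Tile.child (fun t => t.s = true) h t t' ∧ t'.s = true ∧ x ∈ KK t' ∧ KK t' ⊆ KK t
  reach : ∀ t : Tile, t.s = true → ∀ σ : ℕ → ℂ, (∀ k, σ k = 1 ∨ σ k = -1) → ∀ h : ℕ, ∃ t',
    Path Tile.child (fun t => t.s = true) h t t' ∧ t'.s = true ∧
    kap t' = kap t + ∑ k ∈ Finset.range h, σ k * (tau0 * t.w) * (1 / ϖ) ^ k ∧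
    (t'.w = t.w / ϖ ^ h ∨ t'.w = -(t.w / ϖ ^ h))
  child4 : ∀ t : Tile, t.s = true → kap (t.child 4) = kap t + tau0 * t.w ∧
    (t.child 4).w = t.w / ϖ
  child3 : ∀ t : Tile, t.s = true → kap (t.child 3) = kap t - tau0 * t.w ∧
    (t.child 3).w = -(t.w / ϖ)

/-- STAGE -/
def SpecStage : Prop :=
  ∀ ℓ m1 : ℕ, ∃ K : ℕ, ∀ s, Valid s → Plus s →
    (∃ k ≤ K, ∃ s', Desc St.child k s s' ∧ Plus s' ∧ s'.j = s.j - m1) ∨ Stuck ℓ s ∨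
    (∃ i : ℕ, 1 ≤ i ∧ i < m1 ∧ ∃ k ≤ K, ∃ s', Desc St.child k s s' ∧ Plus s' ∧
      s'.j = s.j - i ∧ Stuck ℓ s')

/-- STUCK -/
def SpecStuck : Prop :=
  (∀ ε : ℝ, 0 < ε → ∃ ℓ : ℕ, ∀ s, Valid s → Plus s → Stuck ℓ s →
    ∃ k ≤ 4, ∃ s', Desc St.child k s s' ∧ s'.j = s.j ∧ NI ε s') ∧
  (∀ ε : ℝ, 0 < ε → ∃ ℓ : ℕ, ∀ s, Valid s → s.P.s = true → KK s.P ⊆ s.Q.region → Stuck ℓ s →
    s.Q.s = true ∧ ‖kap s.P - kap s.Q‖ ≤ ε * ‖s.P.w‖ ∧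
      (‖s.P.w - s.Q.w‖ ≤ ε * ‖s.P.w‖ ∨ ‖s.P.w + s.Q.w‖ ≤ ε * ‖s.P.w‖))

/-- ARA: `u^j` and the units. -/
structure SpecAra : Prop where
  norm : ‖uu‖ = 1
  pos : ∀ j : ℤ, j ≠ 0 → 0 < del j
  neg : ∀ j : ℤ, del (-j) = del j
  sub : ∀ a b : ℤ, del (a - b) ≤ del a + del b
  unit : ∀ (j : ℤ) (ε : ℂ), ε ^ 4 = 1 → del j ≤ ‖uu ^ j - ε‖
  rr : ∀ j : ℤ, j ≠ 0 → th ^ rr j ≤ del j

/-- ARB: infinitely many good scales. -/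
def SpecArb : Prop :=
  ∃ CR : ℝ, ∀ L0 : ℕ, ∃ L ≥ L0,
    (∑ i ∈ Finset.Icc (-(2 * L : ℤ)) (2 * L), (rr i : ℝ)) ≤ CR * L

/-- ROT -/
structure SpecRot : Prop where
  child : ∀ (lam x0 : ℂ) (s : St), Rot lam x0 s → ∀ i : Fin 5,
    Rot lam x0 (s.child (i, i)) ∧ (s.child (i, i)).j = s.j
  ofNI : ∀ (ε : ℝ) (s : St), Valid s → s.j ≠ 0 → NI ε s → ∃ lam x0, Rot lam x0 s ∧
    ∀ x ∈ s.P.region, ‖1 - lam‖ * ‖x - x0‖ ≤ 4 * ε * ‖s.P.w‖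
  del_le : ∀ (lam x0 : ℂ) (s : St), Valid s → Rot lam x0 s → del s.j ≤ ‖1 - lam‖
  mass : ∀ (lam x0 : ℂ) (s : St), Valid s → Rot lam x0 s →
    (∀ x ∈ s.P.region, ‖1 - lam‖ * ‖x - x0‖ ≤ 0.03 * ‖s.P.w‖) →
    ‖s.P.w‖ ^ 2 / 2 ≤ mm s ∧ (s.P.s = true → KK s.P ⊆ s.Q.region)

/-- CLC (Claim C) -/
def SpecClc : Prop :=
  ∀ m1 : ℕ, ∃ ε3 : ℝ, 0 < ε3 ∧ ε3 ≤ 1 / 200 ∧ ∃ K : ℕ, ∀ (s : St) (lam x0 : ℂ), Valid s →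
    Rot lam x0 s → s.P.s = true →
    (∀ x ∈ s.P.region, ‖1 - lam‖ * ‖x - x0‖ ≤ 5 * ε3 * ‖s.P.w‖) →
    (∃ x ∈ s.P.region, 0.4 * ε3 * ‖s.P.w‖ ≤ ‖1 - lam‖ * ‖x - x0‖) →
    ∃ k ≤ K, ∃ s', Desc St.child k s s' ∧ Plus s' ∧ s'.j = s.j - m1

/-- NPZ: nearly identical pairs are active after `rr j + K` steps. -/
def SpecNpz : Prop :=
  ∃ ε c B : ℝ, ∃ K : ℕ, 0 < ε ∧ 0 < c ∧ ∀ (L : ℤ) (ψ : ℝ → ℝ) (w : ℝ) (s : St),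
    ConvexOn ℝ Set.univ ψ → 0 ≤ w → Valid s → Unst St.j L s → Kink ψ w s.j B → NI ε s →
    c * w * ‖s.P.w‖ ^ 2 ≤ ZP L ψ w (rr s.j + K) s

/-- ACT: activity. -/
def SpecAct : Prop :=
  ∀ a0 : ℝ, 0 < a0 → ∃ c B : ℝ, ∃ K : ℕ, 0 < c ∧ 1 ≤ K ∧ ∀ L : ℤ,
    Act St.child mm ee DD St.j Valid a0 c B K rr L

/-- FIN0: gap zero. -/
def SpecFin : Prop :=
  ∀ s, Valid s → s.j = 0 → 0 < mm s → ∃ t, t ∈ desc 4 s.P ∧ t ∈ desc 4 s.Q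

/-- COAL: coalescence. -/
def SpecCoal : Prop :=
  ∃ C : ℕ, ∃ c : ℝ, 0 < c ∧ ∀ L0 : ℕ, ∃ L ≥ L0, ∀ k : ℕ, C * L ^ 2 ≤ k → ∀ s, Valid s →
    16 * |s.j| ≤ L → a1 * ‖s.P.w‖ ^ 2 ≤ mm s → c * ‖s.P.w‖ ^ 2 ≤ same k s

/-! ## Part II -/

/-- SAM: `same` counts common descendants. -/
def SpecSam : Prop :=
  ∀ (k : ℕ) (s : St), Valid s →
    same k s = ((desc k s.P ∩ desc k s.Q).ncard : ℝ) * (‖s.P.w‖ ^ 2 / 5 ^ k)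

/-- CHEB: index spread of the level-`m` parts of the supertile. -/
def SpecCheb : Prop :=
  ∀ h n m : ℕ, n + m = 2 * h →
    (3 / 4 : ℝ) * 5 ^ n ≤ ({P ∈ desc n (SS h) | ∃ (ε : ℂ) (α β : ℤ), ε ^ 4 = 1 ∧
      P.w = ε * ϖ ^ α * (starRingEnd ℂ) ϖ ^ β ∧ α + β = m ∧ (α - β) ^ 2 ≤ 4 * n}.ncard : ℝ)

/-- LAT: corners of the parts of the supertile. -/
def SpecLat : Prop :=
  ∀ (h n : ℕ), ∀ P ∈ desc n (SS h), ∃ z, IsG z ∧ P.c = P.w * z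

/-- COV: virtual tiles cover. -/
def SpecCov : Prop :=
  ∀ g : ℂ, g ≠ 0 → ∀ x : ℂ, ∃ z, IsG z ∧
    (x ∈ (⟨g * z, g, true⟩ : Tile).region ∨ x ∈ (⟨g * z, -g, true⟩ : Tile).region)

/-- PIG: one virtual family contains a positive fraction of the unit tiles. -/
def SpecPig : Prop :=
  ∃ c : ℝ, 0 < c ∧ ∀ m0 : ℕ, ∃ m ≥ m0, ∃ α β : ℕ, α + β = m ∧
    c * 5 ^ (14 * m) ≤ ((InV (14 * m) m (SS (7 * m)) (gab α β)).ncard : ℝ)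

/-- CLS: congruent pairs. -/
def SpecCls : Prop :=
  ∃ C : ℝ, 0 < C ∧ ∀ (N m : ℕ) (S : Tile) (g : ℂ), ‖S.w‖ = √5 ^ N → g ≠ 0 →
    ((InV N m S g).ncard : ℝ) ^ 2 ≤ C * 5 ^ m * ((CP (Vx N S) g).ncard : ℝ)

/-- MLOW: many congruent pairs (from PIG, CLS). -/
def SpecMlow : Prop :=
  ∃ c : ℝ, 0 < c ∧ ∀ m0 : ℕ, ∃ m ≥ m0, ∃ α β : ℕ, α + β = m ∧
    c * 5 ^ (27 * m) ≤ ((CP (Vx (14 * m) (SS (7 * m))) (gab α β)).ncard : ℝ)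

/-! ## Part III -/

/-- DEC: decay of the kernels. -/
def SpecDec : Prop :=
  ∀ a : ℝ, 0 < a → ∃ C : ℝ, 0 < C ∧ ∀ t : ℝ,
    Dec (KG (a - 2 * Real.pi * t * I)) (C * (1 + |t|) ^ 6) ∧
      Continuous (KG (a - 2 * Real.pi * t * I))

/-- POI: Poisson summation. -/
def SpecPoi : Prop :=
  ∀ z : ℂ, 0 < z.re → ∀ g : ℂ, g ≠ 0 → ∀ x : ℂ,
    Summable (fun n : ℤ × ℤ => KG z (x + g * G2 n)) ∧
    Summable (fun n : ℤ × ℤ => cexp (-z * ‖G2 n‖ ^ 2 / ‖g‖ ^ 2)) ∧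
    ∑' n : ℤ × ℤ, KG z (x + g * G2 n) = (1 / ‖g‖ ^ 2 : ℝ) * ∑' n : ℤ × ℤ,
      cexp (-z * ‖G2 n‖ ^ 2 / ‖g‖ ^ 2) *
        cexp (2 * Real.pi * (((starRingEnd ℂ) (G2 n) * x / g).re : ℝ) * I)

/-- ENE: the energy inequality. -/
def SpecEne : Prop :=
  ∀ (a : ℝ) (H W M : ℕ) (g g' : ℂ) (Λ : Set ℂ), 0 < a → 0 < H → 0 < W → 0 < M →
    ‖g‖ ^ 2 = M → IsG g → IsG g' → (2 * W : ℂ) = g * g' → Λ.Finite →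
    (Real.pi / a) * (M / (4 * W ^ 2)) * ((CP Λ g).ncard : ℝ) ≤
      (∑ s ∈ Finset.Ioo (-(H : ℤ)) H, (fej H s : ℂ) *
        PS (KPer (KG (a - 2 * Real.pi * (M * s : ℝ) * I)) (2 * W)) Λ).re

/-- ELOW: energy near the rings (from MLOW, ENE). -/
def SpecElow : Prop :=
  ∃ c : ℝ, 0 < c ∧ ∀ m0 : ℕ, ∃ m ≥ m0, ∀ (a : ℝ) (H : ℕ), 0 < a → 0 < H →
    c * (Real.pi / a) * 5 ^ (14 * m) ≤
      (∑ s ∈ Finset.Ioo (-(H : ℤ)) H, (fej H s : ℂ) *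
        PS (KPer (KG (a - 2 * Real.pi * (5 ^ m * s : ℝ) * I)) (2 * 5 ^ (7 * m)))
          (Vx (14 * m) (SS (7 * m)))).re

/-- PAC: packings by unit tiles. -/
def SpecPac : Prop :=
  ∃ C : ℝ, 0 < C ∧ ∀ 𝒰 : Set Tile, IsPack 𝒰 → ∀ (x : ℂ) (r : ℝ), 0 ≤ r →
    {t ∈ 𝒰 | (t.region ∩ Metric.closedBall x r).Nonempty}.Finite ∧
    ({t ∈ 𝒰 | (t.region ∩ Metric.closedBall x r).Nonempty}.ncard : ℝ) ≤ C * (1 + r) ^ 2 ∧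
    (vertexSet 𝒰 ∩ Metric.closedBall x r).Finite ∧
    ((vertexSet 𝒰 ∩ Metric.closedBall x r).ncard : ℝ) ≤ C * (1 + r) ^ 2

/-- BND: sums over packed points. -/
def SpecBnd : Prop :=
  ∀ C : ℝ, ∃ C' : ℝ, 0 < C' ∧ ∀ (ι : Type) (T : Finset ι) (f : ι → ℂ) (x : ℂ) (d : ℝ), 0 ≤ d →
    (∀ r : ℝ, 0 ≤ r → (({i ∈ (T : Set ι) | ‖f i - x‖ ≤ r}).ncard : ℝ) ≤ C * (1 + r) ^ 2) →
    (∀ i ∈ T, d ≤ ‖f i - x‖) → ∑ i ∈ T, 1 / (1 + ‖f i - x‖) ^ 6 ≤ C' / (1 + d) ^ 3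

/-- LCN: vertices near the boundary of a supertile. -/
def SpecLcn : Prop :=
  ∃ C : ℝ, 0 < C ∧ ∀ (N : ℕ) (S : Tile), ‖S.w‖ = √5 ^ N →
    (Vx N S).Finite ∧ (∀ x ∈ Vx N S, 0 ≤ dS S x) ∧
    (∀ r : ℝ, 0 ≤ r → (({x ∈ Vx N S | dS S x ≤ r}).ncard : ℝ) ≤ C * (1 + r) * √5 ^ N) ∧
    ∑ᶠ x ∈ Vx N S, 1 / (1 + dS S x) ^ 3 ≤ C * √5 ^ N

/-- PER: periodisation costs a boundary term. -/
def SpecPer : Prop :=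
  ∃ C : ℝ, 0 < C ∧ ∀ (h : ℕ) (K : ℂ → ℂ) (A : ℝ), 0 ≤ A → Dec K A →
    ‖PS (KPer K (2 * 5 ^ h)) (Vx (2 * h) (SS h)) - PS K (Vx (2 * h) (SS h))‖ ≤ C * A * 5 ^ h

/-- SUP: balls of the tiling are filled by supertiles. -/
def SpecSup : Prop :=
  ∀ 𝒯 : Set Tile, IsPinwheelTiling 𝒯 → ∀ N : ℕ, ∃ CN : ℝ, 1 ≤ CN ∧ ∀ R : ℝ, CN ≤ R →
    ∃ J : Finset Tile,
      (∀ S ∈ J, ‖S.w‖ = √5 ^ N ∧ desc N S ⊆ 𝒯 ∧ S.region ⊆ Metric.closedBall 0 R) ∧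
      (∀ S ∈ J, ∀ S' ∈ J, S ≠ S' → Disjoint (interior S.region) (interior S'.region)) ∧
      Metric.closedBall 0 (R - CN) ⊆ ⋃ S ∈ J, S.region

/-- CMP: comparison of the tiling with its supertiles. -/
def SpecCmp : Prop :=
  ∃ C : ℝ, 0 < C ∧ ∀ 𝒯 : Set Tile, IsPinwheelTiling 𝒯 → ∀ N : ℕ, ∃ CN : ℝ, 1 ≤ CN ∧
    ∀ R : ℝ, CN ≤ R → ∃ J : Finset Tile, (∀ S ∈ J, ‖S.w‖ = √5 ^ N) ∧
      (J.card : ℝ) * 5 ^ N ≤ Real.pi * R ^ 2 ∧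
      Real.pi * (R - CN) ^ 2 ≤ (J.card : ℝ) * 5 ^ N ∧
      ∀ (K : ℂ → ℂ) (A : ℝ), 0 ≤ A → Dec K A →
        ‖PS K (vertexSet 𝒯 ∩ Metric.closedBall 0 R) - ∑ S ∈ J, PS K (Vx N S)‖ ≤
          C * A * (J.card * √5 ^ N + CN * R)

/-- EXT: the vague limit for decaying kernels. -/
def SpecExt : Prop :=
  ∀ 𝒯 : Set Tile, IsPinwheelTiling 𝒯 → ∀ γ : Measure ℂ, IsAutocorrelation (vertexSet 𝒯) γ →
    ∀ (K : ℂ → ℂ) (A : ℝ), Continuous K → 0 ≤ A → Dec K A → Integrable K γ ∧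
      Tendsto (fun R : ℝ => ((Real.pi * R ^ 2)⁻¹ : ℝ) *
        PS K (vertexSet 𝒯 ∩ Metric.closedBall 0 R)) atTop (𝓝 (∫ x, K x ∂γ))

/-- LIM: radial kernels. -/
def SpecLim : Prop :=
  ∃ C : ℝ, 0 < C ∧ ∀ 𝒯 : Set Tile, IsPinwheelTiling 𝒯 → ∀ γ : Measure ℂ,
    IsAutocorrelation (vertexSet 𝒯) γ → ∀ (K : ℂ → ℂ) (A : ℝ), Continuous K → 0 ≤ A → Dec K A →
    (∀ x y : ℂ, ‖x‖ = ‖y‖ → K x = K y) → ∀ (N : ℕ) (S : Tile), ‖S.w‖ = √5 ^ N →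
      ‖∫ x, K x ∂γ - (1 / 5 ^ N : ℝ) * PS K (Vx N S)‖ ≤ C * A / √5 ^ N

/-- TV: asymptotic invariance of the orientations under `u`. -/
def SpecTv : Prop :=
  ∃ η : ℕ → ℝ, Tendsto η atTop (𝓝 0) ∧ ∀ (Γ : ℂ → Bool → ℝ) (M : ℝ), (∀ w s, |Γ w s| ≤ M) →
    ∀ (k : ℕ) (t : Tile),
      |(PP Tile.child)^[k] (fun t => Γ t.w t.s - Γ (uu * t.w) t.s) t| ≤ η k * 5 ^ k * M

/-- RIN: the autocorrelation is invariant under the rotation by `u`. -/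
def SpecRin : Prop :=
  ∀ 𝒯 : Set Tile, IsPinwheelTiling 𝒯 → ∀ γ : Measure ℂ, IsAutocorrelation (vertexSet 𝒯) γ →
    γ.map (fun x => uu * x) = γ

/-- NAT: no atoms outside the origin. -/
def SpecNat : Prop :=
  ∀ 𝒯 : Set Tile, IsPinwheelTiling 𝒯 → ∀ γ μ : Measure ℂ, IsAutocorrelation (vertexSet 𝒯) γ →
    IsFourierTransform γ μ → ∀ k : ℂ, k ≠ 0 → μ {k} = 0

/-- GAU: Gaussians are Schwartz functions. -/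
def SpecGau : Prop :=
  ∀ z : ℂ, 0 < z.re → ∃ φ : 𝓢(ℂ, ℂ), (∀ k, φ k = cexp (-z * ‖k‖ ^ 2)) ∧
    ∀ x, 𝓕 (φ : ℂ → ℂ) x = KG z x

/-- RLE: Riemann–Lebesgue for the phase `‖k‖²`. -/
def SpecRle : Prop :=
  ∀ ν : Measure ℂ, IsFiniteMeasure ν → ν ≪ volume →
    Tendsto (fun t : ℝ => ∫ k, cexp (2 * Real.pi * (t * ‖k‖ ^ 2 : ℝ) * I) ∂ν)
      (cocompact ℝ) (𝓝 0)

/-- FINAL (from ELOW, PER, DEC, LIM, EXT, NAT, GAU, RLE). -/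
def SpecFinal : Prop := FinalStatement

end

end Pool.Agent.Lib.MPd437ed
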