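import Mathlib

/-!
# The pinwheel tiling and its diffraction: the definitions used by the final statement

The plane is `ℂ`.  A *tile* is a triangle similar to the triangle `proto` with the corners
`0, 2, i`; it is given by the similarity `z ↦ c + w z` (`s = true`) or `z ↦ c + w z̄`
(`s = false`) which maps `proto` onto it, so its region is congruent to `proto` exactly
when `‖w‖ = 1`.  The pinwheel dissection (Radin) cuts `(2 + i) · proto`, which is `proto`
inflated by `√5` and rotated, into the five triangles `off i + fac i · proto` (`pos i = true`)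
or `off i + fac i · proto̅` (`pos i = false`), `i = 0, …, 4`, all congruent to `proto`.
-/

namespace Pool.Agent.Lib.MPd437ed

open MeasureTheory Filter Topology Complex
open scoped FourierTransform SchwartzMap

noncomputable section

/-- The complex number `2 + i`; multiplication by it is an inflation by `√5`
(and a rotation). -/
def ϖ : ℂ := 2 + I

/-- `z` itself (`s = true`) or the complex conjugate of `z` (`s = false`). -/
def tw (s : Bool) (z : ℂ) : ℂ := if s then z else (starRingEnd ℂ) z

/-- The right triangle with the corners `0`, `2`, `i`, with legs of length `1` and `2`. -/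
def proto : Set ℂ := {z | 0 ≤ z.re ∧ 0 ≤ z.im ∧ z.re + 2 * z.im ≤ 2}

/-- A triangle similar to `proto`, given by the similarity `Tile.map` from `proto` onto it.
(The triangle has no symmetry, so region and similarity determine each other for `w ≠ 0`.) -/
@[ext] structure Tile where
  /-- the corner with the right angle -/
  c : ℂ
  /-- the complex factor -/
  w : ℂ
  /-- `true`: orientation preserving, `false`: orientation reversing -/
  s : Bool

namespace Tile

/-- The similarity `z ↦ c + w z` or `z ↦ c + w z̄`. -/
def map (t : Tile) (z : ℂ) : ℂ := t.c + t.w * tw t.s z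

/-- The closed triangle. -/
def region (t : Tile) : Set ℂ := t.map '' proto

/-- The three corners. -/
def verts (t : Tile) : Set ℂ := {t.map 0, t.map 2, t.map I}

end Tile

/-- Positions of the five parts of `(2 + i) · proto`. -/
def off : Fin 5 → ℂ := ![2 * I, 2 + 2 * I, I, 2 + 2 * I, I]

/-- Unit factors of the five parts of `(2 + i) · proto`. -/
def fac : Fin 5 → ℂ := ![-I, 1, 1, -1, 1]

/-- Orientations of the five parts of `(2 + i) · proto`. -/
def pos : Fin 5 → Bool := ![false, false, false, true, true]

/-- The `i`-th part in the pinwheel dissection of a tile. -/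
def Tile.child (t : Tile) (i : Fin 5) : Tile :=
  ⟨t.map (off i / ϖ), t.w * tw t.s (fac i / ϖ), t.s == pos i⟩

/-- The parts of a tile after `n` dissections; if `‖t.w‖ = √5 ^ n` this is (up to an isometry)
the `n`-th iterate of the substitution applied to `proto`. -/
def desc : ℕ → Tile → Set Tile
  | 0, t => {t}
  | n + 1, t => ⋃ i, desc n (t.child i)

/-- Pinwheel tilings: tilings of the plane by congruent copies of `proto` such that every
finite patch is congruent to a patch occurring in some iterate of the substitution. -/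
structure IsPinwheelTiling (𝒯 : Set Tile) : Prop where
  congruent : ∀ t ∈ 𝒯, ‖t.w‖ = 1
  covers : ⋃ t ∈ 𝒯, t.region = Set.univ
  disjoint : ∀ t ∈ 𝒯, ∀ t' ∈ 𝒯, t ≠ t' → Disjoint (interior t.region) (interior t'.region)
  patch : ∀ F : Set Tile, F ⊆ 𝒯 → F.Finite → ∃ (n : ℕ) (S : Tile), ‖S.w‖ = √5 ^ n ∧ F ⊆ desc n S

/-- The set of all corners of the tiles. -/
def vertexSet (𝒯 : Set Tile) : Set ℂ := ⋃ t ∈ 𝒯, t.verts

/-- `γ` is the autocorrelation of `Λ`: the vague limit of
`(π R²)⁻¹ ∑_{x, y ∈ Λ, |x| ≤ R, |y| ≤ R} δ_{x - y}`. -/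
def IsAutocorrelation (Λ : Set ℂ) (γ : Measure ℂ) : Prop :=
  IsFiniteMeasureOnCompacts γ ∧
  ∀ f : ℂ → ℝ, Continuous f → HasCompactSupport f →
    Tendsto (fun R : ℝ => (Real.pi * R ^ 2)⁻¹ *
      ∑ᶠ p ∈ (Λ ∩ Metric.closedBall 0 R) ×ˢ (Λ ∩ Metric.closedBall 0 R), f (p.1 - p.2))
      atTop (𝓝 (∫ x, f x ∂γ))

/-- `μ` is the Fourier transform of `γ`: `∫ φ̂ dγ = ∫ φ dμ` for all Schwartz functions. -/
def IsFourierTransform (γ μ : Measure ℂ) : Prop :=
  IsFiniteMeasureOnCompacts μ ∧
  ∀ φ : 𝓢(ℂ, ℂ), Integrable (𝓕 (φ : ℂ → ℂ)) γ ∧ Integrable (φ : ℂ → ℂ) μ ∧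
    ∫ x, 𝓕 (φ : ℂ → ℂ) x ∂γ = ∫ k, φ k ∂μ

/-- The singular continuous part of `μ` with respect to Lebesgue measure: the restriction of
the singular part to the complement of the atoms of `μ`. -/
def scPart (μ : Measure ℂ) : Measure ℂ :=
  (μ.singularPart volume).restrict {k | μ {k} = 0}

/-- Final statement: the diffraction measure of the vertex set of every pinwheel tiling has a
nonzero singular continuous part. -/
def FinalStatement : Prop :=
  ∀ 𝒯 : Set Tile, IsPinwheelTiling 𝒯 →
    ∀ γ μ : Measure ℂ, IsAutocorrelation (vertexSet 𝒯) γ → IsFourierTransform γ μ →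
      scPart μ ≠ 0

end

end Pool.Agent.Lib.MPd437ed
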